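import Pool.Agent.Helper10.TOP.PR

/-!
# The cell with the cut error of every monomial
-/

set_option autoImplicit false

namespace Helper10.PC
open Pool.Agent.Helper6.TOP

/-- polynomial with integer leaves and errors -/
structure PW where
  t : T ℤ
  E : T ℕ
  e : ℕ
  b : ℕ

/-- value of the error polynomial -/
noncomputable def evE (E : T ℕ) (r : ℕ → ℕ) : ℕ := nrm (fun n : ℕ => n) E r

/-- `P` represents `F`, error `e + E(r)` for `|p i| ≤ r i ≤ R` -/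
def RepW (w g : ℕ) (s t : ℝ) (R : ℕ) (P : PW) (F : (ℕ → ℝ) → ℝ) : Prop :=
  ∃ S : T (ℕ → ℤ), mapT (Lp ((2 : ℤ) ^ w) (g * g)) S = P.t ∧
    nrm (nmv (g * g)) S (fun _ => R) ≤ P.b ∧
    ∀ (p : ℕ → ℝ) (r : ℕ → ℕ), (∀ i, r i ≤ R) → (∀ i, |p i| ≤ (r i : ℝ)) →
      |F p - evT (ph (g * g) (mo2 g s t)) S p| ≤ ((P.e + evE P.E r : ℕ) : ℝ)

/-- **restriction to a point**: an ordinary representation with the error of the box -/
theorem RepW.point {w g : ℕ} {s t : ℝ} {R : ℕ} {P : PW} {F : (ℕ → ℝ) → ℝ}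
    (h : RepW w g s t R P F) {x : ℕ → ℝ} {r : ℕ → ℕ} (hr : ∀ i, r i ≤ R)
    (hx : ∀ i, |x i| ≤ (r i : ℝ)) :
    ∃ F' : (ℕ → ℝ) → ℝ, F' x = F x ∧ RepZ w g s t R ⟨P.t, P.e + evE P.E r, P.b⟩ F' := by
  classical
  obtain ⟨S, h1, h2, h3⟩ := h
  refine ⟨fun p => if p = x then F x else evT (ph (g * g) (mo2 g s t)) S p, by simp,
    S, h1, h2, fun p _ => ?_⟩
  by_cases hp : p = x
  · simp only [hp, if_true]
    exact h3 x r hr hx
  · simp only [if_neg hp, sub_self, abs_zero]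
    exact Nat.cast_nonneg _

noncomputable def finW (r : Rn) (k : Mk) (R : ℕ) (P : PN) : PW :=
  PN.rec (motive := fun _ => PW) (fun p e _ =>
    ⟨mapF (rnZ r) p, mapF (rnE r) p, Nat.succ (Nat.div e r.Q),
      errF (fun z => dmask k false (rnA r z)) R p⟩) P

theorem finW_rep {H q h g1 g2 : ℕ} {r : Rn} (hr : r = mkRn H q h g1 g2) {k : Mk}
    (hk : k = mkH h (List.replicate (g2 * g2) false)) (hq : q ≤ H)
    (hh : H = h + q) (h2 : 0 < g2) (hg : g2 ≤ g1) {s t : ℝ} (hs : |s| ≤ 1)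
    (ht : |t| ≤ 1) {R : ℕ} (hR : 1 ≤ R) {P : PN} {F : (ℕ → ℝ) → ℝ}
    (hb : P.b + g2 * g2 * 2 ^ q < 2 ^ H)
    (hP : RepM (2 ^ (H + 1)) (g1 * g1) ((2 ^ (H + 1)) ^ (g1 * g1)) (mo2 g1 s t) R P F) :
    RepW (h + 1) g2 s t R (finW r k R P) (fun p => F p / 2 ^ q) := by
  subst hr
  subst hk
  obtain ⟨S, h1, h3, h4⟩ := hP
  obtain ⟨p, e, b⟩ := P
  simp only at h1 h3 h4 hb
  have hQp : 0 < 2 ^ q := Nat.two_pow_pos _
  have hQr : (0 : ℝ) < 2 ^ q := by positivity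
  have hHq : H - q = h := by omega
  have hXp : 0 < 2 ^ (H + 1) := Nat.two_pow_pos _
  have hSb : nrm (nmv (g1 * g1)) S (fun _ => R) + g2 * g2 * 2 ^ q < 2 ^ H := by omega
  set es := List.replicate (g2 * g2) false with hes
  have hlen : es.length = g2 * g2 := by simp [hes]
  set f : ℕ → ℕ := fun y => asmR (2 ^ (H + 1)) (2 ^ (h + 1)) (2 ^ q) g2 ((2 ^ (H + 1)) ^ g1)
    ((2 ^ (H + 1)) ^ g2) ((2 ^ (h + 1)) ^ g2) g2 y with hf
  have hfv : ∀ d : ℕ → ℕ, (∀ i, d i < 2 ^ (H + 1)) → f (vd (2 ^ (H + 1)) (g1 * g1) d)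
      = vd (2 ^ (h + 1)) (g2 * g2) (fun i => d (ix g1 g2 i) / 2 ^ q) := fun d hd =>
    asmR_vd hXp h2 hg g2 g1 d hg hd
  have hsplit : 2 ^ H = 2 ^ h * 2 ^ q := by rw [← pow_add, hh]
  have main : ∀ S : T (ℕ → ℤ), nrm (nmv (g1 * g1)) S (fun _ => R) + g2 * g2 * 2 ^ q < 2 ^ H →
      ∃ S' : T (ℕ → ℤ), mapT (Lp ((2 : ℤ) ^ (h + 1)) (g2 * g2)) S'
        = mapF (rnZ (mkRn H q h g1 g2)) (mapT (gN (2 ^ (H + 1)) (g1 * g1)
          ((2 ^ (H + 1)) ^ (g1 * g1))) S) ∧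
      nrm (nmv (g2 * g2)) S' (fun _ => R)
        ≤ errF (fun z => dmask (mkH h es) false (rnA (mkRn H q h g1 g2) z)) R
          (mapT (gN (2 ^ (H + 1)) (g1 * g1) ((2 ^ (H + 1)) ^ (g1 * g1))) S) ∧
      ∀ (x : ℕ → ℝ) (rr : ℕ → ℕ), (∀ i, |x i| ≤ (rr i : ℝ)) →
        |evT (ph (g1 * g1) (mo2 g1 s t)) S x / 2 ^ q
          - evT (ph (g2 * g2) (mo2 g2 s t)) S' x|
        ≤ (evE (mapF (rnE (mkRn H q h g1 g2)) (mapT (gN (2 ^ (H + 1)) (g1 * g1)
          ((2 ^ (H + 1)) ^ (g1 * g1))) S)) rr : ℝ) := by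
    intro S
    induction S with
    | c v =>
      intro hn
      have hn0 : nmv (g1 * g1) v + g2 * g2 * 2 ^ q < 2 ^ H := hn
      have hn1 : nmv (g1 * g1) v < 2 ^ H := by omega
      obtain ⟨v', d', k1, k4, k5, k2, k3⟩ := rcoreF hq (by omega) h2 hg hs ht v hn1 hfv
      rw [hHq] at k5
      have hA : rnA (mkRn H q h g1 g2) (gN (2 ^ (H + 1)) (g1 * g1)
        ((2 ^ (H + 1)) ^ (g1 * g1)) v) = vd (2 ^ (h + 1)) (g2 * g2) d' := k1
      have hnew := Lp_vd (X := 2 ^ (h + 1)) (B := 2 ^ h) (g2 * g2) v' d' (fun i _ => k5 i)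
      have hnv' : nmv (g2 * g2) v' < 2 ^ h := by
        have c1 : nmv (g2 * g2) v' * 2 ^ q < 2 ^ h * 2 ^ q := by
          rw [← hsplit]
          omega
        exact lt_of_mul_lt_mul_right c1 (Nat.zero_le _)
      refine ⟨T.c v', ?_, ?_, fun x rr _ => k2⟩
      · show T.c _ = T.c _
        congr 1
        show _ = ((rnA (mkRn H q h g1 g2) (gN (2 ^ (H + 1)) (g1 * g1)
          ((2 ^ (H + 1)) ^ (g1 * g1)) v) : ℕ) : ℤ)
          - ((biasN (2 ^ (h + 1)) (2 ^ (H - q)) (g2 * g2) : ℕ) : ℤ)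
        rw [hA, hHq, hnew]
        push_cast
        ring
      · show nmv (g2 * g2) v' ≤ dmask (mkH h es) false (rnA (mkRn H q h g1 g2)
          (gN (2 ^ (H + 1)) (g1 * g1) ((2 ^ (H + 1)) ^ (g1 * g1)) v))
        rw [hA]
        have c2 : sd (g2 * g2) (fun i => (d' i - 2 ^ h) + (2 ^ h - d' i))
            ≤ nmv (g2 * g2) v' := by
          rw [nmv_sd]
          refine sd_le _ _ _ (fun i _ => ?_)
          have := k5 i
          omega
        have key := dsum_le_dmask (h := h) (f := false) es d' k4 (by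
          rw [hlen]
          omega)
        rw [dsum_vd es d' k4, hlen] at key
        refine le_trans ?_ key
        rw [nmv_sd]
        refine sd_le _ _ _ (fun i _ => ?_)
        have h5 := k5 i
        show (v' i).natAbs ≤ (d' i - 2 ^ h) + (2 ^ h - d' i)
        omega
    | h a b iha ihb =>
      intro hn
      have hn' : nrm (nmv (g1 * g1)) a (fun _ => R) + R * nrm (nmv (g1 * g1)) b (fun _ => R)
        + g2 * g2 * 2 ^ q < 2 ^ H := hn
      have hbb : nrm (nmv (g1 * g1)) b (fun _ => R) ≤ R * nrm (nmv (g1 * g1)) b (fun _ => R) :=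
        Nat.le_mul_of_pos_left _ hR
      obtain ⟨Sa, a1, a2, a3⟩ := iha (by omega)
      obtain ⟨Sb, b1, b2, b3⟩ := ihb (by omega)
      refine ⟨T.h Sa Sb, ?_, ?_, fun x rr hx => ?_⟩
      · show T.h _ _ = T.h _ _
        rw [a1, b1]
        rfl
      · exact Nat.add_le_add a2 (Nat.mul_le_mul_left _ b2)
      · have c1 := a3 (fun i => x (i + 1)) (fun i => rr (i + 1)) (fun i => hx _)
        have c2 := b3 x rr hx
        show |(evT _ a (fun i => x (i + 1)) + x 0 * evT _ b x) / 2 ^ q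
          - (evT _ Sa (fun i => x (i + 1)) + x 0 * evT _ Sb x)| ≤ ((_ + rr 0 * _ : ℕ) : ℝ)
        push_cast
        have c3 : |x 0 * (evT (ph (g1 * g1) (mo2 g1 s t)) b x / 2 ^ q
            - evT (ph (g2 * g2) (mo2 g2 s t)) Sb x)|
            ≤ (rr 0 : ℝ) * (evE (mapF (rnE (mkRn H q h g1 g2)) (mapT (gN (2 ^ (H + 1)) (g1 * g1)
          ((2 ^ (H + 1)) ^ (g1 * g1))) b)) rr : ℝ) := by
          rw [abs_mul]
          exact mul_le_mul (hx 0) c2 (abs_nonneg _) (Nat.cast_nonneg _)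
        have c4 := (abs_add_le _ _).trans (add_le_add c1 c3)
        refine le_trans (le_of_eq ?_) c4
        congr 1
        ring
  obtain ⟨S', m1, m2, m3⟩ := main S hSb
  refine ⟨S', ?_, ?_, fun x rr hrr hx => ?_⟩
  · show _ = mapF (rnZ (mkRn H q h g1 g2)) p
    rw [m1, h1]
  · show _ ≤ errF (fun z => dmask (mkH h es) false (rnA (mkRn H q h g1 g2) z)) R p
    rw [← h1]
    exact m2
  · show |F x / 2 ^ q - _| ≤ (((e / 2 ^ q).succ + evE (mapF (rnE (mkRn H q h g1 g2)) p) rr : ℕ) : ℝ)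
    rw [← h1]
    push_cast
    have hxR : ∀ i, |x i| ≤ (R : ℝ) := fun i => (hx i).trans (by exact_mod_cast hrr i)
    have c1 := h4 x hxR
    have c2 := m3 x rr hx
    have c3 : (e : ℝ) / 2 ^ q ≤ ((e / 2 ^ q : ℕ) : ℝ) + 1 := by
      rw [div_le_iff₀ hQr]
      have := Nat.lt_mul_div_succ e hQp
      have h5 : e ≤ (e / 2 ^ q + 1) * 2 ^ q := by
        rw [Nat.mul_comm]
        exact this.le
      exact_mod_cast h5
    have c4 : |F x / 2 ^ q - evT (ph (g1 * g1) (mo2 g1 s t)) S x / 2 ^ q|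
        ≤ ((e / 2 ^ q : ℕ) : ℝ) + 1 := by
      rw [← sub_div, abs_div, abs_of_pos hQr]
      exact (div_le_div_of_nonneg_right c1 hQr.le).trans c3
    calc _ = |(F x / 2 ^ q - evT (ph (g1 * g1) (mo2 g1 s t)) S x / 2 ^ q)
          + (evT (ph (g1 * g1) (mo2 g1 s t)) S x / 2 ^ q
            - evT (ph (g2 * g2) (mo2 g2 s t)) S' x)| := by
          congr 1
          ring
      _ ≤ _ := (abs_add_le _ _).trans (add_le_add c4 c2)

/-! ### fast value of the error polynomial -/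

noncomputable def k0E (t : T ℕ) : ℕ :=
  T.rec (motive := fun _ => ℕ) (fun z => z) (fun _ _ iha _ => iha) t

noncomputable def k1E (f : T ℕ → ℕ) (r : ℕ) (t : T ℕ) : ℕ :=
  T.rec (motive := fun _ => ℕ) (fun z => z) (fun a _ _ ihb => Nat.add (f a) (Nat.mul r ihb)) t

noncomputable def evE3 (r0 r1 r2 : ℕ) (t : T ℕ) : ℕ := k1E (k1E (k1E k0E r2) r1) r0 t

/-- the three radii -/
def rx (r0 r1 r2 : ℕ) : ℕ → ℕ
  | 0 => r0
  | 1 => r1
  | 2 => r2
  | _ + 3 => 0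

theorem k0E_eq : ∀ t : T ℕ, k0E t = evE t (fun _ => 0)
  | T.c z => rfl
  | T.h a b => by
    show k0E a = evE a (fun _ => 0) + 0 * evE b (fun _ => 0)
    rw [k0E_eq a, zero_mul, add_zero]

theorem k1E_eq {f : T ℕ → ℕ} {r : ℕ → ℕ} (hf : ∀ a, f a = evE a (fun i => r (i + 1))) :
    ∀ t : T ℕ, k1E f (r 0) t = evE t r
  | T.c z => rfl
  | T.h a b => by
    show f a + r 0 * k1E f (r 0) b = evE a (fun i => r (i + 1)) + r 0 * evE b r
    rw [hf a, k1E_eq hf b]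

theorem evE3_eq (r0 r1 r2 : ℕ) (t : T ℕ) : evE3 r0 r1 r2 t = evE t (rx r0 r1 r2) := by
  unfold evE3
  refine k1E_eq (r := rx r0 r1 r2) (fun a => ?_) t
  refine k1E_eq (r := fun i => rx r0 r1 r2 (i + 1)) (fun a => ?_) a
  refine k1E_eq (r := fun i => rx r0 r1 r2 (i + 1 + 1)) (fun a => ?_) a
  rw [k0E_eq]
  rfl

/-! ### the cell -/

/-- result -/
noncomputable def qFinW (P : UQ) (D : PN) : PW := finW P.f P.k P.R D

/-- **the polynomial of the cell represents `(4 ^ ν D) ^ K Q / 2 ^ q / 2 ^ sh`** -/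
theorem qFinW_rep {P : UQ} (hP : P.Good) {c : UC} {AL : List Al} (hA : degOK P.K AL = true)
    (hB : ltAll P.r.c.B (qEx P c AL) = true) {CL : List (T ℤ)} {NL : List ℕ}
    (hN : nlOK P.R CL NL = true)
    (hb : qBd P (qDot P (qRn P (qEx P c AL)) CL NL) = true)
    {a b s t : ℝ} (ha : a * 2 ^ (c.qa + 1) = 2 * c.i + 1 + s)
    (hb' : b * 2 ^ (c.qb + 1) = 2 * c.j + 1 + t) (hs : |s| ≤ 1) (ht : |t| ≤ 1) :
    RepW (P.hf + 1) P.g2 s t P.R (qFinW P (qDot P (qRn P (qEx P c AL)) CL NL))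
      (fun p => (4 ^ nuC c * Pool.Agent.Helper6.TOP.chD a b) ^ P.K
        * valZ AL CL (ch0 a b) (ch1 a b) (ch2 a b) p / 2 ^ P.q / 2 ^ P.sh) := by
  obtain ⟨H0, q, sh, hf, g0, g1, g2, K, R, r, f, k⟩ := P
  obtain ⟨hr, hf', hk, q0, s0, hg2, g21, g10, hK, hR⟩ := hP
  simp only at hr hf' hk q0 s0 hg2 g21 g10 hK hR hA hB hN hb ⊢
  have hB' : ltAll (2 ^ H0) (uTab (H0 + 1) g0 K c AL) = true := by
    have : r.c.B = 2 ^ H0 := by rw [hr]; rfl
    rw [← this]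
    exact hB
  have hM1 : r.M' = (2 ^ (H0 + 1)) ^ (g1 * g1) := by rw [hr]; rfl
  have hBf : f.c.B = 2 ^ H0 := by rw [hf']; rfl
  have hQf : f.Q = 2 ^ sh := by rw [hf']; rfl
  have hb1 : (dotQ ((2 ^ (H0 + 1)) ^ (g1 * g1)) (rndFL r (uTab (H0 + 1) g0 K c AL)) CL NL).b
      + g2 * g2 * 2 ^ sh < 2 ^ H0 := by
    have := Nat.le_of_ble_eq_true hb
    rw [← hM1, ← hBf, ← hQf]
    exact this
  have hMp : 0 < (2 ^ (H0 + 1)) ^ (g1 * g1) := Nat.pow_pos (Nat.two_pow_pos _)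
  have hg1 : 0 < g1 := lt_of_lt_of_le hg2 g21
  have hqa : c.qa + 1 ≤ nuC c := by
    unfold nuC
    cases hh : Nat.ble c.qa c.qb
    · exact Nat.succ_le_succ le_rfl
    · exact Nat.succ_le_succ (Nat.le_of_ble_eq_true hh)
  have hqb : c.qb + 1 ≤ nuC c := by
    unfold nuC
    cases hh : Nat.ble c.qa c.qb
    · have : ¬ c.qa ≤ c.qb := fun h => by
        have := Nat.ble_eq_true_of_le h
        rw [hh] at this
        exact Bool.false_ne_true this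
      show c.qb + 1 ≤ c.qa + 1
      omega
    · exact Nat.succ_le_succ le_rfl
  set y : Fin 5 → ℝ := ![s, t, 0, 0, 0] with hy
  have hT : (((Int.ofNat (Nat.pow 2 (nuC c))) : ℤ) : ℝ) = (2 : ℝ) ^ nuC c := by
    show (((2 ^ nuC c : ℕ) : ℤ) : ℝ) = _
    push_cast
    ring
  have hRPN := tabE_sound (w := H0 + 1) (g := g0) (y := y) (K := K)
    (T := Int.ofNat (Nat.pow 2 (nuC c))) (A := ctr (nuC c) c.qa c.i) (B := hw (nuC c) c.qa)
    (A' := ctr (nuC c) c.qb c.j) (B' := hw (nuC c) c.qb) hA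
  have hy0 : y 0 = s := rfl
  have hy1 : y 1 = t := rfl
  rw [hy0, hy1, ctr_hw hqa ha, ctr_hw hqb hb', hT] at hRPN
  have hEx := exL_of hK AL _ hRPN
  rw [hy0, hy1] at hEx
  have hAp := rndFL_sound hr q0 hg1 g10 hs ht _ _ hB' hEx
  have hdot := dotQ_rep (R := R) hMp _ _ CL NL hAp hN
  have hfin := finW_rep hf' hk (by omega) s0 hg2 g21 hs ht hR
    (P := dotQ ((2 ^ (H0 + 1)) ^ (g1 * g1)) (rndFL r (uTab (H0 + 1) g0 K c AL)) CL NL) hb1 hdot
  have key : ∀ p : ℕ → ℝ, valL (List.map (fun u => u / 2 ^ q)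
      (usOf K (((2 : ℝ) ^ nuC c) ^ 2 - ((2 : ℝ) ^ nuC c * a) ^ 2 - ((2 : ℝ) ^ nuC c * b) ^ 2)
        (2 * (2 : ℝ) ^ nuC c * ((2 : ℝ) ^ nuC c * a)) (2 * (2 : ℝ) ^ nuC c * ((2 : ℝ) ^ nuC c * b))
        (((2 : ℝ) ^ nuC c) ^ 2 + ((2 : ℝ) ^ nuC c * a) ^ 2
        + ((2 : ℝ) ^ nuC c * b) ^ 2) AL)) CL p
      = (4 ^ nuC c * Pool.Agent.Helper6.TOP.chD a b) ^ K
        * valZ AL CL (ch0 a b) (ch1 a b) (ch2 a b) p / 2 ^ q := by
    intro p
    rw [valL_div, valL_us]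
    have hD : (0 : ℝ) < Pool.Agent.Helper6.TOP.chD a b := Pool.Agent.Helper6.TOP.chD_pos a b
    have hD' : Pool.Agent.Helper6.TOP.chD a b ≠ 0 := hD.ne'
    have e4 : ((2 : ℝ) ^ nuC c) ^ 2 = 4 ^ nuC c := by
      rw [← pow_mul, Nat.mul_comm, pow_mul]
      norm_num
    have eD : ((2 : ℝ) ^ nuC c) ^ 2 + ((2 : ℝ) ^ nuC c * a) ^ 2 + ((2 : ℝ) ^ nuC c * b) ^ 2
        = 4 ^ nuC c * Pool.Agent.Helper6.TOP.chD a b := by
      rw [← e4]
      unfold Pool.Agent.Helper6.TOP.chD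
      ring
    rw [eD]
    congr 1
    refine valD_eq ?_ ?_ ?_ AL CL p hA
    · rw [← e4]
      unfold ch0
      field_simp
    · rw [← e4]
      unfold ch1
      field_simp
    · rw [← e4]
      unfold ch2
      field_simp
  obtain ⟨S, m1, m2, m3⟩ := hfin
  refine ⟨S, ?_, ?_, fun p rr h1 hp => ?_⟩
  · show _ = (finW f k R (dotQ r.M' (rndFL r (uTab (H0 + 1) g0 K c AL)) CL NL)).t
    rw [hM1]
    exact m1
  · show _ ≤ (finW f k R (dotQ r.M' (rndFL r (uTab (H0 + 1) g0 K c AL)) CL NL)).b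
    rw [hM1]
    exact m2
  · have h5 := m3 p rr h1 hp
    beta_reduce at h5
    rw [key p] at h5
    show _ ≤ (((finW f k R (dotQ r.M' (rndFL r (uTab (H0 + 1) g0 K c AL)) CL NL)).e
      + evE (finW f k R (dotQ r.M' (rndFL r (uTab (H0 + 1) g0 K c AL)) CL NL)).E rr : ℕ) : ℝ)
    rw [hM1]
    exact h5

end Helper10.PC
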