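import Pool.Agent.Helper45.TOP.KrRange
import Pool.Agent.Helper10.TOP.PS

/-!
# Project TOP: the check of a tree on a cell, fast tables, error of the box

Copy of helper45's `KrRange` with the tables of `Helper10.TOP.PR` and the cut error of the box.
-/

set_option autoImplicit false

namespace Pool.Agent.Helper10KR
open Helper10.PC hiding V3 Rep dd
open Pool.Agent.Helper6.TOP Helper80.CW.DL Pool.Agent.Helper45.TOP

/-- radius of a variable -/
def rdB (mu m : ℕ) (X : ℤ) : ℕ := Nat.mul (Nat.add (Int.natAbs X) 3) (Nat.pow 2 (Nat.sub mu m))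

/-- error of a table on a box -/
noncomputable def erB (P : Par) (B : PB) (Z : PW) : ℕ :=
  Nat.add Z.e (evE3 (rdB P.mu B.m0 B.X0) (rdB P.mu B.m1 B.X1) (rdB P.mu B.m2 B.X2) Z.E)

/-- leaves of the matrix tree -/
noncomputable def lfS (P : Par) (L' L : Lay) (Z11 Z12 Z22 : PW) (c : UC) (B : PB) (n : ℕ) : Bool :=
  andB (boxOK P B) (leafMF ⟨envOf P L' P.e2 0 0 c B, P.cols⟩
    ⟨envOf P L P.e (mxN Z11.b (mxN Z12.b Z22.b)) (mxN (erB P B Z11) (mxN (erB P B Z12) (erB P B Z22))) c B,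
      P.cols⟩
    (polN P B Z11.t) (polN P B Z12.t) (polN P B Z22.t) n)

/-- leaves of a scalar tree -/
noncomputable def lfQ (P : Par) (L' L : Lay) (Z : PW) (c : UC) (B : PB) (n : ℕ) : Bool :=
  andB (boxOK P B) (leafSF ⟨envOf P L' P.e2 0 0 c B, P.cols⟩ ⟨envOf P L P.e Z.b (erB P B Z) c B, P.cols⟩
    (polN P B Z.t) n)

/-- **check of a matrix tree** -/
noncomputable def chkS (U : UQ) (P : Par) (AL : List Al) (C11 : List (T ℤ)) (N11 : List ℕ)
    (C12 : List (T ℤ)) (N12 : List ℕ) (C22 : List (T ℤ)) (N22 : List ℕ) (c : UC)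
    (B : PB) (t : PT ℕ) : Bool :=
  (fun ex => andB (ltAll U.r.c.B ex) ((fun tab =>
    (fun D11 D12 D22 => andB (qBd U D11) (andB (qBd U D12) (andB (qBd U D22)
      ((fun Z11 Z12 Z22 => andB (Nat.ble (htF (PW.t Z11)) 6) (andB (Nat.ble (htF (PW.t Z12)) 6)
        (andB (Nat.ble (htF (PW.t Z22)) 6)
          (pchk (lfS P (mkLay P.v P.g P.e2) (mkLay P.v P.g P.e) Z11 Z12 Z22 c) t B))))
        (qFinW U D11) (qFinW U D12) (qFinW U D22)))))
      (qDot U tab C11 N11) (qDot U tab C12 N12) (qDot U tab C22 N22)) (qRn U ex))) (qEx U c AL)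

/-- **check of a scalar tree** -/
noncomputable def chkQ (U : UQ) (P : Par) (AL : List Al) (C : List (T ℤ)) (NL : List ℕ) (c : UC)
    (B : PB) (t : PT ℕ) : Bool :=
  (fun ex => andB (ltAll U.r.c.B ex) ((fun tab =>
    (fun D => andB (qBd U D)
      ((fun Z => andB (Nat.ble (htF (PW.t Z)) 6)
          (pchk (lfQ P (mkLay P.v P.g P.e2) (mkLay P.v P.g P.e) Z c) t B))
        (qFinW U D)))
      (qDot U tab C NL)) (qRn U ex))) (qEx U c AL)

section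
variable {cert : Ct2} {U : UQ} {P : Par} {AL : List Al} {c : UC} {B : PB}

/-- the scale of the tables -/
noncomputable def sgU (U : UQ) (P : Par) (dp : ℕ) (c : UC) (a b : ℝ) : ℝ :=
  (4 ^ nuC c * chD a b) ^ U.K * 2 ^ (P.mu * dp) / 2 ^ U.q / 2 ^ U.sh

theorem sgU_pos (U : UQ) (P : Par) (dp : ℕ) (c : UC) (a b : ℝ) : 0 < sgU U P dp c a b := by
  have := chD_pos a b
  unfold sgU
  positivity

/-- a table of a cell -/
theorem table {dp : ℕ} {Q : List Mo} {C : List (T ℤ)} {NL : List ℕ}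
    (hv : ∀ u p : V3, valZ AL C u.1 u.2.1 u.2.2 (fun i => (2 : ℝ) ^ P.mu * pfv p i) =
      (2 : ℝ) ^ (P.mu * dp) * vl Q u p) (hP : P.ok = true) (hU : U.Good) (hf : U.hf = P.v)
    (hg : U.g2 = 5) (hR : U.R = P.R) (hA : degOK U.K AL = true) (hN : nlOK U.R C NL = true)
    (hex : ltAll U.r.c.B (qEx U c AL) = true)
    (hD : qBd U (qDot U (qRn U (qEx U c AL)) C NL) = true)
    (hh : Nat.ble (htF (qFinW U (qDot U (qRn U (qEx U c AL)) C NL)).t) 6 = true)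
    {a b x y z : ℝ} {t : ℕ → ℝ} (hl : Loc c B a b x y z t) (hB : boxOK P B = true) :
    ∃ p : ℝ, Rep (P.v + 1) P.g P.e (yv t) (dd 4 6)
      (polN P B (qFinW U (qDot U (qRn U (qEx U c AL)) C NL)).t) p
        (qFinW U (qDot U (qRn U (qEx U c AL)) C NL)).b ∧
      |sgU U P dp c a b * vl Q (ch0 a b, ch1 a b, ch2 a b) (x, y, z) - p| ≤
        erB P B (qFinW U (qDot U (qRn U (qEx U c AL)) C NL)) := by
  have hW := qFinW_rep hU hA hex hN hD hl.ha hl.hb (hl.le 0) (hl.le 1)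
  rw [hf, hg, hR] at hW
  have h5 := par5 hP
  set W := qFinW U (qDot U (qRn U (qEx U c AL)) C NL) with hWd
  obtain ⟨⟨g0, g1, g2⟩, i0, i1, i2⟩ := boxOK_iff hB
  obtain ⟨_, _, hx, hy, hz, hle⟩ := id hl
  have hrd : ∀ (X : ℤ) (m : ℕ) (r u : ℝ), |u| ≤ 1 → m ≤ P.mu → r * 2 ^ m = X + 3 * u →
      |(2 : ℝ) ^ P.mu * r| ≤ (rdB P.mu m X : ℕ) := by
    intro X m r u hu hm hr
    have e1 : (2 : ℝ) ^ P.mu * r = 2 ^ (P.mu - m) * (X + 3 * u) := by
      rw [two_sub hm]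
      linear_combination (2 : ℝ) ^ (P.mu - m) * hr
    have e2 : ((rdB P.mu m X : ℕ) : ℝ) = (|(X : ℝ)| + 3) * 2 ^ (P.mu - m) := by
      show (((X.natAbs + 3) * 2 ^ (P.mu - m) : ℕ) : ℝ) = _
      push_cast
      rw [Nat.cast_natAbs]
      push_cast
      rfl
    rw [e1, e2, abs_mul, abs_of_pos (by positivity : (0 : ℝ) < 2 ^ (P.mu - m)), mul_comm]
    refine mul_le_mul_of_nonneg_right ?_ (by positivity)
    refine (abs_add_le _ _).trans ?_
    rw [abs_mul, abs_of_pos (by norm_num : (0 : ℝ) < 3)]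
    linarith
  obtain ⟨F', hF1, hF2⟩ := hW.point (x := fun i => (2 : ℝ) ^ P.mu * pfv (x, y, z) i)
    (r := rx (rdB P.mu B.m0 B.X0) (rdB P.mu B.m1 B.X1) (rdB P.mu B.m2 B.X2))
    (fun i => by
      match i with
      | 0 => exact i0
      | 1 => exact i1
      | 2 => exact i2
      | i + 3 => exact Nat.zero_le _)
    (fun i => by
      match i with
      | 0 => exact hrd _ _ _ _ (hle _) g0 hx
      | 1 => exact hrd _ _ _ _ (hle _) g1 hy
      | 2 => exact hrd _ _ _ _ (hle _) g2 hz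
      | i + 3 =>
        show |(2 : ℝ) ^ P.mu * 0| ≤ ((0 : ℕ) : ℝ)
        simp)
  obtain ⟨p, p1, p2⟩ := pol_rep (X := fun i => (2 : ℝ) ^ P.mu * pfv (x, y, z) i) h5 hl hB
    (by rw [h5]; exact hF2) (Nat.le_of_ble_eq_true hh) rfl rfl rfl (fun k => mul_zero _)
  refine ⟨p, p1, ?_⟩
  have e1 : sgU U P dp c a b * vl Q (ch0 a b, ch1 a b, ch2 a b) (x, y, z) =
      (4 ^ nuC c * chD a b) ^ U.K * valZ AL C (ch0 a b) (ch1 a b) (ch2 a b)
        (fun i => (2 : ℝ) ^ P.mu * pfv (x, y, z) i) / 2 ^ U.q / 2 ^ U.sh := by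
    have := hv (ch0 a b, ch1 a b, ch2 a b) (x, y, z)
    simp only at this
    rw [this]
    unfold sgU
    ring
  have e2 : erB P B W = W.e + evE W.E (rx (rdB P.mu B.m0 B.X0) (rdB P.mu B.m1 B.X1)
      (rdB P.mu B.m2 B.X2)) := by
    show W.e + evE3 _ _ _ W.E = _
    rw [evE3_eq]
  rw [e1, e2]
  rw [hF1] at p2
  exact p2

/-- **matrix tree** -/
theorem chkS_ok {dp : ℕ} {C11 C12 C22 : List (T ℤ)} {N11 N12 N22 : List ℕ} {t : PT ℕ}
    (hU : U.Good) (hP : P.ok = true)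
    (hf : U.hf = P.v) (hg : U.g2 = 5) (hR : U.R = P.R) (hA : degOK U.K AL = true)
    (hn11 : nlOK U.R C11 N11 = true) (hn12 : nlOK U.R C12 N12 = true)
    (hn22 : nlOK U.R C22 N22 = true)
    (hrows : cert.ct.cvs12 = P.rows) (hcols : (cert.ct.cfs.map fun F => Ct.vix.map F) = P.cols)
    (v11 : ∀ u p : V3, valZ AL C11 u.1 u.2.1 u.2.2 (fun i => (2 : ℝ) ^ P.mu * pfv p i) =
      (2 : ℝ) ^ (P.mu * dp) * vl cert.P11 u p)
    (v12 : ∀ u p : V3, valZ AL C12 u.1 u.2.1 u.2.2 (fun i => (2 : ℝ) ^ P.mu * pfv p i) =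
      (2 : ℝ) ^ (P.mu * dp) * vl cert.P12 u p)
    (v22 : ∀ u p : V3, valZ AL C22 u.1 u.2.1 u.2.2 (fun i => (2 : ℝ) ^ P.mu * pfv p i) =
      (2 : ℝ) ^ (P.mu * dp) * vl cert.P22 u p)
    (h : chkS U P AL C11 N11 C12 N12 C22 N22 c B t = true) : BoxAll (PSc cert) c B := by
  unfold chkS at h
  obtain ⟨g1, h⟩ := andB_true h
  obtain ⟨d1, h⟩ := andB_true h
  obtain ⟨d2, h⟩ := andB_true h
  obtain ⟨d3, h⟩ := andB_true h
  obtain ⟨k1, h⟩ := andB_true h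
  obtain ⟨k2, h⟩ := andB_true h
  obtain ⟨k3, h⟩ := andB_true h
  refine BoxAll.of_tree (fun B n hn a b hab x y z hm => ?_) B t h
  obtain ⟨hB, hn⟩ := andB_true hn
  obtain ⟨t, hl⟩ := exists_loc hab hm
  obtain ⟨p11, a1, a2⟩ := table v11 hP hU hf hg hR hA hn11 g1 d1 k1 hl hB
  obtain ⟨p12, b1, b2⟩ := table v12 hP hU hf hg hR hA hn12 g1 d2 k2 hl hB
  obtain ⟨p22, c1, c2⟩ := table v22 hP hU hf hg hR hA hn22 g1 d3 k3 hl hB
  set Z11 := qFinW U (qDot U (qRn U (qEx U c AL)) C11 N11) with hZ11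
  set Z12 := qFinW U (qDot U (qRn U (qEx U c AL)) C12 N12) with hZ12
  set Z22 := qFinW U (qDot U (qRn U (qEx U c AL)) C22 N22) with hZ22
  refine Ct2.Hy.of_list fun θ h0 h1 hC => ?_
  obtain ⟨l1, l2, l3, l4, l5, _⟩ := par_facts hP
  rw [leafMF_eq (G' := ⟨envOf P (mkLay P.v P.g P.e2) P.e2 0 0 c B, P.cols⟩) (G := ⟨envOf P
    (mkLay P.v P.g P.e) P.e (mxN Z11.b (mxN Z12.b Z22.b)) (mxN (erB P B Z11) (mxN (erB P B Z12) (erB P B Z22))) c B,
    P.cols⟩) (min_ok hP hrows hcols _ _ _ _) (min_ok hP hrows hcols _ _ _ _)] at hn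
  have henv' := env_ok hP hrows l2 l5 hl hB 0 0 h0 h1 hC
  have henv := env_ok hP hrows l1 (by omega) hl hB (mxN Z11.b (mxN Z12.b Z22.b))
    (mxN (erB P B Z11) (mxN (erB P B Z12) (erB P B Z22))) h0 h1 hC
  intro w1 w2
  have hmb : mxN Z11.b (mxN Z12.b Z22.b) = max Z11.b (max Z12.b Z22.b) := by rw [mxN_eq, mxN_eq]
  have hme : mxN (erB P B Z11) (mxN (erB P B Z12) (erB P B Z22))
      = max (erB P B Z11) (max (erB P B Z12) (erB P B Z22)) := by rw [mxN_eq, mxN_eq]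
  have hb1 : Z11.b ≤ mxN Z11.b (mxN Z12.b Z22.b) := by rw [hmb]; exact le_max_left _ _
  have hb2 : Z12.b ≤ mxN Z11.b (mxN Z12.b Z22.b) := by
    rw [hmb]; exact (le_max_left _ _).trans (le_max_right _ _)
  have hb3 : Z22.b ≤ mxN Z11.b (mxN Z12.b Z22.b) := by
    rw [hmb]; exact (le_max_right _ _).trans (le_max_right _ _)
  have he1 : (erB P B Z11 : ℝ) ≤ (mxN (erB P B Z11) (mxN (erB P B Z12) (erB P B Z22)) : ℕ) := by
    rw [hme]; exact_mod_cast le_max_left _ _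
  have he2 : (erB P B Z12 : ℝ) ≤ (mxN (erB P B Z11) (mxN (erB P B Z12) (erB P B Z22)) : ℕ) := by
    rw [hme]; exact_mod_cast (le_max_left _ _).trans (le_max_right _ _)
  have he3 : (erB P B Z22 : ℝ) ≤ (mxN (erB P B Z11) (mxN (erB P B Z12) (erB P B Z22)) : ℕ) := by
    rw [hme]; exact_mod_cast (le_max_right _ _).trans (le_max_right _ _)
  have main := leafM_sound henv' henv l4 (a1.up le_rfl le_rfl hb1) (b1.up le_rfl le_rfl hb2)
    (c1.up le_rfl le_rfl hb3) (a2.trans he1) (b2.trans he2) (c2.trans he3) hn w1 w2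
  have hσ := sgU_pos U P dp c a b
  have e1 : sgU U P dp c a b * vl cert.P11 (ch0 a b, ch1 a b, ch2 a b) (x, y, z) * w1 ^ 2 +
      2 * (sgU U P dp c a b * vl cert.P12 (ch0 a b, ch1 a b, ch2 a b) (x, y, z)) * (w1 * w2) +
      sgU U P dp c a b * vl cert.P22 (ch0 a b, ch1 a b, ch2 a b) (x, y, z) * w2 ^ 2 =
      sgU U P dp c a b * (vl cert.P11 (ch0 a b, ch1 a b, ch2 a b) (x, y, z) * w1 ^ 2 +
      2 * vl cert.P12 (ch0 a b, ch1 a b, ch2 a b) (x, y, z) * (w1 * w2) +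
      vl cert.P22 (ch0 a b, ch1 a b, ch2 a b) (x, y, z) * w2 ^ 2) := by ring
  rw [e1] at main
  exact (mul_nonneg_iff_of_pos_left hσ).1 main

/-- scalar trees -/
theorem chkQ_ok {dp : ℕ} {Q : List Mo} {C : List (T ℤ)} {NL : List ℕ} {t : PT ℕ} (hU : U.Good)
    (hP : P.ok = true) (hf : U.hf = P.v) (hg : U.g2 = 5) (hR : U.R = P.R)
    (hA : degOK U.K AL = true) (hN : nlOK U.R C NL = true) (hrows : cert.ct.cvs12 = P.rows)
    (hcols : (cert.ct.cfs.map fun F => Ct.vix.map F) = P.cols)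
    (hv : ∀ u p : V3, valZ AL C u.1 u.2.1 u.2.2 (fun i => (2 : ℝ) ^ P.mu * pfv p i) =
      (2 : ℝ) ^ (P.mu * dp) * vl Q u p)
    (h : chkQ U P AL C NL c B t = true) :
    BoxAll (fun u0 u1 u2 x y z => cert.Hy (u0, u1, u2) (x, y, z)
      (0 ≤ vl Q (u0, u1, u2) (x, y, z))) c B := by
  unfold chkQ at h
  obtain ⟨g1, h⟩ := andB_true h
  obtain ⟨d1, h⟩ := andB_true h
  obtain ⟨k1, h⟩ := andB_true h
  refine BoxAll.of_tree (fun B n hn a b hab x y z hm => ?_) B t h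
  obtain ⟨hB, hn⟩ := andB_true hn
  obtain ⟨t, hl⟩ := exists_loc hab hm
  obtain ⟨p, a1, a2⟩ := table hv hP hU hf hg hR hA hN g1 d1 k1 hl hB
  refine Ct2.Hy.of_list fun θ h0 h1 hC => ?_
  obtain ⟨l1, l2, l3, l4, l5, _⟩ := par_facts hP
  rw [leafSF_eq (G' := ⟨envOf P (mkLay P.v P.g P.e2) P.e2 0 0 c B, P.cols⟩) (G := ⟨envOf P
    (mkLay P.v P.g P.e) P.e (qFinW U (qDot U (qRn U (qEx U c AL)) C NL)).b
    (erB P B (qFinW U (qDot U (qRn U (qEx U c AL)) C NL))) c B, P.cols⟩)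
    (min_ok hP hrows hcols _ _ _ _) (min_ok hP hrows hcols _ _ _ _)] at hn
  have main := leafS_sound (env_ok hP hrows l2 l5 hl hB 0 0 h0 h1 hC)
    (env_ok hP hrows l1 (by omega) hl hB _ _ h0 h1 hC) l4 a1 a2 hn
  exact (mul_nonneg_iff_of_pos_left (sgU_pos U P dp c a b)).1 main

theorem chkP_ok {dp : ℕ} {C : List (T ℤ)} {NL : List ℕ} {t : PT ℕ} (hU : U.Good)
    (hP : P.ok = true) (hf : U.hf = P.v) (hg : U.g2 = 5) (hR : U.R = P.R)
    (hA : degOK U.K AL = true) (hN : nlOK U.R C NL = true) (hrows : cert.ct.cvs12 = P.rows)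
    (hcols : (cert.ct.cfs.map fun F => Ct.vix.map F) = P.cols)
    (hv : ∀ u p : V3, valZ AL C u.1 u.2.1 u.2.2 (fun i => (2 : ℝ) ^ P.mu * pfv p i) =
      (2 : ℝ) ^ (P.mu * dp) * vl cert.Qp u p)
    (h : chkQ U P AL C NL c B t = true) : BoxAll (PPc cert) c B :=
  chkQ_ok hU hP hf hg hR hA hN hrows hcols hv h

theorem chkM_ok {dp : ℕ} {C : List (T ℤ)} {NL : List ℕ} {t : PT ℕ} (hU : U.Good)
    (hP : P.ok = true) (hf : U.hf = P.v) (hg : U.g2 = 5) (hR : U.R = P.R)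
    (hA : degOK U.K AL = true) (hN : nlOK U.R C NL = true) (hrows : cert.ct.cvs12 = P.rows)
    (hcols : (cert.ct.cfs.map fun F => Ct.vix.map F) = P.cols)
    (hv : ∀ u p : V3, valZ AL C u.1 u.2.1 u.2.2 (fun i => (2 : ℝ) ^ P.mu * pfv p i) =
      (2 : ℝ) ^ (P.mu * dp) * vl cert.Qm u p)
    (h : chkQ U P AL C NL c B t = true) : BoxAll (PMc cert) c B :=
  chkQ_ok hU hP hf hg hR hA hN hrows hcols hv h

end

end Pool.Agent.Helper10KR
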