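import Pool.Agent.Helper43.MEI.FBox

/-!
# Taylor models on cells

`H` (Horner polynomials with integer coefficients) with truncation to bounded total degree and
error bounds in the sup norm over the cube `|x i| ≤ 1`; powers of the rational chart of the
sphere as Taylor models; the local polynomial of `∑ u ^ α C_α (p)` on a cell.
-/

set_option autoImplicit false

namespace Helper10.LA
open Helper43.FBox Helper43.EBox

/-! ### norms -/

/-- sum of the absolute values of the coefficients, the variables weighted by `R` -/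
def nrmR (R : ℕ) : H → ℕ
  | H.c n => Int.natAbs n
  | H.h a b => Nat.add (nrmR R a) (Nat.mul R (nrmR R b))

theorem nrmR_le (R : ℕ) : ∀ (p : H) (x : ℕ → ℝ), (∀ i, |x i| ≤ R) → |evH p x| ≤ nrmR R p
  | H.c n, x, _ => by
    simp only [evH, nrmR]
    rw [Nat.cast_natAbs]
    push_cast
    exact le_refl _
  | H.h a b, x, hx => by
    have h1 := nrmR_le R a (fun i => x (i + 1)) (fun i => hx _)
    have h2 := nrmR_le R b x hx
    have h3 : |x 0 * evH b x| ≤ (R : ℝ) * nrmR R b := by
      rw [abs_mul]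
      exact mul_le_mul (hx 0) h2 (abs_nonneg _) (Nat.cast_nonneg _)
    show |evH a (fun i => x (i + 1)) + x 0 * evH b x|
      ≤ ((nrmR R a + R * nrmR R b : ℕ) : ℝ)
    push_cast
    exact (abs_add_le _ _).trans (add_le_add h1 h3)

def nrm : H → ℕ
  | H.c n => Int.natAbs n
  | H.h a b => Nat.add (nrm a) (nrm b)

theorem nrm_le : ∀ (p : H) (x : ℕ → ℝ), (∀ i, |x i| ≤ 1) → |evH p x| ≤ nrm p
  | H.c n, x, _ => by
    simp only [evH, nrm]
    rw [Nat.cast_natAbs]
    push_cast
    exact le_refl _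
  | H.h a b, x, hx => by
    have h1 := nrm_le a (fun i => x (i + 1)) (fun i => hx _)
    have h2 := nrm_le b x hx
    have h3 : |x 0 * evH b x| ≤ nrm b := by
      rw [abs_mul]
      calc |x 0| * |evH b x| ≤ 1 * nrm b := mul_le_mul (hx 0) h2 (abs_nonneg _) zero_le_one
        _ = _ := one_mul _
    show |evH a (fun i => x (i + 1)) + x 0 * evH b x| ≤ ((nrm a + nrm b : ℕ) : ℝ)
    push_cast
    exact (abs_add_le _ _).trans (add_le_add h1 h3)

/-! ### truncation -/

/-- the part of total degree at most `d` and the norm of the rest -/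
def tr : H → ℕ → H × ℕ
  | H.c n => fun _ => (H.c n, 0)
  | H.h a b => fun d => match d with
    | 0 => match tr a 0 with
      | (a', e) => (lift a', Nat.add e (nrm b))
    | d + 1 => match tr a (d + 1), tr b d with
      | (a', e), (b', e') => (H.h a' b', Nat.add e e')

theorem tr_sound : ∀ (p : H) (d : ℕ) (x : ℕ → ℝ), (∀ i, |x i| ≤ 1) →
    |evH p x - evH (tr p d).1 x| ≤ (tr p d).2
  | H.c n, d, x, _ => by simp [tr]
  | H.h a b, 0, x, hx => by
    have h1 := tr_sound a 0 (fun i => x (i + 1)) (fun i => hx _)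
    have h2 := nrm_le b x hx
    have h3 : |x 0 * evH b x| ≤ nrm b := by
      rw [abs_mul]
      calc |x 0| * |evH b x| ≤ 1 * nrm b := mul_le_mul (hx 0) h2 (abs_nonneg _) zero_le_one
        _ = _ := one_mul _
    have e1 : (tr (H.h a b) 0).1 = lift (tr a 0).1 := rfl
    have e2 : (tr (H.h a b) 0).2 = (tr a 0).2 + nrm b := rfl
    rw [e1, e2, ev_lift]
    simp only [evH]
    push_cast
    calc |evH a (fun i => x (i + 1)) + x 0 * evH b x - evH (tr a 0).1 (fun i => x (i + 1))|
        = |(evH a (fun i => x (i + 1)) - evH (tr a 0).1 (fun i => x (i + 1)))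
            + x 0 * evH b x| := by ring_nf
      _ ≤ _ := (abs_add_le _ _).trans (add_le_add h1 h3)
  | H.h a b, d + 1, x, hx => by
    have h1 := tr_sound a (d + 1) (fun i => x (i + 1)) (fun i => hx _)
    have h2 := tr_sound b d x hx
    have e1 : (tr (H.h a b) (d + 1)).1 = H.h (tr a (d + 1)).1 (tr b d).1 := rfl
    have e2 : (tr (H.h a b) (d + 1)).2 = (tr a (d + 1)).2 + (tr b d).2 := rfl
    rw [e1, e2]
    simp only [evH]
    push_cast
    have h3 : |x 0 * (evH b x - evH (tr b d).1 x)| ≤ (tr b d).2 := by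
      rw [abs_mul]
      calc |x 0| * |evH b x - evH (tr b d).1 x| ≤ 1 * (tr b d).2 :=
            mul_le_mul (hx 0) h2 (abs_nonneg _) zero_le_one
        _ = _ := one_mul _
    calc |evH a (fun i => x (i + 1)) + x 0 * evH b x
          - (evH (tr a (d + 1)).1 (fun i => x (i + 1)) + x 0 * evH (tr b d).1 x)|
        = |(evH a (fun i => x (i + 1)) - evH (tr a (d + 1)).1 (fun i => x (i + 1)))
            + x 0 * (evH b x - evH (tr b d).1 x)| := by ring_nf
      _ ≤ _ := (abs_add_le _ _).trans (add_le_add h1 h3)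

/-! ### Taylor models -/

/-- `X` approximates `v` at `x` -/
def Ap (x : ℕ → ℝ) (X : H × ℕ) (v : ℝ) : Prop := |v - evH X.1 x| ≤ X.2

def mulT (d : ℕ) (X Y : H × ℕ) : H × ℕ := match tr (mul X.1 Y.1) d with
  | (p, e) => (p, Nat.add e (Nat.add (Nat.mul (nrm X.1) Y.2)
      (Nat.mul X.2 (Nat.add (nrm Y.1) Y.2))))

theorem mulT_sound {x : ℕ → ℝ} (hx : ∀ i, |x i| ≤ 1) {X Y : H × ℕ} {v w : ℝ} (d : ℕ)
    (h1 : Ap x X v) (h2 : Ap x Y w) : Ap x (mulT d X Y) (v * w) := by
  unfold Ap at *
  have e1 : (mulT d X Y).1 = (tr (mul X.1 Y.1) d).1 := rfl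
  have e2 : (mulT d X Y).2 = (tr (mul X.1 Y.1) d).2 + (nrm X.1 * Y.2
      + X.2 * (nrm Y.1 + Y.2)) := rfl
  rw [e1, e2]
  push_cast
  have h3 := tr_sound (mul X.1 Y.1) d x hx
  rw [ev_mulH] at h3
  have hX := nrm_le X.1 x hx
  have hY := nrm_le Y.1 x hx
  have hw : |w| ≤ nrm Y.1 + Y.2 := by
    calc |w| = |evH Y.1 x + (w - evH Y.1 x)| := by ring_nf
      _ ≤ _ := (abs_add_le _ _).trans (add_le_add hY h2)
  have h4 : |(v - evH X.1 x) * w| ≤ (X.2 : ℝ) * (nrm Y.1 + Y.2) := by
    rw [abs_mul]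
    exact mul_le_mul h1 hw (abs_nonneg _) (Nat.cast_nonneg _)
  have h5 : |evH X.1 x * (w - evH Y.1 x)| ≤ (nrm X.1 : ℝ) * Y.2 := by
    rw [abs_mul]
    exact mul_le_mul hX h2 (abs_nonneg _) (Nat.cast_nonneg _)
  calc |v * w - evH (tr (mul X.1 Y.1) d).1 x|
      = |(evH X.1 x * evH Y.1 x - evH (tr (mul X.1 Y.1) d).1 x)
          + (evH X.1 x * (w - evH Y.1 x) + (v - evH X.1 x) * w)| := by ring_nf
    _ ≤ |evH X.1 x * evH Y.1 x - evH (tr (mul X.1 Y.1) d).1 x|
        + |evH X.1 x * (w - evH Y.1 x) + (v - evH X.1 x) * w| := abs_add_le _ _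
    _ ≤ _ := add_le_add h3 ((abs_add_le _ _).trans (add_le_add h5 h4))

/-- `acc, acc * X, acc * X ^ 2, …` -/
def pw (d : ℕ) (X : H × ℕ) : ℕ → H × ℕ → List (H × ℕ)
  | 0, acc => [acc]
  | n + 1, acc => acc :: pw d X n (mulT d acc X)

/-- the `i`-th entry -/
def nthT : List (H × ℕ) → ℕ → H × ℕ
  | [], _ => (H.c 0, 0)
  | a :: l, i => match i with
    | 0 => a
    | i + 1 => nthT l i

theorem pw_sound {x : ℕ → ℝ} (hx : ∀ i, |x i| ≤ 1) {X : H × ℕ} {v : ℝ} (d : ℕ)
    (h1 : Ap x X v) : ∀ (n : ℕ) (acc : H × ℕ) (w : ℝ), Ap x acc w → ∀ i, i ≤ n →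
    Ap x (nthT (pw d X n acc) i) (w * v ^ i)
  | 0, acc, w, h, i, hi => by
    obtain rfl : i = 0 := by omega
    simpa [pw, nthT] using h
  | n + 1, acc, w, h, 0, hi => by simpa [pw, nthT] using h
  | n + 1, acc, w, h, i + 1, hi => by
    have := pw_sound hx d h1 n _ _ (mulT_sound hx d h h1) i (by omega)
    show Ap x (nthT (pw d X n (mulT d acc X)) i) _
    rw [pow_succ']
    rw [show w * (v * v ^ i) = w * v * v ^ i by ring]
    exact this

/-! ### affine substitution -/

/-- substitution `x i = A i + B i y i`; variables without entry are kept -/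
def aff : H → List (ℤ × ℤ) → H
  | H.c n => fun _ => H.c n
  | H.h a b => fun L => match L with
    | [] => H.h a b
    | (A, B) :: L => match aff b ((A, B) :: L) with
      | b' => add (lift (aff a L)) (add (smul A b') (H.h (H.c 0) (smul B b')))

/-- the new point: the old value from the new one -/
noncomputable def affx : List (ℤ × ℤ) → (ℕ → ℝ) → ℕ → ℝ
  | [], y, i => y i
  | (A, B) :: _, y, 0 => A + B * y 0
  | _ :: L, y, i + 1 => affx L (fun j => y (j + 1)) i

theorem affx_cons (c : ℤ × ℤ) (L : List (ℤ × ℤ)) (y : ℕ → ℝ) :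
    (fun i => affx (c :: L) y (i + 1)) = affx L (fun j => y (j + 1)) := rfl

theorem aff_sound : ∀ (p : H) (L : List (ℤ × ℤ)) (y : ℕ → ℝ),
    evH (aff p L) y = evH p (affx L y)
  | H.c n, L, y => by simp [aff, evH]
  | H.h a b, [], y => by
    show evH (H.h a b) y = _
    congr 1
  | H.h a b, (A, B) :: L, y => by
    have h1 := aff_sound a L (fun j => y (j + 1))
    have h2 := aff_sound b ((A, B) :: L) y
    show evH (add (lift (aff a L)) (add (smul A (aff b ((A, B) :: L)))
      (H.h (H.c 0) (smul B (aff b ((A, B) :: L)))))) y = _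
    rw [ev_addH, ev_addH, ev_lift, ev_smul, h1, h2]
    simp only [evH, ev_smul, h2, affx_cons]
    simp only [affx]
    push_cast
    ring

end Helper10.LA
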