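import Pool.Agent.Helper10.TOP.LA

/-!
# The local polynomial on a cell

Chart `u = (1 - a² - b², 2 a, 2 b) / (1 + a² + b²)`; `∑ u ^ α C_α (p)` times `D ^ K` as a
polynomial in two local variables and in `p`, with an error bound; substitution of a box in `p`.
-/

set_option autoImplicit false

namespace Helper10.LA
open Helper43.FBox Helper43.EBox

/-! ### dependence on the first variables -/

theorem cond_ff {a b : Bool} (h : cond a b false = true) : a = true ∧ b = true := by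
  cases a
  · exact absurd h Bool.false_ne_true
  · exact ⟨rfl, h⟩

/-- at most `k` variables -/
def dpb : H → ℕ → Bool
  | H.c _ => fun _ => true
  | H.h a b => fun k => match k with
    | 0 => false
    | k + 1 => cond (dpb a k) (dpb b (k + 1)) false

theorem dp_congr : ∀ (p : H) (k : ℕ) (x y : ℕ → ℝ), dpb p k = true → (∀ i, i < k → x i = y i) →
    evH p x = evH p y
  | H.c n, k, x, y, _, _ => rfl
  | H.h a b, 0, x, y, h, _ => by simp [dpb] at h
  | H.h a b, k + 1, x, y, h, hx => by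
    have h1 : dpb a k = true ∧ dpb b (k + 1) = true := cond_ff h
    show evH a (fun i => x (i + 1)) + x 0 * evH b x = evH a (fun i => y (i + 1)) + y 0 * evH b y
    rw [dp_congr a k (fun i => x (i + 1)) (fun i => y (i + 1)) h1.1
      (fun i hi => hx _ (by omega)), dp_congr b (k + 1) x y h1.2 hx, hx 0 (by omega)]

/-! ### data -/

/-- exponents of `u` -/
@[reducible] def Al : Type := ℕ × ℕ × ℕ

noncomputable def monU (a : Al) (x y z : ℝ) : ℝ := x ^ a.1 * y ^ a.2.1 * z ^ a.2.2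

/-- `∑ u ^ α C_α (p)` -/
noncomputable def valZ : List Al → List H → ℝ → ℝ → ℝ → (ℕ → ℝ) → ℝ
  | a :: A, C :: L, x, y, z, p => monU a x y z * evH C p + valZ A L x y z p
  | _, _, _, _, _, _ => 0

/-- homogenised value: `∑ U ^ α D ^ (K - |α|) C_α (p)` -/
noncomputable def valD (K : ℕ) : List Al → List H → ℝ → ℝ → ℝ → ℝ → (ℕ → ℝ) → ℝ
  | a :: A, C :: L, x, y, z, D, p =>
    monU a x y z * D ^ (K - (a.1 + a.2.1 + a.2.2)) * evH C p + valD K A L x y z D p
  | _, _, _, _, _, _, _ => 0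

def degOK (K : ℕ) : List Al → Bool
  | [] => true
  | (i, j, k) :: A => cond (Nat.ble (Nat.add i (Nat.add j k)) K) (degOK K A) false

theorem valD_eq {K : ℕ} {X Y Z D x y z : ℝ} (hD : D ≠ 0) (hx : X = D * x) (hy : Y = D * y)
    (hz : Z = D * z) : ∀ (A : List Al) (L : List H) (p : ℕ → ℝ), degOK K A = true →
    valD K A L X Y Z D p = D ^ K * valZ A L x y z p
  | [], L, p, _ => by simp [valD, valZ]
  | a :: A, [], p, _ => by simp [valD, valZ]
  | (i, j, k) :: A, C :: L, p, h => by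
    have h1 := cond_ff h
    have h2 : i + (j + k) ≤ K := Nat.le_of_ble_eq_true h1.1
    have h3 := valD_eq hD hx hy hz A L p h1.2
    simp only [valD, valZ, monU, h3]
    have h4 : D ^ K = D ^ i * D ^ j * D ^ k * D ^ (K - (i + j + k)) := by
      rw [← pow_add, ← pow_add, ← pow_add]
      congr 1
      omega
    rw [hx, hy, hz, mul_pow, mul_pow, mul_pow, h4]
    ring

/-! ### the table of the monomials in `u` -/

def mkN (d K : ℕ) (tX tY tZ tD : List (H × ℕ)) : List Al → List (H × ℕ)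
  | [] => []
  | (i, j, k) :: A => mulT d (mulT d (nthT tX i) (nthT tY j))
      (mulT d (nthT tZ k) (nthT tD (Nat.sub K (Nat.add i (Nat.add j k))))) :: mkN d K tX tY tZ tD A

/-- the entries approximate the monomials -/
def ApN (x : ℕ → ℝ) (K : ℕ) (X Y Z D : ℝ) : List Al → List (H × ℕ) → Prop
  | [], [] => True
  | a :: A, n :: N => Ap x n (monU a X Y Z * D ^ (K - (a.1 + a.2.1 + a.2.2))) ∧
      ApN x K X Y Z D A N
  | _, _ => False

theorem mkN_sound {x : ℕ → ℝ} (hx : ∀ i, |x i| ≤ 1) {d K : ℕ} {tX tY tZ tD : List (H × ℕ)}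
    {X Y Z D : ℝ} (h1 : ∀ i, i ≤ K → Ap x (nthT tX i) (X ^ i))
    (h2 : ∀ i, i ≤ K → Ap x (nthT tY i) (Y ^ i))
    (h3 : ∀ i, i ≤ K → Ap x (nthT tZ i) (Z ^ i))
    (h4 : ∀ i, i ≤ K → Ap x (nthT tD i) (D ^ i)) :
    ∀ A : List Al, degOK K A = true → ApN x K X Y Z D A (mkN d K tX tY tZ tD A)
  | [], _ => trivial
  | (i, j, k) :: A, h => by
    have h5 := cond_ff h
    have h6 : i + (j + k) ≤ K := Nat.le_of_ble_eq_true h5.1
    refine ⟨?_, mkN_sound hx h1 h2 h3 h4 A h5.2⟩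
    have e : K - (i + j + k) = Nat.sub K (Nat.add i (Nat.add j k)) := by
      show K - (i + j + k) = K - (i + (j + k))
      omega
    have := mulT_sound hx d (mulT_sound hx d (h1 i (by omega)) (h2 j (by omega)))
      (mulT_sound hx d (h3 k (by omega)) (h4 (Nat.sub K (Nat.add i (Nat.add j k)))
        (Nat.sub_le _ _)))
    simp only [monU]
    rw [e, show X ^ i * Y ^ j * Z ^ k * D ^ (Nat.sub K (Nat.add i (Nat.add j k)))
      = X ^ i * Y ^ j * (Z ^ k * D ^ (Nat.sub K (Nat.add i (Nat.add j k)))) by ring]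
    exact this

/-! ### the polynomial on a cell -/

def allDp : List (H × ℕ) → Bool
  | [] => true
  | n :: N => cond (dpb n.1 2) (allDp N) false

/-- `∑ N_α C_α`, the variables `p` after the two local variables -/
def dot (R : ℕ) : List (H × ℕ) → List H → H × ℕ
  | [] => fun _ => (H.c 0, 0)
  | n :: N => fun L => match L with
    | [] => (H.c 0, 0)
    | C :: L => match dot R N L with
      | (q, f) => cond (isz C) (q, f)
        (add (mul n.1 (lift (lift C))) q, Nat.add f (Nat.mul n.2 (nrmR R C)))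

theorem dot_sound {x y : ℕ → ℝ} {p : ℕ → ℝ} {R K : ℕ} {X Y Z D : ℝ}
    (hxy : ∀ i, i < 2 → x i = y i) (hp : ∀ i, y (i + 1 + 1) = p i) (hR : ∀ i, |p i| ≤ R) :
    ∀ (A : List Al) (N : List (H × ℕ)) (L : List H), ApN x K X Y Z D A N → allDp N = true →
    |valD K A L X Y Z D p - evH (dot R N L).1 y| ≤ (dot R N L).2
  | [], [], L, _, _ => by simp [valD, dot, evH]
  | [], _ :: _, L, h, _ => h.elim
  | _ :: _, [], L, h, _ => h.elim
  | a :: A, n :: N, [], _, _ => by simp [valD, dot, evH]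
  | a :: A, n :: N, C :: L, h, hd => by
    have h1 := cond_ff hd
    have h2 := dot_sound hxy hp hR A N L h.2 h1.2
    have h3 : evH n.1 x = evH n.1 y := dp_congr n.1 2 x y h1.1 hxy
    have h4 : |monU a X Y Z * D ^ (K - (a.1 + a.2.1 + a.2.2)) - evH n.1 y| ≤ n.2 := by
      rw [← h3]
      exact h.1
    have e1 : dot R (n :: N) (C :: L) = cond (isz C) ((dot R N L).1, (dot R N L).2)
        (add (mul n.1 (lift (lift C))) (dot R N L).1,
          (dot R N L).2 + n.2 * nrmR R C) := rfl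
    rw [e1]
    cases hz : isz C
    · simp only [cond_false, valD]
      rw [ev_addH, ev_mulH, ev_lift, ev_lift]
      have h5 : (fun i => y (i + 1 + 1)) = p := funext hp
      have h6 : evH C (fun i => y (i + 1 + 1)) = evH C p := by rw [h5]
      rw [h6]
      have h7 := nrmR_le R C p hR
      have h8 : |(monU a X Y Z * D ^ (K - (a.1 + a.2.1 + a.2.2)) - evH n.1 y) * evH C p|
          ≤ (n.2 : ℝ) * nrmR R C := by
        rw [abs_mul]
        exact mul_le_mul h4 h7 (abs_nonneg _) (Nat.cast_nonneg _)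
      push_cast
      calc _ = |(valD K A L X Y Z D p - evH (dot R N L).1 y)
            + (monU a X Y Z * D ^ (K - (a.1 + a.2.1 + a.2.2)) - evH n.1 y) * evH C p| := by
            ring_nf
        _ ≤ _ := (abs_add_le _ _).trans (add_le_add h2 h8)
    · simp only [cond_true, valD]
      rw [isz_ev hz]
      simpa using h2

/-! ### the chart -/

/-- `A + B x 0` -/
def lin0 (A B : ℤ) : H := H.h (H.c A) (H.c B)
/-- `A + B x 1` -/
def lin1 (A B : ℤ) : H := H.h (H.h (H.c A) (H.c B)) (H.c 0)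

/-- `4 ^ ν (1 - a² - b², 2 a, 2 b, 1 + a² + b²)` for `2 ^ ν a = A + B x 0`,
`2 ^ ν b = A' + B' x 1`; `T = 2 ^ ν` -/
def chX (T : ℕ) (A B A' B' : ℤ) : H :=
  add (H.c (Int.ofNat (Nat.mul T T)))
    (neg (add (mul (lin0 A B) (lin0 A B)) (mul (lin1 A' B') (lin1 A' B'))))
def chD (T : ℕ) (A B A' B' : ℤ) : H :=
  add (H.c (Int.ofNat (Nat.mul T T)))
    (add (mul (lin0 A B) (lin0 A B)) (mul (lin1 A' B') (lin1 A' B')))
def chY (T : ℕ) (A B : ℤ) : H := smul (Int.ofNat (Nat.mul 2 T)) (lin0 A B)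
def chZ (T : ℕ) (A' B' : ℤ) : H := smul (Int.ofNat (Nat.mul 2 T)) (lin1 A' B')

theorem ev_lin0 (A B : ℤ) (x : ℕ → ℝ) : evH (lin0 A B) x = A + B * x 0 := by
  simp [lin0, evH]
  ring
theorem ev_lin1 (A B : ℤ) (x : ℕ → ℝ) : evH (lin1 A B) x = A + B * x 1 := by
  simp [lin1, evH]
  ring

theorem ev_chX (T : ℕ) (A B A' B' : ℤ) (x : ℕ → ℝ) :
    evH (chX T A B A' B') x = T ^ 2 - (A + B * x 0) ^ 2 - (A' + B' * x 1) ^ 2 := by
  unfold chX
  rw [ev_addH, ev_negH, ev_addH, ev_mulH, ev_mulH, ev_lin0, ev_lin1]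
  simp only [evH]
  have : ((Int.ofNat (Nat.mul T T) : ℤ) : ℝ) = (T : ℝ) * T := by
    show (((T * T : ℕ) : ℤ) : ℝ) = _
    push_cast
    ring
  rw [this]
  ring

theorem ev_chD (T : ℕ) (A B A' B' : ℤ) (x : ℕ → ℝ) :
    evH (chD T A B A' B') x = T ^ 2 + (A + B * x 0) ^ 2 + (A' + B' * x 1) ^ 2 := by
  unfold chD
  rw [ev_addH, ev_addH, ev_mulH, ev_mulH, ev_lin0, ev_lin1]
  simp only [evH]
  have : ((Int.ofNat (Nat.mul T T) : ℤ) : ℝ) = (T : ℝ) * T := by
    show (((T * T : ℕ) : ℤ) : ℝ) = _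
    push_cast
    ring
  rw [this]
  ring

theorem ev_chY (T : ℕ) (A B : ℤ) (x : ℕ → ℝ) :
    evH (chY T A B) x = 2 * T * (A + B * x 0) := by
  unfold chY
  rw [ev_smul, ev_lin0]
  have : ((Int.ofNat (Nat.mul 2 T) : ℤ) : ℝ) = 2 * (T : ℝ) := by
    show (((2 * T : ℕ) : ℤ) : ℝ) = _
    push_cast
    ring
  rw [this]

theorem ev_chZ (T : ℕ) (A B : ℤ) (x : ℕ → ℝ) :
    evH (chZ T A B) x = 2 * T * (A + B * x 1) := by
  unfold chZ
  rw [ev_smul, ev_lin1]
  have : ((Int.ofNat (Nat.mul 2 T) : ℤ) : ℝ) = 2 * (T : ℝ) := by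
    show (((2 * T : ℕ) : ℤ) : ℝ) = _
    push_cast
    ring
  rw [this]

/-- the table of a cell -/
def tabN (d K T : ℕ) (A B A' B' : ℤ) (AL : List Al) : List (H × ℕ) :=
  mkN d K (pw d (chX T A B A' B', 0) K (H.c 1, 0)) (pw d (chY T A B, 0) K (H.c 1, 0))
    (pw d (chZ T A' B', 0) K (H.c 1, 0)) (pw d (chD T A B A' B', 0) K (H.c 1, 0)) AL

theorem Ap_one (x : ℕ → ℝ) : Ap x (H.c 1, 0) 1 := by
  simp [Ap, evH]

theorem Ap_ev (x : ℕ → ℝ) (p : H) : Ap x (p, 0) (evH p x) := by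
  simp [Ap]

theorem pw_tab {x : ℕ → ℝ} (hx : ∀ i, |x i| ≤ 1) (d K : ℕ) (p : H) (i : ℕ) (hi : i ≤ K) :
    Ap x (nthT (pw d (p, 0) K (H.c 1, 0)) i) (evH p x ^ i) := by
  have := pw_sound hx d (Ap_ev x p) K _ _ (Ap_one x) i hi
  rwa [one_mul] at this

theorem tabN_sound {x : ℕ → ℝ} (hx : ∀ i, |x i| ≤ 1) {d K T : ℕ} {A B A' B' : ℤ}
    {AL : List Al} (h : degOK K AL = true) :
    ApN x K (evH (chX T A B A' B') x) (evH (chY T A B) x) (evH (chZ T A' B') x)
      (evH (chD T A B A' B') x) AL (tabN d K T A B A' B' AL) := by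
  exact mkN_sound hx (pw_tab hx d K _) (pw_tab hx d K _) (pw_tab hx d K _)
    (pw_tab hx d K _) AL h

end Helper10.LA
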