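import Mathlib

/-!
# Packed polynomials

`T α`: Horner polynomials with coefficients in `α`.  The coefficients are vectors (polynomials in
two further local variables); in the kernel a vector `v` is the single integer `∑ v i X ^ i`.
All operations (sum, integer multiples, shift, scaling) are linear and commute with packing; at
the end the digits are read off.
-/

set_option autoImplicit false

namespace Helper10.PC

inductive T (α : Type) where
  | c : α → T α
  | h : T α → T α → T α

section gen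
variable {α β : Type}

noncomputable def evT (φ : α → ℝ) : T α → (ℕ → ℝ) → ℝ
  | T.c a, _ => φ a
  | T.h a b, x => evT φ a (fun i => x (i + 1)) + x 0 * evT φ b x

def mapT (f : α → β) : T α → T β
  | T.c a => T.c (f a)
  | T.h a b => T.h (mapT f a) (mapT f b)

def addc (ad : α → α → α) (n : α) : T α → T α
  | T.c m => T.c (ad n m)
  | T.h a b => T.h (addc ad n a) b

def addT (ad : α → α → α) : T α → T α → T α
  | T.c n => addc ad n
  | T.h a b => fun q => match q with
    | T.c m => T.h (addc ad m a) b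
    | T.h a' b' => T.h (addT ad a a') (addT ad b b')

/-- shift `x i = A i + y i` -/
def sh (ad : α → α → α) (sm : ℤ → α → α) : T α → List ℤ → T α
  | T.c n => fun _ => T.c n
  | T.h a b => fun L => match L with
    | [] => T.h a b
    | A :: L => match sh ad sm b (A :: L) with
      | b' => addT ad (T.h (sh ad sm a L) b') (mapT (sm A) b')

/-- scaling `x i = B i y i`, all times `f` -/
def sc (sm : ℤ → α → α) : T α → List ℤ → ℤ → T α
  | T.c n => fun _ f => T.c (sm f n)
  | T.h a b => fun L f => match L with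
    | [] => T.h (mapT (sm f) a) (mapT (sm f) b)
    | B :: L => T.h (sc sm a L f) (sc sm b (B :: L) (Int.mul f B))

/-! ### evaluation -/

variable {φ : α → ℝ} {ad : α → α → α} {sm : ℤ → α → α}

theorem ev_addc (had : ∀ a b, φ (ad a b) = φ a + φ b) (n : α) : ∀ (p : T α) (x : ℕ → ℝ),
    evT φ (addc ad n p) x = φ n + evT φ p x
  | T.c m, x => by simp only [addc, evT, had]
  | T.h a b, x => by
    simp only [addc, evT, ev_addc had n a]
    ring

theorem ev_addT (had : ∀ a b, φ (ad a b) = φ a + φ b) : ∀ (p q : T α) (x : ℕ → ℝ),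
    evT φ (addT ad p q) x = evT φ p x + evT φ q x
  | T.c n, q, x => by
    show evT φ (addc ad n q) x = _
    rw [ev_addc had]
    rfl
  | T.h a b, T.c m, x => by
    show evT φ (T.h (addc ad m a) b) x = _
    simp only [evT, ev_addc had]
    ring
  | T.h a b, T.h a' b', x => by
    show evT φ (T.h (addT ad a a') (addT ad b b')) x = _
    simp only [evT, ev_addT had a a', ev_addT had b b']
    ring

theorem ev_map {ψ : β → ℝ} {f : α → β} {k : ℝ} (hf : ∀ a, ψ (f a) = k * φ a) :
    ∀ (p : T α) (x : ℕ → ℝ), evT ψ (mapT f p) x = k * evT φ p x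
  | T.c m, x => by simp only [mapT, evT, hf]
  | T.h a b, x => by
    simp only [mapT, evT, ev_map hf a, ev_map hf b]
    ring

/-- the old point of a shift -/
def shx : List ℤ → (ℕ → ℝ) → ℕ → ℝ
  | [], y, i => y i
  | A :: _, y, 0 => A + y 0
  | _ :: L, y, i + 1 => shx L (fun j => y (j + 1)) i

theorem ev_sh (had : ∀ a b, φ (ad a b) = φ a + φ b) (hsm : ∀ n a, φ (sm n a) = n * φ a) :
    ∀ (p : T α) (L : List ℤ) (y : ℕ → ℝ), evT φ (sh ad sm p L) y = evT φ p (shx L y)
  | T.c n, L, y => by simp [sh, evT]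
  | T.h a b, [], y => by
    show evT φ (T.h a b) y = _
    congr 1
  | T.h a b, A :: L, y => by
    have h1 := ev_sh had hsm a L (fun j => y (j + 1))
    have h2 := ev_sh had hsm b (A :: L) y
    show evT φ (addT ad (T.h (sh ad sm a L) (sh ad sm b (A :: L)))
      (mapT (sm A) (sh ad sm b (A :: L)))) y = _
    rw [ev_addT had, ev_map (hsm A)]
    simp only [evT]
    rw [h1, h2, show (fun i => shx (A :: L) y (i + 1)) = shx L (fun j => y (j + 1)) from rfl]
    simp only [shx]
    ring

/-- the old point of a scaling -/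
def scx : List ℤ → (ℕ → ℝ) → ℕ → ℝ
  | [], y, i => y i
  | B :: _, y, 0 => B * y 0
  | _ :: L, y, i + 1 => scx L (fun j => y (j + 1)) i

theorem ev_sc (hsm : ∀ n a, φ (sm n a) = n * φ a) : ∀ (p : T α) (L : List ℤ) (f : ℤ)
    (y : ℕ → ℝ), evT φ (sc sm p L f) y = f * evT φ p (scx L y)
  | T.c n, L, f, y => by simp [sc, evT, hsm]
  | T.h a b, [], f, y => by
    show evT φ (T.h (mapT (sm f) a) (mapT (sm f) b)) y = _
    simp only [evT, ev_map (hsm f)]
    rw [show scx [] y = y from rfl]
    ring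
  | T.h a b, B :: L, f, y => by
    have h1 := ev_sc hsm a L f (fun j => y (j + 1))
    have h2 := ev_sc hsm b (B :: L) (f * B) y
    show evT φ (T.h (sc sm a L f) (sc sm b (B :: L) (f * B))) y = _
    simp only [evT]
    rw [h1, h2, show (fun i => scx (B :: L) y (i + 1)) = scx L (fun j => y (j + 1)) from rfl]
    simp only [scx]
    push_cast
    ring

/-! ### homomorphisms -/

variable {ad' : β → β → β} {sm' : ℤ → β → β} {g : α → β}

theorem map_addc (had : ∀ a b, g (ad a b) = ad' (g a) (g b)) (n : α) : ∀ p : T α,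
    mapT g (addc ad n p) = addc ad' (g n) (mapT g p)
  | T.c m => by simp only [addc, mapT, had]
  | T.h a b => by simp only [addc, mapT, map_addc had n a]

theorem map_addT (had : ∀ a b, g (ad a b) = ad' (g a) (g b)) : ∀ p q : T α,
    mapT g (addT ad p q) = addT ad' (mapT g p) (mapT g q)
  | T.c n, q => map_addc had n q
  | T.h a b, T.c m => by
    show T.h (mapT g (addc ad m a)) (mapT g b) = T.h (addc ad' (g m) (mapT g a)) (mapT g b)
    rw [map_addc had]
  | T.h a b, T.h a' b' => by
    show T.h (mapT g (addT ad a a')) (mapT g (addT ad b b')) = T.h (addT ad' (mapT g a) (mapT g a'))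
      (addT ad' (mapT g b) (mapT g b'))
    rw [map_addT had a a', map_addT had b b']

theorem map_map {γ : Type} (f : α → β) (k : β → γ) : ∀ p : T α,
    mapT k (mapT f p) = mapT (fun a => k (f a)) p
  | T.c m => rfl
  | T.h a b => by simp only [mapT, map_map f k a, map_map f k b]

theorem map_comm {f : α → α} {f' : β → β} (h : ∀ a, g (f a) = f' (g a)) (p : T α) :
    mapT g (mapT f p) = mapT f' (mapT g p) := by
  rw [map_map, map_map]
  congr 1
  funext a
  exact h a

theorem map_sh (had : ∀ a b, g (ad a b) = ad' (g a) (g b))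
    (hsm : ∀ n a, g (sm n a) = sm' n (g a)) : ∀ (p : T α) (L : List ℤ),
    mapT g (sh ad sm p L) = sh ad' sm' (mapT g p) L
  | T.c n, L => rfl
  | T.h a b, [] => rfl
  | T.h a b, A :: L => by
    show mapT g (addT ad (T.h (sh ad sm a L) (sh ad sm b (A :: L)))
      (mapT (sm A) (sh ad sm b (A :: L)))) = addT ad' (T.h (sh ad' sm' (mapT g a) L)
        (sh ad' sm' (mapT g b) (A :: L))) (mapT (sm' A) (sh ad' sm' (mapT g b) (A :: L)))
    rw [map_addT had, map_comm (hsm A), ← map_sh had hsm a L, ← map_sh had hsm b (A :: L)]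
    rfl

theorem map_sc (hsm : ∀ n a, g (sm n a) = sm' n (g a)) : ∀ (p : T α) (L : List ℤ) (f : ℤ),
    mapT g (sc sm p L f) = sc sm' (mapT g p) L f
  | T.c n, L, f => by simp only [sc, mapT, hsm]
  | T.h a b, [], f => by
    show T.h (mapT g (mapT (sm f) a)) (mapT g (mapT (sm f) b)) = T.h (mapT (sm' f) (mapT g a))
      (mapT (sm' f) (mapT g b))
    rw [map_comm (hsm f), map_comm (hsm f)]
  | T.h a b, B :: L, f => by
    show T.h (mapT g (sc sm a L f)) (mapT g (sc sm b (B :: L) (f * B)))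
      = T.h (sc sm' (mapT g a) L f) (sc sm' (mapT g b) (B :: L) (f * B))
    rw [map_sc hsm a, map_sc hsm b]

/-! ### norms -/

/-- norm with radii `w` -/
def nrm (nm : α → ℕ) : T α → (ℕ → ℕ) → ℕ
  | T.c a, _ => nm a
  | T.h a b, w => nrm nm a (fun i => w (i + 1)) + w 0 * nrm nm b w

variable {nm : α → ℕ}

theorem nrm_mono : ∀ (p : T α) (w w' : ℕ → ℕ), (∀ i, w i ≤ w' i) → nrm nm p w ≤ nrm nm p w'
  | T.c m, w, w', _ => le_refl _
  | T.h a b, w, w', hw => Nat.add_le_add (nrm_mono a _ _ fun i => hw _)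
      (Nat.mul_le_mul (hw 0) (nrm_mono b _ _ hw))

theorem nrm_addc (had : ∀ a b, nm (ad a b) ≤ nm a + nm b) (n : α) : ∀ (p : T α) (w : ℕ → ℕ),
    nrm nm (addc ad n p) w ≤ nm n + nrm nm p w
  | T.c m, w => had n m
  | T.h a b, w => by
    have := nrm_addc had n a (fun i => w (i + 1))
    simp only [addc, nrm]
    omega

theorem nrm_addT (had : ∀ a b, nm (ad a b) ≤ nm a + nm b) : ∀ (p q : T α) (w : ℕ → ℕ),
    nrm nm (addT ad p q) w ≤ nrm nm p w + nrm nm q w
  | T.c n, q, w => nrm_addc had n q w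
  | T.h a b, T.c m, w => by
    have := nrm_addc had m a (fun i => w (i + 1))
    show nrm nm (T.h (addc ad m a) b) w ≤ _
    simp only [nrm]
    omega
  | T.h a b, T.h a' b', w => by
    have h1 := nrm_addT had a a' (fun i => w (i + 1))
    have h2 := Nat.mul_le_mul_left (w 0) (nrm_addT had b b' w)
    rw [Nat.mul_add] at h2
    show nrm nm (T.h (addT ad a a') (addT ad b b')) w ≤ _
    simp only [nrm]
    omega

theorem nrm_map {nm' : β → ℕ} {f : α → β} {k : ℕ} (hf : ∀ a, nm' (f a) ≤ k * nm a) :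
    ∀ (p : T α) (w : ℕ → ℕ), nrm nm' (mapT f p) w ≤ k * nrm nm p w
  | T.c m, w => hf m
  | T.h a b, w => by
    have h1 := nrm_map hf a (fun i => w (i + 1))
    have h2 := Nat.mul_le_mul_left (w 0) (nrm_map hf b w)
    simp only [mapT, nrm]
    calc _ ≤ k * nrm nm a (fun i => w (i + 1)) + w 0 * (k * nrm nm b w) := Nat.add_le_add h1 h2
      _ = _ := by ring

/-- radii after a shift -/
def shw : List ℤ → (ℕ → ℕ) → ℕ → ℕ
  | [], w, i => w i
  | A :: _, w, 0 => A.natAbs + w 0
  | _ :: L, w, i + 1 => shw L (fun j => w (j + 1)) i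

theorem nrm_sh (had : ∀ a b, nm (ad a b) ≤ nm a + nm b)
    (hsm : ∀ n a, nm (sm n a) ≤ n.natAbs * nm a) : ∀ (p : T α) (L : List ℤ) (w : ℕ → ℕ),
    nrm nm (sh ad sm p L) w ≤ nrm nm p (shw L w)
  | T.c n, L, w => le_refl _
  | T.h a b, [], w => le_refl _
  | T.h a b, A :: L, w => by
    have h1 := nrm_sh had hsm a L (fun j => w (j + 1))
    have h2 := nrm_sh had hsm b (A :: L) w
    have h3 := nrm_addT had (T.h (sh ad sm a L) (sh ad sm b (A :: L)))
      (mapT (sm A) (sh ad sm b (A :: L))) w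
    have h4 := nrm_map (hsm A) (sh ad sm b (A :: L)) w
    show nrm nm (addT ad (T.h (sh ad sm a L) (sh ad sm b (A :: L)))
      (mapT (sm A) (sh ad sm b (A :: L)))) w ≤ nrm nm a (fun i => shw (A :: L) w (i + 1))
        + (A.natAbs + w 0) * nrm nm b (shw (A :: L) w)
    rw [show (fun i => shw (A :: L) w (i + 1)) = shw L (fun j => w (j + 1)) from rfl]
    simp only [nrm] at h3
    have h5 : w 0 * nrm nm (sh ad sm b (A :: L)) w ≤ w 0 * nrm nm b (shw (A :: L) w) :=
      Nat.mul_le_mul_left _ h2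
    have h6 : A.natAbs * nrm nm (sh ad sm b (A :: L)) w ≤ A.natAbs * nrm nm b (shw (A :: L) w) :=
      Nat.mul_le_mul_left _ h2
    rw [Nat.add_mul]
    omega

/-- radii after a scaling -/
def scw : List ℤ → (ℕ → ℕ) → ℕ → ℕ
  | [], w, i => w i
  | B :: _, w, 0 => B.natAbs * w 0
  | _ :: L, w, i + 1 => scw L (fun j => w (j + 1)) i

theorem nrm_sc (hsm : ∀ n a, nm (sm n a) ≤ n.natAbs * nm a) : ∀ (p : T α) (L : List ℤ) (f : ℤ)
    (w : ℕ → ℕ), nrm nm (sc sm p L f) w ≤ f.natAbs * nrm nm p (scw L w)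
  | T.c n, L, f, w => hsm f n
  | T.h a b, [], f, w => by
    have h1 := nrm_map (hsm f) a (fun i => w (i + 1))
    have h2 := Nat.mul_le_mul_left (w 0) (nrm_map (hsm f) b w)
    show nrm nm (mapT (sm f) a) (fun i => w (i + 1)) + w 0 * nrm nm (mapT (sm f) b) w
      ≤ f.natAbs * (nrm nm a (fun i => w (i + 1)) + w 0 * nrm nm b w)
    calc _ ≤ _ := Nat.add_le_add h1 h2
      _ = _ := by ring
  | T.h a b, B :: L, f, w => by
    have h1 := nrm_sc hsm a L f (fun j => w (j + 1))
    have h2 := Nat.mul_le_mul_left (w 0) (nrm_sc hsm b (B :: L) (f * B) w)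
    show nrm nm (sc sm a L f) (fun i => w (i + 1)) + w 0 * nrm nm (sc sm b (B :: L) (f * B)) w
      ≤ f.natAbs * (nrm nm a (fun i => scw (B :: L) w (i + 1))
        + (B.natAbs * w 0) * nrm nm b (scw (B :: L) w))
    rw [show (fun i => scw (B :: L) w (i + 1)) = scw L (fun j => w (j + 1)) from rfl]
    calc _ ≤ _ := Nat.add_le_add h1 h2
      _ = _ := by
        rw [Int.natAbs_mul]
        ring

/-- the norm bounds the values -/
theorem ev_le_nrm (hnm : ∀ a, |φ a| ≤ nm a) : ∀ (p : T α) (w : ℕ → ℕ) (x : ℕ → ℝ),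
    (∀ i, |x i| ≤ w i) → |evT φ p x| ≤ nrm nm p w
  | T.c m, w, x, _ => hnm m
  | T.h a b, w, x, hx => by
    have h1 := ev_le_nrm hnm a (fun i => w (i + 1)) (fun i => x (i + 1)) (fun i => hx _)
    have h2 := ev_le_nrm hnm b w x hx
    have h3 : |x 0 * evT φ b x| ≤ (w 0 : ℝ) * nrm nm b w := by
      rw [abs_mul]
      exact mul_le_mul (hx 0) h2 (abs_nonneg _) (Nat.cast_nonneg _)
    simp only [evT, nrm]
    push_cast
    exact (abs_add_le _ _).trans (add_le_add h1 h3)

end gen

end Helper10.PC
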