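import Pool.Agent.Helper10.TOP.PC

/-!
# Vectors, packing and reading of the digits
-/

set_option autoImplicit false

namespace Helper10.PC

/-- packed value -/
def Lp (X : ℤ) : ℕ → (ℕ → ℤ) → ℤ
  | 0, _ => 0
  | m + 1, v => v 0 + X * Lp X m (fun i => v (i + 1))

/-- real value, `e i` the values of the monomials -/
noncomputable def ph : ℕ → (ℕ → ℝ) → (ℕ → ℤ) → ℝ
  | 0, _, _ => 0
  | m + 1, e, v => (v 0 : ℝ) * e 0 + ph m (fun i => e (i + 1)) (fun i => v (i + 1))

def nmv : ℕ → (ℕ → ℤ) → ℕ
  | 0, _ => 0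
  | m + 1, v => (v 0).natAbs + nmv m (fun i => v (i + 1))

def adv (v w : ℕ → ℤ) : ℕ → ℤ := fun i => v i + w i
def smv (n : ℤ) (v : ℕ → ℤ) : ℕ → ℤ := fun i => n * v i

theorem Lp_adv (X : ℤ) : ∀ (m : ℕ) (v w : ℕ → ℤ), Lp X m (adv v w) = Int.add (Lp X m v) (Lp X m w)
  | 0, v, w => rfl
  | m + 1, v, w => by
    show (v 0 + w 0) + X * Lp X m (adv (fun i => v (i + 1)) (fun i => w (i + 1))) =
      (v 0 + X * Lp X m (fun i => v (i + 1))) + (w 0 + X * Lp X m (fun i => w (i + 1)))
    rw [Lp_adv X m]
    show _ + X * (Lp X m _ + Lp X m _) = _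
    ring

theorem Lp_smv (X : ℤ) : ∀ (m : ℕ) (n : ℤ) (v : ℕ → ℤ),
    Lp X m (smv n v) = Int.mul n (Lp X m v)
  | 0, n, v => by
    show (0 : ℤ) = n * 0
    ring
  | m + 1, n, v => by
    show n * v 0 + X * Lp X m (smv n (fun i => v (i + 1))) =
      n * (v 0 + X * Lp X m (fun i => v (i + 1)))
    rw [Lp_smv X m]
    show _ + X * (n * Lp X m _) = _
    ring

theorem ph_adv : ∀ (m : ℕ) (e : ℕ → ℝ) (v w : ℕ → ℤ), ph m e (adv v w) = ph m e v + ph m e w
  | 0, e, v, w => by simp [ph]
  | m + 1, e, v, w => by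
    have := ph_adv m (fun i => e (i + 1)) (fun i => v (i + 1)) (fun i => w (i + 1))
    show ((v 0 + w 0 : ℤ) : ℝ) * e 0 + ph m (fun i => e (i + 1))
      (adv (fun i => v (i + 1)) (fun i => w (i + 1))) = _
    rw [this]
    simp only [ph]
    push_cast
    ring

theorem ph_smv : ∀ (m : ℕ) (e : ℕ → ℝ) (n : ℤ) (v : ℕ → ℤ), ph m e (smv n v) = n * ph m e v
  | 0, e, n, v => by simp [ph]
  | m + 1, e, n, v => by
    have := ph_smv m (fun i => e (i + 1)) n (fun i => v (i + 1))
    show ((n * v 0 : ℤ) : ℝ) * e 0 + ph m (fun i => e (i + 1)) (smv n (fun i => v (i + 1))) = _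
    rw [this]
    simp only [ph]
    push_cast
    ring

theorem nmv_adv : ∀ (m : ℕ) (v w : ℕ → ℤ), nmv m (adv v w) ≤ nmv m v + nmv m w
  | 0, v, w => le_refl _
  | m + 1, v, w => by
    have h1 := nmv_adv m (fun i => v (i + 1)) (fun i => w (i + 1))
    have h2 := Int.natAbs_add_le (v 0) (w 0)
    show (v 0 + w 0).natAbs + nmv m (adv (fun i => v (i + 1)) (fun i => w (i + 1))) ≤ _
    simp only [nmv]
    omega

theorem nmv_smv : ∀ (m : ℕ) (n : ℤ) (v : ℕ → ℤ), nmv m (smv n v) = n.natAbs * nmv m v
  | 0, n, v => by simp [nmv]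
  | m + 1, n, v => by
    have h1 := nmv_smv m n (fun i => v (i + 1))
    show (n * v 0).natAbs + nmv m (smv n (fun i => v (i + 1))) = _
    rw [h1, Int.natAbs_mul]
    simp only [nmv]
    ring

theorem ph_le : ∀ (m : ℕ) (e : ℕ → ℝ) (v : ℕ → ℤ), (∀ i, |e i| ≤ 1) → |ph m e v| ≤ nmv m v
  | 0, e, v, _ => by simp [ph, nmv]
  | m + 1, e, v, he => by
    have h1 := ph_le m (fun i => e (i + 1)) (fun i => v (i + 1)) (fun i => he _)
    have h2 : |(v 0 : ℝ) * e 0| ≤ ((v 0).natAbs : ℝ) := by
      rw [abs_mul, Nat.cast_natAbs]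
      push_cast
      calc |(v 0 : ℝ)| * |e 0| ≤ |(v 0 : ℝ)| * 1 :=
            mul_le_mul_of_nonneg_left (he 0) (abs_nonneg _)
        _ = _ := mul_one _
    simp only [ph, nmv]
    push_cast
    exact (abs_add_le _ _).trans (add_le_add h2 h1)

/-! ### digits -/

/-- value of the digit `g` (bias `B`): full absolute value, or negative part if `f` -/
def dval (B : ℕ) (f : Bool) (g : ℕ) : ℕ :=
  cond f (Nat.sub B g) (Nat.add (Nat.sub g B) (Nat.sub B g))

/-- `es` = the monomials of the slots that are nonnegative -/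
def dsum (X B : ℕ) (f : Bool) : List Bool → ℕ → ℕ
  | [] => fun _ => 0
  | e :: es => fun y => Nat.add (dval B (cond f e false) (Nat.mod y X)) (dsum X B f es (Nat.div y X))

def biasN (X B : ℕ) : ℕ → ℕ
  | 0 => 0
  | m + 1 => B + X * biasN X B m

theorem dval_sound {B : ℕ} {f : Bool} {g : ℕ} {v : ℤ} {c : ℝ} (hg : (g : ℤ) = v + B)
    (hc : |c| ≤ 1) (hf : f = true → 0 ≤ c) : -(dval B f g : ℝ) ≤ (v : ℝ) * c := by
  have hc' := abs_le.mp hc
  have h0 : (g : ℝ) = v + B := by exact_mod_cast hg
  cases f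
  · show -(((g - B) + (B - g) : ℕ) : ℝ) ≤ (v : ℝ) * c
    rcases le_total B g with h | h
    · have e1 : B - g = 0 := Nat.sub_eq_zero_of_le h
      have e2 : ((g - B : ℕ) : ℝ) = v := by
        rw [Nat.cast_sub h, h0]
        ring
      have hv : (0 : ℝ) ≤ v := by rw [← e2]; exact Nat.cast_nonneg _
      rw [e1]
      push_cast
      rw [e2]
      nlinarith [hc'.1]
    · have e1 : g - B = 0 := Nat.sub_eq_zero_of_le h
      have e2 : ((B - g : ℕ) : ℝ) = -v := by
        rw [Nat.cast_sub h, h0]
        ring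
      have hv : (v : ℝ) ≤ 0 := by
        have : (0 : ℝ) ≤ -v := by rw [← e2]; exact Nat.cast_nonneg _
        linarith
      rw [e1]
      push_cast
      rw [e2]
      nlinarith [hc'.2]
  · have hc0 := hf rfl
    show -((B - g : ℕ) : ℝ) ≤ (v : ℝ) * c
    rcases le_total B g with h | h
    · have e1 : B - g = 0 := Nat.sub_eq_zero_of_le h
      have hv : (0 : ℝ) ≤ v := by
        have : (B : ℝ) ≤ g := by exact_mod_cast h
        linarith
      rw [e1]
      push_cast
      nlinarith
    · have e2 : ((B - g : ℕ) : ℝ) = -v := by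
        rw [Nat.cast_sub h, h0]
        ring
      have hv : (v : ℝ) ≤ 0 := by
        have : (0 : ℝ) ≤ -v := by rw [← e2]; exact Nat.cast_nonneg _
        linarith
      rw [e2]
      nlinarith [hc'.2]

/-- the slots of `es` are nonnegative -/
def EvOK : List Bool → (ℕ → ℝ) → Prop
  | [], _ => True
  | b :: es, e => (b = true → 0 ≤ e 0) ∧ EvOK es (fun i => e (i + 1))

theorem biasN_pos (X B : ℕ) (hX : X = 2 * B) : ∀ (m : ℕ) (v : ℕ → ℤ), nmv m v < B →
    0 ≤ Lp X m v + biasN X B m
  | 0, v, _ => le_refl _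
  | m + 1, v, h => by
    have h' : (v 0).natAbs + nmv m (fun i => v (i + 1)) < B := h
    have h1 := biasN_pos X B hX m (fun i => v (i + 1)) (by omega)
    show 0 ≤ v 0 + X * Lp X m (fun i => v (i + 1)) + ((B + X * biasN X B m : ℕ) : ℤ)
    push_cast
    have h2 : (0 : ℤ) ≤ v 0 + B := by omega
    have h3 : (0 : ℤ) ≤ X * (Lp X m (fun i => v (i + 1)) + biasN X B m) :=
      mul_nonneg (Int.natCast_nonneg _) h1
    linarith

theorem dsum_sound {X B : ℕ} (hX : X = 2 * B) {f : Bool} {c : ℝ} (hc : |c| ≤ 1)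
    (hf : f = true → 0 ≤ c) : ∀ (es : List Bool) (e : ℕ → ℝ) (v : ℕ → ℤ) (y : ℕ),
    (∀ i, |e i| ≤ 1) → EvOK es e → nmv es.length v < B →
    (y : ℤ) = Lp X es.length v + biasN X B es.length →
    -(dsum X B f es y : ℝ) ≤ c * ph es.length e v
  | [], e, v, y, _, _, _, _ => by simp [dsum, ph]
  | b :: es, e, v, y, he, hev, hn, hy => by
    have hn' : (v 0).natAbs + nmv es.length (fun i => v (i + 1)) < B := hn
    have hB : 0 < B := by omega
    have hp := biasN_pos X B hX es.length (fun i => v (i + 1)) (by omega)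
    have hy' : (y : ℤ) = (v 0 + B) + X * (Lp X es.length (fun i => v (i + 1))
        + biasN X B es.length) := by
      rw [hy]
      show v 0 + X * Lp X es.length (fun i => v (i + 1))
        + ((B + X * biasN X B es.length : ℕ) : ℤ) = _
      push_cast
      ring
    have hXpos : (0 : ℤ) < X := by omega
    have hm : ((y % X : ℕ) : ℤ) = v 0 + B := by
      push_cast
      rw [hy', Int.add_mul_emod_self_left]
      exact Int.emod_eq_of_lt (by omega) (by omega)
    have hd : ((y / X : ℕ) : ℤ) = Lp X es.length (fun i => v (i + 1))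
        + biasN X B es.length := by
      push_cast
      rw [hy', Int.add_mul_ediv_left _ _ (ne_of_gt hXpos)]
      rw [Int.ediv_eq_zero_of_lt (by omega) (by omega)]
      ring
    have h1 := dsum_sound hX hc hf es (fun i => e (i + 1)) (fun i => v (i + 1)) (y / X)
      (fun i => he _) hev.2 (by omega) hd
    have h2 : |c * e 0| ≤ 1 := by
      rw [abs_mul]
      calc |c| * |e 0| ≤ 1 * 1 := mul_le_mul hc (he 0) (abs_nonneg _) zero_le_one
        _ = 1 := one_mul _
    have h3 : cond f b false = true → 0 ≤ c * e 0 := by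
      intro h
      cases f
      · exact absurd h Bool.false_ne_true
      · exact mul_nonneg (hf rfl) (hev.1 h)
    have h4 := dval_sound (B := B) (f := cond f b false) hm h2 h3
    show -((dval B (cond f b false) (y % X) + dsum X B f es (y / X) : ℕ) : ℝ)
      ≤ c * ((v 0 : ℝ) * e 0 + ph es.length (fun i => e (i + 1)) (fun i => v (i + 1)))
    push_cast
    have : (v 0 : ℝ) * (c * e 0) = c * ((v 0 : ℝ) * e 0) := by ring
    linarith

/-! ### the polynomial -/

/-- sum of the absolute values of the digits of all coefficients (negative parts only, for the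
nonnegative monomials); `f0`: the monomial of the outer variables is a square, `par`: the
exponent of the current variable is even -/
def tot (X B S : ℕ) (es : List Bool) : T ℤ → Bool → Bool → ℕ
  | T.c z => fun f0 par => dsum X B (cond f0 par false) es (Int.toNat (Int.add z (Int.ofNat S)))
  | T.h a b => fun f0 par => Nat.add (tot X B S es a (cond f0 par false) true)
      (tot X B S es b f0 (cond par false true))

theorem tot_sound {X B : ℕ} (hX : X = 2 * B) {es : List Bool} {e : ℕ → ℝ}
    (he : ∀ i, |e i| ≤ 1) (hev : EvOK es e) : ∀ (p : T (ℕ → ℤ)) (f0 par : Bool) (x : ℕ → ℝ)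
    (M N : ℝ), (∀ i, |x i| ≤ 1) → nrm (nmv es.length) p (fun _ => 1) < B →
    |M| ≤ 1 → |N| ≤ 1 → (f0 = true → 0 ≤ M) → (par = true → 0 ≤ N) →
    (par = false → 0 ≤ N * x 0) →
    -(tot X B (biasN X B es.length) es (mapT (Lp X es.length) p) f0 par : ℝ)
      ≤ M * N * evT (ph es.length e) p x
  | T.c v, f0, par, x, M, N, hx, hn, hM, hN, h1, h2, h3 => by
    have hn' : nmv es.length v < B := hn
    have hpos := biasN_pos X B hX es.length v hn'
    have hMN : |M * N| ≤ 1 := by
      rw [abs_mul]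
      calc |M| * |N| ≤ 1 * 1 := mul_le_mul hM hN (abs_nonneg _) zero_le_one
        _ = 1 := one_mul _
    refine dsum_sound hX hMN (fun h => ?_) es e v _ he hev hn' ?_
    · cases f0
      · exact absurd h Bool.false_ne_true
      · exact mul_nonneg (h1 rfl) (h2 h)
    · show ((Int.toNat (Lp X es.length v + (biasN X B es.length : ℤ)) : ℕ) : ℤ) = _
      exact Int.toNat_of_nonneg hpos
  | T.h a b, f0, par, x, M, N, hx, hn, hM, hN, h1, h2, h3 => by
    have hn' : nrm (nmv es.length) a (fun _ => 1) + 1 * nrm (nmv es.length) b (fun _ => 1) < B := hn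
    have hMN : |M * N| ≤ 1 := by
      rw [abs_mul]
      calc |M| * |N| ≤ 1 * 1 := mul_le_mul hM hN (abs_nonneg _) zero_le_one
        _ = 1 := one_mul _
    have ha := tot_sound hX he hev a (cond f0 par false) true (fun i => x (i + 1)) (M * N) 1
      (fun i => hx _) (by omega) hMN (by simp) (fun h => by
        cases f0
        · exact absurd h Bool.false_ne_true
        · exact mul_nonneg (h1 rfl) (h2 h)) (fun _ => zero_le_one)
      (fun h => absurd h.symm Bool.false_ne_true)
    have hNx : |N * x 0| ≤ 1 := by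
      rw [abs_mul]
      calc |N| * |x 0| ≤ 1 * 1 := mul_le_mul hN (hx 0) (abs_nonneg _) zero_le_one
        _ = 1 := one_mul _
    have hb := tot_sound hX he hev b f0 (cond par false true) x M (N * x 0)
      hx (by omega) hM hNx h1 (fun h => by
        cases par
        · exact h3 rfl
        · exact absurd h Bool.false_ne_true) (fun h => by
        cases par
        · exact absurd h.symm Bool.false_ne_true
        · have := mul_nonneg (h2 rfl) (mul_self_nonneg (x 0))
          calc (0 : ℝ) ≤ N * (x 0 * x 0) := this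
            _ = N * x 0 * x 0 := by ring)
    show -((tot X B (biasN X B es.length) es (mapT (Lp X es.length) a) (cond f0 par false) true
      + tot X B (biasN X B es.length) es (mapT (Lp X es.length) b) f0 (cond par false true) : ℕ) : ℝ)
      ≤ M * N * (evT (ph es.length e) a (fun i => x (i + 1)) + x 0 * evT (ph es.length e) b x)
    push_cast
    have e1 : M * N * (evT (ph es.length e) a (fun i => x (i + 1))
        + x 0 * evT (ph es.length e) b x) = M * N * 1 * evT (ph es.length e) a (fun i => x (i + 1))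
        + M * (N * x 0) * evT (ph es.length e) b x := by ring
    rw [e1]
    linarith

/-- **lower bound of a packed polynomial** -/
theorem low_sound {X B : ℕ} (hX : X = 2 * B) {es : List Bool} {e : ℕ → ℝ}
    (he : ∀ i, |e i| ≤ 1) (he0 : e 0 = 1) (hes : 0 < es.length) (hev : EvOK es e)
    (p : T (ℕ → ℤ)) (v0 : ℤ) (b : ℕ)
    (hb : nrm (nmv es.length) p (fun _ => 1) ≤ b) (hB : b + v0.natAbs < B) {x : ℕ → ℝ}
    (hx : ∀ i, |x i| ≤ 1) :
    (v0 : ℝ) - (tot X B (biasN X B es.length) es (addc Int.add (-v0) (mapT (Lp X es.length) p))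
      true true : ℝ) ≤ evT (ph es.length e) p x := by
  obtain ⟨m, hm⟩ : ∃ m, es.length = m + 1 := ⟨es.length - 1, by omega⟩
  set u : ℕ → ℤ := fun i => if i = 0 then -v0 else 0 with hu
  have hz : ∀ (k : ℕ), Lp X k (fun i => u (i + 1)) = 0 ∧ nmv k (fun i => u (i + 1)) = 0
      ∧ ∀ e : ℕ → ℝ, ph k e (fun i => u (i + 1)) = 0 := by
    have : (fun i => u (i + 1)) = fun _ => (0 : ℤ) := by
      funext i
      simp [hu]
    rw [this]
    intro k
    induction k with
    | zero => exact ⟨rfl, rfl, fun _ => rfl⟩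
    | succ k ih =>
      refine ⟨?_, ?_, fun e => ?_⟩
      · show 0 + X * Lp X k (fun _ => 0) = 0
        rw [ih.1]
        simp
      · show (0 : ℤ).natAbs + nmv k (fun _ => 0) = 0
        rw [ih.2.1]
        rfl
      · show ((0 : ℤ) : ℝ) * e 0 + ph k (fun i => e (i + 1)) (fun _ => 0) = 0
        rw [ih.2.2]
        simp
  have hL : Lp X es.length u = -v0 := by
    rw [hm]
    show u 0 + X * Lp X m (fun i => u (i + 1)) = -v0
    rw [(hz m).1]
    simp [hu]
  have hnu : nmv es.length u = v0.natAbs := by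
    rw [hm]
    show (u 0).natAbs + nmv m (fun i => u (i + 1)) = _
    rw [(hz m).2.1]
    simp [hu]
  have hph : ph es.length e u = -v0 := by
    rw [hm]
    show ((u 0 : ℤ) : ℝ) * e 0 + ph m (fun i => e (i + 1)) (fun i => u (i + 1)) = _
    rw [(hz m).2.2, he0]
    simp [hu]
  have h1 : mapT (Lp X es.length) (addc adv u p) = addc Int.add (-v0) (mapT (Lp X es.length) p) := by
    rw [map_addc (ad' := Int.add) (fun a b => Lp_adv X es.length a b), hL]
  have h2 : nrm (nmv es.length) (addc adv u p) (fun _ => 1) < B := by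
    have := nrm_addc (nm := nmv es.length) (ad := adv) (nmv_adv es.length) u p (fun _ => 1)
    rw [hnu] at this
    omega
  have h3 := tot_sound hX he hev (addc adv u p) true true x 1 1 hx h2 (by simp) (by simp)
    (fun _ => zero_le_one) (fun _ => zero_le_one) (fun h => absurd h.symm Bool.false_ne_true)
  rw [h1] at h3
  rw [ev_addc (φ := ph es.length e) (ad := adv) (ph_adv es.length e) u p x, hph] at h3
  linarith

end Helper10.PC
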