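import Pool.Agent.Helper10.TOP.PD

/-!
# Taylor models of degree 3 in two variables; the packed polynomial of a cell
-/

set_option autoImplicit false

namespace Helper10.PC

/-- coefficients of `1, s, t, s², st, t², s³, s²t, st², t³` and an error bound -/
structure V3 where
  a0 : ℤ
  a1 : ℤ
  a2 : ℤ
  a3 : ℤ
  a4 : ℤ
  a5 : ℤ
  a6 : ℤ
  a7 : ℤ
  a8 : ℤ
  a9 : ℤ
  e : ℕ

noncomputable def V3.ev (V : V3) (s t : ℝ) : ℝ :=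
  V.a0 + V.a1 * s + V.a2 * t + V.a3 * s ^ 2 + V.a4 * (s * t) + V.a5 * t ^ 2 + V.a6 * s ^ 3
    + V.a7 * (s ^ 2 * t) + V.a8 * (s * t ^ 2) + V.a9 * t ^ 3

def nA (a b : ℤ) : ℕ := Nat.add (Int.natAbs a) (Int.natAbs b)

def V3.n1 (V : V3) : ℕ := nA V.a1 V.a2
def V3.n2 (V : V3) : ℕ := Nat.add (nA V.a3 V.a4) (Int.natAbs V.a5)
def V3.n3 (V : V3) : ℕ := Nat.add (nA V.a6 V.a7) (nA V.a8 V.a9)
def V3.nn (V : V3) : ℕ := Nat.add (Nat.add (Int.natAbs V.a0) V.n1) (Nat.add V.n2 V.n3)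

/-- sums of products -/
def s2 (a b c d : ℤ) : ℤ := Int.add (Int.mul a b) (Int.mul c d)
def s3 (a b c d e f : ℤ) : ℤ := Int.add (s2 a b c d) (Int.mul e f)
def s4 (a b c d e f g h : ℤ) : ℤ := Int.add (s2 a b c d) (s2 e f g h)

def V3.mul (V W : V3) : V3 := match V, W with
  | ⟨a0, a1, a2, a3, a4, a5, a6, a7, a8, a9, e⟩, ⟨b0, b1, b2, b3, b4, b5, b6, b7, b8, b9, f⟩ =>
    match nA a1 a2, Nat.add (nA a3 a4) (Int.natAbs a5), Nat.add (nA a6 a7) (nA a8 a9),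
      nA b1 b2, Nat.add (nA b3 b4) (Int.natAbs b5), Nat.add (nA b6 b7) (nA b8 b9) with
    | n1, n2, n3, m1, m2, m3 =>
    ⟨Int.mul a0 b0, s2 a0 b1 a1 b0, s2 a0 b2 a2 b0, s3 a0 b3 a1 b1 a3 b0,
      s4 a0 b4 a1 b2 a2 b1 a4 b0, s3 a0 b5 a2 b2 a5 b0, s4 a0 b6 a1 b3 a3 b1 a6 b0,
      Int.add (s4 a0 b7 a1 b4 a2 b3 a3 b2) (s2 a4 b1 a7 b0),
      Int.add (s4 a0 b8 a1 b5 a2 b4 a4 b2) (s2 a5 b1 a8 b0),
      s4 a0 b9 a2 b5 a5 b2 a9 b0,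
      Nat.add (Nat.add (Nat.add (Nat.mul n1 m3) (Nat.mul n2 (Nat.add m2 m3)))
        (Nat.mul n3 (Nat.add m1 (Nat.add m2 m3))))
        (Nat.add (Nat.mul (Nat.add (Nat.add (Int.natAbs a0) n1) (Nat.add n2 n3)) f)
          (Nat.mul e (Nat.add (Nat.add (Nat.add (Int.natAbs b0) m1) (Nat.add m2 m3)) f)))⟩

/-- `V` approximates `v` at `(s, t)` -/
def Ap3 (s t : ℝ) (V : V3) (v : ℝ) : Prop := |v - V.ev s t| ≤ V.e

theorem nabs (a : ℤ) : ((a.natAbs : ℕ) : ℝ) = |(a : ℝ)| := by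
  rw [Nat.cast_natAbs]
  push_cast
  rfl

theorem mul_aux {s t : ℝ} (hs : |s| ≤ 1) (ht : |t| ≤ 1) (i j : ℕ) (a : ℝ) :
    |a * (s ^ i * t ^ j)| ≤ |a| := by
  rw [abs_mul, abs_mul, abs_pow, abs_pow]
  have h1 : |s| ^ i ≤ 1 := pow_le_one₀ (abs_nonneg _) hs
  have h2 : |t| ^ j ≤ 1 := pow_le_one₀ (abs_nonneg _) ht
  have h3 : |s| ^ i * |t| ^ j ≤ 1 := by
    calc _ ≤ 1 * 1 := mul_le_mul h1 h2 (by positivity) zero_le_one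
      _ = 1 := one_mul _
  calc |a| * (|s| ^ i * |t| ^ j) ≤ |a| * 1 := mul_le_mul_of_nonneg_left h3 (abs_nonneg _)
    _ = _ := mul_one _

/-- homogeneous parts -/
noncomputable def h1 (a b s t : ℝ) : ℝ := a * (s ^ 1 * t ^ 0) + b * (s ^ 0 * t ^ 1)
noncomputable def h2 (a b c s t : ℝ) : ℝ :=
  a * (s ^ 2 * t ^ 0) + b * (s ^ 1 * t ^ 1) + c * (s ^ 0 * t ^ 2)
noncomputable def h3 (a b c d s t : ℝ) : ℝ :=
  a * (s ^ 3 * t ^ 0) + b * (s ^ 2 * t ^ 1) + (c * (s ^ 1 * t ^ 2) + d * (s ^ 0 * t ^ 3))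

theorem h1_le {s t : ℝ} (hs : |s| ≤ 1) (ht : |t| ≤ 1) (a b : ℝ) : |h1 a b s t| ≤ |a| + |b| :=
  (abs_add_le _ _).trans (add_le_add (mul_aux hs ht _ _ _) (mul_aux hs ht _ _ _))
theorem h2_le {s t : ℝ} (hs : |s| ≤ 1) (ht : |t| ≤ 1) (a b c : ℝ) :
    |h2 a b c s t| ≤ |a| + |b| + |c| :=
  (abs_add_le _ _).trans (add_le_add ((abs_add_le _ _).trans (add_le_add
    (mul_aux hs ht _ _ _) (mul_aux hs ht _ _ _))) (mul_aux hs ht _ _ _))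
theorem h3_le {s t : ℝ} (hs : |s| ≤ 1) (ht : |t| ≤ 1) (a b c d : ℝ) :
    |h3 a b c d s t| ≤ |a| + |b| + (|c| + |d|) :=
  (abs_add_le _ _).trans (add_le_add ((abs_add_le _ _).trans (add_le_add
    (mul_aux hs ht _ _ _) (mul_aux hs ht _ _ _))) ((abs_add_le _ _).trans (add_le_add
    (mul_aux hs ht _ _ _) (mul_aux hs ht _ _ _))))

theorem ev_parts (V : V3) (s t : ℝ) : V.ev s t = V.a0 + h1 V.a1 V.a2 s t
    + h2 V.a3 V.a4 V.a5 s t + h3 V.a6 V.a7 V.a8 V.a9 s t := by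
  simp only [V3.ev, h1, h2, h3]
  ring

theorem cs2 (a b c d : ℤ) : ((s2 a b c d : ℤ) : ℝ) = a * b + c * d := by
  have : s2 a b c d = a * b + c * d := rfl
  rw [this]
  push_cast
  rfl
theorem cs3 (a b c d e f : ℤ) : ((s3 a b c d e f : ℤ) : ℝ) = a * b + c * d + e * f := by
  have : s3 a b c d e f = a * b + c * d + e * f := rfl
  rw [this]
  push_cast
  rfl
theorem cs4 (a b c d e f g h : ℤ) :
    ((s4 a b c d e f g h : ℤ) : ℝ) = a * b + c * d + (e * f + g * h) := by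
  have : s4 a b c d e f g h = a * b + c * d + (e * f + g * h) := rfl
  rw [this]
  push_cast
  rfl

/-- truncated product in terms of the homogeneous parts -/
theorem tail_bound {x0 x1 x2 x3 y0 y1 y2 y3 v w e f n1 n2 n3 m1 m2 m3 N M : ℝ}
    (hx1 : |x1| ≤ n1) (hx2 : |x2| ≤ n2) (hx3 : |x3| ≤ n3) (hy1 : |y1| ≤ m1) (hy2 : |y2| ≤ m2)
    (hy3 : |y3| ≤ m3) (hN : N = |x0| + n1 + (n2 + n3)) (hM : M = |y0| + m1 + (m2 + m3))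
    (hv : |v - (x0 + x1 + x2 + x3)| ≤ e) (hw : |w - (y0 + y1 + y2 + y3)| ≤ f) :
    |v * w - (x0 * y0 + (x0 * y1 + x1 * y0) + (x0 * y2 + x1 * y1 + x2 * y0)
      + (x0 * y3 + x1 * y2 + x2 * y1 + x3 * y0))|
      ≤ n1 * m3 + n2 * (m2 + m3) + n3 * (m1 + (m2 + m3)) + (N * f + e * (M + f)) := by
  have he : 0 ≤ e := (abs_nonneg _).trans hv
  have hf : 0 ≤ f := (abs_nonneg _).trans hw
  have p1 : 0 ≤ n1 := (abs_nonneg _).trans hx1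
  have p2 : 0 ≤ n2 := (abs_nonneg _).trans hx2
  have p3 : 0 ≤ n3 := (abs_nonneg _).trans hx3
  have hX : |x0 + x1 + x2 + x3| ≤ N := by
    rw [hN]
    have := abs_add_le (x0 + x1) (x2 + x3)
    have h1 := abs_add_le x0 x1
    have h2 := abs_add_le x2 x3
    rw [show x0 + x1 + x2 + x3 = x0 + x1 + (x2 + x3) by ring]
    linarith
  have hY : |y0 + y1 + y2 + y3| ≤ M := by
    rw [hM]
    have := abs_add_le (y0 + y1) (y2 + y3)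
    have h1 := abs_add_le y0 y1
    have h2 := abs_add_le y2 y3
    rw [show y0 + y1 + y2 + y3 = y0 + y1 + (y2 + y3) by ring]
    linarith
  have hw' : |w| ≤ M + f := by
    calc |w| = |(y0 + y1 + y2 + y3) + (w - (y0 + y1 + y2 + y3))| := by ring_nf
      _ ≤ _ := (abs_add_le _ _).trans (add_le_add hY hw)
  have t1 : |x1 * y3| ≤ n1 * m3 := by
    rw [abs_mul]; exact mul_le_mul hx1 hy3 (abs_nonneg _) p1
  have t2 : |x2 * (y2 + y3)| ≤ n2 * (m2 + m3) := by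
    rw [abs_mul]
    exact mul_le_mul hx2 ((abs_add_le _ _).trans (add_le_add hy2 hy3)) (abs_nonneg _) p2
  have t3 : |x3 * (y1 + (y2 + y3))| ≤ n3 * (m1 + (m2 + m3)) := by
    rw [abs_mul]
    exact mul_le_mul hx3 ((abs_add_le _ _).trans (add_le_add hy1
      ((abs_add_le _ _).trans (add_le_add hy2 hy3)))) (abs_nonneg _) p3
  have t4 : |(x0 + x1 + x2 + x3) * (w - (y0 + y1 + y2 + y3))| ≤ N * f := by
    rw [abs_mul]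
    exact mul_le_mul hX hw (abs_nonneg _) ((abs_nonneg _).trans hX)
  have t5 : |(v - (x0 + x1 + x2 + x3)) * w| ≤ e * (M + f) := by
    rw [abs_mul]
    exact mul_le_mul hv hw' (abs_nonneg _) he
  have e1 : v * w - (x0 * y0 + (x0 * y1 + x1 * y0) + (x0 * y2 + x1 * y1 + x2 * y0)
      + (x0 * y3 + x1 * y2 + x2 * y1 + x3 * y0))
      = x1 * y3 + x2 * (y2 + y3) + x3 * (y1 + (y2 + y3))
        + ((x0 + x1 + x2 + x3) * (w - (y0 + y1 + y2 + y3)) + (v - (x0 + x1 + x2 + x3)) * w) := by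
    ring
  rw [e1]
  refine (abs_add_le _ _).trans (add_le_add ((abs_add_le _ _).trans (add_le_add
    ((abs_add_le _ _).trans (add_le_add t1 t2)) t3)) ((abs_add_le _ _).trans (add_le_add t4 t5)))

theorem V3.mul_sound {s t : ℝ} (hs : |s| ≤ 1) (ht : |t| ≤ 1) {V W : V3} {v w : ℝ}
    (hv : Ap3 s t V v) (hw : Ap3 s t W w) : Ap3 s t (V.mul W) (v * w) := by
  obtain ⟨a0, a1, a2, a3, a4, a5, a6, a7, a8, a9, e⟩ := V
  obtain ⟨b0, b1, b2, b3, b4, b5, b6, b7, b8, b9, f⟩ := W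
  unfold Ap3 at *
  rw [ev_parts] at hv hw
  simp only at hv hw
  have key := tail_bound (N := |(a0 : ℝ)| + (|(a1 : ℝ)| + |(a2 : ℝ)|)
      + ((|(a3 : ℝ)| + |(a4 : ℝ)| + |(a5 : ℝ)|)
      + (|(a6 : ℝ)| + |(a7 : ℝ)| + (|(a8 : ℝ)| + |(a9 : ℝ)|))))
      (M := |(b0 : ℝ)| + (|(b1 : ℝ)| + |(b2 : ℝ)|)
      + ((|(b3 : ℝ)| + |(b4 : ℝ)| + |(b5 : ℝ)|)
      + (|(b6 : ℝ)| + |(b7 : ℝ)| + (|(b8 : ℝ)| + |(b9 : ℝ)|))))
    (h1_le hs ht a1 a2) (h2_le hs ht a3 a4 a5) (h3_le hs ht a6 a7 a8 a9)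
    (h1_le hs ht b1 b2) (h2_le hs ht b3 b4 b5) (h3_le hs ht b6 b7 b8 b9) rfl rfl hv hw
  have e1 : ((V3.mul ⟨a0, a1, a2, a3, a4, a5, a6, a7, a8, a9, e⟩
      ⟨b0, b1, b2, b3, b4, b5, b6, b7, b8, b9, f⟩).e : ℝ)
      = (|(a1 : ℝ)| + |(a2 : ℝ)|) * (|(b6 : ℝ)| + |(b7 : ℝ)| + (|(b8 : ℝ)| + |(b9 : ℝ)|))
        + (|(a3 : ℝ)| + |(a4 : ℝ)| + |(a5 : ℝ)|) * ((|(b3 : ℝ)| + |(b4 : ℝ)| + |(b5 : ℝ)|)
          + (|(b6 : ℝ)| + |(b7 : ℝ)| + (|(b8 : ℝ)| + |(b9 : ℝ)|)))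
        + (|(a6 : ℝ)| + |(a7 : ℝ)| + (|(a8 : ℝ)| + |(a9 : ℝ)|)) * ((|(b1 : ℝ)| + |(b2 : ℝ)|)
          + ((|(b3 : ℝ)| + |(b4 : ℝ)| + |(b5 : ℝ)|)
          + (|(b6 : ℝ)| + |(b7 : ℝ)| + (|(b8 : ℝ)| + |(b9 : ℝ)|))))
        + ((|(a0 : ℝ)| + (|(a1 : ℝ)| + |(a2 : ℝ)|)
          + ((|(a3 : ℝ)| + |(a4 : ℝ)| + |(a5 : ℝ)|)
          + (|(a6 : ℝ)| + |(a7 : ℝ)| + (|(a8 : ℝ)| + |(a9 : ℝ)|)))) * f
          + e * ((|(b0 : ℝ)| + (|(b1 : ℝ)| + |(b2 : ℝ)|)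
          + ((|(b3 : ℝ)| + |(b4 : ℝ)| + |(b5 : ℝ)|)
          + (|(b6 : ℝ)| + |(b7 : ℝ)| + (|(b8 : ℝ)| + |(b9 : ℝ)|)))) + f)) := by
    simp only [V3.mul, nA, Nat.add_eq, Nat.mul_eq]
    push_cast
    simp only [nabs]
  rw [e1]
  refine le_trans (le_of_eq ?_) key
  congr 1
  simp only [V3.mul, V3.ev, h1, h2, h3, cs2, cs3, cs4, Int.add_def, Int.mul_def]
  push_cast
  simp only [cs2, cs3, cs4]
  ring

end Helper10.PC
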