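import Pool.Agent.Helper10.TOP.PE

/-!
# The packed polynomial of a cell and the leaf test
-/

set_option autoImplicit false

namespace Helper10.PC

/-! ### monomials in `u` -/

/-- exponents of `u` -/
@[reducible] def Al : Type := ℕ × ℕ × ℕ

noncomputable def monU (a : Al) (x y z : ℝ) : ℝ := x ^ a.1 * y ^ a.2.1 * z ^ a.2.2

/-- value of a polynomial with integer coefficients -/
noncomputable def evZ (C : T ℤ) (p : ℕ → ℝ) : ℝ := evT (fun n : ℤ => (n : ℝ)) C p

/-- `∑ u ^ α C_α (p)` -/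
noncomputable def valZ : List Al → List (T ℤ) → ℝ → ℝ → ℝ → (ℕ → ℝ) → ℝ
  | a :: A, C :: L, x, y, z, p => monU a x y z * evZ C p + valZ A L x y z p
  | _, _, _, _, _, _ => 0

/-- `∑ U ^ α D ^ (K - |α|) C_α (p)` -/
noncomputable def valD (K : ℕ) : List Al → List (T ℤ) → ℝ → ℝ → ℝ → ℝ → (ℕ → ℝ) → ℝ
  | a :: A, C :: L, x, y, z, D, p =>
    monU a x y z * D ^ (K - (a.1 + a.2.1 + a.2.2)) * evZ C p + valD K A L x y z D p
  | _, _, _, _, _, _, _ => 0

def degOK (K : ℕ) : List Al → Bool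
  | [] => true
  | (i, j, k) :: A => cond (Nat.ble (Nat.add i (Nat.add j k)) K) (degOK K A) false

theorem cond_ff {a b : Bool} (h : cond a b false = true) : a = true ∧ b = true := by
  cases a
  · exact absurd h Bool.false_ne_true
  · exact ⟨rfl, h⟩

theorem valD_eq {K : ℕ} {X Y Z D x y z : ℝ} (hx : X = D * x) (hy : Y = D * y)
    (hz : Z = D * z) : ∀ (A : List Al) (L : List (T ℤ)) (p : ℕ → ℝ), degOK K A = true →
    valD K A L X Y Z D p = D ^ K * valZ A L x y z p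
  | [], L, p, _ => by simp [valD, valZ]
  | a :: A, [], p, _ => by simp [valD, valZ]
  | (i, j, k) :: A, C :: L, p, h => by
    have h1 := cond_ff h
    have h2 : i + (j + k) ≤ K := Nat.le_of_ble_eq_true h1.1
    have h3 := valD_eq hx hy hz A L p h1.2
    simp only [valD, valZ, monU, h3]
    have h4 : D ^ K = D ^ i * D ^ j * D ^ k * D ^ (K - (i + j + k)) := by
      rw [← pow_add, ← pow_add, ← pow_add]
      congr 1
      omega
    rw [hx, hy, hz, mul_pow, mul_pow, mul_pow, h4]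
    ring

/-! ### the table -/

def V3.one : V3 := ⟨1, 0, 0, 0, 0, 0, 0, 0, 0, 0, 0⟩

theorem Ap_one (s t : ℝ) : Ap3 s t V3.one 1 := by
  simp [Ap3, V3.one, V3.ev]

def pw (V : V3) : ℕ → V3 → List V3
  | 0 => fun acc => [acc]
  | n + 1 => fun acc => acc :: pw V n (V3.mul acc V)

def nth : List V3 → ℕ → V3
  | [] => fun _ => V3.one
  | a :: l => fun i => match i with
    | 0 => a
    | i + 1 => nth l i

theorem pw_sound {s t : ℝ} (hs : |s| ≤ 1) (ht : |t| ≤ 1) {V : V3} {v : ℝ}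
    (h1 : Ap3 s t V v) : ∀ (n : ℕ) (acc : V3) (w : ℝ), Ap3 s t acc w → ∀ i, i ≤ n →
    Ap3 s t (nth (pw V n acc) i) (w * v ^ i)
  | 0, acc, w, h, i, hi => by
    obtain rfl : i = 0 := by omega
    simpa [pw, nth] using h
  | n + 1, acc, w, h, 0, hi => by simpa [pw, nth] using h
  | n + 1, acc, w, h, i + 1, hi => by
    have := pw_sound hs ht h1 n _ _ (V3.mul_sound hs ht h h1) i (by omega)
    show Ap3 s t (nth (pw V n (V3.mul acc V)) i) _
    rw [pow_succ', show w * (v * v ^ i) = w * v * v ^ i by ring]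
    exact this

theorem pw_tab {s t : ℝ} (hs : |s| ≤ 1) (ht : |t| ≤ 1) {V : V3} {v : ℝ} (h : Ap3 s t V v)
    (K i : ℕ) (hi : i ≤ K) : Ap3 s t (nth (pw V K V3.one) i) (v ^ i) := by
  have := pw_sound hs ht h K _ _ (Ap_one s t) i hi
  rwa [one_mul] at this

def mkN (K : ℕ) (tX tY tZ tD : List V3) : List Al → List V3
  | [] => []
  | (i, j, k) :: A => V3.mul (V3.mul (nth tX i) (nth tY j))
      (V3.mul (nth tZ k) (nth tD (Nat.sub K (Nat.add i (Nat.add j k))))) :: mkN K tX tY tZ tD A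

/-- the entries approximate the monomials -/
def ApN (s t : ℝ) (K : ℕ) (X Y Z D : ℝ) : List Al → List V3 → Prop
  | [], [] => True
  | a :: A, n :: N => Ap3 s t n (monU a X Y Z * D ^ (K - (a.1 + a.2.1 + a.2.2))) ∧
      ApN s t K X Y Z D A N
  | _, _ => False

theorem mkN_sound {s t : ℝ} (hs : |s| ≤ 1) (ht : |t| ≤ 1) {K : ℕ} {tX tY tZ tD : List V3}
    {X Y Z D : ℝ} (h1 : ∀ i, i ≤ K → Ap3 s t (nth tX i) (X ^ i))
    (h2 : ∀ i, i ≤ K → Ap3 s t (nth tY i) (Y ^ i))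
    (h3 : ∀ i, i ≤ K → Ap3 s t (nth tZ i) (Z ^ i))
    (h4 : ∀ i, i ≤ K → Ap3 s t (nth tD i) (D ^ i)) :
    ∀ A : List Al, degOK K A = true → ApN s t K X Y Z D A (mkN K tX tY tZ tD A)
  | [], _ => trivial
  | (i, j, k) :: A, h => by
    have h5 := cond_ff h
    have h6 : i + (j + k) ≤ K := Nat.le_of_ble_eq_true h5.1
    refine ⟨?_, mkN_sound hs ht h1 h2 h3 h4 A h5.2⟩
    have e : K - (i + j + k) = Nat.sub K (Nat.add i (Nat.add j k)) := by
      show K - (i + j + k) = K - (i + (j + k))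
      omega
    have := V3.mul_sound hs ht (V3.mul_sound hs ht (h1 i (by omega)) (h2 j (by omega)))
      (V3.mul_sound hs ht (h3 k (by omega)) (h4 (Nat.sub K (Nat.add i (Nat.add j k)))
        (Nat.sub_le _ _)))
    simp only [monU]
    rw [e, show X ^ i * Y ^ j * Z ^ k * D ^ (Nat.sub K (Nat.add i (Nat.add j k)))
      = X ^ i * Y ^ j * (Z ^ k * D ^ (Nat.sub K (Nat.add i (Nat.add j k)))) by ring]
    exact this

/-! ### the chart: `U = (T² - a² - b², 2 T a, 2 T b)`, `D = T² + a² + b²` for `a = A + B s`,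
`b = A' + B' t` -/

def chX (T : ℤ) (A B A' B' : ℤ) : V3 :=
  ⟨Int.add (Int.mul T T) (Int.mul (-1) (Int.add (Int.mul A A) (Int.mul A' A'))),
    Int.mul (-2) (Int.mul A B), Int.mul (-2) (Int.mul A' B'),
    Int.mul (-1) (Int.mul B B), 0, Int.mul (-1) (Int.mul B' B'), 0, 0, 0, 0, 0⟩
def chD (T : ℤ) (A B A' B' : ℤ) : V3 :=
  ⟨Int.add (Int.mul T T) (Int.add (Int.mul A A) (Int.mul A' A')),
    Int.mul 2 (Int.mul A B), Int.mul 2 (Int.mul A' B'),
    Int.mul B B, 0, Int.mul B' B', 0, 0, 0, 0, 0⟩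
def chY (T : ℤ) (A B : ℤ) : V3 :=
  ⟨Int.mul 2 (Int.mul T A), Int.mul 2 (Int.mul T B), 0, 0, 0, 0, 0, 0, 0, 0, 0⟩
def chZ (T : ℤ) (A' B' : ℤ) : V3 :=
  ⟨Int.mul 2 (Int.mul T A'), 0, Int.mul 2 (Int.mul T B'), 0, 0, 0, 0, 0, 0, 0, 0⟩

theorem ap_chX (T A B A' B' : ℤ) (s t : ℝ) : Ap3 s t (chX T A B A' B')
    ((T : ℝ) ^ 2 - (A + B * s) ^ 2 - (A' + B' * t) ^ 2) := by
  have e : (chX T A B A' B').ev s t = (T : ℝ) ^ 2 - (A + B * s) ^ 2 - (A' + B' * t) ^ 2 := by
    simp only [chX, V3.ev, Int.add_def, Int.mul_def]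
    push_cast
    ring
  unfold Ap3
  rw [e]
  simp [chX]
theorem ap_chD (T A B A' B' : ℤ) (s t : ℝ) : Ap3 s t (chD T A B A' B')
    ((T : ℝ) ^ 2 + (A + B * s) ^ 2 + (A' + B' * t) ^ 2) := by
  have e : (chD T A B A' B').ev s t = (T : ℝ) ^ 2 + (A + B * s) ^ 2 + (A' + B' * t) ^ 2 := by
    simp only [chD, V3.ev, Int.add_def, Int.mul_def]
    push_cast
    ring
  unfold Ap3
  rw [e]
  simp [chD]
theorem ap_chY (T A B : ℤ) (s t : ℝ) : Ap3 s t (chY T A B) (2 * T * (A + B * s)) := by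
  have e : (chY T A B).ev s t = 2 * T * (A + B * s) := by
    simp only [chY, V3.ev, Int.mul_def]
    push_cast
    ring
  unfold Ap3
  rw [e]
  simp [chY]
theorem ap_chZ (T A B : ℤ) (s t : ℝ) : Ap3 s t (chZ T A B) (2 * T * (A + B * t)) := by
  have e : (chZ T A B).ev s t = 2 * T * (A + B * t) := by
    simp only [chZ, V3.ev, Int.mul_def]
    push_cast
    ring
  unfold Ap3
  rw [e]
  simp [chZ]

/-- the table of a cell -/
def tabN (K : ℕ) (T A B A' B' : ℤ) (AL : List Al) : List V3 :=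
  mkN K (pw (chX T A B A' B') K V3.one) (pw (chY T A B) K V3.one)
    (pw (chZ T A' B') K V3.one) (pw (chD T A B A' B') K V3.one) AL

theorem tabN_sound {s t : ℝ} (hs : |s| ≤ 1) (ht : |t| ≤ 1) {K : ℕ} {T A B A' B' : ℤ}
    {AL : List Al} (h : degOK K AL = true) :
    ApN s t K ((T : ℝ) ^ 2 - (A + B * s) ^ 2 - (A' + B' * t) ^ 2) (2 * T * (A + B * s))
      (2 * T * (A' + B' * t)) ((T : ℝ) ^ 2 + (A + B * s) ^ 2 + (A' + B' * t) ^ 2) AL
      (tabN K T A B A' B' AL) :=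
  mkN_sound hs ht (pw_tab hs ht (ap_chX T A B A' B' s t) K) (pw_tab hs ht (ap_chY T A B s t) K)
    (pw_tab hs ht (ap_chZ T A' B' s t) K) (pw_tab hs ht (ap_chD T A B A' B' s t) K) AL h

/-! ### vectors of Taylor models -/

def vec (V : V3) : ℕ → ℤ
  | 0 => V.a0
  | 1 => V.a1
  | 2 => V.a2
  | 3 => V.a3
  | 4 => V.a4
  | 5 => V.a5
  | 6 => V.a6
  | 7 => V.a7
  | 8 => V.a8
  | 9 => V.a9
  | _ => 0

noncomputable def mo (s t : ℝ) : ℕ → ℝ
  | 0 => 1
  | 1 => s
  | 2 => t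
  | 3 => s ^ 2
  | 4 => s * t
  | 5 => t ^ 2
  | 6 => s ^ 3
  | 7 => s ^ 2 * t
  | 8 => s * t ^ 2
  | 9 => t ^ 3
  | _ => 0

/-- slots that are squares -/
def es10 : List Bool := [true, false, false, true, false, true, false, false, false, false]

theorem mo_le {s t : ℝ} (hs : |s| ≤ 1) (ht : |t| ≤ 1) : ∀ i, |mo s t i| ≤ 1 := by
  have key : ∀ i j : ℕ, |s ^ i * t ^ j| ≤ 1 := fun i j => by
    have := mul_aux hs ht i j 1
    rwa [one_mul, abs_one] at this
  intro i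
  match i with
  | 0 => simp [mo]
  | 1 => simpa [mo] using hs
  | 2 => simpa [mo] using ht
  | 3 => simpa [mo] using key 2 0
  | 4 => simpa [mo] using key 1 1
  | 5 => simpa [mo] using key 0 2
  | 6 => simpa [mo] using key 3 0
  | 7 => simpa [mo] using key 2 1
  | 8 => simpa [mo] using key 1 2
  | 9 => simpa [mo] using key 0 3
  | n + 10 => simp [mo]

theorem ev_es10 (s t : ℝ) : EvOK es10 (mo s t) := by
  have h1 : (0 : ℝ) ≤ s ^ 2 := sq_nonneg s
  have h2 : (0 : ℝ) ≤ t ^ 2 := sq_nonneg t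
  simp [EvOK, es10, mo, h1, h2]

/-- packed value of a Taylor model -/
def pk (X : ℤ) (V : V3) : ℤ := match V with
  | ⟨a0, a1, a2, a3, a4, a5, a6, a7, a8, a9, _⟩ =>
    Int.add a0 (Int.mul X (Int.add a1 (Int.mul X (Int.add a2 (Int.mul X (Int.add a3 (Int.mul X
      (Int.add a4 (Int.mul X (Int.add a5 (Int.mul X (Int.add a6 (Int.mul X (Int.add a7 (Int.mul X
        (Int.add a8 (Int.mul X a9)))))))))))))))))

theorem pk_eq (X : ℤ) (V : V3) : Lp X 10 (vec V) = pk X V := by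
  obtain ⟨a0, a1, a2, a3, a4, a5, a6, a7, a8, a9, e⟩ := V
  simp only [Lp, vec, pk, Int.add_def, Int.mul_def]
  ring

theorem ph_vec (V : V3) (s t : ℝ) : ph 10 (mo s t) (vec V) = V.ev s t := by
  simp only [ph, mo, vec, V3.ev]
  ring

theorem nmv_vec (V : V3) : nmv 10 (vec V) = V.nn := by
  simp only [nmv, vec, V3.nn, V3.n1, V3.n2, V3.n3, nA, Nat.add_eq]
  omega

/-! ### packed polynomials with bounds -/

structure PP where
  t : T ℤ
  e : ℕ
  b : ℕ

/-- `P` represents `F` at the local point `(s, t)` -/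
def Rep (X : ℤ) (R : ℕ) (s t : ℝ) (P : PP) (F : (ℕ → ℝ) → ℝ) : Prop :=
  ∃ S : T (ℕ → ℤ), mapT (Lp X 10) S = P.t ∧ nrm (nmv 10) S (fun _ => R) ≤ P.b ∧
    ∀ p : ℕ → ℝ, (∀ i, |p i| ≤ R) → |F p - evT (ph 10 (mo s t)) S p| ≤ P.e

/-- norm with equal radii -/
def nrK (R : ℕ) : T ℤ → ℕ
  | T.c n => Int.natAbs n
  | T.h a b => Nat.add (nrK R a) (Nat.mul R (nrK R b))

theorem nrK_eq (R : ℕ) : ∀ p : T ℤ, nrm Int.natAbs p (fun _ => R) = nrK R p
  | T.c n => rfl
  | T.h a b => by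
    show nrm Int.natAbs a (fun _ => R) + R * nrm Int.natAbs b (fun _ => R)
      = nrK R a + R * nrK R b
    rw [nrK_eq R a, nrK_eq R b]

def PP.add (P Q : PP) : PP := match P, Q with
  | ⟨p, e, b⟩, ⟨q, f, c⟩ => ⟨addT Int.add p q, Nat.add e f, Nat.add b c⟩

theorem Rep.add {X : ℤ} {R : ℕ} {s t : ℝ} {P Q : PP} {F G : (ℕ → ℝ) → ℝ}
    (h : Rep X R s t P F) (h' : Rep X R s t Q G) :
    Rep X R s t (P.add Q) (fun p => F p + G p) := by
  obtain ⟨S, h1, h2, h3⟩ := h
  obtain ⟨S', h1', h2', h3'⟩ := h'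
  obtain ⟨p, e, b⟩ := P
  obtain ⟨q, f, c⟩ := Q
  simp only at h1 h2 h3 h1' h2' h3'
  refine ⟨addT adv S S', ?_, ?_, fun x hx => ?_⟩
  · show _ = addT Int.add p q
    rw [map_addT (ad' := Int.add) (fun a b => Lp_adv X 10 a b), h1, h1']
  · show _ ≤ b + c
    exact (nrm_addT (nmv_adv 10) S S' _).trans (Nat.add_le_add h2 h2')
  · show |F x + G x - _| ≤ ((e + f : ℕ) : ℝ)
    rw [ev_addT (ph_adv 10 _)]
    push_cast
    calc _ = |(F x - evT (ph 10 (mo s t)) S x) + (G x - evT (ph 10 (mo s t)) S' x)| := by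
          ring_nf
      _ ≤ _ := (abs_add_le _ _).trans (add_le_add (h3 x hx) (h3' x hx))

/-- one term `N_α C_α` -/
def termP (X : ℤ) (R : ℕ) (n : V3) (C : T ℤ) : PP :=
  match pk X n, nrK R C with
  | z, k => ⟨mapT (fun c => Int.mul c z) C, Nat.mul n.e k, Nat.mul n.nn k⟩

theorem termP_rep {X : ℤ} {R : ℕ} {s t : ℝ} {n : V3} {v : ℝ} (h : Ap3 s t n v) (C : T ℤ) :
    Rep X R s t (termP X R n C) (fun p => v * evZ C p) := by
  refine ⟨mapT (fun c => smv c (vec n)) C, ?_, ?_, fun p hp => ?_⟩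
  · show _ = mapT (fun c => Int.mul c (pk X n)) C
    rw [map_map]
    congr 1
    funext c
    rw [Lp_smv, pk_eq]
  · show _ ≤ n.nn * nrK R C
    rw [← nrK_eq]
    refine nrm_map (nm := Int.natAbs) (fun c => ?_) C _
    rw [nmv_smv, nmv_vec]
    exact le_of_eq (Nat.mul_comm _ _)
  · show |v * evZ C p - evT (ph 10 (mo s t)) (mapT (fun c => smv c (vec n)) C) p|
      ≤ ((n.e * nrK R C : ℕ) : ℝ)
    rw [ev_map (φ := fun n : ℤ => (n : ℝ)) (k := n.ev s t) (fun c => by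
      rw [ph_smv, ph_vec]; ring)]
    have h1 : |evZ C p| ≤ nrK R C := by
      rw [← nrK_eq]
      exact ev_le_nrm (nm := Int.natAbs) (fun a => le_of_eq (nabs a).symm) C _ p hp
    have h2 : v * evZ C p - n.ev s t * evT (fun n : ℤ => (n : ℝ)) C p
        = (v - n.ev s t) * evZ C p := by
      unfold evZ
      ring
    rw [h2, abs_mul]
    push_cast
    exact mul_le_mul h h1 (abs_nonneg _) (Nat.cast_nonneg _)

/-- is the polynomial the constant zero -/
def isz : T ℤ → Bool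
  | T.c (Int.ofNat 0) => true
  | _ => false

theorem isz_ev : ∀ {p : T ℤ}, isz p = true → ∀ x, evZ p x = 0
  | T.c (Int.ofNat 0), _, x => by simp [evZ, evT]
  | T.c (Int.ofNat (n + 1)), h, x => absurd (show false = true from h) Bool.false_ne_true
  | T.c (Int.negSucc n), h, x => absurd (show false = true from h) Bool.false_ne_true
  | T.h a b, h, x => absurd (show false = true from h) Bool.false_ne_true

/-- `∑ N_α C_α` -/
def dot (X : ℤ) (R : ℕ) : List V3 → List (T ℤ) → PP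
  | [] => fun _ => ⟨T.c 0, 0, 0⟩
  | n :: N => fun L => match L with
    | [] => ⟨T.c 0, 0, 0⟩
    | C :: L => cond (isz C) (dot X R N L) ((termP X R n C).add (dot X R N L))

theorem rep_zero (X : ℤ) (R : ℕ) (s t : ℝ) : Rep X R s t ⟨T.c 0, 0, 0⟩ (fun _ => 0) := by
  refine ⟨T.c (fun _ => 0), ?_, ?_, fun p _ => ?_⟩
  · show T.c (Lp X 10 fun _ => 0) = T.c 0
    simp [Lp]
  · simp [nrm, nmv]
  · simp [evT, ph]

theorem dot_rep {X : ℤ} {R K : ℕ} {s t x y z D : ℝ} : ∀ (A : List Al) (N : List V3)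
    (L : List (T ℤ)), ApN s t K x y z D A N →
    Rep X R s t (dot X R N L) (fun p => valD K A L x y z D p)
  | [], [], L, _ => by
    have : (fun p => valD K [] L x y z D p) = fun _ => 0 := by
      funext p
      simp [valD]
    rw [this]
    exact rep_zero X R s t
  | [], _ :: _, L, h => h.elim
  | _ :: _, [], L, h => h.elim
  | a :: A, n :: N, [], _ => by
    have : (fun p => valD K (a :: A) [] x y z D p) = fun _ => 0 := by
      funext p
      simp [valD]
    rw [this]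
    exact rep_zero X R s t
  | a :: A, n :: N, C :: L, h => by
    have h2 := dot_rep (X := X) (R := R) A N L h.2
    have h1 := termP_rep (X := X) (R := R) h.1 C
    show Rep X R s t (cond (isz C) (dot X R N L) ((termP X R n C).add (dot X R N L))) _
    cases hz : isz C
    · exact h1.add h2
    · have : (fun p => valD K (a :: A) (C :: L) x y z D p)
          = fun p => valD K A L x y z D p := by
        funext p
        simp only [valD]
        rw [isz_ev hz]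
        ring
      rw [this]
      exact h2

end Helper10.PC
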