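import Pool.Agent.Helper10.TOP.PD

/-!
# Fast layer: direct recursors, leaves in `ℕ` modulo `M = X ^ m`, digit sums by masks
-/

set_option autoImplicit false

namespace Helper10.PC

/-! ### direct recursors -/

section fast
variable {α β : Type}

noncomputable def mapF (f : α → β) (p : T α) : T β :=
  T.rec (motive := fun _ => T β) (fun a => T.c (f a)) (fun _ _ a b => T.h a b) p

theorem mapF_eq (f : α → β) : ∀ p : T α, mapF f p = mapT f p
  | T.c a => rfl
  | T.h a b => by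
    show T.h (mapF f a) (mapF f b) = T.h (mapT f a) (mapT f b)
    rw [mapF_eq f a, mapF_eq f b]

noncomputable def addcF (ad : α → α → α) (n : α) (p : T α) : T α :=
  T.rec (motive := fun _ => T α) (fun m => T.c (ad n m)) (fun _ b a' _ => T.h a' b) p

theorem addcF_eq (ad : α → α → α) (n : α) : ∀ p : T α, addcF ad n p = addc ad n p
  | T.c a => rfl
  | T.h a b => by
    show T.h (addcF ad n a) b = T.h (addc ad n a) b
    rw [addcF_eq ad n a]

noncomputable def addF (ad : α → α → α) (p : T α) : T α → T α :=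
  T.rec (motive := fun _ => T α → T α) (fun n => addcF ad n)
    (fun a b iha ihb q => T.rec (motive := fun _ => T α) (fun m => T.h (addcF ad m a) b)
      (fun a' b' _ _ => T.h (iha a') (ihb b')) q) p

theorem addF_eq (ad : α → α → α) : ∀ p q : T α, addF ad p q = addT ad p q
  | T.c n, q => addcF_eq ad n q
  | T.h a b, T.c m => by
    show T.h (addcF ad m a) b = T.h (addc ad m a) b
    rw [addcF_eq]
  | T.h a b, T.h a' b' => by
    show T.h (addF ad a a') (addF ad b b') = T.h (addT ad a a') (addT ad b b')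
    rw [addF_eq ad a a', addF_eq ad b b']

/-- `p + f q` -/
noncomputable def fmaF (ad : α → α → α) (f : α → α) (p : T α) : T α → T α :=
  T.rec (motive := fun _ => T α → T α) (fun n q => addcF ad n (mapF f q))
    (fun a b iha ihb q => T.rec (motive := fun _ => T α) (fun m => T.h (addcF ad (f m) a) b)
      (fun a' b' _ _ => T.h (iha a') (ihb b')) q) p

theorem fmaF_eq (ad : α → α → α) (f : α → α) : ∀ p q : T α,
    fmaF ad f p q = addT ad p (mapT f q)
  | T.c n, q => by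
    show addcF ad n (mapF f q) = addc ad n (mapT f q)
    rw [addcF_eq, mapF_eq]
  | T.h a b, T.c m => by
    show T.h (addcF ad (f m) a) b = T.h (addc ad (f m) a) b
    rw [addcF_eq]
  | T.h a b, T.h a' b' => by
    show T.h (fmaF ad f a a') (fmaF ad f b b') = T.h (addT ad a (mapT f a'))
      (addT ad b (mapT f b'))
    rw [fmaF_eq ad f a a', fmaF_eq ad f b b']

noncomputable def shF (ad : α → α → α) (sm : ℤ → α → α) (p : T α) : List ℤ → T α :=
  T.rec (motive := fun _ => List ℤ → T α) (fun n _ => T.c n)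
    (fun a b iha ihb L => List.rec (motive := fun _ => T α) (T.h a b)
      (fun A L _ => (fun b' => fmaF ad (sm A) (T.h (iha L) b') b') (ihb (A :: L))) L) p

theorem shF_eq (ad : α → α → α) (sm : ℤ → α → α) : ∀ (p : T α) (L : List ℤ),
    shF ad sm p L = sh ad sm p L
  | T.c n, L => rfl
  | T.h a b, [] => rfl
  | T.h a b, A :: L => by
    show fmaF ad (sm A) (T.h (shF ad sm a L) (shF ad sm b (A :: L))) (shF ad sm b (A :: L))
      = addT ad (T.h (sh ad sm a L) (sh ad sm b (A :: L))) (mapT (sm A) (sh ad sm b (A :: L)))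
    rw [fmaF_eq, shF_eq ad sm a L, shF_eq ad sm b (A :: L)]

noncomputable def scF (sm : ℤ → α → α) (p : T α) : List ℤ → ℤ → T α :=
  T.rec (motive := fun _ => List ℤ → ℤ → T α) (fun n _ f => T.c (sm f n))
    (fun a b iha ihb L f => List.rec (motive := fun _ => T α)
      (T.h (mapF (sm f) a) (mapF (sm f) b))
      (fun B L _ => T.h (iha L f) (ihb (B :: L) (Int.mul f B))) L) p

theorem scF_eq (sm : ℤ → α → α) : ∀ (p : T α) (L : List ℤ) (f : ℤ),
    scF sm p L f = sc sm p L f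
  | T.c n, L, f => rfl
  | T.h a b, [], f => by
    show T.h (mapF (sm f) a) (mapF (sm f) b) = T.h (mapT (sm f) a) (mapT (sm f) b)
    rw [mapF_eq, mapF_eq]
  | T.h a b, B :: L, f => by
    show T.h (scF sm a L f) (scF sm b (B :: L) (Int.mul f B))
      = T.h (sc sm a L f) (sc sm b (B :: L) (Int.mul f B))
    rw [scF_eq sm a, scF_eq sm b]

end fast

/-! ### leaves in `ℕ` -/

def adN (M a b : ℕ) : ℕ := Nat.mod (Nat.add a b) M

noncomputable def smN (M : ℕ) (c : ℤ) (z : ℕ) : ℕ :=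
  Int.rec (motive := fun _ => ℕ) (fun n => Nat.mod (Nat.mul n z) M)
    (fun n => Nat.mod (Nat.mul (Nat.succ n) (Nat.sub M z)) M) c

/-- the packed value as a natural number -/
def gN (X m M : ℕ) (v : ℕ → ℤ) : ℕ := (Lp X m v % (M : ℤ)).toNat

theorem gN_cast {X m M : ℕ} (hM : 0 < M) (v : ℕ → ℤ) :
    ((gN X m M v : ℕ) : ℤ) = Lp X m v % (M : ℤ) :=
  Int.toNat_of_nonneg (Int.emod_nonneg _ (by omega))

theorem gN_lt {X m M : ℕ} (hM : 0 < M) (v : ℕ → ℤ) : gN X m M v < M := by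
  have h := gN_cast (X := X) (m := m) hM v
  have h2 := Int.emod_lt_of_pos (Lp X m v) (show (0 : ℤ) < M by omega)
  omega

theorem gN_adv {X m M : ℕ} (hM : 0 < M) (v w : ℕ → ℤ) :
    gN X m M (adv v w) = adN M (gN X m M v) (gN X m M w) := by
  have h : ((gN X m M (adv v w) : ℕ) : ℤ) = ((adN M (gN X m M v) (gN X m M w) : ℕ) : ℤ) := by
    show _ = (((gN X m M v + gN X m M w) % M : ℕ) : ℤ)
    push_cast
    rw [gN_cast hM, gN_cast hM, gN_cast hM, Lp_adv]
    show (Lp X m v + Lp X m w) % _ = _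
    rw [Int.add_emod]
  exact_mod_cast h

theorem gN_smv {X m M : ℕ} (hM : 0 < M) (c : ℤ) (v : ℕ → ℤ) :
    gN X m M (smv c v) = smN M c (gN X m M v) := by
  have h : ((gN X m M (smv c v) : ℕ) : ℤ) = ((smN M c (gN X m M v) : ℕ) : ℤ) := by
    rw [gN_cast hM, Lp_smv]
    show (c * Lp X m v) % _ = _
    cases c with
    | ofNat n =>
      show _ = (((n * gN X m M v) % M : ℕ) : ℤ)
      push_cast
      rw [gN_cast hM]
      show ((n : ℤ) * _) % _ = _
      rw [Int.mul_emod (n : ℤ) (Lp X m v), Int.mul_emod (n : ℤ) (Lp X m v % M), Int.emod_emod]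
    | negSucc n =>
      show _ = (((Nat.succ n * (M - gN X m M v)) % M : ℕ) : ℤ)
      have hlt := gN_lt (X := X) (m := m) hM v
      have e1 : ((M - gN X m M v : ℕ) : ℤ) = M - Lp X m v % (M : ℤ) := by
        rw [Nat.cast_sub hlt.le, gN_cast hM]
      rw [Int.natCast_mod, Nat.cast_mul, e1]
      have e2 : ((Nat.succ n : ℕ) : ℤ) * ((M : ℤ) - Lp X m v % (M : ℤ))
          = Int.negSucc n * (Lp X m v % M) + M * (Nat.succ n : ℕ) := by
        rw [Int.negSucc_eq]
        push_cast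
        ring
      rw [e2, Int.add_mul_emod_self_left, Int.mul_emod (Int.negSucc n) (Lp X m v),
        Int.mul_emod (Int.negSucc n) (Lp X m v % M), Int.emod_emod]
  exact_mod_cast h

/-! ### digits by masks -/

/-- value of the first `m` digits -/
def vd (X : ℕ) : ℕ → (ℕ → ℕ) → ℕ
  | 0, _ => 0
  | m + 1, d => d 0 + X * vd X m (fun i => d (i + 1))

def sd : ℕ → (ℕ → ℕ) → ℕ
  | 0, _ => 0
  | m + 1, d => d 0 + sd m (fun i => d (i + 1))

theorem vd_lt {X : ℕ} : ∀ (m : ℕ) (d : ℕ → ℕ), (∀ i, d i < X) → vd X m d < X ^ m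
  | 0, d, _ => by simp [vd]
  | m + 1, d, h => by
    have h1 := vd_lt m (fun i => d (i + 1)) (fun i => h _)
    have h2 := h 0
    show d 0 + X * vd X m (fun i => d (i + 1)) < X ^ (m + 1)
    calc d 0 + X * vd X m (fun i => d (i + 1)) < X + X * vd X m (fun i => d (i + 1)) := by omega
      _ = X * (vd X m (fun i => d (i + 1)) + 1) := by ring
      _ ≤ X * X ^ m := Nat.mul_le_mul_left _ h1
      _ = X ^ (m + 1) := by ring

theorem land_split' {m a b : ℕ} (x y : ℕ) (ha : a < 2 ^ m) (hb : b < 2 ^ m) :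
    (a + 2 ^ m * x) &&& (b + 2 ^ m * y) = (a &&& b) + 2 ^ m * (x &&& y) := by
  have hab : a &&& b < 2 ^ m := Nat.and_lt_two_pow a hb
  apply Nat.eq_of_testBit_eq
  intro i
  have e1 : a + 2 ^ m * x = 2 ^ m * x + a := by ring
  have e2 : b + 2 ^ m * y = 2 ^ m * y + b := by ring
  have e3 : (a &&& b) + 2 ^ m * (x &&& y) = 2 ^ m * (x &&& y) + (a &&& b) := by ring
  rw [e1, e2, e3, Nat.testBit_and, Nat.testBit_two_pow_mul_add _ ha,
    Nat.testBit_two_pow_mul_add _ hb, Nat.testBit_two_pow_mul_add _ hab]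
  by_cases h : i < m
  · simp only [h, if_true, Nat.testBit_and]
  · simp only [h, if_false, Nat.testBit_and]

theorem vd_land {w : ℕ} : ∀ (m : ℕ) (d e : ℕ → ℕ), (∀ i, d i < 2 ^ w) → (∀ i, e i < 2 ^ w) →
    vd (2 ^ w) m d &&& vd (2 ^ w) m e = vd (2 ^ w) m (fun i => d i &&& e i)
  | 0, d, e, _, _ => by simp [vd]
  | m + 1, d, e, hd, he => by
    show (d 0 + 2 ^ w * vd (2 ^ w) m (fun i => d (i + 1))) &&&
      (e 0 + 2 ^ w * vd (2 ^ w) m (fun i => e (i + 1))) = _
    rw [land_split' _ _ (hd 0) (he 0), vd_land m _ _ (fun i => hd _) (fun i => he _)]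
    rfl

theorem vd_sub {X : ℕ} : ∀ (m : ℕ) (d e : ℕ → ℕ), (∀ i, e i ≤ d i) →
    vd X m d - vd X m e = vd X m (fun i => d i - e i) ∧ vd X m e ≤ vd X m d
  | 0, d, e, _ => by simp [vd]
  | m + 1, d, e, h => by
    obtain ⟨h1, h2⟩ := vd_sub (X := X) m (fun i => d (i + 1)) (fun i => e (i + 1)) (fun i => h _)
    have h3 := h 0
    have h4 := Nat.mul_le_mul_left X h2
    show (d 0 + X * vd X m (fun i => d (i + 1))) - (e 0 + X * vd X m (fun i => e (i + 1)))
      = (d 0 - e 0) + X * vd X m (fun i => d (i + 1) - e (i + 1)) ∧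
      e 0 + X * vd X m (fun i => e (i + 1)) ≤ d 0 + X * vd X m (fun i => d (i + 1))
    rw [← h1, Nat.mul_sub]
    omega

theorem vd_scale {X B : ℕ} : ∀ (m : ℕ) (t : ℕ → ℕ), vd X m (fun i => B * t i) = B * vd X m t
  | 0, t => by simp [vd]
  | m + 1, t => by
    show B * t 0 + X * vd X m (fun i => B * t (i + 1)) = B * (t 0 + X * vd X m (fun i => t (i + 1)))
    rw [vd_scale m]
    ring

theorem vd_congr {X : ℕ} : ∀ (m : ℕ) (d e : ℕ → ℕ), (∀ i, d i = e i) → vd X m d = vd X m e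
  | m, d, e, h => by rw [funext h]

theorem vd_modEq {X : ℕ} (hX : 1 ≤ X) : ∀ (m : ℕ) (d : ℕ → ℕ), vd X m d ≡ sd m d [MOD X - 1]
  | 0, d => rfl
  | m + 1, d => by
    have h1 := vd_modEq hX m (fun i => d (i + 1))
    have h2 : X ≡ 1 [MOD X - 1] := by
      have : X = (X - 1) + 1 := by omega
      conv_lhs => rw [this]
      simp [Nat.ModEq]
    show d 0 + X * vd X m (fun i => d (i + 1)) ≡ d 0 + sd m (fun i => d (i + 1)) [MOD X - 1]
    have h3 := h2.mul h1
    rw [one_mul] at h3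
    exact Nat.ModEq.add_left _ h3

theorem vd_mod {X : ℕ} (hX : 1 ≤ X) (m : ℕ) (d : ℕ → ℕ) (h : sd m d < X - 1) :
    vd X m d % (X - 1) = sd m d := by
  have := vd_modEq hX m d
  unfold Nat.ModEq at this
  rw [this, Nat.mod_eq_of_lt h]

/-- masks: `H` sign bits, `A` all bits, `O` the slots that count on both sides -/
structure Mk where
  X1 : ℕ
  s : ℕ
  H : ℕ
  A : ℕ
  O : ℕ
  m : ℕ

/-- sum of the absolute values of the digits of `y` (bias half of the base); with `f` the slots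
outside `O` count only if negative -/
def dmask (k : Mk) (f : Bool) (y : ℕ) : ℕ :=
  (fun t1 y' => (fun t2 =>
    Nat.add (Nat.add
      (Nat.mod (Nat.land (Nat.land y (Nat.sub t1 (Nat.shiftRight t1 k.s))) (cond f k.O k.A)) k.X1)
      (Nat.mod (Nat.land y' (Nat.sub t2 (Nat.shiftRight t2 k.s))) k.X1)) k.m)
    (Nat.land y' k.H)) (Nat.land y k.H) (Nat.sub k.A y)

theorem land_half {w d : ℕ} (hd : d < 2 ^ (w + 1)) :
    d &&& 2 ^ w = 2 ^ w * (if 2 ^ w ≤ d then 1 else 0) := by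
  rw [Nat.and_two_pow]
  have : d.testBit w = decide (2 ^ w ≤ d) := by
    rw [Nat.testBit_eq_decide_div_mod_eq]
    by_cases h : 2 ^ w ≤ d
    · have h1 : d / 2 ^ w = 1 := by
        apply Nat.div_eq_of_lt_le
        · omega
        · rw [pow_succ] at hd
          omega
      simp [h1, h]
    · have h1 : d / 2 ^ w = 0 := Nat.div_eq_of_lt (by omega)
      simp [h1, h]
  rw [this]
  by_cases h : 2 ^ w ≤ d <;> simp [h]

/-- the part above the half -/
theorem land_top {w d : ℕ} (hd : d < 2 ^ (w + 1)) :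
    d &&& ((2 ^ w - 1) * (if 2 ^ w ≤ d then 1 else 0)) = d - 2 ^ w := by
  by_cases h : 2 ^ w ≤ d
  · rw [if_pos h, mul_one, Nat.and_two_pow_sub_one_eq_mod]
    have h1 : d < 2 * 2 ^ w := by rw [pow_succ] at hd; omega
    rw [Nat.mod_eq_sub_mod h, Nat.mod_eq_of_lt (by omega)]
  · rw [if_neg h, mul_zero, Nat.and_zero]
    omega

/-! ### soundness of `dmask` -/

def nthB : List Bool → ℕ → Bool
  | [], _ => false
  | b :: _, 0 => b
  | _ :: l, i + 1 => nthB l i

/-- the masks with half exponent `h` -/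
def mkH (h : ℕ) (es : List Bool) : Mk :=
  ⟨2 ^ (h + 1) - 1, h, vd (2 ^ (h + 1)) es.length (fun _ => 2 ^ h),
    vd (2 ^ (h + 1)) es.length (fun _ => 2 ^ (h + 1) - 1),
    vd (2 ^ (h + 1)) es.length (fun i => cond (nthB es i) 0 (2 ^ (h + 1) - 1)), es.length⟩

theorem sd_le : ∀ (m : ℕ) (d e : ℕ → ℕ), (∀ i, i < m → d i ≤ e i) → sd m d ≤ sd m e
  | 0, d, e, _ => le_refl _
  | m + 1, d, e, h => Nat.add_le_add (h 0 (by omega)) (sd_le m _ _ fun i hi => h _ (by omega))

theorem sd_add : ∀ (m : ℕ) (d e : ℕ → ℕ), sd m (fun i => d i + e i) = sd m d + sd m e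
  | 0, d, e => rfl
  | m + 1, d, e => by
    show d 0 + e 0 + sd m (fun i => d (i + 1) + e (i + 1)) = (d 0 + sd m _) + (e 0 + sd m _)
    rw [sd_add m]
    ring

theorem sd_one : ∀ m : ℕ, sd m (fun _ => 1) = m
  | 0 => rfl
  | m + 1 => by
    show 1 + sd m (fun _ => 1) = m + 1
    rw [sd_one m]
    ring

theorem dsum_vd {X B : ℕ} {f : Bool} : ∀ (es : List Bool) (d : ℕ → ℕ), (∀ i, d i < X) →
    dsum X B f es (vd X es.length d) = sd es.length (fun i => dval B (cond f (nthB es i) false) (d i))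
  | [], d, _ => rfl
  | b :: es, d, h => by
    have h0 := h 0
    have hX : 0 < X := by omega
    have e1 : (d 0 + X * vd X es.length (fun i => d (i + 1))) % X = d 0 := by
      rw [Nat.add_mul_mod_self_left, Nat.mod_eq_of_lt h0]
    have e2 : (d 0 + X * vd X es.length (fun i => d (i + 1))) / X
        = vd X es.length (fun i => d (i + 1)) := by
      rw [Nat.add_mul_div_left _ _ hX, Nat.div_eq_of_lt h0, Nat.zero_add]
    show dval B (cond f b false) ((d 0 + X * vd X es.length (fun i => d (i + 1))) % X)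
      + dsum X B f es ((d 0 + X * vd X es.length (fun i => d (i + 1))) / X) = _
    rw [e1, e2, dsum_vd es _ (fun i => h _)]
    rfl

/-- positive part by masks -/
theorem pos_mask {h m : ℕ} {d o : ℕ → ℕ} (hd : ∀ i, d i < 2 ^ (h + 1))
    (ho : ∀ i, o i = 0 ∨ o i = 2 ^ (h + 1) - 1) :
    Nat.land (Nat.land (vd (2 ^ (h + 1)) m d)
      (Nat.sub (Nat.land (vd (2 ^ (h + 1)) m d) (vd (2 ^ (h + 1)) m (fun _ => 2 ^ h)))
        (Nat.shiftRight (Nat.land (vd (2 ^ (h + 1)) m d) (vd (2 ^ (h + 1)) m (fun _ => 2 ^ h))) h)))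
      (vd (2 ^ (h + 1)) m o) = vd (2 ^ (h + 1)) m (fun i => if o i = 0 then 0 else d i - 2 ^ h) := by
  have hlt : 2 ^ h < 2 ^ (h + 1) := Nat.pow_lt_pow_right (by norm_num) (by omega)
  have hp : 0 < 2 ^ h := Nat.two_pow_pos h
  set t : ℕ → ℕ := fun i => if 2 ^ h ≤ d i then 1 else 0 with ht
  have e1 : Nat.land (vd (2 ^ (h + 1)) m d) (vd (2 ^ (h + 1)) m (fun _ => 2 ^ h))
      = vd (2 ^ (h + 1)) m (fun i => 2 ^ h * t i) := by
    show vd (2 ^ (h + 1)) m d &&& vd (2 ^ (h + 1)) m (fun _ => 2 ^ h) = _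
    rw [vd_land m d _ hd (fun _ => hlt)]
    exact vd_congr m _ _ (fun i => land_half (hd i))
  have e2 : Nat.shiftRight (vd (2 ^ (h + 1)) m (fun i => 2 ^ h * t i)) h
      = vd (2 ^ (h + 1)) m t := by
    show vd (2 ^ (h + 1)) m (fun i => 2 ^ h * t i) >>> h = _
    rw [Nat.shiftRight_eq_div_pow, vd_scale, Nat.mul_div_cancel_left _ hp]
  have e3 : Nat.sub (vd (2 ^ (h + 1)) m (fun i => 2 ^ h * t i)) (vd (2 ^ (h + 1)) m t)
      = vd (2 ^ (h + 1)) m (fun i => (2 ^ h - 1) * t i) := by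
    have := (vd_sub (X := 2 ^ (h + 1)) m (fun i => 2 ^ h * t i) t
      (fun i => Nat.le_mul_of_pos_left _ hp)).1
    show vd (2 ^ (h + 1)) m (fun i => 2 ^ h * t i) - vd (2 ^ (h + 1)) m t = _
    rw [this]
    exact vd_congr m _ _ (fun i => by rw [Nat.sub_mul, one_mul])
  rw [e1, e2, e3]
  have hm1 : ∀ i, (2 ^ h - 1) * t i < 2 ^ (h + 1) := fun i => by
    simp only [ht]
    split_ifs <;> omega
  have e4 : Nat.land (vd (2 ^ (h + 1)) m d) (vd (2 ^ (h + 1)) m (fun i => (2 ^ h - 1) * t i))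
      = vd (2 ^ (h + 1)) m (fun i => d i - 2 ^ h) := by
    show vd (2 ^ (h + 1)) m d &&& _ = _
    rw [vd_land m d _ hd hm1]
    exact vd_congr m _ _ (fun i => land_top (hd i))
  rw [e4]
  have ho' : ∀ i, o i < 2 ^ (h + 1) := fun i => by
    rcases ho i with h1 | h1 <;> rw [h1] <;> omega
  show vd (2 ^ (h + 1)) m (fun i => d i - 2 ^ h) &&& vd (2 ^ (h + 1)) m o = _
  rw [vd_land m _ _ (fun i => lt_of_le_of_lt (Nat.sub_le _ _) (hd i)) ho']
  refine vd_congr m _ _ (fun i => ?_)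
  rcases ho i with h1 | h1
  · simp only [h1, Nat.and_zero, if_true]
  · have h2 : ¬ (2 ^ (h + 1) - 1 = 0) := by omega
    simp only [h1, h2, if_false]
    rw [Nat.and_two_pow_sub_one_eq_mod, Nat.mod_eq_of_lt
      (lt_of_le_of_lt (Nat.sub_le _ _) (hd i))]

theorem nmv_sd : ∀ (m : ℕ) (v : ℕ → ℤ), nmv m v = sd m (fun i => (v i).natAbs)
  | 0, v => rfl
  | m + 1, v => by
    show (v 0).natAbs + nmv m (fun i => v (i + 1)) = _
    rw [nmv_sd m]
    rfl

theorem Lp_vd {X B : ℕ} : ∀ (m : ℕ) (v : ℕ → ℤ) (d : ℕ → ℕ), (∀ i, i < m → (d i : ℤ) = v i + B) →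
    ((vd X m d : ℕ) : ℤ) = Lp X m v + biasN X B m
  | 0, v, d, _ => rfl
  | m + 1, v, d, h => by
    have h1 := Lp_vd (X := X) m (fun i => v (i + 1)) (fun i => d (i + 1))
      (fun i hi => h _ (by omega))
    show ((d 0 + X * vd X m (fun i => d (i + 1)) : ℕ) : ℤ)
      = v 0 + X * Lp X m (fun i => v (i + 1)) + ((B + X * biasN X B m : ℕ) : ℤ)
    push_cast
    rw [h1, h 0 (by omega)]
    ring

/-- `ph` depends on the first `m` entries only -/
theorem ph_congr : ∀ (m : ℕ) (e : ℕ → ℝ) (v v' : ℕ → ℤ), (∀ i, i < m → v i = v' i) →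
    ph m e v = ph m e v'
  | 0, e, v, v', _ => rfl
  | m + 1, e, v, v', h => by
    simp only [ph, h 0 (by omega), ph_congr m (fun i => e (i + 1)) (fun i => v (i + 1))
      (fun i => v' (i + 1)) (fun i hi => h _ (by omega))]

theorem dsum_le_dmask {h : ℕ} {f : Bool} (es : List Bool) (d : ℕ → ℕ)
    (hd : ∀ i, d i < 2 ^ (h + 1))
    (hs : sd es.length (fun i => (d i - 2 ^ h) + (2 ^ h - d i)) < 2 ^ h) :
    dsum (2 ^ (h + 1)) (2 ^ h) f es (vd (2 ^ (h + 1)) es.length d)
      ≤ dmask (mkH h es) f (vd (2 ^ (h + 1)) es.length d) := by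
  have hp : 0 < 2 ^ h := Nat.two_pow_pos h
  have h2 : 2 ^ (h + 1) = 2 * 2 ^ h := by rw [pow_succ]; ring
  have hX1 : 1 ≤ 2 ^ (h + 1) := by omega
  rw [dsum_vd es d hd]
  -- the complement
  have hc : Nat.sub (vd (2 ^ (h + 1)) es.length (fun _ => 2 ^ (h + 1) - 1))
      (vd (2 ^ (h + 1)) es.length d) = vd (2 ^ (h + 1)) es.length (fun i => 2 ^ (h + 1) - 1 - d i) :=
    (vd_sub (X := 2 ^ (h + 1)) es.length (fun _ => 2 ^ (h + 1) - 1) d
      (fun i => by have := hd i; omega)).1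
  have hd' : ∀ i, 2 ^ (h + 1) - 1 - d i < 2 ^ (h + 1) := fun i => by omega
  -- the negative part
  have hA : vd (2 ^ (h + 1)) es.length (fun i => (if (2 ^ (h + 1) - 1 = 0) then 0 else
      (2 ^ (h + 1) - 1 - d i) - 2 ^ h)) = vd (2 ^ (h + 1)) es.length
      (fun i => (2 ^ (h + 1) - 1 - d i) - 2 ^ h) := by
    refine vd_congr _ _ _ (fun i => ?_)
    rw [if_neg (by omega)]
  have hneg0 := pos_mask (m := es.length) (o := fun _ => 2 ^ (h + 1) - 1) hd' (fun _ => Or.inr rfl)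
  rw [hA] at hneg0
  have hdlt : ∀ i, (2 ^ (h + 1) - 1 - d i) - 2 ^ h < 2 ^ (h + 1) := fun i => by omega
  -- drop the last mask in the negative part
  have hneg : Nat.land (vd (2 ^ (h + 1)) es.length (fun i => 2 ^ (h + 1) - 1 - d i))
      (Nat.sub (Nat.land (vd (2 ^ (h + 1)) es.length (fun i => 2 ^ (h + 1) - 1 - d i))
        (vd (2 ^ (h + 1)) es.length (fun _ => 2 ^ h)))
        (Nat.shiftRight (Nat.land (vd (2 ^ (h + 1)) es.length (fun i => 2 ^ (h + 1) - 1 - d i))
          (vd (2 ^ (h + 1)) es.length (fun _ => 2 ^ h))) h))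
      = vd (2 ^ (h + 1)) es.length (fun i => (2 ^ (h + 1) - 1 - d i) - 2 ^ h) := by
    have hlt : 2 ^ h < 2 ^ (h + 1) := by omega
    set t : ℕ → ℕ := fun i => if 2 ^ h ≤ 2 ^ (h + 1) - 1 - d i then 1 else 0 with ht
    have e1 : Nat.land (vd (2 ^ (h + 1)) es.length (fun i => 2 ^ (h + 1) - 1 - d i))
        (vd (2 ^ (h + 1)) es.length (fun _ => 2 ^ h))
        = vd (2 ^ (h + 1)) es.length (fun i => 2 ^ h * t i) := by
      show vd (2 ^ (h + 1)) es.length (fun i => 2 ^ (h + 1) - 1 - d i)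
        &&& vd (2 ^ (h + 1)) es.length (fun _ => 2 ^ h) = _
      rw [vd_land _ _ _ hd' (fun _ => hlt)]
      exact vd_congr _ _ _ (fun i => land_half (hd' i))
    have e2 : Nat.shiftRight (vd (2 ^ (h + 1)) es.length (fun i => 2 ^ h * t i)) h
        = vd (2 ^ (h + 1)) es.length t := by
      show vd (2 ^ (h + 1)) es.length (fun i => 2 ^ h * t i) >>> h = _
      rw [Nat.shiftRight_eq_div_pow, vd_scale, Nat.mul_div_cancel_left _ hp]
    have e3 : Nat.sub (vd (2 ^ (h + 1)) es.length (fun i => 2 ^ h * t i))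
        (vd (2 ^ (h + 1)) es.length t)
        = vd (2 ^ (h + 1)) es.length (fun i => (2 ^ h - 1) * t i) := by
      have := (vd_sub (X := 2 ^ (h + 1)) es.length (fun i => 2 ^ h * t i) t
        (fun i => Nat.le_mul_of_pos_left _ hp)).1
      show vd (2 ^ (h + 1)) es.length (fun i => 2 ^ h * t i) - vd (2 ^ (h + 1)) es.length t = _
      rw [this]
      exact vd_congr _ _ _ (fun i => by rw [Nat.sub_mul, one_mul])
    rw [e1, e2, e3]
    have hm1 : ∀ i, (2 ^ h - 1) * t i < 2 ^ (h + 1) := fun i => by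
      simp only [ht]
      split_ifs <;> omega
    show vd (2 ^ (h + 1)) es.length (fun i => 2 ^ (h + 1) - 1 - d i)
      &&& vd (2 ^ (h + 1)) es.length (fun i => (2 ^ h - 1) * t i) = _
    rw [vd_land _ _ _ hd' hm1]
    exact vd_congr _ _ _ (fun i => land_top (hd' i))
  -- the positive part
  have hpos := pos_mask (m := es.length) (d := d)
    (o := fun i => cond (cond f (nthB es i) false) 0 (2 ^ (h + 1) - 1)) hd
    (fun i => by cases cond f (nthB es i) false <;> simp)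
  have hO : (cond f (vd (2 ^ (h + 1)) es.length (fun i => cond (nthB es i) 0 (2 ^ (h + 1) - 1)))
      (vd (2 ^ (h + 1)) es.length (fun _ => 2 ^ (h + 1) - 1)))
      = vd (2 ^ (h + 1)) es.length (fun i => cond (cond f (nthB es i) false) 0 (2 ^ (h + 1) - 1)) := by
    cases f <;> rfl
  have s1 : sd es.length (fun i => if (cond (cond f (nthB es i) false) 0 (2 ^ (h + 1) - 1)) = 0
      then 0 else d i - 2 ^ h) ≤ sd es.length (fun i => (d i - 2 ^ h) + (2 ^ h - d i)) :=
    sd_le _ _ _ (fun i _ => by split_ifs <;> omega)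
  have s2 : sd es.length (fun i => (2 ^ (h + 1) - 1 - d i) - 2 ^ h)
      ≤ sd es.length (fun i => (d i - 2 ^ h) + (2 ^ h - d i)) :=
    sd_le _ _ _ (fun i _ => by omega)
  have key : dmask (mkH h es) f (vd (2 ^ (h + 1)) es.length d)
      = sd es.length (fun i => if (cond (cond f (nthB es i) false) 0 (2 ^ (h + 1) - 1)) = 0
      then 0 else d i - 2 ^ h) + sd es.length (fun i => (2 ^ (h + 1) - 1 - d i) - 2 ^ h)
      + es.length := by
    show Nat.mod (Nat.land (Nat.land (vd (2 ^ (h + 1)) es.length d)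
      (Nat.sub (Nat.land (vd (2 ^ (h + 1)) es.length d)
        (vd (2 ^ (h + 1)) es.length (fun _ => 2 ^ h))) (Nat.shiftRight (Nat.land
          (vd (2 ^ (h + 1)) es.length d) (vd (2 ^ (h + 1)) es.length (fun _ => 2 ^ h))) h)))
      (cond f (vd (2 ^ (h + 1)) es.length (fun i => cond (nthB es i) 0 (2 ^ (h + 1) - 1)))
        (vd (2 ^ (h + 1)) es.length (fun _ => 2 ^ (h + 1) - 1)))) (2 ^ (h + 1) - 1)
      + Nat.mod (Nat.land (Nat.sub (vd (2 ^ (h + 1)) es.length (fun _ => 2 ^ (h + 1) - 1))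
        (vd (2 ^ (h + 1)) es.length d)) (Nat.sub (Nat.land (Nat.sub (vd (2 ^ (h + 1)) es.length
          (fun _ => 2 ^ (h + 1) - 1)) (vd (2 ^ (h + 1)) es.length d)) (vd (2 ^ (h + 1)) es.length
            (fun _ => 2 ^ h))) (Nat.shiftRight (Nat.land (Nat.sub (vd (2 ^ (h + 1)) es.length
          (fun _ => 2 ^ (h + 1) - 1)) (vd (2 ^ (h + 1)) es.length d)) (vd (2 ^ (h + 1)) es.length
            (fun _ => 2 ^ h))) h))) (2 ^ (h + 1) - 1) + es.length = _
    rw [hO, hpos, hc, hneg]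
    show vd (2 ^ (h + 1)) es.length _ % _ + vd (2 ^ (h + 1)) es.length _ % _ + es.length = _
    rw [vd_mod hX1 _ _ (by omega), vd_mod hX1 _ _ (by omega)]
  rw [key]
  have s3 : sd es.length (fun i => dval (2 ^ h) (cond f (nthB es i) false) (d i))
      ≤ sd es.length (fun i => ((if (cond (cond f (nthB es i) false) 0 (2 ^ (h + 1) - 1)) = 0
      then 0 else d i - 2 ^ h) + ((2 ^ (h + 1) - 1 - d i) - 2 ^ h)) + 1) := by
    refine sd_le _ _ _ (fun i _ => ?_)
    have hi := hd i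
    cases cond f (nthB es i) false
    · show (d i - 2 ^ h) + (2 ^ h - d i) ≤ _
      simp only [cond_false]
      rw [if_neg (by omega)]
      omega
    · show 2 ^ h - d i ≤ _
      simp only [cond_true]
      omega
  refine s3.trans (le_of_eq ?_)
  rw [sd_add, sd_add, sd_one]

theorem dmask_sound {h : ℕ} {f : Bool} {c : ℝ} (hc : |c| ≤ 1) (hf : f = true → 0 ≤ c)
    (es : List Bool) (e : ℕ → ℝ) (v : ℕ → ℤ) (y : ℕ) (he : ∀ i, |e i| ≤ 1) (hev : EvOK es e)
    (hn : nmv es.length v < 2 ^ h)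
    (hy : (y : ℤ) = Lp ((2 ^ (h + 1) : ℕ) : ℤ) es.length v + biasN (2 ^ (h + 1)) (2 ^ h) es.length) :
    -(dmask (mkH h es) f y : ℝ) ≤ c * ph es.length e v := by
  have h2 : 2 ^ (h + 1) = 2 * 2 ^ h := by rw [pow_succ]; ring
  have hp : 0 < 2 ^ h := Nat.two_pow_pos h
  have hv : ∀ i, i < es.length → (v i).natAbs < 2 ^ h := by
    intro i hi
    have key : ∀ (m : ℕ) (v : ℕ → ℤ) (i : ℕ), i < m → (v i).natAbs ≤ nmv m v := by
      intro m
      induction m with
      | zero => intro v i hi; omega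
      | succ m ih =>
        intro v i hi
        show _ ≤ (v 0).natAbs + nmv m (fun i => v (i + 1))
        cases i with
        | zero => omega
        | succ i =>
          have := ih (fun i => v (i + 1)) i (by omega)
          omega
    exact lt_of_le_of_lt (key _ v i hi) hn
  set d : ℕ → ℕ := fun i => if i < es.length then (v i + ((2 ^ h : ℕ) : ℤ)).toNat else 0 with hdd
  have hd1 : ∀ i, i < es.length → (d i : ℤ) = v i + ((2 ^ h : ℕ) : ℤ) := by
    intro i hi
    simp only [hdd, if_pos hi]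
    have := hv i hi
    omega
  have hd : ∀ i, d i < 2 ^ (h + 1) := by
    intro i
    by_cases hi : i < es.length
    · have h1 := hd1 i hi
      have h3 := hv i hi
      omega
    · simp only [hdd, if_neg hi]
      omega
  have hyd : y = vd (2 ^ (h + 1)) es.length d := by
    have := Lp_vd (X := 2 ^ (h + 1)) (B := 2 ^ h) es.length v d hd1
    have h4 : (y : ℤ) = ((vd (2 ^ (h + 1)) es.length d : ℕ) : ℤ) := by rw [hy, this]
    exact_mod_cast h4
  have h5 := dsum_sound (X := 2 ^ (h + 1)) (B := 2 ^ h) h2 hc hf es e v y he hev hn hy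
  have h6 := dsum_le_dmask (h := h) (f := f) es d hd (by
    rw [nmv_sd] at hn
    refine lt_of_le_of_lt (sd_le _ _ _ (fun i hi => ?_)) hn
    have := hd1 i hi
    omega)
  rw [← hyd] at h6
  have h7 : (dsum (2 ^ (h + 1)) (2 ^ h) f es y : ℝ) ≤ (dmask (mkH h es) f y : ℝ) := by
    exact_mod_cast h6
  linarith

end Helper10.PC
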