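import Pool.Agent.Helper10.TOP.PF
import Pool.Agent.Helper10.TOP.PG

/-!
# The engine: packed polynomials with leaves in `ℕ`
-/

set_option autoImplicit false

namespace Helper10.PC

/-- engine data: base `X = 2 ^ (h + 1)`, `B = 2 ^ h`, `M = X ^ 10`, bias `S`, masks -/
structure Eng where
  X : ℕ
  B : ℕ
  M : ℕ
  S : ℕ
  k : Mk

def mkE (h : ℕ) : Eng :=
  ⟨2 ^ (h + 1), 2 ^ h, (2 ^ (h + 1)) ^ 10, biasN (2 ^ (h + 1)) (2 ^ h) 10, mkH h es10⟩

deriving instance DecidableEq for Mk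
deriving instance DecidableEq for Eng

/-- packing -/
def Eng.g (E : Eng) (v : ℕ → ℤ) : ℕ := gN E.X 10 E.M v

theorem bias_lt {X B : ℕ} (hX : X = 2 * B) : ∀ (m : ℕ) (v : ℕ → ℤ), nmv m v < B →
    Lp X m v + biasN X B m < ((X ^ m : ℕ) : ℤ)
  | 0, v, _ => by simp [Lp, biasN]
  | m + 1, v, h => by
    have h' : (v 0).natAbs + nmv m (fun i => v (i + 1)) < B := h
    have h1 := bias_lt hX m (fun i => v (i + 1)) (by omega)
    show v 0 + X * Lp X m (fun i => v (i + 1)) + ((B + X * biasN X B m : ℕ) : ℤ) < _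
    push_cast
    push_cast at h1
    have h2 : (v 0 + B : ℤ) ≤ X - 1 := by omega
    have h3 : (X : ℤ) * (Lp X m (fun i => v (i + 1)) + biasN X B m + 1) ≤ X * X ^ m :=
      mul_le_mul_of_nonneg_left (by omega) (Int.natCast_nonneg _)
    have h4 : (X : ℤ) * X ^ m = X ^ (m + 1) := by ring
    nlinarith

/-- the biased value is read exactly -/
theorem read_eq {X B m : ℕ} (hX : X = 2 * B) (v : ℕ → ℤ) (hn : nmv m v < B) :
    (((gN X m (X ^ m) v + biasN X B m) % X ^ m : ℕ) : ℤ) = Lp X m v + biasN X B m := by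
  have hB : 0 < B := by omega
  have hM : 0 < X ^ m := Nat.pow_pos (by omega)
  have h0 := biasN_pos X B hX m v hn
  have h1 := bias_lt hX m v hn
  rw [Int.natCast_mod, Nat.cast_add, gN_cast hM, Int.emod_add_emod]
  exact Int.emod_eq_of_lt h0 h1

/-- sum of the absolute values of all digits -/
noncomputable def totF (S M : ℕ) (k : Mk) (p : T ℕ) : Bool → Bool → ℕ :=
  T.rec (motive := fun _ => Bool → Bool → ℕ)
    (fun z f0 par => dmask k (cond f0 par false) (Nat.mod (Nat.add z S) M))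
    (fun _ _ iha ihb f0 par => Nat.add (iha (cond f0 par false) true)
      (ihb f0 (cond par false true))) p

theorem totF_sound {h : ℕ} {E : Eng} (hE : E = mkE h) {e : ℕ → ℝ}
    (he : ∀ i, |e i| ≤ 1) (hev : EvOK es10 e) : ∀ (p : T (ℕ → ℤ)) (f0 par : Bool) (x : ℕ → ℝ)
    (M N : ℝ), (∀ i, |x i| ≤ 1) → nrm (nmv 10) p (fun _ => 1) < E.B →
    |M| ≤ 1 → |N| ≤ 1 → (f0 = true → 0 ≤ M) → (par = true → 0 ≤ N) →
    (par = false → 0 ≤ N * x 0) →
    -(totF E.S E.M E.k (mapT E.g p) f0 par : ℝ) ≤ M * N * evT (ph 10 e) p x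
  | T.c v, f0, par, x, M, N, hx, hn, hM, hN, h1, h2, h3 => by
    have hX : (2 : ℕ) ^ (h + 1) = 2 * 2 ^ h := by rw [pow_succ]; ring
    have hn' : nmv 10 v < 2 ^ h := by
      subst hE
      exact hn
    have hMN : |M * N| ≤ 1 := by
      rw [abs_mul]
      calc |M| * |N| ≤ 1 * 1 := mul_le_mul hM hN (abs_nonneg _) zero_le_one
        _ = 1 := one_mul _
    subst hE
    refine dmask_sound (h := h) hMN (fun hh => ?_) es10 e v _ he hev hn' ?_
    · cases f0
      · exact absurd hh Bool.false_ne_true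
      · exact mul_nonneg (h1 rfl) (h2 hh)
    · exact read_eq (X := 2 ^ (h + 1)) (B := 2 ^ h) (m := 10) hX v hn'
  | T.h a b, f0, par, x, M, N, hx, hn, hM, hN, h1, h2, h3 => by
    have hn' : nrm (nmv 10) a (fun _ => 1) + 1 * nrm (nmv 10) b (fun _ => 1) < E.B := hn
    have hMN : |M * N| ≤ 1 := by
      rw [abs_mul]
      calc |M| * |N| ≤ 1 * 1 := mul_le_mul hM hN (abs_nonneg _) zero_le_one
        _ = 1 := one_mul _
    have ha := totF_sound hE he hev a (cond f0 par false) true (fun i => x (i + 1)) (M * N) 1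
      (fun i => hx _) (by omega) hMN (by simp) (fun h => by
        cases f0
        · exact absurd h Bool.false_ne_true
        · exact mul_nonneg (h1 rfl) (h2 h)) (fun _ => zero_le_one)
      (fun h => absurd h.symm Bool.false_ne_true)
    have hNx : |N * x 0| ≤ 1 := by
      rw [abs_mul]
      calc |N| * |x 0| ≤ 1 * 1 := mul_le_mul hN (hx 0) (abs_nonneg _) zero_le_one
        _ = 1 := one_mul _
    have hb := totF_sound hE he hev b f0 (cond par false true) x M (N * x 0)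
      hx (by omega) hM hNx h1 (fun h => by
        cases par
        · exact h3 rfl
        · exact absurd h Bool.false_ne_true) (fun h => by
        cases par
        · exact absurd h.symm Bool.false_ne_true
        · have := mul_nonneg (h2 rfl) (mul_self_nonneg (x 0))
          calc (0 : ℝ) ≤ N * (x 0 * x 0) := this
            _ = N * x 0 * x 0 := by ring)
    show -((totF E.S E.M E.k (mapT E.g a) (cond f0 par false) true
      + totF E.S E.M E.k (mapT E.g b) f0 (cond par false true) : ℕ) : ℝ)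
      ≤ M * N * (evT (ph 10 e) a (fun i => x (i + 1)) + x 0 * evT (ph 10 e) b x)
    push_cast
    have e1 : M * N * (evT (ph 10 e) a (fun i => x (i + 1)) + x 0 * evT (ph 10 e) b x)
        = M * N * 1 * evT (ph 10 e) a (fun i => x (i + 1))
        + M * (N * x 0) * evT (ph 10 e) b x := by ring
    rw [e1]
    linarith

/-- conversion of an integer -/
noncomputable def toN (M : ℕ) (z : ℤ) : ℕ :=
  Int.rec (motive := fun _ => ℕ) (fun n => Nat.mod n M) (fun n => Nat.sub (Nat.sub M 1) (Nat.mod n M)) z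

theorem toN_eq {M : ℕ} (hM : 0 < M) (z : ℤ) : toN M z = (z % (M : ℤ)).toNat := by
  cases z with
  | ofNat n =>
    show n % M = (((n : ℤ)) % (M : ℤ)).toNat
    rw [← Int.natCast_mod, Int.toNat_natCast]
  | negSucc n =>
    show M - 1 - n % M = _
    have h1 := Nat.mod_lt n hM
    have h2 := Nat.div_add_mod n M
    have h3 : (Int.negSucc n) % (M : ℤ) = ((M - 1 - n % M : ℕ) : ℤ) := by
      rw [Nat.cast_sub (by omega), Nat.cast_sub (by omega)]
      have h4 : (Int.negSucc n : ℤ) = ((M : ℤ) - 1 - (n % M : ℕ)) + M * (-((n / M : ℕ) : ℤ) - 1) := by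
        rw [Int.negSucc_eq]
        have : ((n : ℕ) : ℤ) = M * (n / M : ℕ) + (n % M : ℕ) := by exact_mod_cast h2.symm
        rw [this]
        ring
      rw [h4, Int.add_mul_emod_self_left]
      push_cast
      apply Int.emod_eq_of_lt
      · have : ((n % M : ℕ) : ℤ) ≤ M - 1 := by omega
        push_cast at this
        linarith
      · have : (0 : ℤ) ≤ ((n % M : ℕ) : ℤ) := Int.natCast_nonneg _
        push_cast at this
        linarith
    rw [h3, Int.toNat_natCast]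

/-- the first leaf -/
noncomputable def fstF (p : T ℕ) : ℕ := T.rec (motive := fun _ => ℕ) (fun z => z) (fun _ _ a _ => a) p

/-- the constant coefficient (if nonnegative) -/
noncomputable def Eng.c0 (E : Eng) (p : T ℕ) : ℕ :=
  Nat.sub (Nat.mod (Nat.mod (Nat.add (fstF p) E.S) E.M) E.X) E.B

/-- sum of the other coefficients -/
noncomputable def Eng.rest (E : Eng) (p : T ℕ) (v0 : ℕ) : ℕ :=
  totF E.S E.M E.k (addcF (adN E.M) (Nat.mod (Nat.sub E.M v0) E.M) p) true true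

theorem Eng.g_adv {h : ℕ} {E : Eng} (hE : E = mkE h) (v w : ℕ → ℤ) :
    E.g (adv v w) = adN E.M (E.g v) (E.g w) := by
  subst hE
  exact gN_adv (Nat.pow_pos (Nat.two_pow_pos _)) v w

theorem Eng.g_smv {h : ℕ} {E : Eng} (hE : E = mkE h) (c : ℤ) (v : ℕ → ℤ) :
    E.g (smv c v) = smN E.M c (E.g v) := by
  subst hE
  exact gN_smv (Nat.pow_pos (Nat.two_pow_pos _)) c v

/-- the vector of a constant -/
def cvec (c : ℤ) : ℕ → ℤ := fun i => if i = 0 then c else 0

theorem cvec_facts (c : ℤ) : (∀ X : ℤ, Lp X 10 (cvec c) = c) ∧ nmv 10 (cvec c) = c.natAbs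
    ∧ ∀ e : ℕ → ℝ, ph 10 e (cvec c) = c * e 0 := by
  refine ⟨fun X => ?_, ?_, fun e => ?_⟩
  · simp [Lp, cvec]
  · simp [nmv, cvec]
  · simp [ph, cvec]

theorem Eng.g_eq {h : ℕ} {E : Eng} (hE : E = mkE h) (v : ℕ → ℤ) :
    E.g v = toN E.M (Lp E.X 10 v) := by
  have hMp : 0 < E.M := by subst hE; exact Nat.pow_pos (Nat.two_pow_pos _)
  rw [toN_eq hMp]
  rfl

/-- **lower bound** -/
theorem Eng.low_sound {h : ℕ} {E : Eng} (hE : E = mkE h) {s t : ℝ} (hs : |s| ≤ 1) (ht : |t| ≤ 1)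
    (p : T (ℕ → ℤ)) (v0 b : ℕ) (hb : nrm (nmv 10) p (fun _ => 1) ≤ b) (hB : b + v0 < E.B)
    {x : ℕ → ℝ} (hx : ∀ i, |x i| ≤ 1) :
    (v0 : ℝ) - (E.rest (mapT E.g p) v0 : ℝ) ≤ evT (ph 10 (mo s t)) p x := by
  obtain ⟨c1, c2, c3⟩ := cvec_facts (-(v0 : ℤ))
  have hMp : 0 < E.M := by subst hE; exact Nat.pow_pos (Nat.two_pow_pos _)
  have hBM : E.B ≤ E.M := by
    subst hE
    show 2 ^ h ≤ (2 ^ (h + 1)) ^ 10
    rw [← pow_mul]
    exact Nat.pow_le_pow_right (by norm_num) (by omega)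
  have hg : E.g (cvec (-(v0 : ℤ))) = Nat.mod (Nat.sub E.M v0) E.M := by
    rw [Eng.g_eq hE, c1, toN_eq hMp]
    have h1 : (-(v0 : ℤ)) % (E.M : ℤ) = (((E.M - v0) % E.M : ℕ) : ℤ) := by
      rw [Int.natCast_mod, Nat.cast_sub (by omega)]
      rw [show ((E.M : ℤ) - (v0 : ℤ)) = -(v0 : ℤ) + E.M * 1 by ring, Int.add_mul_emod_self_left]
    rw [h1, Int.toNat_natCast]
    rfl
  have h1 : mapT E.g (addc adv (cvec (-(v0 : ℤ))) p)
      = addcF (adN E.M) (Nat.mod (Nat.sub E.M v0) E.M) (mapT E.g p) := by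
    rw [map_addc (ad' := adN E.M) (fun a b => Eng.g_adv hE a b), hg, addcF_eq]
  have h2 : nrm (nmv 10) (addc adv (cvec (-(v0 : ℤ))) p) (fun _ => 1) < E.B := by
    have := nrm_addc (nm := nmv 10) (ad := adv) (nmv_adv 10) (cvec (-(v0 : ℤ))) p (fun _ => 1)
    rw [c2, Int.natAbs_neg, Int.natAbs_natCast] at this
    omega
  have h3 := totF_sound hE (mo_le hs ht) (ev_es10 s t) (addc adv (cvec (-(v0 : ℤ))) p) true true x
    1 1 hx h2 (by simp) (by simp)
    (fun _ => zero_le_one) (fun _ => zero_le_one) (fun h => absurd h.symm Bool.false_ne_true)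
  rw [h1] at h3
  rw [ev_addc (φ := ph 10 (mo s t)) (ad := adv) (ph_adv 10 (mo s t)) _ p x, c3] at h3
  have h4 : mo s t 0 = 1 := rfl
  rw [h4] at h3
  push_cast at h3
  unfold Eng.rest
  linarith

/-- **upper bound of the absolute value** -/
theorem Eng.nrm_sound {h : ℕ} {E : Eng} (hE : E = mkE h) {s t : ℝ} (hs : |s| ≤ 1) (ht : |t| ≤ 1)
    (p : T (ℕ → ℤ)) (hb : nrm (nmv 10) p (fun _ => 1) < E.B)
    {x : ℕ → ℝ} (hx : ∀ i, |x i| ≤ 1) :
    |evT (ph 10 (mo s t)) p x| ≤ (totF E.S E.M E.k (mapT E.g p) false true : ℝ) := by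
  have h1 := totF_sound hE (mo_le hs ht) (ev_es10 s t) p false true x 1 1 hx hb (by simp)
    (by simp) (fun h => absurd h Bool.false_ne_true) (fun _ => zero_le_one)
    (fun h => absurd h.symm Bool.false_ne_true)
  have h2 := totF_sound hE (mo_le hs ht) (ev_es10 s t) p false true x (-1) 1 hx hb (by simp)
    (by simp) (fun h => absurd h Bool.false_ne_true) (fun _ => zero_le_one)
    (fun h => absurd h.symm Bool.false_ne_true)
  rw [abs_le]
  constructor <;> linarith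

/-! ### packed polynomials with bounds -/

structure PN where
  t : T ℕ
  e : ℕ
  b : ℕ

/-- `P` represents `F` at the local point `(s, t)` for `|p i| ≤ R` -/
def RepN (E : Eng) (R : ℕ) (s t : ℝ) (P : PN) (F : (ℕ → ℝ) → ℝ) : Prop :=
  ∃ S : T (ℕ → ℤ), mapT E.g S = P.t ∧ nrm (nmv 10) S (fun _ => R) ≤ P.b ∧
    ∀ p : ℕ → ℝ, (∀ i, |p i| ≤ R) → |F p - evT (ph 10 (mo s t)) S p| ≤ P.e

theorem RepN.congr {E : Eng} {R : ℕ} {s t : ℝ} {P : PN} {F G : (ℕ → ℝ) → ℝ}
    (h : RepN E R s t P F) (hFG : ∀ p : ℕ → ℝ, (∀ i, |p i| ≤ (R : ℝ)) → F p = G p) :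
    RepN E R s t P G := by
  obtain ⟨S, h1, h2, h3⟩ := h
  exact ⟨S, h1, h2, fun p hp => by rw [← hFG p hp]; exact h3 p hp⟩

noncomputable def Eng.add (E : Eng) (P Q : PN) : PN :=
  PN.rec (motive := fun _ => PN) (fun p e b => PN.rec (motive := fun _ => PN) (fun q f c =>
    ⟨addF (adN E.M) p q, Nat.add e f, Nat.add b c⟩) Q) P

theorem RepN.add {h : ℕ} {E : Eng} (hE : E = mkE h) {R : ℕ} {s t : ℝ} {P Q : PN}
    {F G : (ℕ → ℝ) → ℝ} (hP : RepN E R s t P F) (hQ : RepN E R s t Q G) :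
    RepN E R s t (E.add P Q) (fun p => F p + G p) := by
  obtain ⟨S, h1, h2, h3⟩ := hP
  obtain ⟨S', h1', h2', h3'⟩ := hQ
  obtain ⟨p, e, b⟩ := P
  obtain ⟨q, f, c⟩ := Q
  simp only at h1 h2 h3 h1' h2' h3'
  refine ⟨addT adv S S', ?_, ?_, fun x hx => ?_⟩
  · show _ = addF (adN E.M) p q
    rw [addF_eq, map_addT (ad' := adN E.M) (fun a b => Eng.g_adv hE a b), h1, h1']
  · show _ ≤ b + c
    exact (nrm_addT (nmv_adv 10) S S' _).trans (Nat.add_le_add h2 h2')
  · show |F x + G x - _| ≤ ((e + f : ℕ) : ℝ)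
    rw [ev_addT (ph_adv 10 _)]
    push_cast
    calc _ = |(F x - evT (ph 10 (mo s t)) S x) + (G x - evT (ph 10 (mo s t)) S' x)| := by
          ring_nf
      _ ≤ _ := (abs_add_le _ _).trans (add_le_add (h3 x hx) (h3' x hx))

/-- `P + c Q` -/
noncomputable def Eng.fma (E : Eng) (P : PN) (c : ℤ) (Q : PN) : PN :=
  PN.rec (motive := fun _ => PN) (fun p e b => PN.rec (motive := fun _ => PN) (fun q f d =>
    ⟨fmaF (adN E.M) (smN E.M c) p q, Nat.add e (Nat.mul (Int.natAbs c) f),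
      Nat.add b (Nat.mul (Int.natAbs c) d)⟩) Q) P

theorem RepN.fma {h : ℕ} {E : Eng} (hE : E = mkE h) {R : ℕ} {s t : ℝ} {P Q : PN}
    {F G : (ℕ → ℝ) → ℝ} (hP : RepN E R s t P F) (c : ℤ) (hQ : RepN E R s t Q G) :
    RepN E R s t (E.fma P c Q) (fun p => F p + c * G p) := by
  obtain ⟨S, h1, h2, h3⟩ := hP
  obtain ⟨S', h1', h2', h3'⟩ := hQ
  obtain ⟨p, e, b⟩ := P
  obtain ⟨q, f, d⟩ := Q
  simp only at h1 h2 h3 h1' h2' h3'
  refine ⟨addT adv S (mapT (smv c) S'), ?_, ?_, fun x hx => ?_⟩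
  · show _ = fmaF (adN E.M) (smN E.M c) p q
    rw [fmaF_eq, map_addT (ad' := adN E.M) (fun a b => Eng.g_adv hE a b),
      map_comm (f' := smN E.M c) (fun a => Eng.g_smv hE c a), h1, h1']
  · show _ ≤ b + c.natAbs * d
    refine (nrm_addT (nmv_adv 10) S _ _).trans (Nat.add_le_add h2 ?_)
    exact (nrm_map (fun a => le_of_eq (nmv_smv 10 c a)) S' _).trans (Nat.mul_le_mul_left _ h2')
  · show |F x + c * G x - _| ≤ ((e + c.natAbs * f : ℕ) : ℝ)
    rw [ev_addT (ph_adv 10 _), ev_map (k := (c : ℝ)) (fun a => ph_smv 10 _ c a)]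
    push_cast
    have h4 : |(c : ℝ) * (G x - evT (ph 10 (mo s t)) S' x)| ≤ |(c : ℝ)| * f := by
      rw [abs_mul]
      exact mul_le_mul_of_nonneg_left (h3' x hx) (abs_nonneg _)
    rw [nabs]
    calc _ = |(F x - evT (ph 10 (mo s t)) S x) + c * (G x - evT (ph 10 (mo s t)) S' x)| := by
          ring_nf
      _ ≤ _ := (abs_add_le _ _).trans (add_le_add (h3 x hx) h4)

/-- norm with equal radii, direct recursor -/
noncomputable def nrF (R : ℕ) (p : T ℤ) : ℕ :=
  T.rec (motive := fun _ => ℕ) (fun n => Int.natAbs n) (fun _ _ a b => Nat.add a (Nat.mul R b)) p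

theorem nrF_eq (R : ℕ) : ∀ p : T ℤ, nrm Int.natAbs p (fun _ => R) = nrF R p
  | T.c n => rfl
  | T.h a b => by
    show nrm Int.natAbs a (fun _ => R) + R * nrm Int.natAbs b (fun _ => R)
      = nrF R a + R * nrF R b
    rw [nrF_eq R a, nrF_eq R b]

/-- one term `n C` -/
noncomputable def Eng.term (E : Eng) (R : ℕ) (n : V3) (C : T ℤ) : PN :=
  (fun z k => ⟨mapF (fun c => smN E.M c z) C, Nat.mul n.e k, Nat.mul n.nn k⟩)
    (toN E.M (pk (Int.ofNat E.X) n)) (nrF R C)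

theorem Eng.term_rep {h : ℕ} {E : Eng} (hE : E = mkE h) {R : ℕ} {s t : ℝ} {n : V3} {v : ℝ}
    (hn : Ap3 s t n v) (C : T ℤ) : RepN E R s t (E.term R n C) (fun p => v * evZ C p) := by
  refine ⟨mapT (fun c => smv c (vec n)) C, ?_, ?_, fun p hp => ?_⟩
  · show _ = mapF (fun c => smN E.M c (toN E.M (pk (Int.ofNat E.X) n))) C
    rw [mapF_eq, map_map]
    congr 1
    funext c
    rw [Eng.g_smv hE, Eng.g_eq hE, ← pk_eq]
    rfl
  · show _ ≤ n.nn * nrF R C
    rw [← nrF_eq]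
    refine nrm_map (nm := Int.natAbs) (fun c => ?_) C _
    rw [nmv_smv, nmv_vec]
    exact le_of_eq (Nat.mul_comm _ _)
  · show |v * evZ C p - evT (ph 10 (mo s t)) (mapT (fun c => smv c (vec n)) C) p|
      ≤ ((n.e * nrF R C : ℕ) : ℝ)
    rw [ev_map (φ := fun n : ℤ => (n : ℝ)) (k := n.ev s t) (fun c => by
      rw [ph_smv, ph_vec]; ring)]
    have h1 : |evZ C p| ≤ nrF R C := by
      rw [← nrF_eq]
      exact ev_le_nrm (nm := Int.natAbs) (fun a => le_of_eq (nabs a).symm) C _ p hp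
    have h2 : v * evZ C p - n.ev s t * evT (fun n : ℤ => (n : ℝ)) C p
        = (v - n.ev s t) * evZ C p := by
      unfold evZ
      ring
    rw [h2, abs_mul]
    push_cast
    exact mul_le_mul hn h1 (abs_nonneg _) (Nat.cast_nonneg _)

/-- values and models -/
def ApL (s t : ℝ) : List ℝ → List V3 → Prop
  | [], [] => True
  | v :: vs, n :: N => Ap3 s t n v ∧ ApL s t vs N
  | _, _ => False

/-- `∑ v C(p)` -/
noncomputable def valL : List ℝ → List (T ℤ) → (ℕ → ℝ) → ℝ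
  | v :: vs, C :: L, p => v * evZ C p + valL vs L p
  | _, _, _ => 0

def Eng.zero : PN := ⟨T.c 0, 0, 0⟩

/-- `∑ n C` -/
noncomputable def Eng.dot (E : Eng) (R : ℕ) (N : List V3) : List (T ℤ) → PN :=
  List.rec (motive := fun _ => List (T ℤ) → PN) (fun _ => Eng.zero)
    (fun n _ ih L => List.rec (motive := fun _ => PN) Eng.zero
      (fun C L _ => cond (isz C) (ih L) (E.add (E.term R n C) (ih L))) L) N

theorem rep_zeroN {h : ℕ} {E : Eng} (hE : E = mkE h) (R : ℕ) (s t : ℝ) :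
    RepN E R s t Eng.zero (fun _ => 0) := by
  refine ⟨T.c (fun _ => 0), ?_, ?_, fun p _ => ?_⟩
  · show T.c (E.g fun _ => 0) = T.c 0
    rw [Eng.g_eq hE]
    have : Lp E.X 10 (fun _ => 0) = 0 := by simp [Lp]
    rw [this]
    have hMp : 0 < E.M := by subst hE; exact Nat.pow_pos (Nat.two_pow_pos _)
    rw [toN_eq hMp]
    simp
  · simp [nrm, nmv]
  · simp [evT, ph]

theorem Eng.dot_rep {h : ℕ} {E : Eng} (hE : E = mkE h) {R : ℕ} {s t : ℝ} :
    ∀ (vs : List ℝ) (N : List V3) (L : List (T ℤ)), ApL s t vs N →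
    RepN E R s t (E.dot R N L) (fun p => valL vs L p)
  | [], [], L, _ => RepN.congr (rep_zeroN hE R s t) (fun p _ => by simp [valL])
  | [], _ :: _, L, h => h.elim
  | _ :: _, [], L, h => h.elim
  | v :: vs, n :: N, [], _ => RepN.congr (rep_zeroN hE R s t) (fun p _ => by simp [valL])
  | v :: vs, n :: N, C :: L, h => by
    have h2 := Eng.dot_rep hE (R := R) vs N L h.2
    have h1 := Eng.term_rep hE (R := R) h.1 C
    show RepN E R s t (cond (isz C) (E.dot R N L) (E.add (E.term R n C) (E.dot R N L))) _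
    cases hz : isz C
    · exact RepN.add hE h1 h2
    · exact RepN.congr h2 (fun p _ => by
        simp only [valL]
        rw [isz_ev hz]
        ring)

/-! ### box -/

/-- the old point -/
noncomputable def bx3 (A0 B0 A1 B1 A2 B2 : ℤ) (y : ℕ → ℝ) : ℕ → ℝ :=
  shx [A0, A1, A2] (scx [B0, B1, B2] y)

theorem bx3_0 (A0 B0 A1 B1 A2 B2 : ℤ) (y : ℕ → ℝ) : bx3 A0 B0 A1 B1 A2 B2 y 0 = A0 + B0 * y 0 := rfl
theorem bx3_1 (A0 B0 A1 B1 A2 B2 : ℤ) (y : ℕ → ℝ) : bx3 A0 B0 A1 B1 A2 B2 y 1 = A1 + B1 * y 1 := rfl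
theorem bx3_2 (A0 B0 A1 B1 A2 B2 : ℤ) (y : ℕ → ℝ) : bx3 A0 B0 A1 B1 A2 B2 y 2 = A2 + B2 * y 2 := rfl
theorem bx3_n (A0 B0 A1 B1 A2 B2 : ℤ) (y : ℕ → ℝ) (i : ℕ) :
    bx3 A0 B0 A1 B1 A2 B2 y (i + 3) = y (i + 3) := rfl

/-- the box fits into the radius `R` -/
def boxOK (R : ℕ) (A0 B0 A1 B1 A2 B2 : ℤ) : Bool :=
  cond (Nat.ble (Nat.add (Int.natAbs A0) (Int.natAbs B0)) R)
    (cond (Nat.ble (Nat.add (Int.natAbs A1) (Int.natAbs B1)) R)
      (cond (Nat.ble (Nat.add (Int.natAbs A2) (Int.natAbs B2)) R) (Nat.ble 1 R) false) false) false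

noncomputable def Eng.box (E : Eng) (A0 B0 A1 B1 A2 B2 : ℤ) (P : PN) : PN :=
  PN.rec (motive := fun _ => PN) (fun p e b =>
    ⟨scF (smN E.M) (shF (adN E.M) (smN E.M) p [A0, A1, A2]) [B0, B1, B2] (Int.ofNat 1), e, b⟩) P

theorem Eng.box_rep {h : ℕ} {E : Eng} (hE : E = mkE h) {R : ℕ} {s t : ℝ}
    {A0 B0 A1 B1 A2 B2 : ℤ} (hb : boxOK R A0 B0 A1 B1 A2 B2 = true) {P : PN}
    {F : (ℕ → ℝ) → ℝ} (hP : RepN E R s t P F) :
    RepN E 1 s t (E.box A0 B0 A1 B1 A2 B2 P) (fun y => F (bx3 A0 B0 A1 B1 A2 B2 y)) := by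
  obtain ⟨S, h1, h2, h3⟩ := hP
  obtain ⟨p, e, b⟩ := P
  simp only at h1 h2 h3
  have c1 := cond_ff hb
  have c2 := cond_ff c1.2
  have c3 := cond_ff c2.2
  have d0 : A0.natAbs + B0.natAbs ≤ R := Nat.le_of_ble_eq_true c1.1
  have d1 : A1.natAbs + B1.natAbs ≤ R := Nat.le_of_ble_eq_true c2.1
  have d2 : A2.natAbs + B2.natAbs ≤ R := Nat.le_of_ble_eq_true c3.1
  have d3 : 1 ≤ R := Nat.le_of_ble_eq_true c3.2
  refine ⟨sc smv (sh adv smv S [A0, A1, A2]) [B0, B1, B2] 1, ?_, ?_, fun y hy => ?_⟩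
  · show _ = scF (smN E.M) (shF (adN E.M) (smN E.M) p [A0, A1, A2]) [B0, B1, B2] (Int.ofNat 1)
    rw [scF_eq, shF_eq, map_sc (sm' := smN E.M) (fun n a => Eng.g_smv hE n a),
      map_sh (ad' := adN E.M) (sm' := smN E.M) (fun a b => Eng.g_adv hE a b)
        (fun n a => Eng.g_smv hE n a), h1]
    rfl
  · show _ ≤ b
    have k1 := nrm_sc (nm := nmv 10) (sm := smv) (fun n a => le_of_eq (nmv_smv 10 n a))
      (sh adv smv S [A0, A1, A2]) [B0, B1, B2] 1 (fun _ => 1)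
    have k2 := nrm_sh (nm := nmv 10) (ad := adv) (sm := smv) (nmv_adv 10)
      (fun n a => le_of_eq (nmv_smv 10 n a)) S [A0, A1, A2] (scw [B0, B1, B2] (fun _ => 1))
    have k3 := nrm_mono (nm := nmv 10) S (shw [A0, A1, A2] (scw [B0, B1, B2] (fun _ => 1)))
      (fun _ => R) (fun i => by
        match i with
        | 0 => show A0.natAbs + B0.natAbs * 1 ≤ R; omega
        | 1 => show A1.natAbs + B1.natAbs * 1 ≤ R; omega
        | 2 => show A2.natAbs + B2.natAbs * 1 ≤ R; omega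
        | i + 3 => exact d3)
    simp only [Int.natAbs_one, one_mul] at k1
    exact k1.trans (k2.trans (k3.trans h2))
  · show |F (bx3 A0 B0 A1 B1 A2 B2 y) - _| ≤ (e : ℝ)
    rw [ev_sc (φ := ph 10 (mo s t)) (sm := smv) (fun n a => ph_smv 10 _ n a),
      ev_sh (φ := ph 10 (mo s t)) (ad := adv) (sm := smv) (ph_adv 10 _)
        (fun n a => ph_smv 10 _ n a)]
    push_cast
    rw [one_mul]
    refine h3 (bx3 A0 B0 A1 B1 A2 B2 y) (fun i => ?_)
    have key : ∀ (A B : ℤ) (z : ℝ), |z| ≤ ((1 : ℕ) : ℝ) → A.natAbs + B.natAbs ≤ R →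
        |(A : ℝ) + B * z| ≤ R := by
      intro A B z hz hAB
      have e1 : |(B : ℝ) * z| ≤ |(B : ℝ)| := by
        rw [abs_mul]
        calc |(B : ℝ)| * |z| ≤ |(B : ℝ)| * ((1 : ℕ) : ℝ) :=
              mul_le_mul_of_nonneg_left hz (abs_nonneg _)
          _ = _ := by push_cast; ring
      have e2 : |(A : ℝ)| + |(B : ℝ)| ≤ R := by
        rw [← nabs, ← nabs]
        exact_mod_cast hAB
      exact (abs_add_le _ _).trans ((add_le_add le_rfl e1).trans e2)
    match i with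
    | 0 => exact key A0 B0 _ (hy 0) d0
    | 1 => exact key A1 B1 _ (hy 1) d1
    | 2 => exact key A2 B2 _ (hy 2) d2
    | i + 3 =>
      rw [bx3_n]
      refine (hy _).trans ?_
      exact_mod_cast d3

end Helper10.PC
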