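import Pool.Agent.Helper10.TOP.PH
import Pool.Agent.Helper45.TOP.KrRep

/-!
# Exact tables at the Kronecker point

Exact integer polynomials in two variables as one integer; vectors of their coefficients;
linear combinations with polynomial coefficients; cutting to fewer slots with an error bound.
-/

set_option autoImplicit false

namespace Helper10.PC
open Pool.Agent.Helper45.TOP MvPolynomial

/-! ### sums -/

theorem Lp_sum (X : ℤ) : ∀ (m : ℕ) (v : ℕ → ℤ), Lp X m v = ∑ i ∈ Finset.range m, v i * X ^ i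
  | 0, v => by simp [Lp]
  | m + 1, v => by
    rw [Finset.sum_range_succ']
    show v 0 + X * Lp X m (fun i => v (i + 1)) = _
    rw [Lp_sum X m, Finset.mul_sum, add_comm]
    congr 1
    · refine Finset.sum_congr rfl fun i _ => ?_
      ring
    · simp

theorem ph_sum : ∀ (m : ℕ) (e : ℕ → ℝ) (v : ℕ → ℤ),
    ph m e v = ∑ i ∈ Finset.range m, (v i : ℝ) * e i
  | 0, e, v => by simp [ph]
  | m + 1, e, v => by
    rw [Finset.sum_range_succ']
    show (v 0 : ℝ) * e 0 + ph m (fun i => e (i + 1)) (fun i => v (i + 1)) = _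
    rw [ph_sum m, add_comm]

theorem nmv_sum : ∀ (m : ℕ) (v : ℕ → ℤ), nmv m v = ∑ i ∈ Finset.range m, (v i).natAbs
  | 0, v => by simp [nmv]
  | m + 1, v => by
    rw [Finset.sum_range_succ']
    show (v 0).natAbs + nmv m (fun i => v (i + 1)) = _
    rw [nmv_sum m, add_comm]

/-- monomials of the slots `i + g j` -/
noncomputable def mo2 (g : ℕ) (s t : ℝ) : ℕ → ℝ := fun k => s ^ (k % g) * t ^ (k / g)

theorem rep_vec {w g : ℕ} {y : Fin 5 → ℝ} {d : Fin 5 → ℕ} {N : ℤ} {f : ℝ} {b : ℕ}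
    (h : Pool.Agent.Helper45.TOP.Rep w g 1 y d N f b) (hd : ∀ j, d j < rad g 1 j) :
    ∃ v : ℕ → ℤ, N = Lp ((2 ^ w : ℕ) : ℤ) (g * g) v ∧ f = ph (g * g) (mo2 g (y 0) (y 1)) v ∧
      nmv (g * g) v ≤ b := by
  obtain ⟨G, H, h1, h2, h3, h4, h5⟩ := h
  have hG : ∀ j, degreeOf j G < rad g 1 j := fun j => lt_of_le_of_lt (h4 j) (hd j)
  have hH : ∀ j, degreeOf j H < rad g 1 j := fun j => lt_of_le_of_lt (h5 j) (hd j)
  have hg : 0 < g := lt_of_le_of_lt (Nat.zero_le _) (hd 0)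
  have hnp : npos g 1 = g * g := by unfold npos; ring
  have hK : ∀ i < npos g 1, ∏ j : Fin 5, ((2 : ℕ) ^ (w * str g 1 j)) ^ (dec g 1 i j) =
      2 ^ (w * i) := by
    intro i hi
    have e1 : ∀ j : Fin 5, ((2 : ℕ) ^ (w * str g 1 j)) ^ (dec g 1 i j) =
        2 ^ (w * (str g 1 j * dec g 1 i j)) := fun j => by
      rw [← pow_mul, Nat.mul_assoc]
    rw [Finset.prod_congr rfl fun j _ => e1 j, Finset.prod_pow_eq_pow_sum, ← Finset.mul_sum]
    congr 2
    have e2 := posn_dec hi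
    rw [Fin.sum_univ_five]
    simp only [posn] at e2
    simp only [str, Matrix.cons_val]
    rw [one_mul]
    exact e2
  have ev : ∀ P : MvPolynomial (Fin 5) ℕ, (∀ j, degreeOf j P < rad g 1 j) →
      eval (fun j => 2 ^ (w * str g 1 j)) P =
        ∑ i ∈ Finset.range (npos g 1), coeff (dec g 1 i) P * 2 ^ (w * i) := by
    intro P hP
    have := sum_flat (RingHom.id ℕ) (fun j => 2 ^ (w * str g 1 j)) hP
    rw [show eval (fun j => 2 ^ (w * str g 1 j)) P =
      eval₂ (RingHom.id ℕ) (fun j => 2 ^ (w * str g 1 j)) P from rfl, this]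
    refine Finset.sum_congr rfl fun i hi => ?_
    rw [hK i (Finset.mem_range.1 hi)]
    rfl
  have ev1 : ∀ P : MvPolynomial (Fin 5) ℕ, (∀ j, degreeOf j P < rad g 1 j) →
      eval (fun _ => 1) P = ∑ i ∈ Finset.range (npos g 1), coeff (dec g 1 i) P := by
    intro P hP
    have := sum_flat (RingHom.id ℕ) (fun _ => 1) hP
    rw [show eval (fun _ => 1) P = eval₂ (RingHom.id ℕ) (fun _ => 1) P from rfl, this]
    refine Finset.sum_congr rfl fun i hi => ?_
    simp
  have hmo : ∀ i < npos g 1, ∏ j, y j ^ (dec g 1 i j) = mo2 g (y 0) (y 1) i := by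
    intro i hi
    rw [hnp] at hi
    rw [Fin.prod_univ_five]
    simp only [dec_apply, str, rad, Matrix.cons_val]
    unfold mo2
    have e1 : i / g < g := Nat.div_lt_of_lt_mul hi
    rw [Nat.div_one, Nat.mod_eq_of_lt e1, Nat.mod_one, Nat.mod_one, Nat.mod_one]
    simp
  have evr : ∀ P : MvPolynomial (Fin 5) ℕ, (∀ j, degreeOf j P < rad g 1 j) →
      eval₂ (Nat.castRingHom ℝ) y P = ∑ i ∈ Finset.range (npos g 1),
        ((coeff (dec g 1 i) P : ℕ) : ℝ) * mo2 g (y 0) (y 1) i := by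
    intro P hP
    rw [sum_flat (Nat.castRingHom ℝ) y hP]
    refine Finset.sum_congr rfl fun i hi => ?_
    rw [hmo i (Finset.mem_range.1 hi)]
    rfl
  refine ⟨fun i => ((coeff (dec g 1 i) G : ℕ) : ℤ) - ((coeff (dec g 1 i) H : ℕ) : ℤ), ?_, ?_, ?_⟩
  · rw [h1, ev G hG, ev H hH, Lp_sum, ← hnp]
    push_cast
    rw [← Finset.sum_sub_distrib]
    refine Finset.sum_congr rfl fun i _ => ?_
    rw [pow_mul]
    ring
  · rw [h2, evr G hG, evr H hH, ph_sum, ← hnp, ← Finset.sum_sub_distrib]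
    refine Finset.sum_congr rfl fun i _ => ?_
    push_cast
    ring
  · rw [nmv_sum, ← hnp]
    calc ∑ i ∈ Finset.range (npos g 1),
          (((coeff (dec g 1 i) G : ℕ) : ℤ) - ((coeff (dec g 1 i) H : ℕ) : ℤ)).natAbs
        ≤ ∑ i ∈ Finset.range (npos g 1), (coeff (dec g 1 i) G + coeff (dec g 1 i) H) := by
          refine Finset.sum_le_sum fun i _ => ?_
          omega
      _ = eval (fun _ => 1) G + eval (fun _ => 1) H := by
          rw [Finset.sum_add_distrib, ev1 G hG, ev1 H hH]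
      _ ≤ b := h3

/-! ### exact entries -/

def dd (k : ℕ) : Fin 5 → ℕ := ![k, k, 0, 0, 0]

/-- `E.1` is the value at the Kronecker point, `E.2` a bound of the norm -/
def RP (w g : ℕ) (y : Fin 5 → ℝ) (k : ℕ) (E : ℤ × ℕ) (f : ℝ) : Prop :=
  Pool.Agent.Helper45.TOP.Rep w g 1 y (dd k) E.1 f E.2

section
variable {w g : ℕ} {y : Fin 5 → ℝ} {k l : ℕ} {a c : ℤ × ℕ} {f u : ℝ}

theorem RP.mono (h : RP w g y k a f) (hk : k ≤ l) : RP w g y l a f :=
  Pool.Agent.Helper45.TOP.Rep.mono h (fun j => by fin_cases j <;> simp [dd, hk]) le_rfl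

def mulE (a c : ℤ × ℕ) : ℤ × ℕ := (Int.mul a.1 c.1, Nat.mul a.2 c.2)
def addE (a c : ℤ × ℕ) : ℤ × ℕ := (Int.add a.1 c.1, Nat.add a.2 c.2)
def subE (a c : ℤ × ℕ) : ℤ × ℕ := (Int.add a.1 (Int.mul (Int.negSucc 0) c.1), Nat.add a.2 c.2)
def conE (n : ℤ) : ℤ × ℕ := (n, Int.natAbs n)

theorem RP.mul (h : RP w g y k a f) (h' : RP w g y l c u) :
    RP w g y (k + l) (mulE a c) (f * u) :=
  Pool.Agent.Helper45.TOP.Rep.mono (Pool.Agent.Helper45.TOP.Rep.mul h h') (fun j => by fin_cases j <;> simp [dd]) le_rfl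

theorem RP.add (h : RP w g y k a f) (h' : RP w g y k c u) : RP w g y k (addE a c) (f + u) :=
  Pool.Agent.Helper45.TOP.Rep.add h h'

theorem RP.sub (h : RP w g y k a f) (h' : RP w g y k c u) : RP w g y k (subE a c) (f - u) := by
  have := Pool.Agent.Helper45.TOP.Rep.sub h h'
  have e : (subE a c).1 = a.1 - c.1 := by
    show a.1 + (-1) * c.1 = a.1 - c.1
    ring
  unfold RP
  rw [e]
  exact this

theorem RP.con (n : ℤ) : RP w g y 0 (conE n) n :=
  Pool.Agent.Helper45.TOP.Rep.mono (Pool.Agent.Helper45.TOP.Rep.const n) (fun j => by fin_cases j <;> simp [dd]) le_rfl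

/-- `A + B s` -/
def linS (w : ℕ) (A B : ℤ) : ℤ × ℕ := addE (conE A) (mulE (conE B) (Int.ofNat (Nat.pow 2 w), 1))
/-- `A + B t` -/
def linT (w g : ℕ) (A B : ℤ) : ℤ × ℕ :=
  addE (conE A) (mulE (conE B) (Int.ofNat (Nat.pow 2 (Nat.mul w g)), 1))

theorem RP.linS (A B : ℤ) : RP w g y 1 (linS w A B) (A + B * y 0) := by
  have h1 : RP w g y 1 (Int.ofNat (Nat.pow 2 w), 1) (y 0) := by
    have := Pool.Agent.Helper45.TOP.Rep.var (w := w) (g := g) (e := 1) (y := y) 0
    refine Pool.Agent.Helper45.TOP.Rep.mono ?_ (fun j => ?_) le_rfl (d := fun i => if i = 0 then 1 else 0)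
    · have e : ((2 : ℤ) ^ (w * str g 1 0)) = Int.ofNat (Nat.pow 2 w) := by
        show (2 : ℤ) ^ (w * 1) = ((2 ^ w : ℕ) : ℤ)
        push_cast
        rw [mul_one]
      rw [← e]
      exact this
    · fin_cases j <;> simp [dd]
  exact RP.add (RP.mono (RP.con A) (Nat.zero_le 1)) (by
    have := RP.mul (RP.con (w := w) (g := g) (y := y) B) h1
    rwa [Nat.zero_add] at this)

theorem RP.linT (A B : ℤ) : RP w g y 1 (linT w g A B) (A + B * y 1) := by
  have h1 : RP w g y 1 (Int.ofNat (Nat.pow 2 (Nat.mul w g)), 1) (y 1) := by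
    have := Pool.Agent.Helper45.TOP.Rep.var (w := w) (g := g) (e := 1) (y := y) 1
    refine Pool.Agent.Helper45.TOP.Rep.mono ?_ (fun j => ?_) le_rfl (d := fun i => if i = 1 then 1 else 0)
    · have e : ((2 : ℤ) ^ (w * str g 1 1)) = Int.ofNat (Nat.pow 2 (Nat.mul w g)) := by
        show (2 : ℤ) ^ (w * g) = ((2 ^ (w * g) : ℕ) : ℤ)
        push_cast
        rfl
      rw [← e]
      exact this
    · fin_cases j <;> simp [dd]
  exact RP.add (RP.mono (RP.con A) (Nat.zero_le 1)) (by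
    have := RP.mul (RP.con (w := w) (g := g) (y := y) B) h1
    rwa [Nat.zero_add] at this)

/-! ### chart and table -/

/-- `T² - a² - b², 2 T a, 2 T b, T² + a² + b²` for given `a`, `b` -/
def cX (T : ℤ) (a b : ℤ × ℕ) : ℤ × ℕ := subE (conE (Int.mul T T)) (addE (mulE a a) (mulE b b))
def cD (T : ℤ) (a b : ℤ × ℕ) : ℤ × ℕ := addE (conE (Int.mul T T)) (addE (mulE a a) (mulE b b))
def cY (T : ℤ) (a : ℤ × ℕ) : ℤ × ℕ := mulE (conE (Int.mul 2 T)) a

def pwE (V : ℤ × ℕ) : ℕ → ℤ × ℕ → List (ℤ × ℕ)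
  | 0 => fun acc => [acc]
  | n + 1 => fun acc => acc :: pwE V n (mulE acc V)

def nthE : List (ℤ × ℕ) → ℕ → ℤ × ℕ
  | [] => fun _ => (0, 0)
  | a :: l => fun i => match i with
    | 0 => a
    | i + 1 => nthE l i

theorem pwE_sound {V : ℤ × ℕ} {v : ℝ} (h1 : RP w g y 2 V v) : ∀ (n : ℕ) (acc : ℤ × ℕ) (x : ℝ)
    (r : ℕ), RP w g y r acc x → ∀ i, i ≤ n → RP w g y (r + 2 * i) (nthE (pwE V n acc) i) (x * v ^ i)
  | 0, acc, x, r, h, i, hi => by
    obtain rfl : i = 0 := by omega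
    simpa [pwE, nthE] using h
  | n + 1, acc, x, r, h, 0, hi => by simpa [pwE, nthE] using h
  | n + 1, acc, x, r, h, i + 1, hi => by
    have := pwE_sound h1 n _ _ _ (h.mul h1) i (by omega)
    show RP w g y (r + 2 * (i + 1)) (nthE (pwE V n (mulE acc V)) i) _
    rw [pow_succ', show x * (v * v ^ i) = x * v * v ^ i by ring,
      show r + 2 * (i + 1) = r + 2 + 2 * i by ring]
    exact this

def oneE : ℤ × ℕ := (Int.ofNat 1, 1)

theorem RP.one : RP w g y 0 oneE 1 := by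
  have := RP.con (w := w) (g := g) (y := y) 1
  simpa [conE, oneE] using this

theorem pwE_tab {V : ℤ × ℕ} {v : ℝ} (h1 : RP w g y 2 V v) (n i : ℕ) (hi : i ≤ n) :
    RP w g y (2 * i) (nthE (pwE V n oneE) i) (v ^ i) := by
  have := pwE_sound h1 n _ _ _ (RP.one (w := w) (g := g) (y := y)) i hi
  rwa [one_mul, Nat.zero_add] at this

def mkE2 (K : ℕ) (tX tY tZ tD : List (ℤ × ℕ)) : List Al → List (ℤ × ℕ)
  | [] => []
  | (i, j, k) :: A => mulE (mulE (nthE tX i) (nthE tY j))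
      (mulE (nthE tZ k) (nthE tD (Nat.sub K (Nat.add i (Nat.add j k))))) :: mkE2 K tX tY tZ tD A

/-- the entries are the monomials -/
def RPN (w g : ℕ) (y : Fin 5 → ℝ) (K : ℕ) (X Y Z D : ℝ) : List Al → List (ℤ × ℕ) → Prop
  | [], [] => True
  | a :: A, n :: N => RP w g y (2 * K) n (monU a X Y Z * D ^ (K - (a.1 + a.2.1 + a.2.2))) ∧
      RPN w g y K X Y Z D A N
  | _, _ => False

theorem mkE2_sound {K : ℕ} {tX tY tZ tD : List (ℤ × ℕ)} {X Y Z D : ℝ}
    (h1 : ∀ i, i ≤ K → RP w g y (2 * i) (nthE tX i) (X ^ i))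
    (h2 : ∀ i, i ≤ K → RP w g y (2 * i) (nthE tY i) (Y ^ i))
    (h3 : ∀ i, i ≤ K → RP w g y (2 * i) (nthE tZ i) (Z ^ i))
    (h4 : ∀ i, i ≤ K → RP w g y (2 * i) (nthE tD i) (D ^ i)) :
    ∀ A : List Al, degOK K A = true → RPN w g y K X Y Z D A (mkE2 K tX tY tZ tD A)
  | [], _ => trivial
  | (i, j, k) :: A, h => by
    have h5 := cond_ff h
    have h6 : i + (j + k) ≤ K := Nat.le_of_ble_eq_true h5.1
    refine ⟨?_, mkE2_sound h1 h2 h3 h4 A h5.2⟩
    have e : K - (i + j + k) = Nat.sub K (Nat.add i (Nat.add j k)) := by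
      show K - (i + j + k) = K - (i + (j + k))
      omega
    have hl : Nat.sub K (Nat.add i (Nat.add j k)) = K - (i + (j + k)) := rfl
    have := ((h1 i (by omega)).mul (h2 j (by omega))).mul
      ((h3 k (by omega)).mul (h4 (Nat.sub K (Nat.add i (Nat.add j k))) (Nat.sub_le _ _)))
    simp only [monU]
    rw [e, show X ^ i * Y ^ j * Z ^ k * D ^ (Nat.sub K (Nat.add i (Nat.add j k)))
      = X ^ i * Y ^ j * (Z ^ k * D ^ (Nat.sub K (Nat.add i (Nat.add j k)))) by ring]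
    exact RP.mono this (by rw [hl]; omega)

/-- the exact table of a cell: `a = A + B s`, `b = A' + B' t` -/
def tabE (w g K : ℕ) (T A B A' B' : ℤ) (AL : List Al) : List (ℤ × ℕ) :=
  (fun a b => mkE2 K (pwE (cX T a b) K oneE) (pwE (cY T a) K oneE) (pwE (cY T b) K oneE)
    (pwE (cD T a b) K oneE) AL) (linS w A B) (linT w g A' B')

theorem tabE_sound {K : ℕ} {T A B A' B' : ℤ} {AL : List Al} (h : degOK K AL = true) :
    RPN w g y K ((T : ℝ) ^ 2 - (A + B * y 0) ^ 2 - (A' + B' * y 1) ^ 2) (2 * T * (A + B * y 0))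
      (2 * T * (A' + B' * y 1)) ((T : ℝ) ^ 2 + (A + B * y 0) ^ 2 + (A' + B' * y 1) ^ 2) AL
      (tabE w g K T A B A' B' AL) := by
  have ha := RP.linS (w := w) (g := g) (y := y) A B
  have hb := RP.linT (w := w) (g := g) (y := y) A' B'
  have hq := RP.add (ha.mul ha) (hb.mul hb)
  have hT : RP w g y (1 + 1) (conE (Int.mul T T)) ((T : ℝ) ^ 2) := by
    have := RP.con (w := w) (g := g) (y := y) (Int.mul T T)
    have e : ((Int.mul T T : ℤ) : ℝ) = (T : ℝ) ^ 2 := by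
      show ((T * T : ℤ) : ℝ) = _
      push_cast
      ring
    rw [e] at this
    exact RP.mono this (Nat.zero_le _)
  have hX : RP w g y 2 (cX T (linS w A B) (linT w g A' B'))
      ((T : ℝ) ^ 2 - (A + B * y 0) ^ 2 - (A' + B' * y 1) ^ 2) := by
    have := RP.sub hT hq
    rw [show (T : ℝ) ^ 2 - (A + B * y 0) ^ 2 - (A' + B' * y 1) ^ 2 = (T : ℝ) ^ 2
      - ((A + B * y 0) * (A + B * y 0) + (A' + B' * y 1) * (A' + B' * y 1)) by ring]
    exact this
  have hD : RP w g y 2 (cD T (linS w A B) (linT w g A' B'))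
      ((T : ℝ) ^ 2 + (A + B * y 0) ^ 2 + (A' + B' * y 1) ^ 2) := by
    have := RP.add hT hq
    rw [show (T : ℝ) ^ 2 + (A + B * y 0) ^ 2 + (A' + B' * y 1) ^ 2 = (T : ℝ) ^ 2
      + ((A + B * y 0) * (A + B * y 0) + (A' + B' * y 1) * (A' + B' * y 1)) by ring]
    exact this
  have h2T : ((Int.mul 2 T : ℤ) : ℝ) = 2 * (T : ℝ) := by
    show ((2 * T : ℤ) : ℝ) = _
    push_cast
    ring
  have hY : RP w g y 2 (cY T (linS w A B)) (2 * T * (A + B * y 0)) := by
    have := (RP.con (w := w) (g := g) (y := y) (Int.mul 2 T)).mul ha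
    rw [h2T] at this
    exact RP.mono this (by norm_num)
  have hZ : RP w g y 2 (cY T (linT w g A' B')) (2 * T * (A' + B' * y 1)) := by
    have := (RP.con (w := w) (g := g) (y := y) (Int.mul 2 T)).mul hb
    rw [h2T] at this
    exact RP.mono this (by norm_num)
  exact mkE2_sound (pwE_tab hX K) (pwE_tab hY K) (pwE_tab hZ K) (pwE_tab hD K) AL h

end

end Helper10.PC
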