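import Pool.Agent.Helper10.TOP.PK

/-!
# Dot product with exact entries, and the cut to `g × g` slots
-/

set_option autoImplicit false

namespace Helper10.PC

/-! ### packed polynomials with `m` slots -/

/-- `P` represents `F` for `|p i| ≤ R` -/
def RepM (X m M : ℕ) (e : ℕ → ℝ) (R : ℕ) (P : PN) (F : (ℕ → ℝ) → ℝ) : Prop :=
  ∃ S : T (ℕ → ℤ), mapT (gN X m M) S = P.t ∧ nrm (nmv m) S (fun _ => R) ≤ P.b ∧
    ∀ p : ℕ → ℝ, (∀ i, |p i| ≤ (R : ℝ)) → |F p - evT (ph m e) S p| ≤ P.e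

theorem RepM.congr {X m M : ℕ} {e : ℕ → ℝ} {R : ℕ} {P : PN} {F G : (ℕ → ℝ) → ℝ}
    (h : RepM X m M e R P F) (hFG : ∀ p : ℕ → ℝ, (∀ i, |p i| ≤ (R : ℝ)) → F p = G p) :
    RepM X m M e R P G := by
  obtain ⟨S, h1, h2, h3⟩ := h
  exact ⟨S, h1, h2, fun p hp => by rw [← hFG p hp]; exact h3 p hp⟩

noncomputable def addM (M : ℕ) (P Q : PN) : PN :=
  PN.rec (motive := fun _ => PN) (fun p e b => PN.rec (motive := fun _ => PN) (fun q f c =>
    ⟨addF (adN M) p q, Nat.add e f, Nat.add b c⟩) Q) P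

theorem RepM.add {X m M : ℕ} (hM : 0 < M) {e : ℕ → ℝ} {R : ℕ} {P Q : PN}
    {F G : (ℕ → ℝ) → ℝ} (hP : RepM X m M e R P F) (hQ : RepM X m M e R Q G) :
    RepM X m M e R (addM M P Q) (fun p => F p + G p) := by
  obtain ⟨S, h1, h2, h3⟩ := hP
  obtain ⟨S', h1', h2', h3'⟩ := hQ
  obtain ⟨p, ep, b⟩ := P
  obtain ⟨q, f, c⟩ := Q
  simp only at h1 h2 h3 h1' h2' h3'
  refine ⟨addT adv S S', ?_, ?_, fun x hx => ?_⟩
  · show _ = addF (adN M) p q
    rw [addF_eq, map_addT (ad' := adN M) (fun a b => gN_adv hM a b), h1, h1']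
  · show _ ≤ b + c
    exact (nrm_addT (nmv_adv m) S S' _).trans (Nat.add_le_add h2 h2')
  · show |F x + G x - _| ≤ ((ep + f : ℕ) : ℝ)
    rw [ev_addT (ph_adv m _)]
    push_cast
    calc _ = |(F x - evT (ph m e) S x) + (G x - evT (ph m e) S' x)| := by
          ring_nf
      _ ≤ _ := (abs_add_le _ _).trans (add_le_add (h3 x hx) (h3' x hx))

/-- one exact term `n C` -/
noncomputable def termM (M R : ℕ) (n : ℤ × ℕ) (C : T ℤ) : PN :=
  (fun z => ⟨mapF (fun c => smN M c z) C, 0, Nat.mul n.2 (nrF R C)⟩) (toN M n.1)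

theorem termM_rep {X m M : ℕ} (hM : 0 < M) {e : ℕ → ℝ} {R : ℕ} {n : ℤ × ℕ} {u : ℝ}
    (hn : ∃ v : ℕ → ℤ, n.1 = Lp (X : ℤ) m v ∧ u = ph m e v ∧ nmv m v ≤ n.2) (C : T ℤ) :
    RepM X m M e R (termM M R n C) (fun p => u * evZ C p) := by
  obtain ⟨v, h1, h2, h3⟩ := hn
  refine ⟨mapT (fun c => smv c v) C, ?_, ?_, fun p hp => ?_⟩
  · show _ = mapF (fun c => smN M c (toN M n.1)) C
    rw [mapF_eq, map_map]
    congr 1
    funext c
    rw [gN_smv hM, toN_eq hM, h1]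
    rfl
  · show _ ≤ n.2 * nrF R C
    rw [← nrF_eq]
    refine nrm_map (nm := Int.natAbs) (fun c => ?_) C _
    rw [nmv_smv, Nat.mul_comm]
    exact Nat.mul_le_mul_right _ h3
  · show |u * evZ C p - evT (ph m e) (mapT (fun c => smv c v) C) p| ≤ ((0 : ℕ) : ℝ)
    rw [ev_map (φ := fun n : ℤ => (n : ℝ)) (k := ph m e v) (fun c => by
      rw [ph_smv]; ring), h2]
    simp [evZ]

def zeroM : PN := ⟨T.c 0, 0, 0⟩

theorem rep_zeroM {X m M : ℕ} (hM : 0 < M) (e : ℕ → ℝ) (R : ℕ) :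
    RepM X m M e R zeroM (fun _ => 0) := by
  have e0 : Lp (X : ℤ) m (fun _ => 0) = 0 := by rw [Lp_sum]; simp
  have e1 : nmv m (fun _ => 0) = 0 := by rw [nmv_sum]; simp
  have e2 : ph m e (fun _ => 0) = 0 := by rw [ph_sum]; simp
  refine ⟨T.c (fun _ => 0), ?_, ?_, fun p _ => ?_⟩
  · show T.c (gN X m M fun _ => 0) = T.c 0
    unfold gN
    rw [e0]
    simp
  · simp [nrm, e1]
  · simp [evT, e2]

/-- `∑ n C` -/
noncomputable def dotM (M R : ℕ) (N : List (ℤ × ℕ)) : List (T ℤ) → PN :=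
  List.rec (motive := fun _ => List (T ℤ) → PN) (fun _ => zeroM)
    (fun n _ ih L => List.rec (motive := fun _ => PN) zeroM
      (fun C L _ => cond (isz C) (ih L) (addM M (termM M R n C) (ih L))) L) N

/-- the entries are exact -/
def ExL (X m : ℕ) (e : ℕ → ℝ) : List ℝ → List (ℤ × ℕ) → Prop
  | [], [] => True
  | u :: us, n :: N => (∃ v : ℕ → ℤ, n.1 = Lp (X : ℤ) m v ∧ u = ph m e v ∧ nmv m v ≤ n.2) ∧
      ExL X m e us N
  | _, _ => False

theorem dotM_rep {X m M : ℕ} (hM : 0 < M) {e : ℕ → ℝ} {R : ℕ} :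
    ∀ (us : List ℝ) (N : List (ℤ × ℕ)) (L : List (T ℤ)), ExL X m e us N →
    RepM X m M e R (dotM M R N L) (fun p => valL us L p)
  | [], [], L, _ => RepM.congr (rep_zeroM hM e R) (fun p _ => by simp [valL])
  | [], _ :: _, L, h => h.elim
  | _ :: _, [], L, h => h.elim
  | u :: us, n :: N, [], _ => RepM.congr (rep_zeroM hM e R) (fun p _ => by simp [valL])
  | u :: us, n :: N, C :: L, h => by
    have h2 := dotM_rep hM (R := R) us N L h.2
    have h1 := termM_rep hM (R := R) h.1 C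
    show RepM X m M e R (cond (isz C) (dotM M R N L) (addM M (termM M R n C) (dotM M R N L))) _
    cases hz : isz C
    · exact RepM.add hM h1 h2
    · exact RepM.congr h2 (fun p _ => by
        simp only [valL]
        rw [isz_ev hz]
        ring)

/-! ### the cut -/

theorem vd_add (X : ℕ) : ∀ (a b : ℕ) (d : ℕ → ℕ),
    vd X (a + b) d = vd X a d + X ^ a * vd X b (fun i => d (a + i))
  | 0, b, d => by simp [vd]
  | a + 1, b, d => by
    rw [show a + 1 + b = (a + b) + 1 by ring]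
    show d 0 + X * vd X (a + b) (fun i => d (i + 1)) = (d 0 + X * vd X a (fun i => d (i + 1))) + _
    rw [vd_add X a b]
    have : (fun i => d (a + i + 1)) = fun i => d (a + 1 + i) := by
      funext i
      congr 1
      ring
    rw [this]
    ring

theorem vd_sum2 (X : ℕ) : ∀ (m : ℕ) (d e : ℕ → ℕ), vd X m (fun i => d i + e i) = vd X m d + vd X m e
  | 0, d, e => rfl
  | m + 1, d, e => by
    show d 0 + e 0 + X * vd X m (fun i => d (i + 1) + e (i + 1)) = (d 0 + X * vd X m _) + (e 0 + X * vd X m _)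
    rw [vd_sum2 X m]
    ring

theorem sd_split : ∀ (a b : ℕ) (f : ℕ → ℕ), sd (a + b) f = sd a f + sd b (fun i => f (a + i))
  | 0, b, f => by simp [sd]
  | a + 1, b, f => by
    rw [show a + 1 + b = (a + b) + 1 by ring]
    show f 0 + sd (a + b) (fun i => f (i + 1)) = (f 0 + sd a (fun i => f (i + 1))) + _
    rw [sd_split a b]
    have : (fun i => f (a + i + 1)) = fun i => f (a + 1 + i) := by
      funext i
      congr 1
      ring
    rw [this]
    ring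

/-- the first `G2` of every row -/
def asm (XG1 XG2 : ℕ) : ℕ → ℕ → ℕ
  | 0 => fun _ => 0
  | k + 1 => fun y => Nat.add (Nat.mod y XG2) (Nat.mul XG2 (asm XG1 XG2 k (Nat.div y XG1)))

/-- index in the old rows -/
def ix (g1 g2 i : ℕ) : ℕ := g1 * (i / g2) + i % g2

theorem ix_add {g1 g2 : ℕ} (h2 : 0 < g2) (i : ℕ) : ix g1 g2 (g2 + i) = g1 + ix g1 g2 i := by
  unfold ix
  rw [Nat.add_div_left _ h2, Nat.add_mod_left]
  show g1 * (i / g2 + 1) + i % g2 = _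
  ring

theorem asm_vd {X g1 g2 : ℕ} (hX : 0 < X) (h2 : 0 < g2) (h : g2 ≤ g1) : ∀ (k r : ℕ) (d : ℕ → ℕ),
    k ≤ r → (∀ i, d i < X) →
    asm (X ^ g1) (X ^ g2) k (vd X (g1 * r) d) = vd X (g2 * k) (fun i => d (ix g1 g2 i))
  | 0, r, d, _, _ => by simp [asm, vd]
  | k + 1, 0, d, hk, _ => by omega
  | k + 1, r + 1, d, hk, hd => by
    have e1 : g1 * (r + 1) = g1 + g1 * r := by ring
    have hlt : vd X g1 d < X ^ g1 := vd_lt g1 d hd
    obtain ⟨c, hc⟩ := Nat.exists_eq_add_of_le h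
    have e2 : vd X g1 d = vd X g2 d + X ^ g2 * vd X c (fun i => d (g2 + i)) := by
      rw [hc, vd_add]
    have e3 : vd X (g1 * (r + 1)) d / X ^ g1 = vd X (g1 * r) (fun i => d (g1 + i)) := by
      rw [e1, vd_add, Nat.add_mul_div_left _ _ (Nat.pow_pos hX), Nat.div_eq_of_lt hlt, Nat.zero_add]
    have e4 : vd X (g1 * (r + 1)) d % X ^ g2 = vd X g2 d := by
      rw [e1, vd_add, e2]
      have : X ^ g1 = X ^ g2 * X ^ c := by rw [hc, pow_add]
      rw [this, Nat.mul_assoc, Nat.add_assoc, ← Nat.mul_add, Nat.add_mul_mod_self_left,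
        Nat.mod_eq_of_lt (vd_lt g2 d hd)]
    show vd X (g1 * (r + 1)) d % X ^ g2 + X ^ g2 * asm (X ^ g1) (X ^ g2) k
      (vd X (g1 * (r + 1)) d / X ^ g1) = _
    rw [e3, e4, asm_vd hX h2 h k r _ (by omega) (fun i => hd _)]
    have e5 : g2 * (k + 1) = g2 + g2 * k := by ring
    rw [e5, vd_add]
    have key : ∀ (n : ℕ), n ≤ g2 → vd X n d = vd X n (fun i => d (ix g1 g2 i)) := by
      intro n hn
      have gen : ∀ (m : ℕ) (a b : ℕ → ℕ), (∀ i, i < m → a i = b i) → vd X m a = vd X m b := by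
        intro m
        induction m with
        | zero => intro a b _; rfl
        | succ m ih =>
          intro a b hab
          show a 0 + X * vd X m _ = b 0 + X * vd X m _
          rw [hab 0 (by omega), ih (fun i => a (i + 1)) (fun i => b (i + 1))
            (fun i hi => hab _ (by omega))]
      refine gen n _ _ (fun i hi => ?_)
      unfold ix
      rw [Nat.div_eq_of_lt (by omega), Nat.mod_eq_of_lt (by omega), Nat.mul_zero, Nat.zero_add]
    rw [← key g2 le_rfl]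
    congr 2
    have : (fun i => d (g1 + ix g1 g2 i)) = fun i => d (ix g1 g2 (g2 + i)) := by
      funext i
      rw [ix_add h2]
    rw [← this]

/-- dropped slots -/
def drp (g1 g2 r2 i : ℕ) : Bool := !(decide (i % g1 < g2) && decide (i / g1 < r2))

theorem drp_add {g1 g2 r2 : ℕ} (h1 : 0 < g1) (i : ℕ) : drp g1 g2 (r2 + 1) (g1 + i) = drp g1 g2 r2 i := by
  unfold drp
  rw [Nat.add_mod_left, Nat.add_div_left _ h1]
  congr 2
  exact decide_eq_decide.2 (by omega)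

/-- sum over the rows -/
noncomputable def Er (g r : ℕ) (s t : ℝ) (v : ℕ → ℤ) : ℝ :=
  ∑ i ∈ Finset.range (g * r), (v i : ℝ) * mo2 g s t i

theorem Er_succ {g : ℕ} (hg : 0 < g) (r : ℕ) (s t : ℝ) (v : ℕ → ℤ) :
    Er g (r + 1) s t v = ∑ i ∈ Finset.range g, (v i : ℝ) * s ^ i + t * Er g r s t (fun i => v (g + i)) := by
  unfold Er
  rw [show g * (r + 1) = g + g * r by ring, Finset.sum_range_add, Finset.mul_sum]
  congr 1
  · refine Finset.sum_congr rfl fun i hi => ?_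
    have := Finset.mem_range.1 hi
    unfold mo2
    rw [Nat.mod_eq_of_lt this, Nat.div_eq_of_lt this, pow_zero, mul_one]
  · refine Finset.sum_congr rfl fun i hi => ?_
    unfold mo2
    rw [Nat.add_mod_left, Nat.add_div_left _ hg, pow_succ]
    ring

theorem abs_sum_le {s t : ℝ} (hs : |s| ≤ 1) (ht : |t| ≤ 1) (g m : ℕ) (v : ℕ → ℤ) :
    |∑ i ∈ Finset.range m, (v i : ℝ) * mo2 g s t i| ≤ (sd m (fun i => (v i).natAbs) : ℕ) := by
  rw [← ph_sum, ← nmv_sd]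
  refine ph_le m _ v (fun i => ?_)
  have := mul_aux hs ht (i % g) (i / g) 1
  rwa [one_mul, abs_one] at this

theorem cut_err {g1 g2 : ℕ} (h2 : 0 < g2) (h : g2 ≤ g1) {s t : ℝ} (hs : |s| ≤ 1) (ht : |t| ≤ 1) :
    ∀ (r1 r2 : ℕ) (v : ℕ → ℤ), r2 ≤ r1 →
    |Er g1 r1 s t v - Er g2 r2 s t (fun i => v (ix g1 g2 i))|
      ≤ (sd (g1 * r1) (fun i => if drp g1 g2 r2 i then (v i).natAbs else 0) : ℕ)
  | r1, 0, v, _ => by
    have e1 : Er g2 0 s t (fun i => v (ix g1 g2 i)) = 0 := by simp [Er]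
    rw [e1, sub_zero]
    refine (abs_sum_le hs ht g1 (g1 * r1) v).trans ?_
    have : sd (g1 * r1) (fun i => (v i).natAbs)
        ≤ sd (g1 * r1) (fun i => if drp g1 g2 0 i then (v i).natAbs else 0) :=
      sd_le _ _ _ (fun i _ => by simp [drp])
    exact_mod_cast this
  | 0, r2 + 1, v, hr => by omega
  | r1 + 1, r2 + 1, v, hr => by
    have h1 : 0 < g1 := lt_of_lt_of_le h2 h
    have ih := cut_err h2 h hs ht r1 r2 (fun i => v (g1 + i)) (by omega)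
    rw [Er_succ h1, Er_succ h2]
    have e1 : (fun i => v (ix g1 g2 (g2 + i))) = fun i => v (g1 + ix g1 g2 i) := by
      funext i
      rw [ix_add h2]
    rw [e1]
    obtain ⟨c, hc⟩ := Nat.exists_eq_add_of_le h
    have e2 : ∑ i ∈ Finset.range g2, (v (ix g1 g2 i) : ℝ) * s ^ i
        = ∑ i ∈ Finset.range g2, (v i : ℝ) * s ^ i := by
      refine Finset.sum_congr rfl fun i hi => ?_
      have := Finset.mem_range.1 hi
      unfold ix
      rw [Nat.div_eq_of_lt this, Nat.mod_eq_of_lt this, Nat.mul_zero, Nat.zero_add]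
    have e3 : ∑ i ∈ Finset.range g1, (v i : ℝ) * s ^ i
        = ∑ i ∈ Finset.range g2, (v i : ℝ) * s ^ i
          + ∑ i ∈ Finset.range c, (v (g2 + i) : ℝ) * s ^ (g2 + i) := by
      rw [hc, Finset.sum_range_add]
    have e4 : |∑ i ∈ Finset.range c, (v (g2 + i) : ℝ) * s ^ (g2 + i)|
        ≤ (sd c (fun i => (v (g2 + i)).natAbs) : ℕ) := by
      rw [← nmv_sd]
      rw [← ph_sum c (fun i => s ^ (g2 + i)) (fun i => v (g2 + i))]
      refine ph_le c _ _ (fun i => ?_)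
      rw [abs_pow]
      exact pow_le_one₀ (abs_nonneg _) hs
    have e5 : sd (g1 * (r1 + 1)) (fun i => if drp g1 g2 (r2 + 1) i then (v i).natAbs else 0)
        = sd g1 (fun i => if drp g1 g2 (r2 + 1) i then (v i).natAbs else 0)
          + sd (g1 * r1) (fun i => if drp g1 g2 r2 i then (v (g1 + i)).natAbs else 0) := by
      rw [show g1 * (r1 + 1) = g1 + g1 * r1 by ring, sd_split]
      congr 2
      funext i
      rw [drp_add h1]
    have e6 : sd c (fun i => (v (g2 + i)).natAbs)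
        ≤ sd g1 (fun i => if drp g1 g2 (r2 + 1) i then (v i).natAbs else 0) := by
      conv_rhs => rw [hc]
      rw [sd_split]
      refine le_trans ?_ (Nat.le_add_left _ _)
      refine sd_le _ _ _ (fun i hi => ?_)
      have hlt : g2 + i < g2 + c := by omega
      have : drp (g2 + c) g2 (r2 + 1) (g2 + i) = true := by
        unfold drp
        rw [Nat.mod_eq_of_lt hlt]
        simp
      rw [if_pos this]
    rw [e2, e3, e5]
    push_cast
    have e7 : |t * (Er g1 r1 s t (fun i => v (g1 + i))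
        - Er g2 r2 s t (fun i => v (g1 + ix g1 g2 i)))|
        ≤ (sd (g1 * r1) (fun i => if drp g1 g2 r2 i then (v (g1 + i)).natAbs else 0) : ℕ) := by
      rw [abs_mul]
      calc |t| * |Er g1 r1 s t (fun i => v (g1 + i)) - Er g2 r2 s t (fun i => v (g1 + ix g1 g2 i))|
          ≤ 1 * _ := mul_le_mul ht ih (abs_nonneg _) zero_le_one
        _ = _ := one_mul _
    have e8 : (sd c (fun i => (v (g2 + i)).natAbs) : ℝ)
        ≤ (sd g1 (fun i => if drp g1 g2 (r2 + 1) i then (v i).natAbs else 0) : ℝ) := by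
      exact_mod_cast e6
    calc _ = |∑ i ∈ Finset.range c, (v (g2 + i) : ℝ) * s ^ (g2 + i)
          + t * (Er g1 r1 s t (fun i => v (g1 + i))
            - Er g2 r2 s t (fun i => v (g1 + ix g1 g2 i)))| := by
          congr 1
          ring
      _ ≤ _ := (abs_add_le _ _).trans (add_le_add (e4.trans e8) e7)

/-- constants of the cut -/
structure Cut where
  B : ℕ
  XG1 : ℕ
  XG2 : ℕ
  M1 : ℕ
  S1 : ℕ
  M2 : ℕ
  N2 : ℕ
  MD : ℕ
  SK : ℕ
  g2 : ℕ
  k : Mk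

deriving instance DecidableEq for Cut

def mkC (h g1 g2 : ℕ) : Cut :=
  ⟨2 ^ h, (2 ^ (h + 1)) ^ g1, (2 ^ (h + 1)) ^ g2, (2 ^ (h + 1)) ^ (g1 * g1),
    biasN (2 ^ (h + 1)) (2 ^ h) (g1 * g1), (2 ^ (h + 1)) ^ (g2 * g2),
    (2 ^ (h + 1)) ^ (g2 * g2) - biasN (2 ^ (h + 1)) (2 ^ h) (g2 * g2),
    vd (2 ^ (h + 1)) (g1 * g1) (fun i => if drp g1 g2 g2 i then 2 ^ (h + 1) - 1 else 0),
    vd (2 ^ (h + 1)) (g1 * g1) (fun i => if drp g1 g2 g2 i then 0 else 2 ^ h), g2,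
    mkH h (List.replicate (g1 * g1) false)⟩

/-- the kept digits -/
def cutN (c : Cut) (z : ℕ) : ℕ :=
  Nat.mod (Nat.add (asm c.XG1 c.XG2 c.g2 (Nat.mod (Nat.add z c.S1) c.M1)) c.N2) c.M2

/-- norm of the dropped digits -/
def cutE (c : Cut) (z : ℕ) : ℕ :=
  dmask c.k false (Nat.add (Nat.land (Nat.mod (Nat.add z c.S1) c.M1) c.MD) c.SK)

def cutv (g1 g2 : ℕ) (v : ℕ → ℤ) : ℕ → ℤ := fun i => v (ix g1 g2 i)

theorem dig_exists {h m : ℕ} (v : ℕ → ℤ) (hn : nmv m v < 2 ^ h) :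
    ∃ d : ℕ → ℕ, (∀ i, d i < 2 ^ (h + 1)) ∧ (∀ i, i < m → (d i : ℤ) = v i + ((2 ^ h : ℕ) : ℤ)) := by
  have h2 : 2 ^ (h + 1) = 2 * 2 ^ h := by rw [pow_succ]; ring
  have hp : 0 < 2 ^ h := Nat.two_pow_pos h
  have hv : ∀ i, i < m → (v i).natAbs < 2 ^ h := by
    intro i hi
    refine lt_of_le_of_lt ?_ hn
    rw [nmv_sum]
    exact Finset.single_le_sum (f := fun i => (v i).natAbs) (fun _ _ => Nat.zero_le _)
      (Finset.mem_range.2 hi)
  refine ⟨fun i => if i < m then (v i + ((2 ^ h : ℕ) : ℤ)).toNat else 0, fun i => ?_, fun i hi => ?_⟩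
  · by_cases hi : i < m
    · simp only [if_pos hi]
      have := hv i hi
      omega
    · simp only [if_neg hi]
      omega
  · simp only [if_pos hi]
    have := hv i hi
    omega

theorem ix_lt {g1 g2 i : ℕ} (h2 : 0 < g2) (h : g2 ≤ g1) (hi : i < g2 * g2) : ix g1 g2 i < g1 * g1 := by
  unfold ix
  have h3 : i / g2 < g2 := Nat.div_lt_of_lt_mul hi
  have h4 : i % g2 < g2 := Nat.mod_lt _ h2
  calc g1 * (i / g2) + i % g2 < g1 * (i / g2) + g1 := by omega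
    _ = g1 * (i / g2 + 1) := by ring
    _ ≤ g1 * g1 := Nat.mul_le_mul_left _ (by omega)

theorem cutN_eq {h g1 g2 : ℕ} (h2 : 0 < g2) (hg : g2 ≤ g1) (v : ℕ → ℤ)
    (hn : nmv (g1 * g1) v < 2 ^ h) :
    cutN (mkC h g1 g2) (gN (2 ^ (h + 1)) (g1 * g1) ((2 ^ (h + 1)) ^ (g1 * g1)) v)
      = gN (2 ^ (h + 1)) (g2 * g2) ((2 ^ (h + 1)) ^ (g2 * g2)) (cutv g1 g2 v) := by
  have hX : (2 : ℕ) ^ (h + 1) = 2 * 2 ^ h := by rw [pow_succ]; ring
  have hXp : 0 < 2 ^ (h + 1) := Nat.two_pow_pos _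
  obtain ⟨d, hd, hd'⟩ := dig_exists v hn
  have hy := read_eq (X := 2 ^ (h + 1)) (B := 2 ^ h) (m := g1 * g1) hX v hn
  have hv := Lp_vd (X := 2 ^ (h + 1)) (B := 2 ^ h) (g1 * g1) v d hd'
  have hyd : (gN (2 ^ (h + 1)) (g1 * g1) ((2 ^ (h + 1)) ^ (g1 * g1)) v
      + biasN (2 ^ (h + 1)) (2 ^ h) (g1 * g1)) % (2 ^ (h + 1)) ^ (g1 * g1)
      = vd (2 ^ (h + 1)) (g1 * g1) d := by
    have : (((gN (2 ^ (h + 1)) (g1 * g1) ((2 ^ (h + 1)) ^ (g1 * g1)) v
      + biasN (2 ^ (h + 1)) (2 ^ h) (g1 * g1)) % (2 ^ (h + 1)) ^ (g1 * g1) : ℕ) : ℤ)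
      = ((vd (2 ^ (h + 1)) (g1 * g1) d : ℕ) : ℤ) := by
      rw [hv]
      exact hy
    exact_mod_cast this
  show (asm ((2 ^ (h + 1)) ^ g1) ((2 ^ (h + 1)) ^ g2) g2
    ((gN (2 ^ (h + 1)) (g1 * g1) ((2 ^ (h + 1)) ^ (g1 * g1)) v
      + biasN (2 ^ (h + 1)) (2 ^ h) (g1 * g1)) % (2 ^ (h + 1)) ^ (g1 * g1))
    + ((2 ^ (h + 1)) ^ (g2 * g2) - biasN (2 ^ (h + 1)) (2 ^ h) (g2 * g2))) % (2 ^ (h + 1)) ^ (g2 * g2)
    = _
  rw [hyd, asm_vd hXp h2 hg g2 g1 d hg hd]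
  have hcut : ((vd (2 ^ (h + 1)) (g2 * g2) (fun i => d (ix g1 g2 i)) : ℕ) : ℤ)
      = Lp ((2 ^ (h + 1) : ℕ) : ℤ) (g2 * g2) (cutv g1 g2 v)
        + biasN (2 ^ (h + 1)) (2 ^ h) (g2 * g2) :=
    Lp_vd (X := 2 ^ (h + 1)) (B := 2 ^ h) (g2 * g2) (cutv g1 g2 v) (fun i => d (ix g1 g2 i))
      (fun i hi => hd' _ (ix_lt h2 hg hi))
  have hbias : biasN (2 ^ (h + 1)) (2 ^ h) (g2 * g2) ≤ (2 ^ (h + 1)) ^ (g2 * g2) := by
    have := bias_lt (X := 2 ^ (h + 1)) (B := 2 ^ h) hX (g2 * g2) (fun _ => 0) (by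
      rw [nmv_sum]; simp)
    rw [Lp_sum] at this
    simp only [zero_mul, Finset.sum_const_zero, zero_add] at this
    exact_mod_cast this.le
  have hMp : 0 < (2 ^ (h + 1)) ^ (g2 * g2) := Nat.pow_pos hXp
  have : (((vd (2 ^ (h + 1)) (g2 * g2) (fun i => d (ix g1 g2 i))
      + ((2 ^ (h + 1)) ^ (g2 * g2) - biasN (2 ^ (h + 1)) (2 ^ h) (g2 * g2))) % (2 ^ (h + 1)) ^ (g2 * g2)
      : ℕ) : ℤ) = ((gN (2 ^ (h + 1)) (g2 * g2) ((2 ^ (h + 1)) ^ (g2 * g2)) (cutv g1 g2 v) : ℕ) : ℤ) := by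
    rw [gN_cast hMp, Int.natCast_mod, Nat.cast_add, Nat.cast_sub hbias, hcut]
    rw [show Lp ((2 ^ (h + 1) : ℕ) : ℤ) (g2 * g2) (cutv g1 g2 v)
        + (biasN (2 ^ (h + 1)) (2 ^ h) (g2 * g2) : ℤ)
        + ((((2 ^ (h + 1)) ^ (g2 * g2) : ℕ) : ℤ) - (biasN (2 ^ (h + 1)) (2 ^ h) (g2 * g2) : ℤ))
        = Lp ((2 ^ (h + 1) : ℕ) : ℤ) (g2 * g2) (cutv g1 g2 v)
          + (((2 ^ (h + 1)) ^ (g2 * g2) : ℕ) : ℤ) * 1 by ring, Int.add_mul_emod_self_left]
  exact_mod_cast this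

theorem cutE_le {h g1 g2 : ℕ} (v : ℕ → ℤ) (hn : nmv (g1 * g1) v < 2 ^ h) :
    sd (g1 * g1) (fun i => if drp g1 g2 g2 i then (v i).natAbs else 0)
      ≤ cutE (mkC h g1 g2) (gN (2 ^ (h + 1)) (g1 * g1) ((2 ^ (h + 1)) ^ (g1 * g1)) v) := by
  have hX : (2 : ℕ) ^ (h + 1) = 2 * 2 ^ h := by rw [pow_succ]; ring
  have hp : 0 < 2 ^ h := Nat.two_pow_pos h
  obtain ⟨d, hd, hd'⟩ := dig_exists v hn
  have hy := read_eq (X := 2 ^ (h + 1)) (B := 2 ^ h) (m := g1 * g1) hX v hn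
  have hv := Lp_vd (X := 2 ^ (h + 1)) (B := 2 ^ h) (g1 * g1) v d hd'
  have hyd : (gN (2 ^ (h + 1)) (g1 * g1) ((2 ^ (h + 1)) ^ (g1 * g1)) v
      + biasN (2 ^ (h + 1)) (2 ^ h) (g1 * g1)) % (2 ^ (h + 1)) ^ (g1 * g1)
      = vd (2 ^ (h + 1)) (g1 * g1) d := by
    have : (((gN (2 ^ (h + 1)) (g1 * g1) ((2 ^ (h + 1)) ^ (g1 * g1)) v
      + biasN (2 ^ (h + 1)) (2 ^ h) (g1 * g1)) % (2 ^ (h + 1)) ^ (g1 * g1) : ℕ) : ℤ)
      = ((vd (2 ^ (h + 1)) (g1 * g1) d : ℕ) : ℤ) := by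
      rw [hv]
      exact hy
    exact_mod_cast this
  set es := List.replicate (g1 * g1) false with hes
  have hlen : es.length = g1 * g1 := by simp [hes]
  set d' : ℕ → ℕ := fun i => if drp g1 g2 g2 i then d i else 2 ^ h with hdd'
  have hd2 : ∀ i, d' i < 2 ^ (h + 1) := fun i => by
    simp only [hdd']
    split_ifs
    · exact hd i
    · omega
  have e1 : Nat.add (Nat.land (vd (2 ^ (h + 1)) (g1 * g1) d)
      (vd (2 ^ (h + 1)) (g1 * g1) (fun i => if drp g1 g2 g2 i then 2 ^ (h + 1) - 1 else 0)))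
      (vd (2 ^ (h + 1)) (g1 * g1) (fun i => if drp g1 g2 g2 i then 0 else 2 ^ h))
      = vd (2 ^ (h + 1)) (g1 * g1) d' := by
    show (vd (2 ^ (h + 1)) (g1 * g1) d &&& vd (2 ^ (h + 1)) (g1 * g1)
      (fun i => if drp g1 g2 g2 i then 2 ^ (h + 1) - 1 else 0))
      + vd (2 ^ (h + 1)) (g1 * g1) (fun i => if drp g1 g2 g2 i then 0 else 2 ^ h) = _
    rw [vd_land _ _ _ hd (fun i => by split_ifs <;> omega), ← vd_sum2]
    refine vd_congr _ _ _ (fun i => ?_)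
    simp only [hdd']
    by_cases hi : drp g1 g2 g2 i = true
    · rw [if_pos hi, if_pos hi, if_pos hi, Nat.and_two_pow_sub_one_eq_mod,
        Nat.mod_eq_of_lt (hd i), Nat.add_zero]
    · rw [if_neg hi, if_neg hi, if_neg hi, Nat.and_zero, Nat.zero_add]
  have hsd : sd (g1 * g1) (fun i => (d' i - 2 ^ h) + (2 ^ h - d' i))
      ≤ sd (g1 * g1) (fun i => (v i).natAbs) := by
    refine sd_le _ _ _ (fun i hi => ?_)
    have := hd' i hi
    simp only [hdd']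
    split_ifs <;> omega
  have key := dsum_le_dmask (h := h) (f := false) es d' hd2 (by
    rw [hlen]
    rw [nmv_sd] at hn
    exact lt_of_le_of_lt hsd hn)
  rw [dsum_vd es d' hd2, hlen] at key
  have e2 : cutE (mkC h g1 g2) (gN (2 ^ (h + 1)) (g1 * g1) ((2 ^ (h + 1)) ^ (g1 * g1)) v)
      = dmask (mkH h es) false (vd (2 ^ (h + 1)) (g1 * g1) d') := by
    show dmask (mkH h es) false (Nat.add (Nat.land ((gN (2 ^ (h + 1)) (g1 * g1)
      ((2 ^ (h + 1)) ^ (g1 * g1)) v + biasN (2 ^ (h + 1)) (2 ^ h) (g1 * g1))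
        % (2 ^ (h + 1)) ^ (g1 * g1)) (vd (2 ^ (h + 1)) (g1 * g1)
          (fun i => if drp g1 g2 g2 i then 2 ^ (h + 1) - 1 else 0)))
      (vd (2 ^ (h + 1)) (g1 * g1) (fun i => if drp g1 g2 g2 i then 0 else 2 ^ h))) = _
    rw [hyd, e1]
  rw [e2]
  refine le_trans ?_ key
  refine sd_le _ _ _ (fun i hi => ?_)
  have h5 := hd' i hi
  show (if drp g1 g2 g2 i = true then (v i).natAbs else 0)
    ≤ (d' i - 2 ^ h) + (2 ^ h - d' i)
  simp only [hdd']
  split_ifs <;> omega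

theorem sd_mono_ix {g1 g2 : ℕ} (h2 : 0 < g2) (hg : g2 ≤ g1) : ∀ (r1 r2 : ℕ) (f : ℕ → ℕ), r2 ≤ r1 →
    sd (g2 * r2) (fun i => f (ix g1 g2 i)) ≤ sd (g1 * r1) f
  | r1, 0, f, _ => by simp [sd]
  | 0, r2 + 1, f, h => by omega
  | r1 + 1, r2 + 1, f, h => by
    rw [show g2 * (r2 + 1) = g2 + g2 * r2 by ring, show g1 * (r1 + 1) = g1 + g1 * r1 by ring,
      sd_split, sd_split]
    refine Nat.add_le_add ?_ ?_
    · have e1 : sd g2 (fun i => f (ix g1 g2 i)) = sd g2 f := by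
        have gen : ∀ (m : ℕ) (a b : ℕ → ℕ), (∀ i, i < m → a i = b i) → sd m a = sd m b := by
          intro m
          induction m with
          | zero => intro a b _; rfl
          | succ m ih =>
            intro a b hab
            show a 0 + sd m _ = b 0 + sd m _
            rw [hab 0 (by omega), ih (fun i => a (i + 1)) (fun i => b (i + 1))
              (fun i hi => hab _ (by omega))]
        refine gen _ _ _ (fun i hi => ?_)
        unfold ix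
        rw [Nat.div_eq_of_lt hi, Nat.mod_eq_of_lt hi, Nat.mul_zero, Nat.zero_add]
      rw [e1]
      obtain ⟨c, hc⟩ := Nat.exists_eq_add_of_le hg
      rw [hc, sd_split]
      exact Nat.le_add_right _ _
    · have e2 : (fun i => f (ix g1 g2 (g2 + i))) = fun i => f (g1 + ix g1 g2 i) := by
        funext i
        rw [ix_add h2]
      rw [e2]
      exact sd_mono_ix h2 hg r1 r2 (fun i => f (g1 + i)) (by omega)

/-- the sum of the errors with radius `R` -/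
noncomputable def errF (ef : ℕ → ℕ) (R : ℕ) (p : T ℕ) : ℕ :=
  T.rec (motive := fun _ => ℕ) (fun z => ef z) (fun _ _ a b => Nat.add a (Nat.mul R b)) p

noncomputable def cutP (c : Cut) (R : ℕ) (P : PN) : PN :=
  PN.rec (motive := fun _ => PN) (fun p e b => ⟨mapF (cutN c) p, Nat.add e (errF (cutE c) R p), b⟩) P

/-- **the cut** -/
theorem cutP_rep {h g1 g2 : ℕ} (h2 : 0 < g2) (hg : g2 ≤ g1) {s t : ℝ} (hs : |s| ≤ 1)
    (ht : |t| ≤ 1) {R : ℕ} (hR : 1 ≤ R) {P : PN} {F : (ℕ → ℝ) → ℝ} (hb : P.b < 2 ^ h)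
    (hP : RepM (2 ^ (h + 1)) (g1 * g1) ((2 ^ (h + 1)) ^ (g1 * g1)) (mo2 g1 s t) R P F) :
    RepM (2 ^ (h + 1)) (g2 * g2) ((2 ^ (h + 1)) ^ (g2 * g2)) (mo2 g2 s t) R
      (cutP (mkC h g1 g2) R P) F := by
  obtain ⟨S, h1, h3, h4⟩ := hP
  obtain ⟨p, e, b⟩ := P
  simp only at h1 h3 h4 hb
  have hSb : nrm (nmv (g1 * g1)) S (fun _ => R) < 2 ^ h := lt_of_le_of_lt h3 hb
  -- leafwise statements by induction
  have main : ∀ S : T (ℕ → ℤ), nrm (nmv (g1 * g1)) S (fun _ => R) < 2 ^ h →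
      mapT (gN (2 ^ (h + 1)) (g2 * g2) ((2 ^ (h + 1)) ^ (g2 * g2))) (mapT (cutv g1 g2) S)
        = mapF (cutN (mkC h g1 g2)) (mapT (gN (2 ^ (h + 1)) (g1 * g1)
          ((2 ^ (h + 1)) ^ (g1 * g1))) S) ∧
      nrm (nmv (g2 * g2)) (mapT (cutv g1 g2) S) (fun _ => R)
        ≤ nrm (nmv (g1 * g1)) S (fun _ => R) ∧
      ∀ q : ℕ → ℝ, (∀ i, |q i| ≤ (R : ℝ)) →
        |evT (ph (g1 * g1) (mo2 g1 s t)) S q
          - evT (ph (g2 * g2) (mo2 g2 s t)) (mapT (cutv g1 g2) S) q|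
        ≤ (errF (cutE (mkC h g1 g2)) R (mapT (gN (2 ^ (h + 1)) (g1 * g1)
          ((2 ^ (h + 1)) ^ (g1 * g1))) S) : ℝ) := by
    intro S
    induction S with
    | c v =>
      intro hn
      have hn' : nmv (g1 * g1) v < 2 ^ h := hn
      refine ⟨?_, ?_, fun q _ => ?_⟩
      · show T.c _ = T.c _
        rw [cutN_eq h2 hg v hn']
      · show nmv (g2 * g2) (cutv g1 g2 v) ≤ nmv (g1 * g1) v
        rw [nmv_sd, nmv_sd]
        exact sd_mono_ix h2 hg g1 g2 (fun i => (v i).natAbs) hg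
      · show |ph (g1 * g1) (mo2 g1 s t) v - ph (g2 * g2) (mo2 g2 s t) (cutv g1 g2 v)|
          ≤ (cutE (mkC h g1 g2) (gN (2 ^ (h + 1)) (g1 * g1) ((2 ^ (h + 1)) ^ (g1 * g1)) v) : ℝ)
        rw [ph_sum, ph_sum]
        refine (cut_err h2 hg hs ht g1 g2 v hg).trans ?_
        exact_mod_cast cutE_le v hn'
    | h a b iha ihb =>
      intro hn
      have hn' : nrm (nmv (g1 * g1)) a (fun _ => R) + R * nrm (nmv (g1 * g1)) b (fun _ => R)
        < 2 ^ h := hn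
      have hbb : nrm (nmv (g1 * g1)) b (fun _ => R) ≤ R * nrm (nmv (g1 * g1)) b (fun _ => R) :=
        Nat.le_mul_of_pos_left _ hR
      obtain ⟨a1, a2, a3⟩ := iha (by omega)
      obtain ⟨b1, b2, b3⟩ := ihb (by omega)
      refine ⟨?_, ?_, fun q hq => ?_⟩
      · show T.h _ _ = T.h _ _
        rw [a1, b1]
        rfl
      · exact Nat.add_le_add a2 (Nat.mul_le_mul_left _ b2)
      · have c1 := a3 (fun i => q (i + 1)) (fun i => hq _)
        have c2 := b3 q hq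
        show |evT _ a (fun i => q (i + 1)) + q 0 * evT _ b q
          - (evT _ (mapT (cutv g1 g2) a) (fun i => q (i + 1))
            + q 0 * evT _ (mapT (cutv g1 g2) b) q)| ≤ ((_ + R * _ : ℕ) : ℝ)
        push_cast
        have c3 : |q 0 * (evT (ph (g1 * g1) (mo2 g1 s t)) b q
            - evT (ph (g2 * g2) (mo2 g2 s t)) (mapT (cutv g1 g2) b) q)|
            ≤ (R : ℝ) * (errF (cutE (mkC h g1 g2)) R (mapT (gN (2 ^ (h + 1)) (g1 * g1)
          ((2 ^ (h + 1)) ^ (g1 * g1))) b) : ℝ) := by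
          rw [abs_mul]
          exact mul_le_mul (hq 0) c2 (abs_nonneg _) (Nat.cast_nonneg _)
        have c4 := (abs_add_le _ _).trans (add_le_add c1 c3)
        refine le_trans (le_of_eq ?_) c4
        congr 1
        ring
  obtain ⟨m1, m2, m3⟩ := main S hSb
  refine ⟨mapT (cutv g1 g2) S, ?_, m2.trans h3, fun q hq => ?_⟩
  · show _ = mapF (cutN (mkC h g1 g2)) p
    rw [m1, h1]
  · show |F q - _| ≤ ((e + errF (cutE (mkC h g1 g2)) R p : ℕ) : ℝ)
    rw [← h1]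
    push_cast
    have c1 := h4 q hq
    have c2 := m3 q hq
    calc _ = |(F q - evT (ph (g1 * g1) (mo2 g1 s t)) S q)
          + (evT (ph (g1 * g1) (mo2 g1 s t)) S q
            - evT (ph (g2 * g2) (mo2 g2 s t)) (mapT (cutv g1 g2) S) q)| := by
          congr 1
          ring
      _ ≤ _ := (abs_add_le _ _).trans (add_le_add c1 c2)

end Helper10.PC
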