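import Pool.Agent.Helper10.TOP.PL
import Pool.Agent.Helper6.TOP.Cov

/-!
# The polynomial of a cell of the chart
-/

set_option autoImplicit false

namespace Helper10.PC
open Pool.Agent.Helper6.TOP

/-- the values of the monomials -/
noncomputable def usOf (K : ℕ) (X Y Z D : ℝ) : List Al → List ℝ
  | [] => []
  | a :: A => monU a X Y Z * D ^ (K - (a.1 + a.2.1 + a.2.2)) :: usOf K X Y Z D A

theorem valL_us (K : ℕ) (X Y Z D : ℝ) (p : ℕ → ℝ) : ∀ (A : List Al) (L : List (T ℤ)),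
    valL (usOf K X Y Z D A) L p = valD K A L X Y Z D p
  | [], L => by simp [usOf, valL, valD]
  | a :: A, [] => by simp [usOf, valL, valD]
  | a :: A, C :: L => by
    simp only [usOf, valL, valD, valL_us K X Y Z D p A L]

theorem exL_of {w g K : ℕ} (hg : 2 * K < g) {y : Fin 5 → ℝ} {X Y Z D : ℝ} :
    ∀ (A : List Al) (N : List (ℤ × ℕ)), RPN w g y K X Y Z D A N →
    ExL (2 ^ w) (g * g) (mo2 g (y 0) (y 1)) (usOf K X Y Z D A) N
  | [], [], _ => trivial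
  | [], _ :: _, h => h.elim
  | _ :: _, [], h => h.elim
  | a :: A, n :: N, h => by
    refine ⟨?_, exL_of hg A N h.2⟩
    exact rep_vec (w := w) (g := g) h.1 (fun j => by
      fin_cases j <;> simp [dd, Pool.Agent.Helper45.TOP.rad] <;> omega)

/-- scale exponent of a cell -/
def nuC (c : UC) : ℕ := Nat.succ (cond (Nat.ble c.qa c.qb) c.qb c.qa)

/-- numerators: centre and half width -/
def ctr (ν q i : ℕ) : ℤ := Int.ofNat (Nat.mul (Nat.succ (Nat.mul 2 i)) (Nat.pow 2 (Nat.sub ν (Nat.succ q))))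
def hw (ν q : ℕ) : ℤ := Int.ofNat (Nat.pow 2 (Nat.sub ν (Nat.succ q)))

/-- the exact table of the cell -/
def uTab (w g K : ℕ) (c : UC) (AL : List Al) : List (ℤ × ℕ) :=
  (fun ν => tabE w g K (Int.ofNat (Nat.pow 2 ν)) (ctr ν c.qa c.i) (hw ν c.qa) (ctr ν c.qb c.j)
    (hw ν c.qb) AL) (nuC c)

/-- the polynomial of the cell -/
noncomputable def uPol (k : Cut) (R : ℕ) (tab : List (ℤ × ℕ)) (CL : List (T ℤ)) : PN :=
  cutP k R (dotM k.M1 R tab CL)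

theorem ctr_hw {ν q i : ℕ} (hq : q + 1 ≤ ν) {a t : ℝ} (h : a * 2 ^ (q + 1) = 2 * i + 1 + t) :
    ((ctr ν q i : ℤ) : ℝ) + (hw ν q : ℤ) * t = (2 : ℝ) ^ ν * a := by
  have e1 : ((ctr ν q i : ℤ) : ℝ) = (2 * i + 1) * 2 ^ (ν - (q + 1)) := by
    show ((((2 * i).succ * 2 ^ (ν - (q + 1)) : ℕ) : ℤ) : ℝ) = _
    push_cast
    ring
  have e2 : ((hw ν q : ℤ) : ℝ) = 2 ^ (ν - (q + 1)) := by
    show (((2 ^ (ν - (q + 1)) : ℕ) : ℤ) : ℝ) = _
    push_cast
    ring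
  rw [e1, e2]
  have e3 : (2 : ℝ) ^ ν = 2 ^ (ν - (q + 1)) * 2 ^ (q + 1) := by
    rw [← pow_add]
    congr 1
    omega
  rw [e3]
  linear_combination (-(2 : ℝ) ^ (ν - (q + 1))) * h

/-- **the polynomial of the cell represents `(4 ^ ν D) ^ K Q`** -/
theorem uPol_rep {h g1 g2 K R : ℕ} {k : Cut} (hk : k = mkC h g1 g2) (h2 : 0 < g2) (hg : g2 ≤ g1)
    (hK : 2 * K < g1) (hR : 1 ≤ R) {c : UC} {AL : List Al} (hA : degOK K AL = true)
    {CL : List (T ℤ)} (hb : (dotM k.M1 R (uTab (h + 1) g1 K c AL) CL).b < 2 ^ h)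
    {a b s t : ℝ} (ha : a * 2 ^ (c.qa + 1) = 2 * c.i + 1 + s)
    (hb' : b * 2 ^ (c.qb + 1) = 2 * c.j + 1 + t) (hs : |s| ≤ 1) (ht : |t| ≤ 1) :
    RepM (2 ^ (h + 1)) (g2 * g2) ((2 ^ (h + 1)) ^ (g2 * g2)) (mo2 g2 s t) R
      (uPol k R (uTab (h + 1) g1 K c AL) CL)
      (fun p => (4 ^ nuC c * Pool.Agent.Helper6.TOP.chD a b) ^ K * valZ AL CL (ch0 a b) (ch1 a b) (ch2 a b) p) := by
  subst hk
  have hMp : 0 < (2 ^ (h + 1)) ^ (g1 * g1) := Nat.pow_pos (Nat.two_pow_pos _)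
  have hqa : c.qa + 1 ≤ nuC c := by
    unfold nuC
    cases hh : Nat.ble c.qa c.qb
    · exact Nat.succ_le_succ le_rfl
    · exact Nat.succ_le_succ (Nat.le_of_ble_eq_true hh)
  have hqb : c.qb + 1 ≤ nuC c := by
    unfold nuC
    cases hh : Nat.ble c.qa c.qb
    · have : ¬ c.qa ≤ c.qb := fun h => by
        have := Nat.ble_eq_true_of_le h
        rw [hh] at this
        exact Bool.false_ne_true this
      show c.qb + 1 ≤ c.qa + 1
      omega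
    · exact Nat.succ_le_succ le_rfl
  set y : Fin 5 → ℝ := ![s, t, 0, 0, 0] with hy
  have hT : (((Int.ofNat (Nat.pow 2 (nuC c))) : ℤ) : ℝ) = (2 : ℝ) ^ nuC c := by
    show (((2 ^ nuC c : ℕ) : ℤ) : ℝ) = _
    push_cast
    ring
  have hRPN := tabE_sound (w := h + 1) (g := g1) (y := y) (K := K)
    (T := Int.ofNat (Nat.pow 2 (nuC c))) (A := ctr (nuC c) c.qa c.i) (B := hw (nuC c) c.qa)
    (A' := ctr (nuC c) c.qb c.j) (B' := hw (nuC c) c.qb) hA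
  have hy0 : y 0 = s := rfl
  have hy1 : y 1 = t := rfl
  rw [hy0, hy1, ctr_hw hqa ha, ctr_hw hqb hb', hT] at hRPN
  have hEx := exL_of hK AL _ hRPN
  rw [hy0, hy1] at hEx
  have hdot := dotM_rep (R := R) hMp _ _ CL hEx
  have hcut := cutP_rep (h := h) (g1 := g1) (g2 := g2) h2 hg hs ht hR
    (P := dotM (mkC h g1 g2).M1 R (uTab (h + 1) g1 K c AL) CL) hb hdot
  refine RepM.congr hcut (fun p _ => ?_)
  rw [valL_us]
  have hD : (0 : ℝ) < Pool.Agent.Helper6.TOP.chD a b := Pool.Agent.Helper6.TOP.chD_pos a b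
  have hD' : Pool.Agent.Helper6.TOP.chD a b ≠ 0 := hD.ne'
  have e4 : ((2 : ℝ) ^ nuC c) ^ 2 = 4 ^ nuC c := by
    rw [← pow_mul, Nat.mul_comm, pow_mul]
    norm_num
  have eD : ((2 : ℝ) ^ nuC c) ^ 2 + ((2 : ℝ) ^ nuC c * a) ^ 2 + ((2 : ℝ) ^ nuC c * b) ^ 2
      = 4 ^ nuC c * Pool.Agent.Helper6.TOP.chD a b := by
    rw [← e4]
    unfold Pool.Agent.Helper6.TOP.chD
    ring
  rw [eD]
  refine valD_eq ?_ ?_ ?_ AL CL p hA
  · rw [← e4]
    unfold ch0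
    field_simp
  · rw [← e4]
    unfold ch1
    field_simp
  · rw [← e4]
    unfold ch2
    field_simp

end Helper10.PC
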