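import Pool.Agent.Helper10.TOP.PM

/-!
# Rounding of the exact entries to fewer and shorter slots
-/

set_option autoImplicit false

namespace Helper10.PC
open Pool.Agent.Helper6.TOP

/-- entry: packed value modulo `M`, error, norm -/
structure E3 where
  z : ℕ
  e : ℕ
  b : ℕ

/-- `n` represents `u` -/
def Ap3N (X m M : ℕ) (e : ℕ → ℝ) (n : E3) (u : ℝ) : Prop :=
  ∃ v : ℕ → ℤ, n.z = gN X m M v ∧ |u - ph m e v| ≤ n.e ∧ nmv m v ≤ n.b

noncomputable def termE (M R : ℕ) (n : E3) (C : T ℤ) : PN :=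
  E3.rec (motive := fun _ => PN) (fun z e b =>
    (fun r => ⟨mapF (fun c => smN M c z) C, Nat.mul e r, Nat.mul b r⟩) (nrF R C)) n

theorem termE_rep {X m M : ℕ} (hM : 0 < M) {e : ℕ → ℝ} {R : ℕ} {n : E3} {u : ℝ}
    (hn : Ap3N X m M e n u) (C : T ℤ) :
    RepM X m M e R (termE M R n C) (fun p => u * evZ C p) := by
  obtain ⟨v, h1, h2, h3⟩ := hn
  obtain ⟨z, ez, bz⟩ := n
  simp only at h1 h2 h3
  refine ⟨mapT (fun c => smv c v) C, ?_, ?_, fun p hp => ?_⟩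
  · show _ = mapF (fun c => smN M c z) C
    rw [mapF_eq, map_map]
    congr 1
    funext c
    rw [gN_smv hM, h1]
  · show _ ≤ bz * nrF R C
    rw [← nrF_eq]
    refine nrm_map (nm := Int.natAbs) (fun c => ?_) C _
    rw [nmv_smv, Nat.mul_comm]
    exact Nat.mul_le_mul_right _ h3
  · show |u * evZ C p - evT (ph m e) (mapT (fun c => smv c v) C) p| ≤ ((ez * nrF R C : ℕ) : ℝ)
    rw [ev_map (φ := fun n : ℤ => (n : ℝ)) (k := ph m e v) (fun c => by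
      rw [ph_smv]; ring)]
    have h4 : |evZ C p| ≤ nrF R C := by
      rw [← nrF_eq]
      exact ev_le_nrm (nm := Int.natAbs) (fun a => le_of_eq (nabs a).symm) C _ p hp
    have h5 : u * evZ C p - ph m e v * evT (fun n : ℤ => (n : ℝ)) C p
        = (u - ph m e v) * evZ C p := by
      unfold evZ
      ring
    rw [h5, abs_mul]
    push_cast
    exact mul_le_mul h2 h4 (abs_nonneg _) (Nat.cast_nonneg _)

/-- `∑ n C` -/
noncomputable def dotE (M R : ℕ) (N : List E3) : List (T ℤ) → PN :=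
  List.rec (motive := fun _ => List (T ℤ) → PN) (fun _ => zeroM)
    (fun n _ ih L => List.rec (motive := fun _ => PN) zeroM
      (fun C L _ => cond (isz C) (ih L) (addM M (termE M R n C) (ih L))) L) N

def ApE (X m M : ℕ) (e : ℕ → ℝ) : List ℝ → List E3 → Prop
  | [], [] => True
  | u :: us, n :: N => Ap3N X m M e n u ∧ ApE X m M e us N
  | _, _ => False

theorem dotE_rep {X m M : ℕ} (hM : 0 < M) {e : ℕ → ℝ} {R : ℕ} :
    ∀ (us : List ℝ) (N : List E3) (L : List (T ℤ)), ApE X m M e us N →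
    RepM X m M e R (dotE M R N L) (fun p => valL us L p)
  | [], [], L, _ => RepM.congr (rep_zeroM hM e R) (fun p _ => by simp [valL])
  | [], _ :: _, L, h => h.elim
  | _ :: _, [], L, h => h.elim
  | u :: us, n :: N, [], _ => RepM.congr (rep_zeroM hM e R) (fun p _ => by simp [valL])
  | u :: us, n :: N, C :: L, h => by
    have h2 := dotE_rep hM (R := R) us N L h.2
    have h1 := termE_rep hM (R := R) h.1 C
    show RepM X m M e R (cond (isz C) (dotE M R N L) (addM M (termE M R n C) (dotE M R N L))) _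
    cases hz : isz C
    · exact RepM.add hM h1 h2
    · exact RepM.congr h2 (fun p _ => by
        simp only [valL]
        rw [isz_ev hz]
        ring)

/-! ### rounding -/

/-- the first `n` digits of `y` divided by `2 ^ q`, base `X'` -/
def rowR (X X' Q : ℕ) : ℕ → ℕ → ℕ
  | 0 => fun _ => 0
  | n + 1 => fun y => Nat.add (Nat.div (Nat.mod y X) Q) (Nat.mul X' (rowR X X' Q n (Nat.div y X)))

/-- the first `g2` digits of the first rows -/
def asmR (X X' Q g2 XG1 XG2 XG2' : ℕ) : ℕ → ℕ → ℕ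
  | 0 => fun _ => 0
  | k + 1 => fun y => Nat.add (rowR X X' Q g2 (Nat.mod y XG2))
      (Nat.mul XG2' (asmR X X' Q g2 XG1 XG2 XG2' k (Nat.div y XG1)))

theorem rowR_vd {X X' Q : ℕ} (hX : 0 < X) : ∀ (n m : ℕ) (d : ℕ → ℕ), n ≤ m → (∀ i, d i < X) →
    rowR X X' Q n (vd X m d) = vd X' n (fun i => d i / Q)
  | 0, m, d, _, _ => rfl
  | n + 1, 0, d, h, _ => by omega
  | n + 1, m + 1, d, h, hd => by
    have e1 : (d 0 + X * vd X m (fun i => d (i + 1))) % X = d 0 := by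
      rw [Nat.add_mul_mod_self_left, Nat.mod_eq_of_lt (hd 0)]
    have e2 : (d 0 + X * vd X m (fun i => d (i + 1))) / X = vd X m (fun i => d (i + 1)) := by
      rw [Nat.add_mul_div_left _ _ hX, Nat.div_eq_of_lt (hd 0), Nat.zero_add]
    show ((d 0 + X * vd X m (fun i => d (i + 1))) % X) / Q
      + X' * rowR X X' Q n ((d 0 + X * vd X m (fun i => d (i + 1))) / X) = _
    rw [e1, e2, rowR_vd hX n m _ (by omega) (fun i => hd _)]
    rfl

theorem vd_congr' {X : ℕ} : ∀ (m : ℕ) (a b : ℕ → ℕ), (∀ i, i < m → a i = b i) →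
    vd X m a = vd X m b
  | 0, a, b, _ => rfl
  | m + 1, a, b, h => by
    show a 0 + X * vd X m _ = b 0 + X * vd X m _
    rw [h 0 (by omega), vd_congr' m (fun i => a (i + 1)) (fun i => b (i + 1))
      (fun i hi => h _ (by omega))]

theorem asmR_vd {X X' Q g1 g2 : ℕ} (hX : 0 < X) (h2 : 0 < g2) (h : g2 ≤ g1) :
    ∀ (k r : ℕ) (d : ℕ → ℕ), k ≤ r → (∀ i, d i < X) →
    asmR X X' Q g2 (X ^ g1) (X ^ g2) (X' ^ g2) k (vd X (g1 * r) d)
      = vd X' (g2 * k) (fun i => d (ix g1 g2 i) / Q)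
  | 0, r, d, _, _ => by simp [asmR, vd]
  | k + 1, 0, d, hk, _ => by omega
  | k + 1, r + 1, d, hk, hd => by
    have e1 : g1 * (r + 1) = g1 + g1 * r := by ring
    have hlt : vd X g1 d < X ^ g1 := vd_lt g1 d hd
    obtain ⟨c, hc⟩ := Nat.exists_eq_add_of_le h
    have e2 : vd X g1 d = vd X g2 d + X ^ g2 * vd X c (fun i => d (g2 + i)) := by
      rw [hc, vd_add]
    have e3 : vd X (g1 * (r + 1)) d / X ^ g1 = vd X (g1 * r) (fun i => d (g1 + i)) := by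
      rw [e1, vd_add, Nat.add_mul_div_left _ _ (Nat.pow_pos hX), Nat.div_eq_of_lt hlt, Nat.zero_add]
    have e4 : vd X (g1 * (r + 1)) d % X ^ g2 = vd X g2 d := by
      rw [e1, vd_add, e2]
      have : X ^ g1 = X ^ g2 * X ^ c := by rw [hc, pow_add]
      rw [this, Nat.mul_assoc, Nat.add_assoc, ← Nat.mul_add, Nat.add_mul_mod_self_left,
        Nat.mod_eq_of_lt (vd_lt g2 d hd)]
    show rowR X X' Q g2 (vd X (g1 * (r + 1)) d % X ^ g2) + X' ^ g2 *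
      asmR X X' Q g2 (X ^ g1) (X ^ g2) (X' ^ g2) k (vd X (g1 * (r + 1)) d / X ^ g1) = _
    rw [e3, e4, rowR_vd hX g2 g2 d le_rfl hd,
      asmR_vd hX h2 h k r _ (by omega) (fun i => hd _)]
    have e5 : g2 * (k + 1) = g2 + g2 * k := by ring
    rw [e5, vd_add]
    have e6 : vd X' g2 (fun i => d i / Q) = vd X' g2 (fun i => d (ix g1 g2 i) / Q) := by
      refine vd_congr' g2 _ _ (fun i hi => ?_)
      unfold ix
      rw [Nat.div_eq_of_lt hi, Nat.mod_eq_of_lt hi, Nat.mul_zero, Nat.zero_add]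
    rw [← e6]
    congr 2
    have : (fun i => d (g1 + ix g1 g2 i) / Q) = fun i => d (ix g1 g2 (g2 + i)) / Q := by
      funext i
      rw [ix_add h2]
    rw [← this]

/-- constants of the rounding -/
structure Rnd where
  c : Cut
  X : ℕ
  X' : ℕ
  Q : ℕ
  XG2' : ℕ
  M' : ℕ
  N' : ℕ

deriving instance DecidableEq for Rnd

/-- `h + q` half exponent before, `h` after -/
def mkR (h q g1 g2 : ℕ) : Rnd :=
  ⟨mkC (h + q) g1 g2, 2 ^ (h + q + 1), 2 ^ (h + 1), 2 ^ q, (2 ^ (h + 1)) ^ g2,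
    (2 ^ (h + 1)) ^ (g2 * g2),
    (2 ^ (h + 1)) ^ (g2 * g2) - biasN (2 ^ (h + 1)) (2 ^ h) (g2 * g2)⟩

/-- rounding of an exact entry -/
noncomputable def rnd (r : Rnd) (n : ℤ × ℕ) : E3 :=
  (fun z => ⟨Nat.mod (Nat.add (asmR r.X r.X' r.Q r.c.g2 r.c.XG1 r.c.XG2 r.XG2' r.c.g2
      (Nat.mod (Nat.add z r.c.S1) r.c.M1)) r.N') r.M',
    Nat.add (Nat.succ (Nat.div (cutE r.c z) r.Q)) (Nat.mul r.c.g2 r.c.g2),
    Nat.add (Nat.succ (Nat.div n.2 r.Q)) (Nat.mul r.c.g2 r.c.g2)⟩) (toN r.c.M1 n.1)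

theorem ph_sub_le {m : ℕ} {e : ℕ → ℝ} (he : ∀ i, |e i| ≤ 1) {Q : ℝ} (hQ : 0 < Q) (v v' : ℕ → ℤ)
    (h : ∀ i, i < m → |(v i : ℝ) / Q - v' i| ≤ 1) : |ph m e v / Q - ph m e v'| ≤ m := by
  rw [ph_sum, ph_sum, Finset.sum_div, ← Finset.sum_sub_distrib]
  refine (Finset.abs_sum_le_sum_abs _ _).trans ?_
  calc ∑ i ∈ Finset.range m, |(v i : ℝ) * e i / Q - v' i * e i|
      ≤ ∑ i ∈ Finset.range m, (1 : ℝ) := by
        refine Finset.sum_le_sum fun i hi => ?_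
        have h1 := h i (Finset.mem_range.1 hi)
        rw [show (v i : ℝ) * e i / Q - v' i * e i = ((v i : ℝ) / Q - v' i) * e i by ring, abs_mul]
        calc _ ≤ 1 * 1 := mul_le_mul h1 (he i) (abs_nonneg _) zero_le_one
          _ = 1 := one_mul _
    _ = m := by simp

theorem rnd_sound {h q g1 g2 : ℕ} {r : Rnd} (hr : r = mkR h q g1 g2) (h2 : 0 < g2) (hg : g2 ≤ g1)
    {s t : ℝ} (hs : |s| ≤ 1) (ht : |t| ≤ 1) {n : ℤ × ℕ} {u : ℝ}
    (hn : ∃ v : ℕ → ℤ, n.1 = Lp ((2 ^ (h + q + 1) : ℕ) : ℤ) (g1 * g1) v ∧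
      u = ph (g1 * g1) (mo2 g1 s t) v ∧ nmv (g1 * g1) v ≤ n.2) (hb : n.2 < 2 ^ (h + q)) :
    Ap3N (2 ^ (h + 1)) (g2 * g2) ((2 ^ (h + 1)) ^ (g2 * g2)) (mo2 g2 s t) (rnd r n) (u / 2 ^ q) := by
  subst hr
  obtain ⟨v, h1, h3, h4⟩ := hn
  have hnv : nmv (g1 * g1) v < 2 ^ (h + q) := lt_of_le_of_lt h4 hb
  have hX : (2 : ℕ) ^ (h + q + 1) = 2 * 2 ^ (h + q) := by rw [pow_succ]; ring
  have hXp : 0 < 2 ^ (h + q + 1) := Nat.two_pow_pos _
  have hMp : 0 < (2 ^ (h + q + 1)) ^ (g1 * g1) := Nat.pow_pos hXp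
  have hQp : 0 < 2 ^ q := Nat.two_pow_pos _
  have hXQ : 2 ^ (h + q + 1) = 2 ^ (h + 1) * 2 ^ q := by rw [← pow_add]; congr 1; ring
  have hBQ : 2 ^ (h + q) = 2 ^ h * 2 ^ q := by rw [← pow_add]
  have hXh : 2 ^ (h + 1) = 2 * 2 ^ h := by rw [pow_succ]; ring
  obtain ⟨d, hd, hd'⟩ := dig_exists v hnv
  have hy := read_eq (X := 2 ^ (h + q + 1)) (B := 2 ^ (h + q)) (m := g1 * g1) hX v hnv
  have hv := Lp_vd (X := 2 ^ (h + q + 1)) (B := 2 ^ (h + q)) (g1 * g1) v d hd'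
  have hz : toN ((2 ^ (h + q + 1)) ^ (g1 * g1)) n.1
      = gN (2 ^ (h + q + 1)) (g1 * g1) ((2 ^ (h + q + 1)) ^ (g1 * g1)) v := by
    rw [toN_eq hMp, h1]
    rfl
  have hyd : (gN (2 ^ (h + q + 1)) (g1 * g1) ((2 ^ (h + q + 1)) ^ (g1 * g1)) v
      + biasN (2 ^ (h + q + 1)) (2 ^ (h + q)) (g1 * g1)) % (2 ^ (h + q + 1)) ^ (g1 * g1)
      = vd (2 ^ (h + q + 1)) (g1 * g1) d := by
    have : (((gN (2 ^ (h + q + 1)) (g1 * g1) ((2 ^ (h + q + 1)) ^ (g1 * g1)) v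
      + biasN (2 ^ (h + q + 1)) (2 ^ (h + q)) (g1 * g1)) % (2 ^ (h + q + 1)) ^ (g1 * g1) : ℕ) : ℤ)
      = ((vd (2 ^ (h + q + 1)) (g1 * g1) d : ℕ) : ℤ) := by
      rw [hv]
      exact hy
    exact_mod_cast this
  -- the new vector
  set v' : ℕ → ℤ := fun i => ((d (ix g1 g2 i) / 2 ^ q : ℕ) : ℤ) - ((2 ^ h : ℕ) : ℤ) with hv'
  have hbias : biasN (2 ^ (h + 1)) (2 ^ h) (g2 * g2) ≤ (2 ^ (h + 1)) ^ (g2 * g2) := by
    have := bias_lt (X := 2 ^ (h + 1)) (B := 2 ^ h) hXh (g2 * g2) (fun _ => 0) (by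
      rw [nmv_sum]; simp)
    rw [Lp_sum] at this
    simp only [zero_mul, Finset.sum_const_zero, zero_add] at this
    exact_mod_cast this.le
  have hMp' : 0 < (2 ^ (h + 1)) ^ (g2 * g2) := Nat.pow_pos (Nat.two_pow_pos _)
  have hnew : ((vd (2 ^ (h + 1)) (g2 * g2) (fun i => d (ix g1 g2 i) / 2 ^ q) : ℕ) : ℤ)
      = Lp ((2 ^ (h + 1) : ℕ) : ℤ) (g2 * g2) v' + biasN (2 ^ (h + 1)) (2 ^ h) (g2 * g2) :=
    Lp_vd (X := 2 ^ (h + 1)) (B := 2 ^ h) (g2 * g2) v' _ (fun i _ => by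
      simp only [hv']
      ring)
  -- size of the rounding
  have hround : ∀ i, i < g2 * g2 → |(v (ix g1 g2 i) : ℝ) / 2 ^ q - v' i| ≤ 1 := by
    intro i hi
    have e1 := hd' _ (ix_lt h2 hg hi)
    have e2 := Nat.div_add_mod (d (ix g1 g2 i)) (2 ^ q)
    have e3 := Nat.mod_lt (d (ix g1 g2 i)) hQp
    have e4 : (v (ix g1 g2 i) : ℝ) = d (ix g1 g2 i) - 2 ^ h * 2 ^ q := by
      have : (v (ix g1 g2 i) : ℤ) = d (ix g1 g2 i) - ((2 ^ h * 2 ^ q : ℕ) : ℤ) := by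
        rw [← hBQ]
        omega
      have := congrArg (Int.cast : ℤ → ℝ) this
      push_cast at this
      exact this
    have e5 : (d (ix g1 g2 i) : ℝ) = 2 ^ q * (d (ix g1 g2 i) / 2 ^ q : ℕ)
        + (d (ix g1 g2 i) % 2 ^ q : ℕ) := by
      exact_mod_cast e2.symm
    have hQr : (0 : ℝ) < 2 ^ q := by positivity
    have e6 : (v' i : ℝ) = ((d (ix g1 g2 i) / 2 ^ q : ℕ) : ℝ) - 2 ^ h := by
      have : v' i = ((d (ix g1 g2 i) / 2 ^ q : ℕ) : ℤ) - ((2 ^ h : ℕ) : ℤ) := rfl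
      rw [this, Int.cast_sub, Int.cast_natCast, Int.cast_natCast, Nat.cast_pow, Nat.cast_ofNat]
    have e7 : (v (ix g1 g2 i) : ℝ) / 2 ^ q - v' i = (d (ix g1 g2 i) % 2 ^ q : ℕ) / 2 ^ q := by
      rw [e4, e6, e5]
      field_simp
      ring
    rw [e7, abs_of_nonneg (by positivity), div_le_one hQr]
    have : (d (ix g1 g2 i) % 2 ^ q : ℕ) ≤ 2 ^ q := e3.le
    exact_mod_cast this
  refine ⟨v', ?_, ?_, ?_⟩
  · show (asmR (2 ^ (h + q + 1)) (2 ^ (h + 1)) (2 ^ q) g2 ((2 ^ (h + q + 1)) ^ g1)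
      ((2 ^ (h + q + 1)) ^ g2) ((2 ^ (h + 1)) ^ g2) g2
      ((toN ((2 ^ (h + q + 1)) ^ (g1 * g1)) n.1
        + biasN (2 ^ (h + q + 1)) (2 ^ (h + q)) (g1 * g1)) % (2 ^ (h + q + 1)) ^ (g1 * g1))
      + ((2 ^ (h + 1)) ^ (g2 * g2) - biasN (2 ^ (h + 1)) (2 ^ h) (g2 * g2)))
        % (2 ^ (h + 1)) ^ (g2 * g2) = _
    rw [hz, hyd, asmR_vd hXp h2 hg g2 g1 d hg hd]
    have : (((vd (2 ^ (h + 1)) (g2 * g2) (fun i => d (ix g1 g2 i) / 2 ^ q)
        + ((2 ^ (h + 1)) ^ (g2 * g2) - biasN (2 ^ (h + 1)) (2 ^ h) (g2 * g2)))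
          % (2 ^ (h + 1)) ^ (g2 * g2) : ℕ) : ℤ)
        = ((gN (2 ^ (h + 1)) (g2 * g2) ((2 ^ (h + 1)) ^ (g2 * g2)) v' : ℕ) : ℤ) := by
      rw [gN_cast hMp', Int.natCast_mod, Nat.cast_add, Nat.cast_sub hbias, hnew]
      rw [show Lp ((2 ^ (h + 1) : ℕ) : ℤ) (g2 * g2) v'
          + (biasN (2 ^ (h + 1)) (2 ^ h) (g2 * g2) : ℤ)
          + ((((2 ^ (h + 1)) ^ (g2 * g2) : ℕ) : ℤ) - (biasN (2 ^ (h + 1)) (2 ^ h) (g2 * g2) : ℤ))
          = Lp ((2 ^ (h + 1) : ℕ) : ℤ) (g2 * g2) v'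
            + (((2 ^ (h + 1)) ^ (g2 * g2) : ℕ) : ℤ) * 1 by ring, Int.add_mul_emod_self_left]
    exact_mod_cast this
  · show |u / 2 ^ q - ph (g2 * g2) (mo2 g2 s t) v'|
      ≤ ((((cutE (mkC (h + q) g1 g2) (toN ((2 ^ (h + q + 1)) ^ (g1 * g1)) n.1)) / 2 ^ q).succ
        + g2 * g2 : ℕ) : ℝ)
    rw [hz]
    have hQr : (0 : ℝ) < 2 ^ q := by positivity
    have c1 : |u - ph (g2 * g2) (mo2 g2 s t) (cutv g1 g2 v)|
        ≤ (cutE (mkC (h + q) g1 g2) (gN (2 ^ (h + q + 1)) (g1 * g1)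
          ((2 ^ (h + q + 1)) ^ (g1 * g1)) v) : ℝ) := by
      rw [h3, ph_sum, ph_sum]
      refine (cut_err h2 hg hs ht g1 g2 v hg).trans ?_
      exact_mod_cast cutE_le (h := h + q) v hnv
    have hmo : ∀ i, |mo2 g2 s t i| ≤ 1 := fun i => by
      have := mul_aux hs ht (i % g2) (i / g2) 1
      rwa [one_mul, abs_one] at this
    have c2 := ph_sub_le (m := g2 * g2) hmo hQr (cutv g1 g2 v) v' hround
    set w := cutE (mkC (h + q) g1 g2) (gN (2 ^ (h + q + 1)) (g1 * g1)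
      ((2 ^ (h + q + 1)) ^ (g1 * g1)) v) with hw
    have c3 : (w : ℝ) / 2 ^ q ≤ ((w / 2 ^ q).succ : ℕ) := by
      rw [div_le_iff₀ hQr]
      have := Nat.lt_mul_div_succ w hQp
      have h5 : w ≤ (w / 2 ^ q).succ * 2 ^ q := by
        rw [Nat.mul_comm]
        exact this.le
      exact_mod_cast h5
    have c4 : |u / 2 ^ q - ph (g2 * g2) (mo2 g2 s t) (cutv g1 g2 v) / 2 ^ q|
        ≤ ((w / 2 ^ q).succ : ℕ) := by
      rw [← sub_div, abs_div, abs_of_pos hQr]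
      exact (div_le_div_of_nonneg_right c1 hQr.le).trans c3
    rw [Nat.cast_add]
    calc _ = |(u / 2 ^ q - ph (g2 * g2) (mo2 g2 s t) (cutv g1 g2 v) / 2 ^ q)
          + (ph (g2 * g2) (mo2 g2 s t) (cutv g1 g2 v) / 2 ^ q
            - ph (g2 * g2) (mo2 g2 s t) v')| := by
          congr 1
          ring
      _ ≤ _ := (abs_add_le _ _).trans (add_le_add c4 c2)
  · show nmv (g2 * g2) v' ≤ (n.2 / 2 ^ q).succ + g2 * g2
    have c5 : nmv (g2 * g2) v' ≤ nmv (g2 * g2) (cutv g1 g2 v) / 2 ^ q + g2 * g2 := by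
      rw [nmv_sum, nmv_sum]
      have c6 : ∀ i, i < g2 * g2 → (v' i).natAbs * 2 ^ q ≤ (cutv g1 g2 v i).natAbs + 2 ^ q := by
        intro i hi
        have := hround i hi
        have hQr : (0 : ℝ) < 2 ^ q := by positivity
        have c7 : |(v' i : ℝ)| * 2 ^ q ≤ |(v (ix g1 g2 i) : ℝ)| + 2 ^ q := by
          have e8 : (v' i : ℝ) * 2 ^ q = v (ix g1 g2 i)
              - ((v (ix g1 g2 i) : ℝ) / 2 ^ q - v' i) * 2 ^ q := by
            field_simp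
            ring
          calc |(v' i : ℝ)| * 2 ^ q = |(v' i : ℝ) * 2 ^ q| := by
                rw [abs_mul, abs_of_pos hQr]
            _ = |(v (ix g1 g2 i) : ℝ) - ((v (ix g1 g2 i) : ℝ) / 2 ^ q - v' i) * 2 ^ q| := by
                rw [e8]
            _ ≤ |(v (ix g1 g2 i) : ℝ)| + |((v (ix g1 g2 i) : ℝ) / 2 ^ q - v' i) * 2 ^ q| :=
                abs_sub _ _
            _ ≤ |(v (ix g1 g2 i) : ℝ)| + 1 * 2 ^ q := by
                rw [abs_mul, abs_of_pos hQr]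
                gcongr
            _ = _ := by ring
        rw [← nabs, ← nabs] at c7
        exact_mod_cast c7
      have c8 : (∑ i ∈ Finset.range (g2 * g2), (v' i).natAbs) * 2 ^ q
          ≤ ∑ i ∈ Finset.range (g2 * g2), (cutv g1 g2 v i).natAbs + g2 * g2 * 2 ^ q := by
        rw [Finset.sum_mul]
        calc _ ≤ ∑ i ∈ Finset.range (g2 * g2), ((cutv g1 g2 v i).natAbs + 2 ^ q) :=
              Finset.sum_le_sum fun i hi => c6 i (Finset.mem_range.1 hi)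
          _ = _ := by
              rw [Finset.sum_add_distrib]
              simp
      have c9 := (Nat.le_div_iff_mul_le hQp).2 c8
      rwa [Nat.add_mul_div_right _ _ hQp] at c9
    have c10 : nmv (g2 * g2) (cutv g1 g2 v) ≤ n.2 := by
      refine le_trans ?_ h4
      rw [nmv_sd, nmv_sd]
      exact sd_mono_ix h2 hg g1 g2 (fun i => (v i).natAbs) hg
    have c11 : nmv (g2 * g2) (cutv g1 g2 v) / 2 ^ q ≤ n.2 / 2 ^ q := Nat.div_le_div_right c10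
    omega

/-! ### the cell -/

/-- all entries rounded -/
noncomputable def rndL (r : Rnd) (l : List (ℤ × ℕ)) : List E3 :=
  List.rec (motive := fun _ => List E3) [] (fun n _ ih => rnd r n :: ih) l

def ltAll (b : ℕ) : List (ℤ × ℕ) → Bool
  | [] => true
  | n :: l => cond (Nat.ble (Nat.succ n.2) b) (ltAll b l) false

theorem rndL_sound {h q g1 g2 : ℕ} {r : Rnd} (hr : r = mkR h q g1 g2) (h2 : 0 < g2) (hg : g2 ≤ g1)
    {s t : ℝ} (hs : |s| ≤ 1) (ht : |t| ≤ 1) : ∀ (us : List ℝ) (N : List (ℤ × ℕ)),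
    ltAll (2 ^ (h + q)) N = true → ExL (2 ^ (h + q + 1)) (g1 * g1) (mo2 g1 s t) us N →
    ApE (2 ^ (h + 1)) (g2 * g2) ((2 ^ (h + 1)) ^ (g2 * g2)) (mo2 g2 s t)
      (us.map (fun u => u / 2 ^ q)) (rndL r N)
  | [], [], _, _ => trivial
  | [], _ :: _, _, hE => hE.elim
  | _ :: _, [], _, hE => hE.elim
  | u :: us, n :: N, hb, hE => by
    have h1 := cond_ff hb
    have h3 : n.2 < 2 ^ (h + q) := Nat.le_of_ble_eq_true h1.1
    exact ⟨rnd_sound hr h2 hg hs ht hE.1 h3, rndL_sound hr h2 hg hs ht us N h1.2 hE.2⟩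

theorem valL_div (c : ℝ) (p : ℕ → ℝ) : ∀ (us : List ℝ) (L : List (T ℤ)),
    valL (us.map (fun u => u / c)) L p = valL us L p / c
  | [], L => by simp [valL]
  | u :: us, [] => by simp [valL]
  | u :: us, C :: L => by
    simp only [List.map_cons, valL, valL_div c p us L]
    ring

/-- the rounded table of the cell -/
noncomputable def uTabR (r : Rnd) (w g K : ℕ) (c : UC) (AL : List Al) : List E3 :=
  rndL r (uTab w g K c AL)

/-- the polynomial of the cell, cut to `k` -/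
noncomputable def uPolR (k : Cut) (R : ℕ) (tab : List E3) (CL : List (T ℤ)) : PN :=
  cutP k R (dotE k.M1 R tab CL)

/-- **the polynomial of the cell represents `(4 ^ ν D) ^ K Q / 2 ^ q`** -/
theorem uPolR_rep {h q g0 g1 g2 K R : ℕ} {r : Rnd} (hr : r = mkR h q g0 g1) {k : Cut}
    (hk : k = mkC h g1 g2) (h2 : 0 < g2) (hg : g2 ≤ g1) (hg0 : g1 ≤ g0)
    (hK : 2 * K < g0) (hR : 1 ≤ R) {c : UC} {AL : List Al} (hA : degOK K AL = true)
    (hB : ltAll (2 ^ (h + q)) (uTab (h + q + 1) g0 K c AL) = true)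
    {CL : List (T ℤ)} (hb : (dotE k.M1 R (uTabR r (h + q + 1) g0 K c AL) CL).b < 2 ^ h)
    {a b s t : ℝ} (ha : a * 2 ^ (c.qa + 1) = 2 * c.i + 1 + s)
    (hb' : b * 2 ^ (c.qb + 1) = 2 * c.j + 1 + t) (hs : |s| ≤ 1) (ht : |t| ≤ 1) :
    RepM (2 ^ (h + 1)) (g2 * g2) ((2 ^ (h + 1)) ^ (g2 * g2)) (mo2 g2 s t) R
      (uPolR k R (uTabR r (h + q + 1) g0 K c AL) CL)
      (fun p => (4 ^ nuC c * Pool.Agent.Helper6.TOP.chD a b) ^ K
        * valZ AL CL (ch0 a b) (ch1 a b) (ch2 a b) p / 2 ^ q) := by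
  subst hk
  have hMp : 0 < (2 ^ (h + 1)) ^ (g1 * g1) := Nat.pow_pos (Nat.two_pow_pos _)
  have hg1 : 0 < g1 := lt_of_lt_of_le h2 hg
  have hqa : c.qa + 1 ≤ nuC c := by
    unfold nuC
    cases hh : Nat.ble c.qa c.qb
    · exact Nat.succ_le_succ le_rfl
    · exact Nat.succ_le_succ (Nat.le_of_ble_eq_true hh)
  have hqb : c.qb + 1 ≤ nuC c := by
    unfold nuC
    cases hh : Nat.ble c.qa c.qb
    · have : ¬ c.qa ≤ c.qb := fun h => by
        have := Nat.ble_eq_true_of_le h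
        rw [hh] at this
        exact Bool.false_ne_true this
      show c.qb + 1 ≤ c.qa + 1
      omega
    · exact Nat.succ_le_succ le_rfl
  set y : Fin 5 → ℝ := ![s, t, 0, 0, 0] with hy
  have hT : (((Int.ofNat (Nat.pow 2 (nuC c))) : ℤ) : ℝ) = (2 : ℝ) ^ nuC c := by
    show (((2 ^ nuC c : ℕ) : ℤ) : ℝ) = _
    push_cast
    ring
  have hRPN := tabE_sound (w := h + q + 1) (g := g0) (y := y) (K := K)
    (T := Int.ofNat (Nat.pow 2 (nuC c))) (A := ctr (nuC c) c.qa c.i) (B := hw (nuC c) c.qa)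
    (A' := ctr (nuC c) c.qb c.j) (B' := hw (nuC c) c.qb) hA
  have hy0 : y 0 = s := rfl
  have hy1 : y 1 = t := rfl
  rw [hy0, hy1, ctr_hw hqa ha, ctr_hw hqb hb', hT] at hRPN
  have hEx := exL_of hK AL _ hRPN
  rw [hy0, hy1] at hEx
  have hAp := rndL_sound hr hg1 hg0 hs ht _ _ hB hEx
  have hdot := dotE_rep (R := R) hMp _ _ CL hAp
  have hcut := cutP_rep (h := h) (g1 := g1) (g2 := g2) h2 hg hs ht hR
    (P := dotE (mkC h g1 g2).M1 R (uTabR r (h + q + 1) g0 K c AL) CL) hb hdot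
  refine RepM.congr hcut (fun p _ => ?_)
  rw [valL_div, valL_us]
  have hD : (0 : ℝ) < Pool.Agent.Helper6.TOP.chD a b := Pool.Agent.Helper6.TOP.chD_pos a b
  have hD' : Pool.Agent.Helper6.TOP.chD a b ≠ 0 := hD.ne'
  have e4 : ((2 : ℝ) ^ nuC c) ^ 2 = 4 ^ nuC c := by
    rw [← pow_mul, Nat.mul_comm, pow_mul]
    norm_num
  have eD : ((2 : ℝ) ^ nuC c) ^ 2 + ((2 : ℝ) ^ nuC c * a) ^ 2 + ((2 : ℝ) ^ nuC c * b) ^ 2
      = 4 ^ nuC c * Pool.Agent.Helper6.TOP.chD a b := by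
    rw [← e4]
    unfold Pool.Agent.Helper6.TOP.chD
    ring
  rw [eD]
  congr 1
  refine valD_eq ?_ ?_ ?_ AL CL p hA
  · rw [← e4]
    unfold ch0
    field_simp
  · rw [← e4]
    unfold ch1
    field_simp
  · rw [← e4]
    unfold ch2
    field_simp

end Helper10.PC
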