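import Pool.Agent.Helper10.TOP.PN

/-!
# Rounding with independent bases, final cut to integers
-/

set_option autoImplicit false

namespace Helper10.PC
open Pool.Agent.Helper6.TOP

theorem bias_lt' {X B : ℕ} (h : B < X) : ∀ m : ℕ, biasN X B m < X ^ m
  | 0 => by simp [biasN]
  | m + 1 => by
    have h1 := bias_lt' h m
    show B + X * biasN X B m < X ^ (m + 1)
    calc B + X * biasN X B m < X + X * biasN X B m := by omega
      _ = X * (biasN X B m + 1) := by ring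
      _ ≤ X * X ^ m := Nat.mul_le_mul_left _ h1
      _ = X ^ (m + 1) := by ring

/-- the digits of a vector -/
theorem dig_read {H m : ℕ} (v : ℕ → ℤ) (hnv : nmv m v < 2 ^ H) :
    ∃ d : ℕ → ℕ, (∀ i, d i < 2 ^ (H + 1)) ∧ (∀ i, i < m → (d i : ℤ) = v i + ((2 ^ H : ℕ) : ℤ)) ∧
      (gN (2 ^ (H + 1)) m ((2 ^ (H + 1)) ^ m) v + biasN (2 ^ (H + 1)) (2 ^ H) m)
        % (2 ^ (H + 1)) ^ m = vd (2 ^ (H + 1)) m d := by
  have hX : (2 : ℕ) ^ (H + 1) = 2 * 2 ^ H := by rw [pow_succ]; ring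
  obtain ⟨d, hd, hd'⟩ := dig_exists v hnv
  have hy := read_eq (X := 2 ^ (H + 1)) (B := 2 ^ H) (m := m) hX v hnv
  have hv := Lp_vd (X := 2 ^ (H + 1)) (B := 2 ^ H) m v d hd'
  refine ⟨d, hd, hd', ?_⟩
  have : (((gN (2 ^ (H + 1)) m ((2 ^ (H + 1)) ^ m) v
      + biasN (2 ^ (H + 1)) (2 ^ H) m) % (2 ^ (H + 1)) ^ m : ℕ) : ℤ)
      = ((vd (2 ^ (H + 1)) m d : ℕ) : ℤ) := by
    rw [hv]
    exact hy
  exact_mod_cast this

/-- **core of the rounding** -/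
theorem rcore {H q h g1 g2 : ℕ} (hq : q ≤ H) (_hh : H ≤ h + q) (h2 : 0 < g2) (hg : g2 ≤ g1)
    {s t : ℝ} (hs : |s| ≤ 1) (ht : |t| ≤ 1) (v : ℕ → ℤ) (hnv : nmv (g1 * g1) v < 2 ^ H) :
    ∃ v' : ℕ → ℤ,
      ((asmR (2 ^ (H + 1)) (2 ^ (h + 1)) (2 ^ q) g2 ((2 ^ (H + 1)) ^ g1) ((2 ^ (H + 1)) ^ g2)
        ((2 ^ (h + 1)) ^ g2) g2
        ((gN (2 ^ (H + 1)) (g1 * g1) ((2 ^ (H + 1)) ^ (g1 * g1)) v
          + biasN (2 ^ (H + 1)) (2 ^ H) (g1 * g1)) % (2 ^ (H + 1)) ^ (g1 * g1)) : ℕ) : ℤ)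
        = Lp ((2 ^ (h + 1) : ℕ) : ℤ) (g2 * g2) v'
          + biasN (2 ^ (h + 1)) (2 ^ (H - q)) (g2 * g2) ∧
      |ph (g1 * g1) (mo2 g1 s t) v / 2 ^ q - ph (g2 * g2) (mo2 g2 s t) v'|
        ≤ ((Nat.succ (cutE (mkC H g1 g2)
          (gN (2 ^ (H + 1)) (g1 * g1) ((2 ^ (H + 1)) ^ (g1 * g1)) v) / 2 ^ q)
          + g2 * g2 : ℕ) : ℝ) ∧
      nmv (g2 * g2) v' * 2 ^ q ≤ nmv (g1 * g1) v + g2 * g2 * 2 ^ q := by
  have hXp : 0 < 2 ^ (H + 1) := Nat.two_pow_pos _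
  have hQp : 0 < 2 ^ q := Nat.two_pow_pos _
  have hBQ : 2 ^ H = 2 ^ (H - q) * 2 ^ q := by
    rw [← pow_add]
    congr 1
    omega
  have hQr : (0 : ℝ) < 2 ^ q := by positivity
  obtain ⟨d, hd, hd', hyd⟩ := dig_read v hnv
  -- the new vector
  set v' : ℕ → ℤ := fun i => ((d (ix g1 g2 i) / 2 ^ q : ℕ) : ℤ) - ((2 ^ (H - q) : ℕ) : ℤ) with hv'
  have hnew : ((vd (2 ^ (h + 1)) (g2 * g2) (fun i => d (ix g1 g2 i) / 2 ^ q) : ℕ) : ℤ)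
      = Lp ((2 ^ (h + 1) : ℕ) : ℤ) (g2 * g2) v'
        + biasN (2 ^ (h + 1)) (2 ^ (H - q)) (g2 * g2) :=
    Lp_vd (X := 2 ^ (h + 1)) (B := 2 ^ (H - q)) (g2 * g2) v' _ (fun i _ => by
      simp only [hv']
      ring)
  -- size of the rounding
  have hround : ∀ i, i < g2 * g2 → |(v (ix g1 g2 i) : ℝ) / 2 ^ q - v' i| ≤ 1 := by
    intro i hi
    have e1 := hd' _ (ix_lt h2 hg hi)
    have e2 := Nat.div_add_mod (d (ix g1 g2 i)) (2 ^ q)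
    have e3 := Nat.mod_lt (d (ix g1 g2 i)) hQp
    have e4 : (v (ix g1 g2 i) : ℝ) = d (ix g1 g2 i) - 2 ^ (H - q) * 2 ^ q := by
      have : (v (ix g1 g2 i) : ℤ) = d (ix g1 g2 i) - ((2 ^ (H - q) * 2 ^ q : ℕ) : ℤ) := by
        rw [← hBQ]
        omega
      have := congrArg (Int.cast : ℤ → ℝ) this
      push_cast at this
      exact this
    have e5 : (d (ix g1 g2 i) : ℝ) = 2 ^ q * (d (ix g1 g2 i) / 2 ^ q : ℕ)
        + (d (ix g1 g2 i) % 2 ^ q : ℕ) := by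
      exact_mod_cast e2.symm
    have e6 : (v' i : ℝ) = ((d (ix g1 g2 i) / 2 ^ q : ℕ) : ℝ) - 2 ^ (H - q) := by
      have : v' i = ((d (ix g1 g2 i) / 2 ^ q : ℕ) : ℤ) - ((2 ^ (H - q) : ℕ) : ℤ) := rfl
      rw [this, Int.cast_sub, Int.cast_natCast, Int.cast_natCast, Nat.cast_pow, Nat.cast_ofNat]
    have e7 : (v (ix g1 g2 i) : ℝ) / 2 ^ q - v' i = (d (ix g1 g2 i) % 2 ^ q : ℕ) / 2 ^ q := by
      rw [e4, e6, e5]
      field_simp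
      ring
    rw [e7, abs_of_nonneg (by positivity), div_le_one hQr]
    have : (d (ix g1 g2 i) % 2 ^ q : ℕ) ≤ 2 ^ q := e3.le
    exact_mod_cast this
  have hmo : ∀ i, |mo2 g2 s t i| ≤ 1 := fun i => by
    have := mul_aux hs ht (i % g2) (i / g2) 1
    rwa [one_mul, abs_one] at this
  refine ⟨v', ?_, ?_, ?_⟩
  · rw [hyd, asmR_vd hXp h2 hg g2 g1 d hg hd, hnew]
  · have c1 : |ph (g1 * g1) (mo2 g1 s t) v - ph (g2 * g2) (mo2 g2 s t) (cutv g1 g2 v)|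
        ≤ (cutE (mkC H g1 g2) (gN (2 ^ (H + 1)) (g1 * g1)
          ((2 ^ (H + 1)) ^ (g1 * g1)) v) : ℝ) := by
      rw [ph_sum, ph_sum]
      refine (cut_err h2 hg hs ht g1 g2 v hg).trans ?_
      exact_mod_cast cutE_le (h := H) v hnv
    have c2 := ph_sub_le (m := g2 * g2) hmo hQr (cutv g1 g2 v) v' hround
    set w := cutE (mkC H g1 g2) (gN (2 ^ (H + 1)) (g1 * g1)
      ((2 ^ (H + 1)) ^ (g1 * g1)) v) with hw
    have c3 : (w : ℝ) / 2 ^ q ≤ ((w / 2 ^ q).succ : ℕ) := by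
      rw [div_le_iff₀ hQr]
      have := Nat.lt_mul_div_succ w hQp
      have h5 : w ≤ (w / 2 ^ q).succ * 2 ^ q := by
        rw [Nat.mul_comm]
        exact this.le
      exact_mod_cast h5
    have c4 : |ph (g1 * g1) (mo2 g1 s t) v / 2 ^ q
        - ph (g2 * g2) (mo2 g2 s t) (cutv g1 g2 v) / 2 ^ q| ≤ ((w / 2 ^ q).succ : ℕ) := by
      rw [← sub_div, abs_div, abs_of_pos hQr]
      exact (div_le_div_of_nonneg_right c1 hQr.le).trans c3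
    rw [Nat.cast_add]
    calc _ = |(ph (g1 * g1) (mo2 g1 s t) v / 2 ^ q
          - ph (g2 * g2) (mo2 g2 s t) (cutv g1 g2 v) / 2 ^ q)
          + (ph (g2 * g2) (mo2 g2 s t) (cutv g1 g2 v) / 2 ^ q
            - ph (g2 * g2) (mo2 g2 s t) v')| := by
          congr 1
          ring
      _ ≤ _ := (abs_add_le _ _).trans (add_le_add c4 c2)
  · have c6 : ∀ i, i < g2 * g2 → (v' i).natAbs * 2 ^ q ≤ (cutv g1 g2 v i).natAbs + 2 ^ q := by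
      intro i hi
      have := hround i hi
      have c7 : |(v' i : ℝ)| * 2 ^ q ≤ |(v (ix g1 g2 i) : ℝ)| + 2 ^ q := by
        have e8 : (v' i : ℝ) * 2 ^ q = v (ix g1 g2 i)
            - ((v (ix g1 g2 i) : ℝ) / 2 ^ q - v' i) * 2 ^ q := by
          field_simp
          ring
        calc |(v' i : ℝ)| * 2 ^ q = |(v' i : ℝ) * 2 ^ q| := by
              rw [abs_mul, abs_of_pos hQr]
          _ = |(v (ix g1 g2 i) : ℝ) - ((v (ix g1 g2 i) : ℝ) / 2 ^ q - v' i) * 2 ^ q| := by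
              rw [e8]
          _ ≤ |(v (ix g1 g2 i) : ℝ)| + |((v (ix g1 g2 i) : ℝ) / 2 ^ q - v' i) * 2 ^ q| :=
              abs_sub _ _
          _ ≤ |(v (ix g1 g2 i) : ℝ)| + 1 * 2 ^ q := by
              rw [abs_mul, abs_of_pos hQr]
              gcongr
          _ = _ := by ring
      rw [← nabs, ← nabs] at c7
      exact_mod_cast c7
    have c8 : (∑ i ∈ Finset.range (g2 * g2), (v' i).natAbs) * 2 ^ q
        ≤ ∑ i ∈ Finset.range (g2 * g2), (cutv g1 g2 v i).natAbs + g2 * g2 * 2 ^ q := by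
      rw [Finset.sum_mul]
      calc _ ≤ ∑ i ∈ Finset.range (g2 * g2), ((cutv g1 g2 v i).natAbs + 2 ^ q) :=
            Finset.sum_le_sum fun i hi => c6 i (Finset.mem_range.1 hi)
        _ = _ := by
            rw [Finset.sum_add_distrib]
            simp
    have c10 : nmv (g2 * g2) (cutv g1 g2 v) ≤ nmv (g1 * g1) v := by
      rw [nmv_sd, nmv_sd]
      exact sd_mono_ix h2 hg g1 g2 (fun i => (v i).natAbs) hg
    rw [← nmv_sum, ← nmv_sum] at c8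
    omega

/-- constants of the rounding: half exponent `H` before, divisor `2 ^ q`, half exponent `h` after -/
structure Rn where
  c : Cut
  X : ℕ
  X' : ℕ
  Q : ℕ
  XG2' : ℕ
  M' : ℕ
  N' : ℕ
  S' : ℕ

deriving instance DecidableEq for Rn

def mkRn (H q h g1 g2 : ℕ) : Rn :=
  ⟨mkC H g1 g2, 2 ^ (H + 1), 2 ^ (h + 1), 2 ^ q, (2 ^ (h + 1)) ^ g2, (2 ^ (h + 1)) ^ (g2 * g2),
    (2 ^ (h + 1)) ^ (g2 * g2) - biasN (2 ^ (h + 1)) (2 ^ (H - q)) (g2 * g2),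
    biasN (2 ^ (h + 1)) (2 ^ (H - q)) (g2 * g2)⟩

/-- the new biased digits -/
def rnA (r : Rn) (z : ℕ) : ℕ :=
  asmR r.X r.X' r.Q r.c.g2 r.c.XG1 r.c.XG2 r.XG2' r.c.g2 (Nat.mod (Nat.add z r.c.S1) r.c.M1)

/-- error of the rounding -/
def rnE (r : Rn) (z : ℕ) : ℕ :=
  Nat.add (Nat.succ (Nat.div (cutE r.c z) r.Q)) (Nat.mul r.c.g2 r.c.g2)

/-- rounding of an exact entry -/
noncomputable def rndA (r : Rn) (n : ℤ × ℕ) : E3 :=
  (fun z => ⟨Nat.mod (Nat.add (rnA r z) r.N') r.M', rnE r z,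
    Nat.add (Nat.succ (Nat.div n.2 r.Q)) (Nat.mul r.c.g2 r.c.g2)⟩) (toN r.c.M1 n.1)

theorem rndA_sound {H q h g1 g2 : ℕ} {r : Rn} (hr : r = mkRn H q h g1 g2) (hq : q ≤ H)
    (hh : H ≤ h + q) (h2 : 0 < g2) (hg : g2 ≤ g1)
    {s t : ℝ} (hs : |s| ≤ 1) (ht : |t| ≤ 1) {n : ℤ × ℕ} {u : ℝ}
    (hn : ∃ v : ℕ → ℤ, n.1 = Lp ((2 ^ (H + 1) : ℕ) : ℤ) (g1 * g1) v ∧
      u = ph (g1 * g1) (mo2 g1 s t) v ∧ nmv (g1 * g1) v ≤ n.2) (hb : n.2 < 2 ^ H) :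
    Ap3N (2 ^ (h + 1)) (g2 * g2) ((2 ^ (h + 1)) ^ (g2 * g2)) (mo2 g2 s t) (rndA r n)
      (u / 2 ^ q) := by
  subst hr
  obtain ⟨v, h1, h3, h4⟩ := hn
  have hnv : nmv (g1 * g1) v < 2 ^ H := lt_of_le_of_lt h4 hb
  have hXp : 0 < 2 ^ (H + 1) := Nat.two_pow_pos _
  have hMp : 0 < (2 ^ (H + 1)) ^ (g1 * g1) := Nat.pow_pos hXp
  have hQp : 0 < 2 ^ q := Nat.two_pow_pos _
  obtain ⟨v', k1, k2, k3⟩ := rcore hq hh h2 hg hs ht v hnv
  have hz : toN ((2 ^ (H + 1)) ^ (g1 * g1)) n.1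
      = gN (2 ^ (H + 1)) (g1 * g1) ((2 ^ (H + 1)) ^ (g1 * g1)) v := by
    rw [toN_eq hMp, h1]
    rfl
  have hBX : 2 ^ (H - q) < 2 ^ (h + 1) := Nat.pow_lt_pow_right (by norm_num) (by omega)
  have hbias : biasN (2 ^ (h + 1)) (2 ^ (H - q)) (g2 * g2) ≤ (2 ^ (h + 1)) ^ (g2 * g2) :=
    (bias_lt' hBX _).le
  have hMp' : 0 < (2 ^ (h + 1)) ^ (g2 * g2) := Nat.pow_pos (Nat.two_pow_pos _)
  refine ⟨v', ?_, ?_, ?_⟩
  · show (rnA (mkRn H q h g1 g2) (toN ((2 ^ (H + 1)) ^ (g1 * g1)) n.1)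
      + ((2 ^ (h + 1)) ^ (g2 * g2) - biasN (2 ^ (h + 1)) (2 ^ (H - q)) (g2 * g2)))
        % (2 ^ (h + 1)) ^ (g2 * g2) = _
    rw [hz]
    have e1 : ((rnA (mkRn H q h g1 g2) (gN (2 ^ (H + 1)) (g1 * g1)
        ((2 ^ (H + 1)) ^ (g1 * g1)) v) : ℕ) : ℤ)
        = Lp ((2 ^ (h + 1) : ℕ) : ℤ) (g2 * g2) v'
          + biasN (2 ^ (h + 1)) (2 ^ (H - q)) (g2 * g2) := k1
    have : (((rnA (mkRn H q h g1 g2) (gN (2 ^ (H + 1)) (g1 * g1) ((2 ^ (H + 1)) ^ (g1 * g1)) v)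
        + ((2 ^ (h + 1)) ^ (g2 * g2) - biasN (2 ^ (h + 1)) (2 ^ (H - q)) (g2 * g2)))
          % (2 ^ (h + 1)) ^ (g2 * g2) : ℕ) : ℤ)
        = ((gN (2 ^ (h + 1)) (g2 * g2) ((2 ^ (h + 1)) ^ (g2 * g2)) v' : ℕ) : ℤ) := by
      rw [gN_cast hMp', Int.natCast_mod, Nat.cast_add, Nat.cast_sub hbias, e1]
      rw [show Lp ((2 ^ (h + 1) : ℕ) : ℤ) (g2 * g2) v'
          + (biasN (2 ^ (h + 1)) (2 ^ (H - q)) (g2 * g2) : ℤ)
          + ((((2 ^ (h + 1)) ^ (g2 * g2) : ℕ) : ℤ)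
            - (biasN (2 ^ (h + 1)) (2 ^ (H - q)) (g2 * g2) : ℤ))
          = Lp ((2 ^ (h + 1) : ℕ) : ℤ) (g2 * g2) v'
            + (((2 ^ (h + 1)) ^ (g2 * g2) : ℕ) : ℤ) * 1 by ring, Int.add_mul_emod_self_left]
    exact_mod_cast this
  · show |u / 2 ^ q - ph (g2 * g2) (mo2 g2 s t) v'|
      ≤ ((Nat.succ (cutE (mkC H g1 g2) (toN ((2 ^ (H + 1)) ^ (g1 * g1)) n.1) / 2 ^ q)
        + g2 * g2 : ℕ) : ℝ)
    rw [hz, h3]
    exact k2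
  · show nmv (g2 * g2) v' ≤ (n.2 / 2 ^ q).succ + g2 * g2
    have c1 : nmv (g2 * g2) v' * 2 ^ q ≤ n.2 + g2 * g2 * 2 ^ q := by omega
    have c2 := (Nat.le_div_iff_mul_le hQp).2 c1
    rw [Nat.add_mul_div_right _ _ hQp] at c2
    omega

/-! ### the final cut -/

/-- polynomial with integer leaves -/
structure PZ where
  t : T ℤ
  e : ℕ
  b : ℕ

/-- `P` represents `F` for `|p i| ≤ R`; slots `i + g j`, base `2 ^ w` -/
def RepZ (w g : ℕ) (s t : ℝ) (R : ℕ) (P : PZ) (F : (ℕ → ℝ) → ℝ) : Prop :=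
  ∃ S : T (ℕ → ℤ), mapT (Lp ((2 : ℤ) ^ w) (g * g)) S = P.t ∧
    nrm (nmv (g * g)) S (fun _ => R) ≤ P.b ∧
    ∀ p : ℕ → ℝ, (∀ i, |p i| ≤ (R : ℝ)) → |F p - evT (ph (g * g) (mo2 g s t)) S p| ≤ P.e

/-- the new leaf -/
def rnZ (r : Rn) (z : ℕ) : ℤ := Int.sub (Int.ofNat (rnA r z)) (Int.ofNat r.S')

noncomputable def finP (r : Rn) (R : ℕ) (P : PN) : PZ :=
  PN.rec (motive := fun _ => PZ) (fun p e b =>
    ⟨mapF (rnZ r) p, Nat.add (Nat.succ (Nat.div e r.Q)) (errF (rnE r) R p),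
      Nat.add (Nat.succ (Nat.div b r.Q)) (errF (fun _ => Nat.mul r.c.g2 r.c.g2) R p)⟩) P

/-- **the final cut** -/
theorem finP_rep {H q h g1 g2 : ℕ} {r : Rn} (hr : r = mkRn H q h g1 g2) (hq : q ≤ H)
    (hh : H ≤ h + q) (h2 : 0 < g2) (hg : g2 ≤ g1) {s t : ℝ} (hs : |s| ≤ 1)
    (ht : |t| ≤ 1) {R : ℕ} (hR : 1 ≤ R) {P : PN} {F : (ℕ → ℝ) → ℝ} (hb : P.b < 2 ^ H)
    (hP : RepM (2 ^ (H + 1)) (g1 * g1) ((2 ^ (H + 1)) ^ (g1 * g1)) (mo2 g1 s t) R P F) :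
    RepZ (h + 1) g2 s t R (finP r R P) (fun p => F p / 2 ^ q) := by
  subst hr
  obtain ⟨S, h1, h3, h4⟩ := hP
  obtain ⟨p, e, b⟩ := P
  simp only at h1 h3 h4 hb
  have hQp : 0 < 2 ^ q := Nat.two_pow_pos _
  have hQr : (0 : ℝ) < 2 ^ q := by positivity
  have hSb : nrm (nmv (g1 * g1)) S (fun _ => R) < 2 ^ H := lt_of_le_of_lt h3 hb
  have main : ∀ S : T (ℕ → ℤ), nrm (nmv (g1 * g1)) S (fun _ => R) < 2 ^ H →
      ∃ S' : T (ℕ → ℤ), mapT (Lp ((2 : ℤ) ^ (h + 1)) (g2 * g2)) S'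
        = mapF (rnZ (mkRn H q h g1 g2)) (mapT (gN (2 ^ (H + 1)) (g1 * g1)
          ((2 ^ (H + 1)) ^ (g1 * g1))) S) ∧
      nrm (nmv (g2 * g2)) S' (fun _ => R) * 2 ^ q
        ≤ nrm (nmv (g1 * g1)) S (fun _ => R) + errF (fun _ => g2 * g2) R
          (mapT (gN (2 ^ (H + 1)) (g1 * g1) ((2 ^ (H + 1)) ^ (g1 * g1))) S) * 2 ^ q ∧
      ∀ x : ℕ → ℝ, (∀ i, |x i| ≤ (R : ℝ)) →
        |evT (ph (g1 * g1) (mo2 g1 s t)) S x / 2 ^ q
          - evT (ph (g2 * g2) (mo2 g2 s t)) S' x|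
        ≤ (errF (rnE (mkRn H q h g1 g2)) R (mapT (gN (2 ^ (H + 1)) (g1 * g1)
          ((2 ^ (H + 1)) ^ (g1 * g1))) S) : ℝ) := by
    intro S
    induction S with
    | c v =>
      intro hn
      obtain ⟨v', k1, k2, k3⟩ := rcore hq hh h2 hg hs ht v hn
      refine ⟨T.c v', ?_, k3, fun x _ => k2⟩
      show T.c _ = T.c _
      congr 1
      show _ = ((rnA (mkRn H q h g1 g2) (gN (2 ^ (H + 1)) (g1 * g1)
        ((2 ^ (H + 1)) ^ (g1 * g1)) v) : ℕ) : ℤ)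
        - ((biasN (2 ^ (h + 1)) (2 ^ (H - q)) (g2 * g2) : ℕ) : ℤ)
      have e1 : ((rnA (mkRn H q h g1 g2) (gN (2 ^ (H + 1)) (g1 * g1)
        ((2 ^ (H + 1)) ^ (g1 * g1)) v) : ℕ) : ℤ)
        = Lp ((2 ^ (h + 1) : ℕ) : ℤ) (g2 * g2) v'
          + biasN (2 ^ (h + 1)) (2 ^ (H - q)) (g2 * g2) := k1
      rw [e1]
      push_cast
      ring
    | h a b iha ihb =>
      intro hn
      have hn' : nrm (nmv (g1 * g1)) a (fun _ => R) + R * nrm (nmv (g1 * g1)) b (fun _ => R)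
        < 2 ^ H := hn
      have hbb : nrm (nmv (g1 * g1)) b (fun _ => R) ≤ R * nrm (nmv (g1 * g1)) b (fun _ => R) :=
        Nat.le_mul_of_pos_left _ hR
      obtain ⟨Sa, a1, a2, a3⟩ := iha (by omega)
      obtain ⟨Sb, b1, b2, b3⟩ := ihb (by omega)
      refine ⟨T.h Sa Sb, ?_, ?_, fun x hx => ?_⟩
      · show T.h _ _ = T.h _ _
        rw [a1, b1]
        rfl
      · show (nrm (nmv (g2 * g2)) Sa (fun _ => R) + R * nrm (nmv (g2 * g2)) Sb (fun _ => R)) * 2 ^ q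
          ≤ (nrm (nmv (g1 * g1)) a (fun _ => R) + R * nrm (nmv (g1 * g1)) b (fun _ => R))
            + (errF (fun _ => g2 * g2) R (mapT _ a) + R * errF (fun _ => g2 * g2) R (mapT _ b))
              * 2 ^ q
        have b2' := Nat.mul_le_mul_left R b2
        nlinarith
      · have c1 := a3 (fun i => x (i + 1)) (fun i => hx _)
        have c2 := b3 x hx
        show |(evT _ a (fun i => x (i + 1)) + x 0 * evT _ b x) / 2 ^ q
          - (evT _ Sa (fun i => x (i + 1)) + x 0 * evT _ Sb x)| ≤ ((_ + R * _ : ℕ) : ℝ)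
        push_cast
        have c3 : |x 0 * (evT (ph (g1 * g1) (mo2 g1 s t)) b x / 2 ^ q
            - evT (ph (g2 * g2) (mo2 g2 s t)) Sb x)|
            ≤ (R : ℝ) * (errF (rnE (mkRn H q h g1 g2)) R (mapT (gN (2 ^ (H + 1)) (g1 * g1)
          ((2 ^ (H + 1)) ^ (g1 * g1))) b) : ℝ) := by
          rw [abs_mul]
          exact mul_le_mul (hx 0) c2 (abs_nonneg _) (Nat.cast_nonneg _)
        have c4 := (abs_add_le _ _).trans (add_le_add c1 c3)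
        refine le_trans (le_of_eq ?_) c4
        congr 1
        ring
  obtain ⟨S', m1, m2, m3⟩ := main S hSb
  refine ⟨S', ?_, ?_, fun x hx => ?_⟩
  · show _ = mapF (rnZ (mkRn H q h g1 g2)) p
    rw [m1, h1]
  · show _ ≤ (b / 2 ^ q).succ + errF (fun _ => g2 * g2) R p
    rw [← h1]
    set E := errF (fun _ => g2 * g2) R (mapT (gN (2 ^ (H + 1)) (g1 * g1)
      ((2 ^ (H + 1)) ^ (g1 * g1))) S) with hE
    have c1 : nrm (nmv (g2 * g2)) S' (fun _ => R) * 2 ^ q ≤ b + E * 2 ^ q := by omega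
    have c2 := (Nat.le_div_iff_mul_le hQp).2 c1
    rw [Nat.add_mul_div_right _ _ hQp] at c2
    omega
  · show |F x / 2 ^ q - _| ≤ (((e / 2 ^ q).succ + errF (rnE (mkRn H q h g1 g2)) R p : ℕ) : ℝ)
    rw [← h1]
    push_cast
    have c1 := h4 x hx
    have c2 := m3 x hx
    have c3 : (e : ℝ) / 2 ^ q ≤ ((e / 2 ^ q : ℕ) : ℝ) + 1 := by
      rw [div_le_iff₀ hQr]
      have := Nat.lt_mul_div_succ e hQp
      have h5 : e ≤ (e / 2 ^ q + 1) * 2 ^ q := by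
        rw [Nat.mul_comm]
        exact this.le
      exact_mod_cast h5
    have c4 : |F x / 2 ^ q - evT (ph (g1 * g1) (mo2 g1 s t)) S x / 2 ^ q|
        ≤ ((e / 2 ^ q : ℕ) : ℝ) + 1 := by
      rw [← sub_div, abs_div, abs_of_pos hQr]
      exact (div_le_div_of_nonneg_right c1 hQr.le).trans c3
    calc _ = |(F x / 2 ^ q - evT (ph (g1 * g1) (mo2 g1 s t)) S x / 2 ^ q)
          + (evT (ph (g1 * g1) (mo2 g1 s t)) S x / 2 ^ q
            - evT (ph (g2 * g2) (mo2 g2 s t)) S' x)| := by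
          congr 1
          ring
      _ ≤ _ := (abs_add_le _ _).trans (add_le_add c4 c2)

/-! ### the cell -/

/-- all entries rounded -/
noncomputable def rndAL (r : Rn) (l : List (ℤ × ℕ)) : List E3 :=
  List.rec (motive := fun _ => List E3) [] (fun n _ ih => rndA r n :: ih) l

theorem rndAL_sound {H q h g1 g2 : ℕ} {r : Rn} (hr : r = mkRn H q h g1 g2) (hq : q ≤ H)
    (hh : H ≤ h + q) (h2 : 0 < g2) (hg : g2 ≤ g1)
    {s t : ℝ} (hs : |s| ≤ 1) (ht : |t| ≤ 1) : ∀ (us : List ℝ) (N : List (ℤ × ℕ)),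
    ltAll (2 ^ H) N = true → ExL (2 ^ (H + 1)) (g1 * g1) (mo2 g1 s t) us N →
    ApE (2 ^ (h + 1)) (g2 * g2) ((2 ^ (h + 1)) ^ (g2 * g2)) (mo2 g2 s t)
      (us.map (fun u => u / 2 ^ q)) (rndAL r N)
  | [], [], _, _ => trivial
  | [], _ :: _, _, hE => hE.elim
  | _ :: _, [], _, hE => hE.elim
  | u :: us, n :: N, hb, hE => by
    have h1 := cond_ff hb
    have h3 : n.2 < 2 ^ H := Nat.le_of_ble_eq_true h1.1
    exact ⟨rndA_sound hr hq hh h2 hg hs ht hE.1 h3,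
      rndAL_sound hr hq hh h2 hg hs ht us N h1.2 hE.2⟩

/-- parameters: exact table half exponent `H0`, `g0 × g0` slots; divided by `2 ^ q`;
rounded table half exponent `H1`, `g1 × g1` slots; divided by `2 ^ sh`;
result half exponent `hf`, `g2 × g2` slots -/
structure UPar where
  H0 : ℕ
  q : ℕ
  H1 : ℕ
  sh : ℕ
  hf : ℕ
  g0 : ℕ
  g1 : ℕ
  g2 : ℕ
  K : ℕ
  R : ℕ
  r : Rn
  f : Rn

structure UPar.Good (P : UPar) : Prop where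
  r : P.r = mkRn P.H0 P.q P.H1 P.g0 P.g1
  f : P.f = mkRn P.H1 P.sh P.hf P.g1 P.g2
  q0 : P.q ≤ P.H0
  q1 : P.H0 ≤ P.H1 + P.q
  s0 : P.sh ≤ P.H1
  s1 : P.H1 ≤ P.hf + P.sh
  g2 : 0 < P.g2
  g21 : P.g2 ≤ P.g1
  g10 : P.g1 ≤ P.g0
  K : 2 * P.K < P.g0
  R : 1 ≤ P.R

def mkU (H0 q H1 sh hf g0 g1 g2 K R : ℕ) : UPar :=
  ⟨H0, q, H1, sh, hf, g0, g1, g2, K, R, mkRn H0 q H1 g0 g1, mkRn H1 sh hf g1 g2⟩

/-- exact table -/
def uEx (P : UPar) (c : UC) (AL : List Al) : List (ℤ × ℕ) := uTab (Nat.succ P.H0) P.g0 P.K c AL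

/-- rounded table -/
noncomputable def uRn (P : UPar) (N : List (ℤ × ℕ)) : List E3 := rndAL P.r N

/-- dot product -/
noncomputable def uDot (P : UPar) (tab : List E3) (CL : List (T ℤ)) : PN :=
  dotE P.f.c.M1 P.R tab CL

/-- result -/
noncomputable def uFin (P : UPar) (D : PN) : PZ := finP P.f P.R D

/-- **the polynomial of the cell represents `(4 ^ ν D) ^ K Q / 2 ^ q / 2 ^ sh`** -/
theorem uFin_rep {P : UPar} (hP : P.Good) {c : UC} {AL : List Al} (hA : degOK P.K AL = true)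
    (hB : ltAll P.r.c.B (uEx P c AL) = true) {CL : List (T ℤ)}
    (hb : Nat.ble (Nat.succ (uDot P (uRn P (uEx P c AL)) CL).b) P.f.c.B = true)
    {a b s t : ℝ} (ha : a * 2 ^ (c.qa + 1) = 2 * c.i + 1 + s)
    (hb' : b * 2 ^ (c.qb + 1) = 2 * c.j + 1 + t) (hs : |s| ≤ 1) (ht : |t| ≤ 1) :
    RepZ (P.hf + 1) P.g2 s t P.R (uFin P (uDot P (uRn P (uEx P c AL)) CL))
      (fun p => (4 ^ nuC c * Pool.Agent.Helper6.TOP.chD a b) ^ P.K
        * valZ AL CL (ch0 a b) (ch1 a b) (ch2 a b) p / 2 ^ P.q / 2 ^ P.sh) := by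
  obtain ⟨H0, q, H1, sh, hf, g0, g1, g2, K, R, r, f⟩ := P
  obtain ⟨hr, hf', q0, q1, s0, s1, hg2, g21, g10, hK, hR⟩ := hP
  simp only at hr hf' q0 q1 s0 s1 hg2 g21 g10 hK hR hA hB hb ⊢
  have hB' : ltAll (2 ^ H0) (uTab (H0 + 1) g0 K c AL) = true := by
    have : r.c.B = 2 ^ H0 := by rw [hr]; rfl
    rw [← this]
    exact hB
  have hM1 : f.c.M1 = (2 ^ (H1 + 1)) ^ (g1 * g1) := by rw [hf']; rfl
  have hBf : f.c.B = 2 ^ H1 := by rw [hf']; rfl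
  have hb1 : (dotE ((2 ^ (H1 + 1)) ^ (g1 * g1)) R (rndAL r (uTab (H0 + 1) g0 K c AL)) CL).b
      < 2 ^ H1 := by
    have := Nat.le_of_ble_eq_true hb
    rw [← hM1, ← hBf]
    exact this
  have hMp : 0 < (2 ^ (H1 + 1)) ^ (g1 * g1) := Nat.pow_pos (Nat.two_pow_pos _)
  have hg1 : 0 < g1 := lt_of_lt_of_le hg2 g21
  have hqa : c.qa + 1 ≤ nuC c := by
    unfold nuC
    cases hh : Nat.ble c.qa c.qb
    · exact Nat.succ_le_succ le_rfl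
    · exact Nat.succ_le_succ (Nat.le_of_ble_eq_true hh)
  have hqb : c.qb + 1 ≤ nuC c := by
    unfold nuC
    cases hh : Nat.ble c.qa c.qb
    · have : ¬ c.qa ≤ c.qb := fun h => by
        have := Nat.ble_eq_true_of_le h
        rw [hh] at this
        exact Bool.false_ne_true this
      show c.qb + 1 ≤ c.qa + 1
      omega
    · exact Nat.succ_le_succ le_rfl
  set y : Fin 5 → ℝ := ![s, t, 0, 0, 0] with hy
  have hT : (((Int.ofNat (Nat.pow 2 (nuC c))) : ℤ) : ℝ) = (2 : ℝ) ^ nuC c := by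
    show (((2 ^ nuC c : ℕ) : ℤ) : ℝ) = _
    push_cast
    ring
  have hRPN := tabE_sound (w := H0 + 1) (g := g0) (y := y) (K := K)
    (T := Int.ofNat (Nat.pow 2 (nuC c))) (A := ctr (nuC c) c.qa c.i) (B := hw (nuC c) c.qa)
    (A' := ctr (nuC c) c.qb c.j) (B' := hw (nuC c) c.qb) hA
  have hy0 : y 0 = s := rfl
  have hy1 : y 1 = t := rfl
  rw [hy0, hy1, ctr_hw hqa ha, ctr_hw hqb hb', hT] at hRPN
  have hEx := exL_of hK AL _ hRPN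
  rw [hy0, hy1] at hEx
  have hAp := rndAL_sound hr q0 q1 hg1 g10 hs ht _ _ hB' hEx
  have hdot := dotE_rep (R := R) hMp _ _ CL hAp
  have hfin := finP_rep hf' s0 s1 hg2 g21 hs ht hR
    (P := dotE ((2 ^ (H1 + 1)) ^ (g1 * g1)) R (rndAL r (uTab (H0 + 1) g0 K c AL)) CL) hb1 hdot
  have key : ∀ p : ℕ → ℝ, valL (List.map (fun u => u / 2 ^ q)
      (usOf K (((2 : ℝ) ^ nuC c) ^ 2 - ((2 : ℝ) ^ nuC c * a) ^ 2 - ((2 : ℝ) ^ nuC c * b) ^ 2)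
        (2 * (2 : ℝ) ^ nuC c * ((2 : ℝ) ^ nuC c * a)) (2 * (2 : ℝ) ^ nuC c * ((2 : ℝ) ^ nuC c * b))
        (((2 : ℝ) ^ nuC c) ^ 2 + ((2 : ℝ) ^ nuC c * a) ^ 2
        + ((2 : ℝ) ^ nuC c * b) ^ 2) AL)) CL p
      = (4 ^ nuC c * Pool.Agent.Helper6.TOP.chD a b) ^ K
        * valZ AL CL (ch0 a b) (ch1 a b) (ch2 a b) p / 2 ^ q := by
    intro p
    rw [valL_div, valL_us]
    have hD : (0 : ℝ) < Pool.Agent.Helper6.TOP.chD a b := Pool.Agent.Helper6.TOP.chD_pos a b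
    have hD' : Pool.Agent.Helper6.TOP.chD a b ≠ 0 := hD.ne'
    have e4 : ((2 : ℝ) ^ nuC c) ^ 2 = 4 ^ nuC c := by
      rw [← pow_mul, Nat.mul_comm, pow_mul]
      norm_num
    have eD : ((2 : ℝ) ^ nuC c) ^ 2 + ((2 : ℝ) ^ nuC c * a) ^ 2 + ((2 : ℝ) ^ nuC c * b) ^ 2
        = 4 ^ nuC c * Pool.Agent.Helper6.TOP.chD a b := by
      rw [← e4]
      unfold Pool.Agent.Helper6.TOP.chD
      ring
    rw [eD]
    congr 1
    refine valD_eq ?_ ?_ ?_ AL CL p hA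
    · rw [← e4]
      unfold ch0
      field_simp
    · rw [← e4]
      unfold ch1
      field_simp
    · rw [← e4]
      unfold ch2
      field_simp
  obtain ⟨S, m1, m2, m3⟩ := hfin
  refine ⟨S, ?_, ?_, fun p hp => ?_⟩
  · show _ = (finP f R (dotE f.c.M1 R (rndAL r (uTab (H0 + 1) g0 K c AL)) CL)).t
    rw [hM1]
    exact m1
  · show _ ≤ (finP f R (dotE f.c.M1 R (rndAL r (uTab (H0 + 1) g0 K c AL)) CL)).b
    rw [hM1]
    exact m2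
  · have h5 := m3 p hp
    beta_reduce at h5
    rw [key p] at h5
    show _ ≤ (((finP f R (dotE f.c.M1 R (rndAL r (uTab (H0 + 1) g0 K c AL)) CL)).e : ℕ) : ℝ)
    rw [hM1]
    exact h5

theorem mkU_good {H0 q H1 sh hf g0 g1 g2 K R : ℕ} (h1 : q ≤ H0) (h2 : H0 ≤ H1 + q) (h3 : sh ≤ H1)
    (h4 : H1 ≤ hf + sh) (h5 : 0 < g2) (h6 : g2 ≤ g1) (h7 : g1 ≤ g0) (h8 : 2 * K < g0)
    (h9 : 1 ≤ R) : (mkU H0 q H1 sh hf g0 g1 g2 K R).Good :=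
  ⟨rfl, rfl, h1, h2, h3, h4, h5, h6, h7, h8, h9⟩

end Helper10.PC
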