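import Pool.Agent.Helper10.TOP.PO

/-!
# Fast version of the u-cell polynomials
-/

set_option autoImplicit false

namespace Helper10.PC
open Pool.Agent.Helper6.TOP

/-! ### rows and digits by shifts and masks -/

/-- the first digits of every row, by shifts -/
def asmS (mk s Y : ℕ) : ℕ → ℕ → ℕ
  | 0 => fun _ => 0
  | k + 1 => fun y => Nat.add (Nat.land y mk) (Nat.mul Y (asmS mk s Y k (Nat.shiftRight y s)))

theorem asmS_eq (a s : ℕ) : ∀ (k y : ℕ), asmS (2 ^ a - 1) s (2 ^ a) k y = asm (2 ^ s) (2 ^ a) k y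
  | 0, y => rfl
  | k + 1, y => by
    show (y &&& (2 ^ a - 1)) + 2 ^ a * asmS (2 ^ a - 1) s (2 ^ a) k (y >>> s)
      = y % 2 ^ a + 2 ^ a * asm (2 ^ s) (2 ^ a) k (y / 2 ^ s)
    rw [Nat.and_two_pow_sub_one_eq_mod, Nat.shiftRight_eq_div_pow, asmS_eq]

theorem vd_modp {X : ℕ} (a b : ℕ) (d : ℕ → ℕ) (hd : ∀ i, d i < X) :
    vd X (a + b) d % X ^ a = vd X a d := by
  rw [vd_add, Nat.add_mul_mod_self_left, Nat.mod_eq_of_lt (vd_lt a d hd)]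

/-- shift and mask -/
theorem shm_vd {w q : ℕ} (hq : q ≤ w) : ∀ (m : ℕ) (d : ℕ → ℕ), (∀ i, d i < 2 ^ w) →
    Nat.land (Nat.shiftRight (vd (2 ^ w) m d) q) (vd (2 ^ w) m (fun _ => 2 ^ (w - q) - 1))
      = vd (2 ^ w) m (fun i => d i / 2 ^ q)
  | 0, d, _ => by
    show (0 >>> q) &&& 0 = 0
    simp
  | m + 1, d, hd => by
    have hw : 0 < 2 ^ w := Nat.two_pow_pos _
    have ih := shm_vd hq m (fun i => d (i + 1)) (fun i => hd _)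
    set V := vd (2 ^ w) m (fun i => d (i + 1)) with hV
    set M := vd (2 ^ w) m (fun _ => 2 ^ (w - q) - 1) with hM
    have ih' : (V / 2 ^ q) &&& M = vd (2 ^ w) m (fun i => d (i + 1) / 2 ^ q) := by
      rw [← Nat.shiftRight_eq_div_pow]
      exact ih
    set A := (d 0 + 2 ^ w * V) / 2 ^ q with hA
    have e1 : A / 2 ^ w = V / 2 ^ q := by
      rw [hA, Nat.div_div_eq_div_mul, Nat.mul_comm (2 ^ q) (2 ^ w), ← Nat.div_div_eq_div_mul,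
        Nat.add_mul_div_left _ _ hw, Nat.div_eq_of_lt (hd 0), Nat.zero_add]
    have e2 : (A % 2 ^ w) &&& (2 ^ (w - q) - 1) = d 0 / 2 ^ q := by
      rw [Nat.and_two_pow_sub_one_eq_mod, Nat.mod_mod_of_dvd _ (pow_dvd_pow 2 (Nat.sub_le w q)), hA,
        ← Nat.mod_mul_right_div_self, ← pow_add, Nat.add_sub_cancel' hq,
        Nat.add_mul_mod_self_left, Nat.mod_eq_of_lt (hd 0)]
    have h3 : 2 ^ (w - q) - 1 < 2 ^ w := by
      have : 2 ^ (w - q) ≤ 2 ^ w := Nat.pow_le_pow_right (by norm_num) (Nat.sub_le w q)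
      omega
    show ((d 0 + 2 ^ w * V) >>> q) &&& ((2 ^ (w - q) - 1) + 2 ^ w * M) = d 0 / 2 ^ q + 2 ^ w * _
    rw [Nat.shiftRight_eq_div_pow]
    calc A &&& ((2 ^ (w - q) - 1) + 2 ^ w * M)
        = (A % 2 ^ w + 2 ^ w * (A / 2 ^ w)) &&& ((2 ^ (w - q) - 1) + 2 ^ w * M) := by
          rw [Nat.mod_add_div]
      _ = ((A % 2 ^ w) &&& (2 ^ (w - q) - 1)) + 2 ^ w * ((A / 2 ^ w) &&& M) :=
          land_split' _ _ (Nat.mod_lt _ hw) h3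
      _ = _ := by rw [e1, e2, ih']

/-! ### the core with an abstract reader -/

theorem rcoreF {H q h g1 g2 : ℕ} (hq : q ≤ H) (hh : H ≤ h + q) (h2 : 0 < g2) (hg : g2 ≤ g1)
    {s t : ℝ} (hs : |s| ≤ 1) (ht : |t| ≤ 1) (v : ℕ → ℤ) (hnv : nmv (g1 * g1) v < 2 ^ H)
    {f : ℕ → ℕ} (hf : ∀ d : ℕ → ℕ, (∀ i, d i < 2 ^ (H + 1)) →
      f (vd (2 ^ (H + 1)) (g1 * g1) d)
        = vd (2 ^ (h + 1)) (g2 * g2) (fun i => d (ix g1 g2 i) / 2 ^ q)) :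
    ∃ (v' : ℕ → ℤ) (d' : ℕ → ℕ),
      f ((gN (2 ^ (H + 1)) (g1 * g1) ((2 ^ (H + 1)) ^ (g1 * g1)) v
          + biasN (2 ^ (H + 1)) (2 ^ H) (g1 * g1)) % (2 ^ (H + 1)) ^ (g1 * g1))
        = vd (2 ^ (h + 1)) (g2 * g2) d' ∧ (∀ i, d' i < 2 ^ (h + 1)) ∧
      (∀ i, (d' i : ℤ) = v' i + ((2 ^ (H - q) : ℕ) : ℤ)) ∧
      |ph (g1 * g1) (mo2 g1 s t) v / 2 ^ q - ph (g2 * g2) (mo2 g2 s t) v'|
        ≤ ((Nat.succ (cutE (mkC H g1 g2)
          (gN (2 ^ (H + 1)) (g1 * g1) ((2 ^ (H + 1)) ^ (g1 * g1)) v) / 2 ^ q)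
          + g2 * g2 : ℕ) : ℝ) ∧
      nmv (g2 * g2) v' * 2 ^ q ≤ nmv (g1 * g1) v + g2 * g2 * 2 ^ q := by
  have hXp : 0 < 2 ^ (H + 1) := Nat.two_pow_pos _
  have hQp : 0 < 2 ^ q := Nat.two_pow_pos _
  have hBQ : 2 ^ H = 2 ^ (H - q) * 2 ^ q := by
    rw [← pow_add]
    congr 1
    omega
  have hQr : (0 : ℝ) < 2 ^ q := by positivity
  obtain ⟨d, hd, hd', hyd⟩ := dig_read v hnv
  -- the new vector
  set v' : ℕ → ℤ := fun i => ((d (ix g1 g2 i) / 2 ^ q : ℕ) : ℤ) - ((2 ^ (H - q) : ℕ) : ℤ) with hv'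
  -- size of the rounding
  have hround : ∀ i, i < g2 * g2 → |(v (ix g1 g2 i) : ℝ) / 2 ^ q - v' i| ≤ 1 := by
    intro i hi
    have e1 := hd' _ (ix_lt h2 hg hi)
    have e2 := Nat.div_add_mod (d (ix g1 g2 i)) (2 ^ q)
    have e3 := Nat.mod_lt (d (ix g1 g2 i)) hQp
    have e4 : (v (ix g1 g2 i) : ℝ) = d (ix g1 g2 i) - 2 ^ (H - q) * 2 ^ q := by
      have : (v (ix g1 g2 i) : ℤ) = d (ix g1 g2 i) - ((2 ^ (H - q) * 2 ^ q : ℕ) : ℤ) := by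
        rw [← hBQ]
        omega
      have := congrArg (Int.cast : ℤ → ℝ) this
      push_cast at this
      exact this
    have e5 : (d (ix g1 g2 i) : ℝ) = 2 ^ q * (d (ix g1 g2 i) / 2 ^ q : ℕ)
        + (d (ix g1 g2 i) % 2 ^ q : ℕ) := by
      exact_mod_cast e2.symm
    have e6 : (v' i : ℝ) = ((d (ix g1 g2 i) / 2 ^ q : ℕ) : ℝ) - 2 ^ (H - q) := by
      have : v' i = ((d (ix g1 g2 i) / 2 ^ q : ℕ) : ℤ) - ((2 ^ (H - q) : ℕ) : ℤ) := rfl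
      rw [this, Int.cast_sub, Int.cast_natCast, Int.cast_natCast, Nat.cast_pow, Nat.cast_ofNat]
    have e7 : (v (ix g1 g2 i) : ℝ) / 2 ^ q - v' i = (d (ix g1 g2 i) % 2 ^ q : ℕ) / 2 ^ q := by
      rw [e4, e6, e5]
      field_simp
      ring
    rw [e7, abs_of_nonneg (by positivity), div_le_one hQr]
    have : (d (ix g1 g2 i) % 2 ^ q : ℕ) ≤ 2 ^ q := e3.le
    exact_mod_cast this
  have hmo : ∀ i, |mo2 g2 s t i| ≤ 1 := fun i => by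
    have := mul_aux hs ht (i % g2) (i / g2) 1
    rwa [one_mul, abs_one] at this
  refine ⟨v', fun i => d (ix g1 g2 i) / 2 ^ q, ?_, ?_, ?_, ?_, ?_⟩
  · rw [hyd, hf d hd]
  · intro i
    have h5 : 2 ^ (H + 1) ≤ 2 ^ (h + 1) * 2 ^ q := by
      rw [← pow_add]
      exact Nat.pow_le_pow_right (by norm_num) (by omega)
    exact (Nat.div_lt_iff_lt_mul hQp).2 (lt_of_lt_of_le (hd _) h5)
  · intro i
    simp only [hv']
    ring
  · have c1 : |ph (g1 * g1) (mo2 g1 s t) v - ph (g2 * g2) (mo2 g2 s t) (cutv g1 g2 v)|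
        ≤ (cutE (mkC H g1 g2) (gN (2 ^ (H + 1)) (g1 * g1)
          ((2 ^ (H + 1)) ^ (g1 * g1)) v) : ℝ) := by
      rw [ph_sum, ph_sum]
      refine (cut_err h2 hg hs ht g1 g2 v hg).trans ?_
      exact_mod_cast cutE_le (h := H) v hnv
    have c2 := ph_sub_le (m := g2 * g2) hmo hQr (cutv g1 g2 v) v' hround
    set w := cutE (mkC H g1 g2) (gN (2 ^ (H + 1)) (g1 * g1)
      ((2 ^ (H + 1)) ^ (g1 * g1)) v) with hw
    have c3 : (w : ℝ) / 2 ^ q ≤ ((w / 2 ^ q).succ : ℕ) := by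
      rw [div_le_iff₀ hQr]
      have := Nat.lt_mul_div_succ w hQp
      have h5 : w ≤ (w / 2 ^ q).succ * 2 ^ q := by
        rw [Nat.mul_comm]
        exact this.le
      exact_mod_cast h5
    have c4 : |ph (g1 * g1) (mo2 g1 s t) v / 2 ^ q
        - ph (g2 * g2) (mo2 g2 s t) (cutv g1 g2 v) / 2 ^ q| ≤ ((w / 2 ^ q).succ : ℕ) := by
      rw [← sub_div, abs_div, abs_of_pos hQr]
      exact (div_le_div_of_nonneg_right c1 hQr.le).trans c3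
    rw [Nat.cast_add]
    calc _ = |(ph (g1 * g1) (mo2 g1 s t) v / 2 ^ q
          - ph (g2 * g2) (mo2 g2 s t) (cutv g1 g2 v) / 2 ^ q)
          + (ph (g2 * g2) (mo2 g2 s t) (cutv g1 g2 v) / 2 ^ q
            - ph (g2 * g2) (mo2 g2 s t) v')| := by
          congr 1
          ring
      _ ≤ _ := (abs_add_le _ _).trans (add_le_add c4 c2)
  · have c6 : ∀ i, i < g2 * g2 → (v' i).natAbs * 2 ^ q ≤ (cutv g1 g2 v i).natAbs + 2 ^ q := by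
      intro i hi
      have := hround i hi
      have c7 : |(v' i : ℝ)| * 2 ^ q ≤ |(v (ix g1 g2 i) : ℝ)| + 2 ^ q := by
        have e8 : (v' i : ℝ) * 2 ^ q = v (ix g1 g2 i)
            - ((v (ix g1 g2 i) : ℝ) / 2 ^ q - v' i) * 2 ^ q := by
          field_simp
          ring
        calc |(v' i : ℝ)| * 2 ^ q = |(v' i : ℝ) * 2 ^ q| := by
              rw [abs_mul, abs_of_pos hQr]
          _ = |(v (ix g1 g2 i) : ℝ) - ((v (ix g1 g2 i) : ℝ) / 2 ^ q - v' i) * 2 ^ q| := by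
              rw [e8]
          _ ≤ |(v (ix g1 g2 i) : ℝ)| + |((v (ix g1 g2 i) : ℝ) / 2 ^ q - v' i) * 2 ^ q| :=
              abs_sub _ _
          _ ≤ |(v (ix g1 g2 i) : ℝ)| + 1 * 2 ^ q := by
              rw [abs_mul, abs_of_pos hQr]
              gcongr
          _ = _ := by ring
      rw [← nabs, ← nabs] at c7
      exact_mod_cast c7
    have c8 : (∑ i ∈ Finset.range (g2 * g2), (v' i).natAbs) * 2 ^ q
        ≤ ∑ i ∈ Finset.range (g2 * g2), (cutv g1 g2 v i).natAbs + g2 * g2 * 2 ^ q := by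
      rw [Finset.sum_mul]
      calc _ ≤ ∑ i ∈ Finset.range (g2 * g2), ((cutv g1 g2 v i).natAbs + 2 ^ q) :=
            Finset.sum_le_sum fun i hi => c6 i (Finset.mem_range.1 hi)
        _ = _ := by
            rw [Finset.sum_add_distrib]
            simp
    have c10 : nmv (g2 * g2) (cutv g1 g2 v) ≤ nmv (g1 * g1) v := by
      rw [nmv_sd, nmv_sd]
      exact sd_mono_ix h2 hg g1 g2 (fun i => (v i).natAbs) hg
    rw [← nmv_sum, ← nmv_sum] at c8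
    omega

/-- constants of the fast rounding, same base before and after -/
structure Rf where
  c : Cut
  mr : ℕ
  m1 : ℕ
  s : ℕ
  Y : ℕ
  q : ℕ
  Q : ℕ
  MK : ℕ
  M' : ℕ
  N' : ℕ

deriving instance DecidableEq for Rf

def mkRf (H q g1 g2 : ℕ) : Rf :=
  ⟨mkC H g1 g2, 2 ^ ((H + 1) * (g1 * g2)) - 1, 2 ^ ((H + 1) * g2) - 1, (H + 1) * g1,
    2 ^ ((H + 1) * g2), q, 2 ^ q, vd (2 ^ (H + 1)) (g2 * g2) (fun _ => 2 ^ (H + 1 - q) - 1),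
    (2 ^ (H + 1)) ^ (g2 * g2),
    (2 ^ (H + 1)) ^ (g2 * g2) - biasN (2 ^ (H + 1)) (2 ^ (H - q)) (g2 * g2)⟩

/-- reader of the biased digits -/
def rfR (r : Rf) (y : ℕ) : ℕ :=
  Nat.land (Nat.shiftRight (asmS r.m1 r.s r.Y r.c.g2 (Nat.land y r.mr)) r.q) r.MK

theorem rfR_vd {H q g1 g2 : ℕ} (hq : q ≤ H) (h2 : 0 < g2) (hg : g2 ≤ g1) (d : ℕ → ℕ)
    (hd : ∀ i, d i < 2 ^ (H + 1)) : rfR (mkRf H q g1 g2) (vd (2 ^ (H + 1)) (g1 * g1) d)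
      = vd (2 ^ (H + 1)) (g2 * g2) (fun i => d (ix g1 g2 i) / 2 ^ q) := by
  have hXp : 0 < 2 ^ (H + 1) := Nat.two_pow_pos _
  obtain ⟨c, hc⟩ := Nat.exists_eq_add_of_le hg
  have e1 : Nat.land (vd (2 ^ (H + 1)) (g1 * g1) d) (2 ^ ((H + 1) * (g1 * g2)) - 1)
      = vd (2 ^ (H + 1)) (g1 * g2) d := by
    show _ &&& (2 ^ ((H + 1) * (g1 * g2)) - 1) = _
    rw [Nat.and_two_pow_sub_one_eq_mod, pow_mul]
    have : g1 * g1 = g1 * g2 + g1 * c := by rw [← Nat.mul_add, ← hc]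
    rw [this]
    exact vd_modp _ _ d hd
  have e2 : asmS (2 ^ ((H + 1) * g2) - 1) ((H + 1) * g1) (2 ^ ((H + 1) * g2)) g2
      (vd (2 ^ (H + 1)) (g1 * g2) d) = vd (2 ^ (H + 1)) (g2 * g2) (fun i => d (ix g1 g2 i)) := by
    rw [asmS_eq, pow_mul, pow_mul]
    exact asm_vd hXp h2 hg g2 g2 d le_rfl hd
  show Nat.land (Nat.shiftRight (asmS (2 ^ ((H + 1) * g2) - 1) ((H + 1) * g1)
    (2 ^ ((H + 1) * g2)) g2 (Nat.land (vd (2 ^ (H + 1)) (g1 * g1) d)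
      (2 ^ ((H + 1) * (g1 * g2)) - 1))) q)
    (vd (2 ^ (H + 1)) (g2 * g2) (fun _ => 2 ^ (H + 1 - q) - 1)) = _
  rw [e1, e2]
  exact shm_vd (by omega) (g2 * g2) (fun i => d (ix g1 g2 i)) (fun i => hd _)

/-- rounding of an exact entry -/
noncomputable def rndF (r : Rf) (n : ℤ × ℕ) : E3 :=
  (fun z => ⟨Nat.mod (Nat.add (rfR r (Nat.mod (Nat.add z r.c.S1) r.c.M1)) r.N') r.M',
    Nat.add (Nat.succ (Nat.div (cutE r.c z) r.Q)) (Nat.mul r.c.g2 r.c.g2),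
    Nat.add (Nat.succ (Nat.div n.2 r.Q)) (Nat.mul r.c.g2 r.c.g2)⟩) (toN r.c.M1 n.1)

theorem rndF_sound {H q g1 g2 : ℕ} {r : Rf} (hr : r = mkRf H q g1 g2) (hq : q ≤ H)
    (h2 : 0 < g2) (hg : g2 ≤ g1)
    {s t : ℝ} (hs : |s| ≤ 1) (ht : |t| ≤ 1) {n : ℤ × ℕ} {u : ℝ}
    (hn : ∃ v : ℕ → ℤ, n.1 = Lp ((2 ^ (H + 1) : ℕ) : ℤ) (g1 * g1) v ∧
      u = ph (g1 * g1) (mo2 g1 s t) v ∧ nmv (g1 * g1) v ≤ n.2) (hb : n.2 < 2 ^ H) :
    Ap3N (2 ^ (H + 1)) (g2 * g2) ((2 ^ (H + 1)) ^ (g2 * g2)) (mo2 g2 s t) (rndF r n)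
      (u / 2 ^ q) := by
  subst hr
  obtain ⟨v, h1, h3, h4⟩ := hn
  have hnv : nmv (g1 * g1) v < 2 ^ H := lt_of_le_of_lt h4 hb
  have hXp : 0 < 2 ^ (H + 1) := Nat.two_pow_pos _
  have hMp : 0 < (2 ^ (H + 1)) ^ (g1 * g1) := Nat.pow_pos hXp
  have hQp : 0 < 2 ^ q := Nat.two_pow_pos _
  obtain ⟨v', d', k1, k4, k5, k2, k3⟩ := rcoreF hq (h := H) (by omega) h2 hg hs ht v hnv
    (f := rfR (mkRf H q g1 g2)) (fun d hd => rfR_vd hq h2 hg d hd)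
  have hz : toN ((2 ^ (H + 1)) ^ (g1 * g1)) n.1
      = gN (2 ^ (H + 1)) (g1 * g1) ((2 ^ (H + 1)) ^ (g1 * g1)) v := by
    rw [toN_eq hMp, h1]
    rfl
  have hBX : 2 ^ (H - q) < 2 ^ (H + 1) := Nat.pow_lt_pow_right (by norm_num) (by omega)
  have hbias : biasN (2 ^ (H + 1)) (2 ^ (H - q)) (g2 * g2) ≤ (2 ^ (H + 1)) ^ (g2 * g2) :=
    (bias_lt' hBX _).le
  have hMp' : 0 < (2 ^ (H + 1)) ^ (g2 * g2) := Nat.pow_pos (Nat.two_pow_pos _)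
  have hnew := Lp_vd (X := 2 ^ (H + 1)) (B := 2 ^ (H - q)) (g2 * g2) v' d' (fun i _ => k5 i)
  refine ⟨v', ?_, ?_, ?_⟩
  · show (rfR (mkRf H q g1 g2) ((toN ((2 ^ (H + 1)) ^ (g1 * g1)) n.1
        + biasN (2 ^ (H + 1)) (2 ^ H) (g1 * g1)) % (2 ^ (H + 1)) ^ (g1 * g1))
      + ((2 ^ (H + 1)) ^ (g2 * g2) - biasN (2 ^ (H + 1)) (2 ^ (H - q)) (g2 * g2)))
        % (2 ^ (H + 1)) ^ (g2 * g2) = _
    rw [hz, k1]
    have : (((vd (2 ^ (H + 1)) (g2 * g2) d'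
        + ((2 ^ (H + 1)) ^ (g2 * g2) - biasN (2 ^ (H + 1)) (2 ^ (H - q)) (g2 * g2)))
          % (2 ^ (H + 1)) ^ (g2 * g2) : ℕ) : ℤ)
        = ((gN (2 ^ (H + 1)) (g2 * g2) ((2 ^ (H + 1)) ^ (g2 * g2)) v' : ℕ) : ℤ) := by
      rw [gN_cast hMp', Int.natCast_mod, Nat.cast_add, Nat.cast_sub hbias, hnew]
      rw [show Lp ((2 ^ (H + 1) : ℕ) : ℤ) (g2 * g2) v'
          + (biasN (2 ^ (H + 1)) (2 ^ (H - q)) (g2 * g2) : ℤ)
          + ((((2 ^ (H + 1)) ^ (g2 * g2) : ℕ) : ℤ)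
            - (biasN (2 ^ (H + 1)) (2 ^ (H - q)) (g2 * g2) : ℤ))
          = Lp ((2 ^ (H + 1) : ℕ) : ℤ) (g2 * g2) v'
            + (((2 ^ (H + 1)) ^ (g2 * g2) : ℕ) : ℤ) * 1 by ring, Int.add_mul_emod_self_left]
    exact_mod_cast this
  · show |u / 2 ^ q - ph (g2 * g2) (mo2 g2 s t) v'|
      ≤ ((Nat.succ (cutE (mkC H g1 g2) (toN ((2 ^ (H + 1)) ^ (g1 * g1)) n.1) / 2 ^ q)
        + g2 * g2 : ℕ) : ℝ)
    rw [hz, h3]
    exact k2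
  · show nmv (g2 * g2) v' ≤ (n.2 / 2 ^ q).succ + g2 * g2
    have c1 : nmv (g2 * g2) v' * 2 ^ q ≤ n.2 + g2 * g2 * 2 ^ q := by omega
    have c2 := (Nat.le_div_iff_mul_le hQp).2 c1
    rw [Nat.add_mul_div_right _ _ hQp] at c2
    omega

noncomputable def rndFL (r : Rf) (l : List (ℤ × ℕ)) : List E3 :=
  List.rec (motive := fun _ => List E3) [] (fun n _ ih => rndF r n :: ih) l

theorem rndFL_sound {H q g1 g2 : ℕ} {r : Rf} (hr : r = mkRf H q g1 g2) (hq : q ≤ H)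
    (h2 : 0 < g2) (hg : g2 ≤ g1)
    {s t : ℝ} (hs : |s| ≤ 1) (ht : |t| ≤ 1) : ∀ (us : List ℝ) (N : List (ℤ × ℕ)),
    ltAll (2 ^ H) N = true → ExL (2 ^ (H + 1)) (g1 * g1) (mo2 g1 s t) us N →
    ApE (2 ^ (H + 1)) (g2 * g2) ((2 ^ (H + 1)) ^ (g2 * g2)) (mo2 g2 s t)
      (us.map (fun u => u / 2 ^ q)) (rndFL r N)
  | [], [], _, _ => trivial
  | [], _ :: _, _, hE => hE.elim
  | _ :: _, [], _, hE => hE.elim
  | u :: us, n :: N, hb, hE => by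
    have h1 := cond_ff hb
    have h3 : n.2 < 2 ^ H := Nat.le_of_ble_eq_true h1.1
    exact ⟨rndF_sound hr hq h2 hg hs ht hE.1 h3,
      rndFL_sound hr hq h2 hg hs ht us N h1.2 hE.2⟩

end Helper10.PC
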