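import Pool.Agent.Helper10.TOP.PQ

/-!
# Fused dot product, final cut with exact norms, the cell
-/

set_option autoImplicit false

namespace Helper10.PC
open Pool.Agent.Helper6.TOP

/-! ### fused multiply and add -/

noncomputable def zI (n : ℤ) : Bool :=
  Int.rec (motive := fun _ => Bool) (fun k => Nat.beq k 0) (fun _ => false) n

theorem zI_eq : ∀ {n : ℤ}, zI n = true → n = 0
  | Int.ofNat k, h => by
    have : k = 0 := Nat.eq_of_beq_eq_true h
    rw [this]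
    rfl
  | Int.negSucc _, h => absurd (show false = true from h) Bool.false_ne_true

/-- `acc + f C` with leaf function `f`, zero leaves are skipped -/
noncomputable def fmG {α : Type} (f : ℤ → α → α) (z : α) (C : T ℤ) : T α → T α :=
  T.rec (motive := fun _ => T α → T α)
    (fun n acc => cond (zI n) acc
      (T.rec (motive := fun _ => T α) (fun m => T.c (f n m)) (fun _ b ih _ => T.h ih b) acc))
    (fun _ _ iha ihb acc => T.rec (motive := fun _ => T α)
      (fun m => T.h (iha (T.c m)) (ihb (T.c z)))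
      (fun a' b' _ _ => T.h (iha a') (ihb b')) acc) C

/-- the constant term is changed -/
noncomputable def chC {α : Type} (g : α → α) (acc : T α) : T α :=
  T.rec (motive := fun _ => T α) (fun m => T.c (g m)) (fun _ b ih _ => T.h ih b) acc

theorem fmG_c {α : Type} (f : ℤ → α → α) (z : α) (n : ℤ) (acc : T α) :
    fmG f z (T.c n) acc = cond (zI n) acc (chC (f n) acc) := rfl
theorem fmG_hc {α : Type} (f : ℤ → α → α) (z : α) (a b : T ℤ) (m : α) :
    fmG f z (T.h a b) (T.c m) = T.h (fmG f z a (T.c m)) (fmG f z b (T.c z)) := rfl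
theorem fmG_hh {α : Type} (f : ℤ → α → α) (z : α) (a b : T ℤ) (a' b' : T α) :
    fmG f z (T.h a b) (T.h a' b') = T.h (fmG f z a a') (fmG f z b b') := rfl

theorem chC_map {α β : Type} (φ : α → β) (g : α → α) (g' : β → β) (h : ∀ m, φ (g m) = g' (φ m)) :
    ∀ acc : T α, mapT φ (chC g acc) = chC g' (mapT φ acc)
  | T.c m => by
    show T.c (φ (g m)) = T.c (g' (φ m))
    rw [h]
  | T.h a b => by
    show T.h (mapT φ (chC g a)) (mapT φ b) = T.h (chC g' (mapT φ a)) (mapT φ b)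
    rw [chC_map φ g g' h a]

theorem fmG_map {α β : Type} (φ : α → β) {f : ℤ → α → α} {f' : ℤ → β → β} {z : α} {z' : β}
    (h : ∀ n m, φ (f n m) = f' n (φ m)) (hz : φ z = z') : ∀ (C : T ℤ) (acc : T α),
    mapT φ (fmG f z C acc) = fmG f' z' C (mapT φ acc)
  | T.c n, acc => by
    rw [fmG_c, fmG_c]
    cases zI n
    · exact chC_map φ (f n) (f' n) (h n) acc
    · rfl
  | T.h a b, T.c m => by
    rw [fmG_hc]
    show T.h (mapT φ (fmG f z a (T.c m))) (mapT φ (fmG f z b (T.c z)))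
      = T.h (fmG f' z' a (T.c (φ m))) (fmG f' z' b (T.c z'))
    rw [fmG_map φ h hz a, fmG_map φ h hz b]
    show T.h (fmG f' z' a (T.c (φ m))) (fmG f' z' b (T.c (φ z))) = _
    rw [hz]
  | T.h a b, T.h a' b' => by
    rw [fmG_hh]
    show T.h (mapT φ (fmG f z a a')) (mapT φ (fmG f z b b'))
      = T.h (fmG f' z' a (mapT φ a')) (fmG f' z' b (mapT φ b'))
    rw [fmG_map φ h hz a, fmG_map φ h hz b]

theorem chC_ev {α : Type} {k : α → ℝ} {g : α → α} {δ : ℝ} (h : ∀ m, k (g m) = k m + δ) :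
    ∀ (acc : T α) (x : ℕ → ℝ), evT k (chC g acc) x = evT k acc x + δ
  | T.c m, x => h m
  | T.h a b, x => by
    show evT k (chC g a) (fun i => x (i + 1)) + x 0 * evT k b x
      = evT k a (fun i => x (i + 1)) + x 0 * evT k b x + δ
    rw [chC_ev h a]
    ring

theorem fmG_ev {α : Type} {k : α → ℝ} {f : ℤ → α → α} {z : α} {κ : ℝ}
    (h : ∀ (n : ℤ) m, k (f n m) = k m + κ * n) (hz : k z = 0) : ∀ (C : T ℤ) (acc : T α) (x : ℕ → ℝ),
    evT k (fmG f z C acc) x = evT k acc x + κ * evZ C x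
  | T.c n, acc, x => by
    rw [fmG_c]
    cases hn : zI n
    · exact chC_ev (h n) acc x
    · have := zI_eq hn
      subst this
      show evT k acc x = evT k acc x + κ * ((0 : ℤ) : ℝ)
      simp
  | T.h a b, T.c m, x => by
    rw [fmG_hc]
    show evT k (fmG f z a (T.c m)) (fun i => x (i + 1)) + x 0 * evT k (fmG f z b (T.c z)) x
      = k m + κ * (evZ a (fun i => x (i + 1)) + x 0 * evZ b x)
    rw [fmG_ev h hz a, fmG_ev h hz b]
    show k m + κ * evZ a (fun i => x (i + 1)) + x 0 * (k z + κ * evZ b x) = _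
    rw [hz]
    ring
  | T.h a b, T.h a' b', x => by
    rw [fmG_hh]
    show evT k (fmG f z a a') (fun i => x (i + 1)) + x 0 * evT k (fmG f z b b') x
      = (evT k a' (fun i => x (i + 1)) + x 0 * evT k b' x)
        + κ * (evZ a (fun i => x (i + 1)) + x 0 * evZ b x)
    rw [fmG_ev h hz a, fmG_ev h hz b]
    ring

theorem chC_nrm {α : Type} {nm : α → ℕ} {g : α → α} {δ : ℕ} (h : ∀ m, nm (g m) ≤ nm m + δ) :
    ∀ (acc : T α) (R : ℕ → ℕ), nrm nm (chC g acc) R ≤ nrm nm acc R + δ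
  | T.c m, R => h m
  | T.h a b, R => by
    show nrm nm (chC g a) (fun i => R (i + 1)) + R 0 * nrm nm b R
      ≤ nrm nm a (fun i => R (i + 1)) + R 0 * nrm nm b R + δ
    have := chC_nrm h a (fun i => R (i + 1))
    omega

theorem fmG_nrm {α : Type} {nm : α → ℕ} {f : ℤ → α → α} {z : α} {c : ℕ}
    (h : ∀ (n : ℤ) m, nm (f n m) ≤ nm m + c * n.natAbs) (hz : nm z = 0) :
    ∀ (C : T ℤ) (acc : T α) (R : ℕ → ℕ),
    nrm nm (fmG f z C acc) R ≤ nrm nm acc R + c * nrm Int.natAbs C R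
  | T.c n, acc, R => by
    rw [fmG_c]
    cases hn : zI n
    · exact chC_nrm (h n) acc R
    · exact Nat.le_add_right _ _
  | T.h a b, T.c m, R => by
    rw [fmG_hc]
    have h1 := fmG_nrm h hz a (T.c m) (fun i => R (i + 1))
    have h2 := Nat.mul_le_mul_left (R 0) (fmG_nrm h hz b (T.c z) R)
    show nrm nm (fmG f z a (T.c m)) (fun i => R (i + 1)) + R 0 * nrm nm (fmG f z b (T.c z)) R
      ≤ nm m + c * (nrm Int.natAbs a (fun i => R (i + 1)) + R 0 * nrm Int.natAbs b R)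
    have e1 : nrm nm (T.c m) (fun i => R (i + 1)) = nm m := rfl
    have e2 : nrm nm (T.c z) R = 0 := hz
    rw [e1] at h1
    rw [e2, Nat.zero_add] at h2
    have e3 : R 0 * (c * nrm Int.natAbs b R) = c * (R 0 * nrm Int.natAbs b R) := by ring
    rw [e3] at h2
    rw [Nat.mul_add]
    omega
  | T.h a b, T.h a' b', R => by
    rw [fmG_hh]
    have h1 := fmG_nrm h hz a a' (fun i => R (i + 1))
    have h2 := Nat.mul_le_mul_left (R 0) (fmG_nrm h hz b b' R)
    show nrm nm (fmG f z a a') (fun i => R (i + 1)) + R 0 * nrm nm (fmG f z b b') R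
      ≤ (nrm nm a' (fun i => R (i + 1)) + R 0 * nrm nm b' R)
        + c * (nrm Int.natAbs a (fun i => R (i + 1)) + R 0 * nrm Int.natAbs b R)
    have e3 : R 0 * (nrm nm b' R + c * nrm Int.natAbs b R)
      = R 0 * nrm nm b' R + c * (R 0 * nrm Int.natAbs b R) := by ring
    rw [e3] at h2
    rw [Nat.mul_add]
    omega

/-- leaf: `m + n z` modulo `M`, `zc = M - z` -/
noncomputable def fLN (M z zc : ℕ) (n : ℤ) (m : ℕ) : ℕ :=
  Int.rec (motive := fun _ => ℕ) (fun k => Nat.mod (Nat.add m (Nat.mul k z)) M)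
    (fun k => Nat.mod (Nat.add m (Nat.mul (Nat.succ k) zc)) M) n

theorem fLN_eq {X m M : ℕ} (hM : 0 < M) (v0 v : ℕ → ℤ) (n : ℤ) :
    gN X m M (adv v (smv n v0)) = fLN M (gN X m M v0) (M - gN X m M v0) n (gN X m M v) := by
  rw [gN_adv hM, gN_smv hM]
  cases n with
  | ofNat k =>
    show (gN X m M v + (k * gN X m M v0) % M) % M = (gN X m M v + k * gN X m M v0) % M
    rw [Nat.add_mod_mod]
  | negSucc k =>
    show (gN X m M v + (Nat.succ k * (M - gN X m M v0)) % M) % M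
      = (gN X m M v + Nat.succ k * (M - gN X m M v0)) % M
    rw [Nat.add_mod_mod]

/-- the tree of the dot product -/
noncomputable def dotT (M : ℕ) (N : List E3) : List (T ℤ) → T ℕ :=
  List.rec (motive := fun _ => List (T ℤ) → T ℕ) (fun _ => T.c 0)
    (fun n _ ih L => List.rec (motive := fun _ => T ℕ) (T.c 0)
      (fun C L _ => E3.rec (motive := fun _ => T ℕ)
        (fun z _ _ => fmG (fLN M z (Nat.sub M z)) 0 C (ih L)) n) L) N

/-- its error -/
noncomputable def sumE (N : List E3) : List ℕ → ℕ :=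
  List.rec (motive := fun _ => List ℕ → ℕ) (fun _ => 0)
    (fun n _ ih L => List.rec (motive := fun _ => ℕ) 0
      (fun a L _ => E3.rec (motive := fun _ => ℕ) (fun _ e _ => Nat.add (Nat.mul e a) (ih L)) n) L) N

/-- its norm -/
noncomputable def sumB (N : List E3) : List ℕ → ℕ :=
  List.rec (motive := fun _ => List ℕ → ℕ) (fun _ => 0)
    (fun n _ ih L => List.rec (motive := fun _ => ℕ) 0
      (fun a L _ => E3.rec (motive := fun _ => ℕ) (fun _ _ b => Nat.add (Nat.mul b a) (ih L)) n) L) N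

/-- the numbers are the norms of the polynomials -/
noncomputable def nlOK (R : ℕ) (CL : List (T ℤ)) : List ℕ → Bool :=
  List.rec (motive := fun _ => List ℕ → Bool) (fun _ => true)
    (fun C _ ih L => List.rec (motive := fun _ => Bool) false
      (fun a L _ => cond (Nat.ble (nrF R C) a) (ih L) false) L) CL

noncomputable def dotQ (M : ℕ) (N : List E3) (L : List (T ℤ)) (NL : List ℕ) : PN :=
  ⟨dotT M N L, sumE N NL, sumB N NL⟩

theorem dotQ_rep {X m M : ℕ} (hM : 0 < M) {e : ℕ → ℝ} {R : ℕ} :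
    ∀ (us : List ℝ) (N : List E3) (L : List (T ℤ)) (NL : List ℕ), ApE X m M e us N →
    nlOK R L NL = true → RepM X m M e R (dotQ M N L NL) (fun p => valL us L p)
  | [], [], L, NL, _, _ => RepM.congr (rep_zeroM hM e R) (fun p _ => by simp [valL])
  | [], _ :: _, L, NL, h, _ => h.elim
  | _ :: _, [], L, NL, h, _ => h.elim
  | u :: us, n :: N, [], NL, _, _ => by
    obtain ⟨S, h1, h2, h3⟩ := rep_zeroM (X := X) (m := m) hM e R
    refine ⟨S, h1, h2.trans (Nat.zero_le _), fun p hp => ?_⟩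
    have h4 := h3 p hp
    have h5 : ((zeroM.e : ℕ) : ℝ) = 0 := by simp [zeroM]
    rw [h5] at h4
    have h6 : valL (u :: us) [] p = 0 := by simp [valL]
    show |valL (u :: us) [] p - _| ≤ _
    rw [h6]
    exact h4.trans (Nat.cast_nonneg _)
  | u :: us, n :: N, C :: L, [], _, hN => absurd (show false = true from hN) Bool.false_ne_true
  | u :: us, n :: N, C :: L, a :: NL, h, hN => by
    have hN1 := cond_ff hN
    have hC : nrF R C ≤ a := Nat.le_of_ble_eq_true hN1.1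
    obtain ⟨S, m1, m2, m3⟩ := dotQ_rep hM (R := R) us N L NL h.2 hN1.2
    obtain ⟨v0, k1, k2, k3⟩ := h.1
    obtain ⟨z, ez, bz⟩ := n
    simp only at k1 k2 k3
    have p0 : ph m e (fun _ => 0) = 0 := by rw [ph_sum]; simp
    have n0 : nmv m (fun _ => 0) = 0 := by rw [nmv_sum]; simp
    have g0 : gN X m M (fun _ => 0) = 0 := by
      unfold gN
      have : Lp X m (fun _ => 0) = 0 := by rw [Lp_sum]; simp
      rw [this]
      simp
    have hph : ∀ (n : ℤ) (w : ℕ → ℤ), ph m e (adv w (smv n v0)) = ph m e w + ph m e v0 * n :=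
      fun n w => by
        rw [ph_adv, ph_smv]
        ring
    have hnm : ∀ (n : ℤ) (w : ℕ → ℤ), nmv m (adv w (smv n v0)) ≤ nmv m w + nmv m v0 * n.natAbs :=
      fun n w => by
        refine (nmv_adv m _ _).trans ?_
        rw [nmv_smv, Nat.mul_comm]
    refine ⟨fmG (fun n w => adv w (smv n v0)) (fun _ => 0) C S, ?_, ?_, fun p hp => ?_⟩
    · show _ = fmG (fLN M z (Nat.sub M z)) 0 C (dotT M N L)
      rw [fmG_map (gN X m M) (f' := fLN M z (Nat.sub M z)) (z' := 0)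
        (fun n w => by rw [fLN_eq hM, k1]; rfl) g0 C S, m1]
      rfl
    · show _ ≤ bz * a + sumB N NL
      refine (fmG_nrm hnm n0 C S _).trans ?_
      have c1 : nrm (nmv m) S (fun _ => R) ≤ sumB N NL := m2
      have c2 : nmv m v0 * nrm Int.natAbs C (fun _ => R) ≤ bz * a := by
        rw [nrF_eq]
        exact Nat.mul_le_mul k3 hC
      omega
    · show |u * evZ C p + valL us L p - _| ≤ ((ez * a + sumE N NL : ℕ) : ℝ)
      rw [fmG_ev hph p0 C S p]
      have c1 : |valL us L p - evT (ph m e) S p| ≤ (sumE N NL : ℝ) := m3 p hp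
      have h4 : |evZ C p| ≤ a := by
        have h5 : |evZ C p| ≤ nrF R C := by
          rw [← nrF_eq]
          exact ev_le_nrm (nm := Int.natAbs) (fun a => le_of_eq (nabs a).symm) C _ p hp
        exact h5.trans (by exact_mod_cast hC)
      have c2 : |(u - ph m e v0) * evZ C p| ≤ (ez : ℝ) * a := by
        rw [abs_mul]
        exact mul_le_mul k2 h4 (abs_nonneg _) (Nat.cast_nonneg _)
      push_cast
      calc _ = |(u - ph m e v0) * evZ C p + (valL us L p - evT (ph m e) S p)| := by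
            congr 1
            ring
        _ ≤ _ := (abs_add_le _ _).trans (add_le_add c2 c1)

/-! ### the final cut, exact norms -/

noncomputable def finQ (r : Rn) (k : Mk) (R : ℕ) (P : PN) : PZ :=
  PN.rec (motive := fun _ => PZ) (fun p e _ =>
    ⟨mapF (rnZ r) p, Nat.add (Nat.succ (Nat.div e r.Q)) (errF (rnE r) R p),
      errF (fun z => dmask k false (rnA r z)) R p⟩) P

theorem finQ_rep {H q h g1 g2 : ℕ} {r : Rn} (hr : r = mkRn H q h g1 g2) {k : Mk}
    (hk : k = mkH h (List.replicate (g2 * g2) false)) (hq : q ≤ H)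
    (hh : H = h + q) (h2 : 0 < g2) (hg : g2 ≤ g1) {s t : ℝ} (hs : |s| ≤ 1)
    (ht : |t| ≤ 1) {R : ℕ} (hR : 1 ≤ R) {P : PN} {F : (ℕ → ℝ) → ℝ}
    (hb : P.b + g2 * g2 * 2 ^ q < 2 ^ H)
    (hP : RepM (2 ^ (H + 1)) (g1 * g1) ((2 ^ (H + 1)) ^ (g1 * g1)) (mo2 g1 s t) R P F) :
    RepZ (h + 1) g2 s t R (finQ r k R P) (fun p => F p / 2 ^ q) := by
  subst hr
  subst hk
  obtain ⟨S, h1, h3, h4⟩ := hP
  obtain ⟨p, e, b⟩ := P
  simp only at h1 h3 h4 hb
  have hQp : 0 < 2 ^ q := Nat.two_pow_pos _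
  have hQr : (0 : ℝ) < 2 ^ q := by positivity
  have hHq : H - q = h := by omega
  have hXp : 0 < 2 ^ (H + 1) := Nat.two_pow_pos _
  have hSb : nrm (nmv (g1 * g1)) S (fun _ => R) + g2 * g2 * 2 ^ q < 2 ^ H := by omega
  set es := List.replicate (g2 * g2) false with hes
  have hlen : es.length = g2 * g2 := by simp [hes]
  set f : ℕ → ℕ := fun y => asmR (2 ^ (H + 1)) (2 ^ (h + 1)) (2 ^ q) g2 ((2 ^ (H + 1)) ^ g1)
    ((2 ^ (H + 1)) ^ g2) ((2 ^ (h + 1)) ^ g2) g2 y with hf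
  have hfv : ∀ d : ℕ → ℕ, (∀ i, d i < 2 ^ (H + 1)) → f (vd (2 ^ (H + 1)) (g1 * g1) d)
      = vd (2 ^ (h + 1)) (g2 * g2) (fun i => d (ix g1 g2 i) / 2 ^ q) := fun d hd =>
    asmR_vd hXp h2 hg g2 g1 d hg hd
  have hsplit : 2 ^ H = 2 ^ h * 2 ^ q := by rw [← pow_add, hh]
  have main : ∀ S : T (ℕ → ℤ), nrm (nmv (g1 * g1)) S (fun _ => R) + g2 * g2 * 2 ^ q < 2 ^ H →
      ∃ S' : T (ℕ → ℤ), mapT (Lp ((2 : ℤ) ^ (h + 1)) (g2 * g2)) S'
        = mapF (rnZ (mkRn H q h g1 g2)) (mapT (gN (2 ^ (H + 1)) (g1 * g1)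
          ((2 ^ (H + 1)) ^ (g1 * g1))) S) ∧
      nrm (nmv (g2 * g2)) S' (fun _ => R)
        ≤ errF (fun z => dmask (mkH h es) false (rnA (mkRn H q h g1 g2) z)) R
          (mapT (gN (2 ^ (H + 1)) (g1 * g1) ((2 ^ (H + 1)) ^ (g1 * g1))) S) ∧
      ∀ x : ℕ → ℝ, (∀ i, |x i| ≤ (R : ℝ)) →
        |evT (ph (g1 * g1) (mo2 g1 s t)) S x / 2 ^ q
          - evT (ph (g2 * g2) (mo2 g2 s t)) S' x|
        ≤ (errF (rnE (mkRn H q h g1 g2)) R (mapT (gN (2 ^ (H + 1)) (g1 * g1)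
          ((2 ^ (H + 1)) ^ (g1 * g1))) S) : ℝ) := by
    intro S
    induction S with
    | c v =>
      intro hn
      have hn0 : nmv (g1 * g1) v + g2 * g2 * 2 ^ q < 2 ^ H := hn
      have hn1 : nmv (g1 * g1) v < 2 ^ H := by omega
      obtain ⟨v', d', k1, k4, k5, k2, k3⟩ := rcoreF hq (by omega) h2 hg hs ht v hn1 hfv
      rw [hHq] at k5
      have hA : rnA (mkRn H q h g1 g2) (gN (2 ^ (H + 1)) (g1 * g1)
        ((2 ^ (H + 1)) ^ (g1 * g1)) v) = vd (2 ^ (h + 1)) (g2 * g2) d' := k1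
      have hnew := Lp_vd (X := 2 ^ (h + 1)) (B := 2 ^ h) (g2 * g2) v' d' (fun i _ => k5 i)
      have hnv' : nmv (g2 * g2) v' < 2 ^ h := by
        have c1 : nmv (g2 * g2) v' * 2 ^ q < 2 ^ h * 2 ^ q := by
          rw [← hsplit]
          omega
        exact lt_of_mul_lt_mul_right c1 (Nat.zero_le _)
      refine ⟨T.c v', ?_, ?_, fun x _ => k2⟩
      · show T.c _ = T.c _
        congr 1
        show _ = ((rnA (mkRn H q h g1 g2) (gN (2 ^ (H + 1)) (g1 * g1)
          ((2 ^ (H + 1)) ^ (g1 * g1)) v) : ℕ) : ℤ)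
          - ((biasN (2 ^ (h + 1)) (2 ^ (H - q)) (g2 * g2) : ℕ) : ℤ)
        rw [hA, hHq, hnew]
        push_cast
        ring
      · show nmv (g2 * g2) v' ≤ dmask (mkH h es) false (rnA (mkRn H q h g1 g2)
          (gN (2 ^ (H + 1)) (g1 * g1) ((2 ^ (H + 1)) ^ (g1 * g1)) v))
        rw [hA]
        have c2 : sd (g2 * g2) (fun i => (d' i - 2 ^ h) + (2 ^ h - d' i))
            ≤ nmv (g2 * g2) v' := by
          rw [nmv_sd]
          refine sd_le _ _ _ (fun i _ => ?_)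
          have := k5 i
          omega
        have key := dsum_le_dmask (h := h) (f := false) es d' k4 (by
          rw [hlen]
          omega)
        rw [dsum_vd es d' k4, hlen] at key
        refine le_trans ?_ key
        rw [nmv_sd]
        refine sd_le _ _ _ (fun i _ => ?_)
        have h5 := k5 i
        show (v' i).natAbs ≤ (d' i - 2 ^ h) + (2 ^ h - d' i)
        omega
    | h a b iha ihb =>
      intro hn
      have hn' : nrm (nmv (g1 * g1)) a (fun _ => R) + R * nrm (nmv (g1 * g1)) b (fun _ => R)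
        + g2 * g2 * 2 ^ q < 2 ^ H := hn
      have hbb : nrm (nmv (g1 * g1)) b (fun _ => R) ≤ R * nrm (nmv (g1 * g1)) b (fun _ => R) :=
        Nat.le_mul_of_pos_left _ hR
      obtain ⟨Sa, a1, a2, a3⟩ := iha (by omega)
      obtain ⟨Sb, b1, b2, b3⟩ := ihb (by omega)
      refine ⟨T.h Sa Sb, ?_, ?_, fun x hx => ?_⟩
      · show T.h _ _ = T.h _ _
        rw [a1, b1]
        rfl
      · exact Nat.add_le_add a2 (Nat.mul_le_mul_left _ b2)
      · have c1 := a3 (fun i => x (i + 1)) (fun i => hx _)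
        have c2 := b3 x hx
        show |(evT _ a (fun i => x (i + 1)) + x 0 * evT _ b x) / 2 ^ q
          - (evT _ Sa (fun i => x (i + 1)) + x 0 * evT _ Sb x)| ≤ ((_ + R * _ : ℕ) : ℝ)
        push_cast
        have c3 : |x 0 * (evT (ph (g1 * g1) (mo2 g1 s t)) b x / 2 ^ q
            - evT (ph (g2 * g2) (mo2 g2 s t)) Sb x)|
            ≤ (R : ℝ) * (errF (rnE (mkRn H q h g1 g2)) R (mapT (gN (2 ^ (H + 1)) (g1 * g1)
          ((2 ^ (H + 1)) ^ (g1 * g1))) b) : ℝ) := by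
          rw [abs_mul]
          exact mul_le_mul (hx 0) c2 (abs_nonneg _) (Nat.cast_nonneg _)
        have c4 := (abs_add_le _ _).trans (add_le_add c1 c3)
        refine le_trans (le_of_eq ?_) c4
        congr 1
        ring
  obtain ⟨S', m1, m2, m3⟩ := main S hSb
  refine ⟨S', ?_, ?_, fun x hx => ?_⟩
  · show _ = mapF (rnZ (mkRn H q h g1 g2)) p
    rw [m1, h1]
  · show _ ≤ errF (fun z => dmask (mkH h es) false (rnA (mkRn H q h g1 g2) z)) R p
    rw [← h1]
    exact m2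
  · show |F x / 2 ^ q - _| ≤ (((e / 2 ^ q).succ + errF (rnE (mkRn H q h g1 g2)) R p : ℕ) : ℝ)
    rw [← h1]
    push_cast
    have c1 := h4 x hx
    have c2 := m3 x hx
    have c3 : (e : ℝ) / 2 ^ q ≤ ((e / 2 ^ q : ℕ) : ℝ) + 1 := by
      rw [div_le_iff₀ hQr]
      have := Nat.lt_mul_div_succ e hQp
      have h5 : e ≤ (e / 2 ^ q + 1) * 2 ^ q := by
        rw [Nat.mul_comm]
        exact this.le
      exact_mod_cast h5
    have c4 : |F x / 2 ^ q - evT (ph (g1 * g1) (mo2 g1 s t)) S x / 2 ^ q|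
        ≤ ((e / 2 ^ q : ℕ) : ℝ) + 1 := by
      rw [← sub_div, abs_div, abs_of_pos hQr]
      exact (div_le_div_of_nonneg_right c1 hQr.le).trans c3
    calc _ = |(F x / 2 ^ q - evT (ph (g1 * g1) (mo2 g1 s t)) S x / 2 ^ q)
          + (evT (ph (g1 * g1) (mo2 g1 s t)) S x / 2 ^ q
            - evT (ph (g2 * g2) (mo2 g2 s t)) S' x)| := by
          congr 1
          ring
      _ ≤ _ := (abs_add_le _ _).trans (add_le_add c4 c2)

/-! ### the cell -/

/-- parameters: exact table half exponent `H0`, `g0 × g0` slots, divided by `2 ^ q` and cut to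
`g1 × g1` slots, result divided by `2 ^ sh`, half exponent `hf`, `g2 × g2` slots -/
structure UQ where
  H0 : ℕ
  q : ℕ
  sh : ℕ
  hf : ℕ
  g0 : ℕ
  g1 : ℕ
  g2 : ℕ
  K : ℕ
  R : ℕ
  r : Rf
  f : Rn
  k : Mk

structure UQ.Good (P : UQ) : Prop where
  r : P.r = mkRf P.H0 P.q P.g0 P.g1
  f : P.f = mkRn P.H0 P.sh P.hf P.g1 P.g2
  k : P.k = mkH P.hf (List.replicate (P.g2 * P.g2) false)
  q0 : P.q ≤ P.H0
  s0 : P.H0 = P.hf + P.sh
  g2 : 0 < P.g2
  g21 : P.g2 ≤ P.g1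
  g10 : P.g1 ≤ P.g0
  K : 2 * P.K < P.g0
  R : 1 ≤ P.R

deriving instance DecidableEq for Mk

/-- all premises as one kernel check -/
def UQ.ok (P : UQ) : Bool :=
  decide (P.r = mkRf P.H0 P.q P.g0 P.g1) && decide (P.f = mkRn P.H0 P.sh P.hf P.g1 P.g2) &&
    decide (P.k = mkH P.hf (List.replicate (P.g2 * P.g2) false)) &&
    decide (P.q ≤ P.H0 ∧ P.H0 = P.hf + P.sh ∧ 0 < P.g2 ∧ P.g2 ≤ P.g1 ∧ P.g1 ≤ P.g0 ∧
      2 * P.K < P.g0 ∧ 1 ≤ P.R)

theorem UQ.good {P : UQ} (h : P.ok = true) : P.Good := by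
  simp only [UQ.ok, Bool.and_eq_true, decide_eq_true_eq] at h
  obtain ⟨⟨⟨h1, h2⟩, h3⟩, h4, h5, h6, h7, h8, h9, h10⟩ := h
  exact ⟨h1, h2, h3, h4, h5, h6, h7, h8, h9, h10⟩

/-- exact table -/
def qEx (P : UQ) (c : UC) (AL : List Al) : List (ℤ × ℕ) := uTab (Nat.succ P.H0) P.g0 P.K c AL

/-- rounded table -/
noncomputable def qRn (P : UQ) (N : List (ℤ × ℕ)) : List E3 := rndFL P.r N

/-- dot product -/
noncomputable def qDot (P : UQ) (tab : List E3) (CL : List (T ℤ)) (NL : List ℕ) : PN :=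
  dotQ P.r.M' tab CL NL

/-- result -/
noncomputable def qFin (P : UQ) (D : PN) : PZ := finQ P.f P.k P.R D

/-- bound of the dot product -/
noncomputable def qBd (P : UQ) (D : PN) : Bool :=
  Nat.ble (Nat.succ (Nat.add D.b (Nat.mul (Nat.mul P.g2 P.g2) P.f.Q))) P.f.c.B

/-- **the polynomial of the cell represents `(4 ^ ν D) ^ K Q / 2 ^ q / 2 ^ sh`** -/
theorem qFin_rep {P : UQ} (hP : P.Good) {c : UC} {AL : List Al} (hA : degOK P.K AL = true)
    (hB : ltAll P.r.c.B (qEx P c AL) = true) {CL : List (T ℤ)} {NL : List ℕ}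
    (hN : nlOK P.R CL NL = true)
    (hb : qBd P (qDot P (qRn P (qEx P c AL)) CL NL) = true)
    {a b s t : ℝ} (ha : a * 2 ^ (c.qa + 1) = 2 * c.i + 1 + s)
    (hb' : b * 2 ^ (c.qb + 1) = 2 * c.j + 1 + t) (hs : |s| ≤ 1) (ht : |t| ≤ 1) :
    RepZ (P.hf + 1) P.g2 s t P.R (qFin P (qDot P (qRn P (qEx P c AL)) CL NL))
      (fun p => (4 ^ nuC c * Pool.Agent.Helper6.TOP.chD a b) ^ P.K
        * valZ AL CL (ch0 a b) (ch1 a b) (ch2 a b) p / 2 ^ P.q / 2 ^ P.sh) := by
  obtain ⟨H0, q, sh, hf, g0, g1, g2, K, R, r, f, k⟩ := P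
  obtain ⟨hr, hf', hk, q0, s0, hg2, g21, g10, hK, hR⟩ := hP
  simp only at hr hf' hk q0 s0 hg2 g21 g10 hK hR hA hB hN hb ⊢
  have hB' : ltAll (2 ^ H0) (uTab (H0 + 1) g0 K c AL) = true := by
    have : r.c.B = 2 ^ H0 := by rw [hr]; rfl
    rw [← this]
    exact hB
  have hM1 : r.M' = (2 ^ (H0 + 1)) ^ (g1 * g1) := by rw [hr]; rfl
  have hBf : f.c.B = 2 ^ H0 := by rw [hf']; rfl
  have hQf : f.Q = 2 ^ sh := by rw [hf']; rfl
  have hb1 : (dotQ ((2 ^ (H0 + 1)) ^ (g1 * g1)) (rndFL r (uTab (H0 + 1) g0 K c AL)) CL NL).b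
      + g2 * g2 * 2 ^ sh < 2 ^ H0 := by
    have := Nat.le_of_ble_eq_true hb
    rw [← hM1, ← hBf, ← hQf]
    exact this
  have hMp : 0 < (2 ^ (H0 + 1)) ^ (g1 * g1) := Nat.pow_pos (Nat.two_pow_pos _)
  have hg1 : 0 < g1 := lt_of_lt_of_le hg2 g21
  have hqa : c.qa + 1 ≤ nuC c := by
    unfold nuC
    cases hh : Nat.ble c.qa c.qb
    · exact Nat.succ_le_succ le_rfl
    · exact Nat.succ_le_succ (Nat.le_of_ble_eq_true hh)
  have hqb : c.qb + 1 ≤ nuC c := by
    unfold nuC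
    cases hh : Nat.ble c.qa c.qb
    · have : ¬ c.qa ≤ c.qb := fun h => by
        have := Nat.ble_eq_true_of_le h
        rw [hh] at this
        exact Bool.false_ne_true this
      show c.qb + 1 ≤ c.qa + 1
      omega
    · exact Nat.succ_le_succ le_rfl
  set y : Fin 5 → ℝ := ![s, t, 0, 0, 0] with hy
  have hT : (((Int.ofNat (Nat.pow 2 (nuC c))) : ℤ) : ℝ) = (2 : ℝ) ^ nuC c := by
    show (((2 ^ nuC c : ℕ) : ℤ) : ℝ) = _
    push_cast
    ring
  have hRPN := tabE_sound (w := H0 + 1) (g := g0) (y := y) (K := K)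
    (T := Int.ofNat (Nat.pow 2 (nuC c))) (A := ctr (nuC c) c.qa c.i) (B := hw (nuC c) c.qa)
    (A' := ctr (nuC c) c.qb c.j) (B' := hw (nuC c) c.qb) hA
  have hy0 : y 0 = s := rfl
  have hy1 : y 1 = t := rfl
  rw [hy0, hy1, ctr_hw hqa ha, ctr_hw hqb hb', hT] at hRPN
  have hEx := exL_of hK AL _ hRPN
  rw [hy0, hy1] at hEx
  have hAp := rndFL_sound hr q0 hg1 g10 hs ht _ _ hB' hEx
  have hdot := dotQ_rep (R := R) hMp _ _ CL NL hAp hN
  have hfin := finQ_rep hf' hk (by omega) s0 hg2 g21 hs ht hR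
    (P := dotQ ((2 ^ (H0 + 1)) ^ (g1 * g1)) (rndFL r (uTab (H0 + 1) g0 K c AL)) CL NL) hb1 hdot
  have key : ∀ p : ℕ → ℝ, valL (List.map (fun u => u / 2 ^ q)
      (usOf K (((2 : ℝ) ^ nuC c) ^ 2 - ((2 : ℝ) ^ nuC c * a) ^ 2 - ((2 : ℝ) ^ nuC c * b) ^ 2)
        (2 * (2 : ℝ) ^ nuC c * ((2 : ℝ) ^ nuC c * a)) (2 * (2 : ℝ) ^ nuC c * ((2 : ℝ) ^ nuC c * b))
        (((2 : ℝ) ^ nuC c) ^ 2 + ((2 : ℝ) ^ nuC c * a) ^ 2
        + ((2 : ℝ) ^ nuC c * b) ^ 2) AL)) CL p
      = (4 ^ nuC c * Pool.Agent.Helper6.TOP.chD a b) ^ K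
        * valZ AL CL (ch0 a b) (ch1 a b) (ch2 a b) p / 2 ^ q := by
    intro p
    rw [valL_div, valL_us]
    have hD : (0 : ℝ) < Pool.Agent.Helper6.TOP.chD a b := Pool.Agent.Helper6.TOP.chD_pos a b
    have hD' : Pool.Agent.Helper6.TOP.chD a b ≠ 0 := hD.ne'
    have e4 : ((2 : ℝ) ^ nuC c) ^ 2 = 4 ^ nuC c := by
      rw [← pow_mul, Nat.mul_comm, pow_mul]
      norm_num
    have eD : ((2 : ℝ) ^ nuC c) ^ 2 + ((2 : ℝ) ^ nuC c * a) ^ 2 + ((2 : ℝ) ^ nuC c * b) ^ 2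
        = 4 ^ nuC c * Pool.Agent.Helper6.TOP.chD a b := by
      rw [← e4]
      unfold Pool.Agent.Helper6.TOP.chD
      ring
    rw [eD]
    congr 1
    refine valD_eq ?_ ?_ ?_ AL CL p hA
    · rw [← e4]
      unfold ch0
      field_simp
    · rw [← e4]
      unfold ch1
      field_simp
    · rw [← e4]
      unfold ch2
      field_simp
  obtain ⟨S, m1, m2, m3⟩ := hfin
  refine ⟨S, ?_, ?_, fun p hp => ?_⟩
  · show _ = (finQ f k R (dotQ r.M' (rndFL r (uTab (H0 + 1) g0 K c AL)) CL NL)).t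
    rw [hM1]
    exact m1
  · show _ ≤ (finQ f k R (dotQ r.M' (rndFL r (uTab (H0 + 1) g0 K c AL)) CL NL)).b
    rw [hM1]
    exact m2
  · have h5 := m3 p hp
    beta_reduce at h5
    rw [key p] at h5
    show _ ≤ (((finQ f k R (dotQ r.M' (rndFL r (uTab (H0 + 1) g0 K c AL)) CL NL)).e : ℕ) : ℝ)
    rw [hM1]
    exact h5

end Helper10.PC
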